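import Pool.Agent.Helper46.RM.Lev4

/-!
# Block RM-E4: the states of two routes along a common piece.

`same_dir`: if `stC x (o+i) = stC x' (o'+i)` for some `i < l`, then by `st_merge` (`t = l - i`) `rt x (o+l) = rt x' (o'+l)`, contradiction. Both sets have
`lev` of the common point as cardinality (`st_inv`); as they are different, the level is not `0`. The level does not change from `i` to `i + 1 < l`: it does
not increase (`lev_anti`), and if it decreases both sets become `cmin` of the common point number `i + 1` (`stC_succ_lt`), contradiction.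
`opp_dir`: suppose `stC x (o+i) = stC x' (o'+(l-1-i))` for some `i < l`. By `st_merge` (`t = 1`) `rt x (o+i+1) = rt x' (o'+(l-1-i)+1)`. If `l = 1` this is
excluded by `hw`. If `l ≥ 2` and `i + 1 < l`: `rt x (o+i+1) = rt x' (o'+(l-1-(i+1)))`, so `rt x'` takes the same value at `o'+(l-2-i)` and `o'+(l-i)`,
both `≤ rlen x'`: contradiction (`rt_inj`). If `i = l - 1 ≥ 1`: `rt x (o+l) = rt x' (o'+1) = rt x (o+l-2)`, contradiction (`rt_inj`).
The level: it does not increase along `x` and along `x'`, which run in opposite directions, so it is constant.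
-/

namespace Pool.Agent.Helper46.RM

open scoped Classical

variable {ι : Type*} {L : LSys ι}

private theorem lev_pos88 (h : L.OK) {x x' : P2} (hx : ∃ C, L.InV C x) (hx' : ∃ C, L.InV C x') {j k : ℕ}
    (he : L.rt x j = L.rt x' k) (hne : L.stC x j ≠ L.stC x' k) : 1 ≤ L.lev (L.rt x j) := by
  by_contra hcon
  have h1 := (h.st_inv hx j).2
  have h2 := (h.st_inv hx' k).2
  rw [← he] at h2
  apply hne
  rw [Finset.card_eq_zero.1 (show (L.stC x j).card = 0 by omega),
    Finset.card_eq_zero.1 (show (L.stC x' k).card = 0 by omega)]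

theorem LSys.OK.same_dir (h : L.OK) {x x' : P2} (hx : ∃ C, L.InV C x) (hx' : ∃ C, L.InV C x') {o o' l : ℕ}
    (hl : 0 < l) (ho : o + l ≤ L.rlen x) (ho' : o' + l ≤ L.rlen x')
    (he : ∀ i, i < l → L.rt x (o + i) = L.rt x' (o' + i)) (hw : L.rt x (o + l) ≠ L.rt x' (o' + l)) :
    ∃ t, 1 ≤ t ∧ (∀ i, i < l → L.lev (L.rt x (o + i)) = t) ∧ ∀ i, i < l → L.stC x (o + i) ≠ L.stC x' (o' + i) := by
  have hne : ∀ i, i < l → L.stC x (o + i) ≠ L.stC x' (o' + i) := by
    intro i hi hC
    have h1 := (LSys.st_merge (he i hi) hC (l - i)).1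
    have e1 : o + i + (l - i) = o + l := by omega
    have e2 : o' + i + (l - i) = o' + l := by omega
    rw [e1, e2] at h1
    exact hw h1
  refine ⟨L.lev (L.rt x (o + 0)), ?_, ?_, hne⟩
  · exact lev_pos88 h hx hx' (he 0 hl) (hne 0 hl)
  · intro i
    induction i with
    | zero => exact fun _ => rfl
    | succ i ih =>
      intro hi
      have h1 := ih (by omega)
      have h2 := h.lev_anti hx (show o + i ≤ o + (i + 1) by omega)
      by_contra hcon
      have h3 : L.lev (L.rt x (o + i + 1)) < L.lev (L.rt x (o + i)) := by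
        have e1 : o + i + 1 = o + (i + 1) := by omega
        rw [e1]
        omega
      have h4 : L.lev (L.rt x' (o' + i + 1)) < L.lev (L.rt x' (o' + i)) := by
        have e1 : o' + i + 1 = o' + (i + 1) := by omega
        rw [e1, ← he i (by omega), ← he (i + 1) hi]
        exact h3
      have h5 := h.stC_succ_lt hx h3
      have h6 := h.stC_succ_lt hx' h4
      apply hne (i + 1) hi
      have h7 : L.rt x (o + i + 1) = L.rt x' (o' + i + 1) := he (i + 1) hi
      rw [h7] at h5
      exact h5.trans h6.symm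

theorem LSys.OK.opp_dir (h : L.OK) {x x' : P2} (hx : ∃ C, L.InV C x) (hx' : ∃ C, L.InV C x') {o o' l : ℕ}
    (hl : 0 < l) (ho : o + l ≤ L.rlen x) (ho' : o' + l ≤ L.rlen x')
    (he : ∀ i, i < l → L.rt x (o + i) = L.rt x' (o' + (l - 1 - i)))
    (hw : l = 1 → L.rt x (o + 1) ≠ L.rt x' (o' + 1)) :
    ∃ t, 1 ≤ t ∧ (∀ i, i < l → L.lev (L.rt x (o + i)) = t) ∧
      ∀ i, i < l → L.stC x (o + i) ≠ L.stC x' (o' + (l - 1 - i)) := by
  have hne : ∀ i, i < l → L.stC x (o + i) ≠ L.stC x' (o' + (l - 1 - i)) := by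
    intro i hi hC
    have h1 := (LSys.st_merge (he i hi) hC 1).1
    rcases Nat.lt_or_ge 1 l with hl1 | hl1
    · rcases Nat.lt_or_ge (i + 1) l with hi1 | hi1
      · have h2 := he (i + 1) hi1
        have h3 : L.rt x (o + i + 1) = L.rt x (o + (i + 1)) := rfl
        rw [← h3, h1] at h2
        have h4 := h.rt_inj hx' (j := o' + (l - 1 - i) + 1) (k := o' + (l - 1 - (i + 1)))
          (by omega) (by omega) h2
        omega
      · have h2 := he (l - 2) (by omega)
        have e1 : l - 1 - i + 1 = l - 1 - (l - 2) := by omega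
        have h3 : L.rt x (o + i + 1) = L.rt x (o + (l - 2)) := by
          rw [h1, h2, Nat.add_assoc, e1]
        have h4 := h.rt_inj hx (j := o + i + 1) (k := o + (l - 2)) (by omega) (by omega) h3
        omega
    · have hl2 : l = 1 := by omega
      subst hl2
      have hi0 : i = 0 := by omega
      subst hi0
      exact hw rfl h1
  refine ⟨L.lev (L.rt x (o + 0)), ?_, ?_, hne⟩
  · exact lev_pos88 h hx hx' (he 0 hl) (hne 0 hl)
  · intro i hi
    have h1 := h.lev_anti hx (show o + 0 ≤ o + i by omega)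
    have h2 := h.lev_anti hx' (show o' + (l - 1 - i) ≤ o' + (l - 1 - 0) by omega)
    rw [← he i hi, ← he 0 hl] at h2
    omega

end Pool.Agent.Helper46.RM
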