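import Pool.Agent.Helper46.RM.Chain

/-!
# Block RM-SY: symmetry of the crossing form up to boundary terms.

`cross_swap`: `cross a b + cross b a = ∑ᶠ p, ((cN a p + cW a p) * bd b p + bd a p * (cS b p + cE b p))`.
Proof: expand the summand on the right: with `bd = cE + cW + cN + cS` the terms `(cN a + cW a) * (cE b + cS b)` cancel (characteristic 2) and
what remains is `cN a * cN b + cN a * cW b + cW a * cN b + cW a * cW b + cE a * cS b + cE a * cE b + cS a * cS b + cS a * cE b`.
Now `∑ᶠ p, cN a p * cN b p = ∑ᶠ p, cS a p * cS b p` (shift `p ↦ (p.1, p.2 - 1)`, a bijection: `finsum_comp_equiv`) and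
`∑ᶠ p, cE a p * cE b p = ∑ᶠ p, cW a p * cW b p` (shift), so these four cancel, and
`cE a * cS b + cN a * cW b` and `cE b * cS a + cN b * cW a` are the summands of `cross a b` and `cross b a`. All supports are finite
(`finite_touch`); work with `finsum_add_distrib`.
-/

namespace Pool.Agent.Helper46.RM

open scoped Classical

private theorem shiftNS_26 (a b : Ch) : ∑ᶠ p : P2, cN a p * cN b p = ∑ᶠ p : P2, cS a p * cS b p := by
  let e : P2 ≃ P2 :=
    { toFun := fun p => (p.1, p.2 - 1)
      invFun := fun p => (p.1, p.2 + 1)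
      left_inv := fun p => by simp
      right_inv := fun p => by simp }
  exact (finsum_comp_equiv e (f := fun p => cN a p * cN b p)).symm

private theorem shiftEW_26 (a b : Ch) : ∑ᶠ p : P2, cE a p * cE b p = ∑ᶠ p : P2, cW a p * cW b p := by
  let e : P2 ≃ P2 :=
    { toFun := fun p => (p.1 - 1, p.2)
      invFun := fun p => (p.1 + 1, p.2)
      left_inv := fun p => by simp
      right_inv := fun p => by simp }
  exact (finsum_comp_equiv e (f := fun p => cE a p * cE b p)).symm

theorem cross_swap (a b : Ch) : cross a b + cross b a =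
    ∑ᶠ p : P2, ((cN a p + cW a p) * bd b p + bd a p * (cS b p + cE b p)) := by
  have fa : ∀ f : P2 → ZMod 2, (∀ p, ¬ Touch a p → f p = 0) → (Function.support f).Finite := by
    intro f hf
    refine (finite_touch a).subset fun p hp => ?_
    by_contra hc
    exact hp (hf p hc)
  have hz : ∀ p, ¬ Touch a p → cE a p = 0 ∧ cW a p = 0 ∧ cN a p = 0 ∧ cS a p = 0 := by
    intro p hp
    simp only [Touch, not_or, not_not] at hp
    exact hp
  have f1 := fa (fun p => crossAt a b p) (fun p hp => by
    obtain ⟨h1, h2, h3, h4⟩ := hz p hp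
    simp [crossAt, h1, h3])
  have f2 := fa (fun p => crossAt b a p) (fun p hp => by
    obtain ⟨h1, h2, h3, h4⟩ := hz p hp
    simp [crossAt, h2, h4])
  have f3 := fa (fun p => cN a p * cN b p) (fun p hp => by
    obtain ⟨h1, h2, h3, h4⟩ := hz p hp
    simp [h3])
  have f4 := fa (fun p => cS a p * cS b p) (fun p hp => by
    obtain ⟨h1, h2, h3, h4⟩ := hz p hp
    simp [h4])
  have f5 := fa (fun p => cE a p * cE b p) (fun p hp => by
    obtain ⟨h1, h2, h3, h4⟩ := hz p hp
    simp [h1])
  have f6 := fa (fun p => cW a p * cW b p) (fun p hp => by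
    obtain ⟨h1, h2, h3, h4⟩ := hz p hp
    simp [h2])
  have f12 := fa (fun p => crossAt a b p + crossAt b a p) (fun p hp => by
    obtain ⟨h1, h2, h3, h4⟩ := hz p hp
    simp [crossAt, h1, h2, h3, h4])
  have f34 := fa (fun p => cN a p * cN b p + cS a p * cS b p) (fun p hp => by
    obtain ⟨h1, h2, h3, h4⟩ := hz p hp
    simp [h3, h4])
  have f56 := fa (fun p => cE a p * cE b p + cW a p * cW b p) (fun p hp => by
    obtain ⟨h1, h2, h3, h4⟩ := hz p hp
    simp [h1, h2])
  have f3456 := fa (fun p => (cN a p * cN b p + cS a p * cS b p) + (cE a p * cE b p + cW a p * cW b p))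
    (fun p hp => by
      obtain ⟨h1, h2, h3, h4⟩ := hz p hp
      simp [h1, h2, h3, h4])
  have e : ∀ p : P2, (cN a p + cW a p) * bd b p + bd a p * (cS b p + cE b p) =
      (crossAt a b p + crossAt b a p) +
        ((cN a p * cN b p + cS a p * cS b p) + (cE a p * cE b p + cW a p * cW b p)) := by
    intro p
    simp only [bd, crossAt]
    have h2 : ∀ u : ZMod 2, u + u = 0 := CharTwo.add_self_eq_zero
    have h3 := h2 (cN a p * cE b p + cN a p * cS b p + cW a p * cE b p + cW a p * cS b p)
    linear_combination h3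
  rw [finsum_congr e, finsum_add_distrib f12 f3456, finsum_add_distrib f1 f2, finsum_add_distrib f34 f56,
    finsum_add_distrib f3 f4, finsum_add_distrib f5 f6, shiftNS_26 a b, shiftEW_26 a b,
    CharTwo.add_self_eq_zero, CharTwo.add_self_eq_zero, add_zero, add_zero]
  rfl

/-- symmetry if the ends of each chain are not on the other one -/
theorem cross_symm {a b : Ch} (h1 : ∀ p, bd b p ≠ 0 → ¬ Touch a p) (h2 : ∀ p, bd a p ≠ 0 → ¬ Touch b p) :
    cross a b = cross b a := by
  have h := cross_swap a b
  have h0 : ∀ p : P2, (cN a p + cW a p) * bd b p + bd a p * (cS b p + cE b p) = 0 := by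
    intro p
    have e1 : (cN a p + cW a p) * bd b p = 0 := by
      by_cases hb : bd b p = 0
      · rw [hb, mul_zero]
      · have h3 := h1 p hb
        simp only [Touch, not_or, not_not] at h3
        rw [h3.2.2.1, h3.2.1, add_zero, zero_mul]
    have e2 : bd a p * (cS b p + cE b p) = 0 := by
      by_cases ha : bd a p = 0
      · rw [ha, zero_mul]
      · have h3 := h2 p ha
        simp only [Touch, not_or, not_not] at h3
        rw [h3.1, h3.2.2.2, add_zero, mul_zero]
    rw [e1, e2, add_zero]
  rw [finsum_congr h0, finsum_zero] at h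
  have h4 := congrArg (· + cross b a) h
  simp only [add_assoc, CharTwo.add_self_eq_zero, add_zero, zero_add] at h4
  exact h4

end Pool.Agent.Helper46.RM
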