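import Pool.Agent.Helper46.RM.ForX
import Pool.Agent.Helper46.RM.Sym

/-!
# Block RM-E2: the common points of two passes through a component of a forest.

`crossAt_seg_left/right`: `Q` is injective on `[a, b]` and `a < c < b`: the only edges of `seg Q a b` at the point `Q c` are the two edges of the walk
before and after it, so the four coefficients at `Q c` are those of `ed (Q (c-1)) (Q c) + ed (Q c) (Q (c+1))` (`seg` is a sum over `Ico a b`; an edge
`Q e, Q (e+1)` with `e ≠ c - 1, c` does not contain `Q c`: `touch_ed`).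
`second_pt`: two injective walks in a forest from `x` to `y ≠ x` have the same second point: `SimpleGraph.IsAcyclic.path_unique`.
`common_pts`: (i) `Q a, Q b, Q' a', Q' b' ∉ M` (otherwise they would be `F`-adjacent to their neighbour in the component, `TrailOK.fst`, `hz`), so `hout`
gives `a < c < b` and `a' < c' < b'`. (ii) The positions `g 1, .., g l` are consecutive integers; suppose `c` is none of them. Then `c` is on the side of
`g 0` or on the side of `g (l+1)`. First case: `x = Q (g 1) = Q' (g' 1)`, `y = Q c = Q' c' ≠ x`. The second point of the path from `x` to `y` along `Q` is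
`Q (g 0)`, along `Q'` it is `Q' (g' 1 ± 1)`, i.e. `Q' (g' 0)` or `Q' (g' 2)` (all points between are in the component, consecutive points are in `M`, so
`F`-adjacent). By `second_pt` `Q (g 0)` is one of them, not `Q' (g' 0)` (`h0`); so `Q (g 0) = Q' (g' 2)`: for `l ≥ 2` this is `Q (g 2)`, which
contradicts injectivity, for `l = 1` it contradicts `h2`. Second case: the same with `x = Q (g l) = Q' (g' l)`, `Q (g (l+1))`, `h1`.
`cross_common`: `cross` is the sum of `crossAt` over the points touched by both chains (`cross_eq_sum` or `finsum`), i.e. (by `common_pts`, `touch_seg`) over the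
`l` different points `Q (g (i+1))`; apply `crossAt_seg_left/right` (`ed_comm`, `add_comm` if `g` is decreasing).
-/

namespace Pool.Agent.Helper46.RM

open scoped Classical

variable {F : SimpleGraph P2} {M : Set P2}

private theorem seg_split_h12 (Q : ℕ → P2) {a b c : ℕ} (hac : a < c) (hcb : c < b) :
    seg Q a b = seg Q a (c - 1) + (ed (Q (c - 1)) (Q c) + ed (Q c) (Q (c + 1))) + seg Q (c + 1) b := by
  obtain ⟨c, rfl⟩ : ∃ d, c = d + 1 := ⟨c - 1, by omega⟩
  have h1 : seg Q a (c + 1 + 1) = seg Q a c + ed (Q c) (Q (c + 1)) + ed (Q (c + 1)) (Q (c + 1 + 1)) := by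
    rw [seg_succ Q (show a ≤ c + 1 by omega), seg_succ Q (show a ≤ c by omega)]
  rw [← seg_add Q (show a ≤ c + 1 + 1 by omega) (show c + 1 + 1 ≤ b by omega), h1, Nat.add_sub_cancel, add_assoc (seg Q a c)]

private theorem coef_seg_h12 {Q : ℕ → P2} {a b c : ℕ} (hac : a < c) (hcb : c < b)
    (hinj : ∀ e e', a ≤ e → e ≤ b → a ≤ e' → e' ≤ b → Q e = Q e' → e = e') :
    cE (seg Q a b) (Q c) = cE (ed (Q (c - 1)) (Q c) + ed (Q c) (Q (c + 1))) (Q c) ∧
      cW (seg Q a b) (Q c) = cW (ed (Q (c - 1)) (Q c) + ed (Q c) (Q (c + 1))) (Q c) ∧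
      cN (seg Q a b) (Q c) = cN (ed (Q (c - 1)) (Q c) + ed (Q c) (Q (c + 1))) (Q c) ∧
      cS (seg Q a b) (Q c) = cS (ed (Q (c - 1)) (Q c) + ed (Q c) (Q (c + 1))) (Q c) := by
  have h1 : ¬ Touch (seg Q a (c - 1)) (Q c) := by
    intro h
    obtain ⟨d, h2, h3, h4⟩ := touch_seg h
    have h5 := hinj c d (by omega) (by omega) h2 (by omega) h4
    omega
  have h2 : ¬ Touch (seg Q (c + 1) b) (Q c) := by
    intro h
    obtain ⟨d, h2, h3, h4⟩ := touch_seg h
    have h5 := hinj c d (by omega) (by omega) (by omega) h3 h4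
    omega
  simp only [Touch, not_or, not_not] at h1 h2
  rw [seg_split_h12 Q hac hcb]
  refine ⟨?_, ?_, ?_, ?_⟩
  · rw [cE_add, cE_add, h1.1, h2.1, zero_add, add_zero]
  · rw [cW_add, cW_add, h1.2.1, h2.2.1, zero_add, add_zero]
  · rw [cN_add, cN_add, h1.2.2.1, h2.2.2.1, zero_add, add_zero]
  · rw [cS_add, cS_add, h1.2.2.2, h2.2.2.2, zero_add, add_zero]

theorem crossAt_seg_left {Q : ℕ → P2} {a b c : ℕ} (hac : a < c) (hcb : c < b)
    (hinj : ∀ e e', a ≤ e → e ≤ b → a ≤ e' → e' ≤ b → Q e = Q e' → e = e')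
    (hadj : ∀ e, a ≤ e → e < b → LAdj (Q e) (Q (e + 1))) (B : Ch) :
    crossAt (seg Q a b) B (Q c) = crossAt (ed (Q (c - 1)) (Q c) + ed (Q c) (Q (c + 1))) B (Q c) := by
  obtain ⟨h1, _, h3, _⟩ := coef_seg_h12 hac hcb hinj
  exact crossAt_congr h1 h3 rfl rfl

theorem crossAt_seg_right {Q : ℕ → P2} {a b c : ℕ} (hac : a < c) (hcb : c < b)
    (hinj : ∀ e e', a ≤ e → e ≤ b → a ≤ e' → e' ≤ b → Q e = Q e' → e = e')
    (hadj : ∀ e, a ≤ e → e < b → LAdj (Q e) (Q (e + 1))) (B : Ch) :
    crossAt B (seg Q a b) (Q c) = crossAt B (ed (Q (c - 1)) (Q c) + ed (Q c) (Q (c + 1))) (Q c) := by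
  obtain ⟨_, h2, _, h4⟩ := coef_seg_h12 hac hcb hinj
  exact crossAt_congr rfl rfl h4 h2

private theorem walk_of_h12 (f : ℕ → P2) (k : ℕ) (ha : ∀ i, i < k → F.Adj (f i) (f (i + 1))) :
    ∃ w : F.Walk (f 0) (f k), w.support = (List.range (k + 1)).map f := by
  induction k with
  | zero => exact ⟨SimpleGraph.Walk.nil, rfl⟩
  | succ k ih =>
    obtain ⟨w, hw⟩ := ih fun i hi => ha i (by omega)
    refine ⟨w.concat (ha k (by omega)), ?_⟩
    rw [SimpleGraph.Walk.support_concat, hw, List.range_succ (n := k + 1), List.map_append]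
    simp

theorem second_pt (hF : Forest F) {f f' : ℕ → P2} {k k' : ℕ} (hk : 0 < k) (h0 : f 0 = f' 0) (h1 : f k = f' k')
    (ha : ∀ i, i < k → F.Adj (f i) (f (i + 1))) (ha' : ∀ i, i < k' → F.Adj (f' i) (f' (i + 1)))
    (hi : ∀ i j, i ≤ k → j ≤ k → f i = f j → i = j) (hi' : ∀ i j, i ≤ k' → j ≤ k' → f' i = f' j → i = j) :
    f 1 = f' 1 := by
  obtain ⟨w, hw⟩ := walk_of_h12 f k ha
  obtain ⟨w', hw'⟩ := walk_of_h12 f' k' ha'
  have hp : w.IsPath := by
    rw [SimpleGraph.Walk.isPath_def, hw]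
    refine (List.nodup_range).map_on ?_
    intro i hi1 j hj h
    rw [List.mem_range] at hi1 hj
    exact hi i j (by omega) (by omega) h
  have hp' : w'.IsPath := by
    rw [SimpleGraph.Walk.isPath_def, hw']
    refine (List.nodup_range).map_on ?_
    intro i hi1 j hj h
    rw [List.mem_range] at hi1 hj
    exact hi' i j (by omega) (by omega) h
  have hp'' : (w'.copy h0.symm h1.symm).IsPath := by
    rw [SimpleGraph.Walk.isPath_copy]
    exact hp'
  have hu := congrArg Subtype.val ((hF.ac.subsingleton_path (f 0) (f k)).elim ⟨w, hp⟩ ⟨w'.copy h0.symm h1.symm, hp''⟩)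
  have hs : w.support = w'.support := by
    have h2 := congrArg SimpleGraph.Walk.support hu
    rw [SimpleGraph.Walk.support_copy] at h2
    exact h2
  rw [hw, hw'] at hs
  have hl := congrArg List.length hs
  rw [List.length_map, List.length_map, List.length_range, List.length_range] at hl
  have h2 := congrArg (fun L : List P2 => L[1]?) hs
  have e1 : ((List.range (k + 1)).map f)[1]? = some (f 1) := by
    rw [List.getElem?_map, List.getElem?_range (by omega)]
    rfl
  have e2 : ((List.range (k' + 1)).map f')[1]? = some (f' 1) := by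
    rw [List.getElem?_map, List.getElem?_range (by omega)]
    rfl
  simp only [e1, e2] at h2
  exact Option.some_injective _ h2

private theorem reach_mem_h12 {z : P2} (hz : z ∈ M) (hM : ∀ x y, F.Adj x y → x ∈ M) {x : P2} (h : F.Reachable z x) :
    x ∈ M := by
  obtain ⟨w⟩ := h.symm
  cases w with
  | nil => exact hz
  | cons h' _ => exact hM _ _ h'

/-- next position after `s` in the direction of `c` -/
private def nx_h12 (s c : ℕ) : ℕ := if s < c then s + 1 else s - 1

private theorem run_h12 {z : P2} (hz : z ∈ M) (hM : ∀ x y, F.Adj x y → x ∈ M) {Q : ℕ → P2} {n : ℕ} (h : TrailOK F M Q n)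
    {a b : ℕ} (hp : IsPass F z Q n a b) {s c : ℕ} (hs : a < s ∧ s < b) (hc : a < c ∧ c < b) (hsc : s ≠ c) :
    ∃ (f : ℕ → P2) (k : ℕ), 0 < k ∧ f 0 = Q s ∧ f k = Q c ∧ f 1 = Q (nx_h12 s c) ∧
      (∀ i, i < k → F.Adj (f i) (f (i + 1))) ∧ (∀ i j, i ≤ k → j ≤ k → f i = f j → i = j) := by
  obtain ⟨h1, h2, h3, h4, h5⟩ := hp
  have hadj : ∀ e, a < e → e + 1 < b → F.Adj (Q e) (Q (e + 1)) := fun e he1 he2 =>
    h.fst e (by omega) (reach_mem_h12 hz hM (h5 e he1 (by omega))) (reach_mem_h12 hz hM (h5 (e + 1) (by omega) he2))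
  rcases lt_or_gt_of_ne hsc with hlt | hgt
  · refine ⟨fun i => Q (s + i), c - s, by omega, rfl, ?_, ?_, ?_, ?_⟩
    · show Q (s + (c - s)) = Q c
      congr 1; omega
    · show Q (s + 1) = Q (nx_h12 s c)
      rw [nx_h12, if_pos hlt]
    · intro i hi
      exact hadj (s + i) (by omega) (by omega)
    · intro i j hi hj hij
      have := h.inj (s + i) (s + j) (by omega) (by omega) hij
      omega
  · refine ⟨fun i => Q (s - i), s - c, by omega, rfl, ?_, ?_, ?_, ?_⟩
    · show Q (s - (s - c)) = Q c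
      congr 1; omega
    · show Q (s - 1) = Q (nx_h12 s c)
      rw [nx_h12, if_neg (by omega)]
    · intro i hi
      have h6 := hadj (s - (i + 1)) (by omega) (by omega)
      have h7 : s - (i + 1) + 1 = s - i := by omega
      rw [h7] at h6
      exact h6.symm
    · intro i j hi hj hij
      have := h.inj (s - i) (s - j) (by omega) (by omega) hij
      omega

private theorem next_h12 (hF : Forest F) {z : P2} (hz : z ∈ M) (hM : ∀ x y, F.Adj x y → x ∈ M) {Q Q' : ℕ → P2} {n n' : ℕ}
    (h : TrailOK F M Q n) (h' : TrailOK F M Q' n') {a b a' b' : ℕ} (hp : IsPass F z Q n a b)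
    (hp' : IsPass F z Q' n' a' b') {s c s' c' : ℕ} (hs : a < s ∧ s < b) (hc : a < c ∧ c < b) (hs' : a' < s' ∧ s' < b')
    (hc' : a' < c' ∧ c' < b') (hsc : s ≠ c) (h1 : Q s = Q' s') (h2 : Q c = Q' c') :
    Q (nx_h12 s c) = Q' (nx_h12 s' c') := by
  have hsc' : s' ≠ c' := by
    rintro rfl
    rw [← h2] at h1
    exact hsc (h.inj s c (by have := hp.2.1; omega) (by have := hp.2.1; omega) h1)
  obtain ⟨f, k, k0, f0, fk, f1, fa, fi⟩ := run_h12 hz hM h hp hs hc hsc
  obtain ⟨f', k', _, f0', fk', f1', fa', fi'⟩ := run_h12 hz hM h' hp' hs' hc' hsc'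
  rw [← f1, ← f1']
  exact second_pt hF k0 (by rw [f0, f0', h1]) (by rw [fk, fk', h2]) fa fa' fi fi'

private theorem ends_h12 {z : P2} (hz : z ∈ M) (hM : ∀ x y, F.Adj x y → x ∈ M) {Q : ℕ → P2} {n : ℕ} (h : TrailOK F M Q n)
    {a b : ℕ} (hp : IsPass F z Q n a b) : Q a ∉ M ∧ Q b ∉ M := by
  obtain ⟨h1, h2, h3, h4, h5⟩ := hp
  constructor
  · intro hm
    have h6 := h5 (a + 1) (by omega) h1
    exact h3 (h6.trans (h.fst a (by omega) hm (reach_mem_h12 hz hM h6)).symm.reachable)
  · intro hm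
    have h6 := h5 (b - 1) (by omega) (by omega)
    have h7 : b - 1 + 1 = b := by omega
    have h8 := h.fst (b - 1) (by omega) (reach_mem_h12 hz hM h6) (by rw [h7]; exact hm)
    rw [h7] at h8
    exact h4 (h6.trans h8.reachable)

private theorem up_h12 {g : ℕ → ℕ} {l : ℕ} (h : ∀ i, i ≤ l → g (i + 1) = g i + 1) : ∀ i, i ≤ l + 1 → g i = g 0 + i := by
  intro i
  induction i with
  | zero => intro _; rfl
  | succ i ih =>
    intro hi
    rw [h i (by omega), ih (by omega)]
    omega

private theorem down_h12 {g : ℕ → ℕ} {l : ℕ} (h : ∀ i, i ≤ l → g i = g (i + 1) + 1) : ∀ i, i ≤ l + 1 → g i + i = g 0 := by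
  intro i
  induction i with
  | zero => intro _; rfl
  | succ i ih =>
    intro hi
    have h1 := h i (by omega)
    have h2 := ih (by omega)
    omega

/-- the two neighbours of a position in a monotone numbering -/
private theorem nbr_h12 {g : ℕ → ℕ} {l : ℕ}
    (hg : (∀ i, i ≤ l → g (i + 1) = g i + 1) ∨ (∀ i, i ≤ l → g i = g (i + 1) + 1)) {i : ℕ} (hi : i < l) (c : ℕ) :
    nx_h12 (g (i + 1)) c = g i ∨ nx_h12 (g (i + 1)) c = g (i + 2) := by
  unfold nx_h12
  rcases hg with hg | hg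
  · have h1 := hg i (by omega)
    have h2 := hg (i + 1) (by omega)
    split_ifs
    · exact Or.inr h2.symm
    · left; omega
  · have h1 := hg i (by omega)
    have h2 := hg (i + 1) (by omega)
    split_ifs
    · left; omega
    · right
      show g (i + 1) - 1 = g (i + 2)
      rw [h2]; rfl

theorem common_pts (hF : Forest F) {z : P2} (hz : z ∈ M) (hM : ∀ x y, F.Adj x y → x ∈ M) {Q Q' : ℕ → P2} {n n' : ℕ}
    (h : TrailOK F M Q n) (h' : TrailOK F M Q' n') (hout : ∀ a b, a ≤ n → b ≤ n' → Q a = Q' b → Q a ∈ M)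
    {a b a' b' : ℕ} (hp : IsPass F z Q n a b) (hp' : IsPass F z Q' n' a' b') {l : ℕ} (hl : 0 < l) {g g' : ℕ → ℕ}
    (hg : (∀ i, i ≤ l → g (i + 1) = g i + 1) ∨ (∀ i, i ≤ l → g i = g (i + 1) + 1))
    (hg' : (∀ i, i ≤ l → g' (i + 1) = g' i + 1) ∨ (∀ i, i ≤ l → g' i = g' (i + 1) + 1))
    (hab : ∀ i, i < l → a < g (i + 1) ∧ g (i + 1) < b) (hab' : ∀ i, i < l → a' < g' (i + 1) ∧ g' (i + 1) < b')
    (he : ∀ i, i < l → Q (g (i + 1)) = Q' (g' (i + 1))) (h0 : Q (g 0) ≠ Q' (g' 0))
    (h1 : Q (g (l + 1)) ≠ Q' (g' (l + 1))) (h2 : l = 1 → Q (g 0) ≠ Q' (g' 2) ∧ Q (g 2) ≠ Q' (g' 0)) {c c' : ℕ}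
    (hc : a ≤ c ∧ c ≤ b) (hc' : a' ≤ c' ∧ c' ≤ b') (hcc : Q c = Q' c') : ∃ i, i < l ∧ c = g (i + 1) := by
  obtain ⟨l, rfl⟩ : ∃ l', l = l' + 1 := ⟨l - 1, by omega⟩
  have hbn := hp.2.1
  have hbn' := hp'.2.1
  have hmem : Q c ∈ M := hout c c' (by omega) (by omega) hcc
  obtain ⟨ea, eb⟩ := ends_h12 hz hM h hp
  obtain ⟨ea', eb'⟩ := ends_h12 hz hM h' hp'
  have hca : a < c ∧ c < b := by
    constructor
    · refine lt_of_le_of_ne hc.1 ?_
      rintro rfl
      exact ea hmem
    · refine lt_of_le_of_ne hc.2 ?_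
      rintro rfl
      exact eb hmem
  have hca' : a' < c' ∧ c' < b' := by
    rw [hcc] at hmem
    constructor
    · refine lt_of_le_of_ne hc'.1 ?_
      rintro rfl
      exact ea' hmem
    · refine lt_of_le_of_ne hc'.2 ?_
      rintro rfl
      exact eb' hmem
  by_contra hcon
  push Not at hcon
  have hside : nx_h12 (g 1) c = g 0 ∨ nx_h12 (g (l + 1)) c = g (l + 2) := by
    rcases hg with hg | hg
    · have hu := up_h12 hg
      have h3 := hu 1 (by omega)
      have h4 := hu (l + 1) (by omega)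
      have h5 := hu (l + 2) (by omega)
      by_cases hcs : c < g 1
      · left
        rw [nx_h12, if_neg (by omega)]
        omega
      · right
        have hcl : g (l + 1) < c := by
          by_contra hn
          have h6 := hu (c - g 0) (by omega)
          have h7 := hcon (c - g 0 - 1) (by omega)
          have h8 : c - g 0 - 1 + 1 = c - g 0 := by omega
          rw [h8] at h7
          omega
        rw [nx_h12, if_pos hcl]
        omega
    · have hu := down_h12 hg
      have h3 := hu 1 (by omega)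
      have h4 := hu (l + 1) (by omega)
      have h5 := hu (l + 2) (by omega)
      by_cases hcs : g 1 < c
      · left
        rw [nx_h12, if_pos hcs]
        omega
      · right
        have hcl : c < g (l + 1) := by
          by_contra hn
          have h6 := hu (g 0 - c) (by omega)
          have h7 := hcon (g 0 - c - 1) (by omega)
          have h8 : g 0 - c - 1 + 1 = g 0 - c := by omega
          rw [h8] at h7
          omega
        rw [nx_h12, if_neg (by omega)]
        omega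
  have hn0 : g 0 ≤ n ∧ g 2 ≤ n ∧ g 0 ≠ g 2 := by
    have h3 := hab 0 (by omega)
    rcases hg with hg | hg
    · have h4 := hg 0 (by omega)
      have h5 : g 2 = g 1 + 1 := hg 1 (by omega)
      simp only [zero_add] at h3 h4
      omega
    · have h4 := hg 0 (by omega)
      have h5 : g 1 = g 2 + 1 := hg 1 (by omega)
      simp only [zero_add] at h3 h4
      omega
  have hn1 : g l ≤ n ∧ g (l + 2) ≤ n ∧ g (l + 2) ≠ g l := by
    have h3 := hab l (by omega)
    rcases hg with hg | hg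
    · have h4 := hg l (by omega)
      have h5 := hg (l + 1) (by omega)
      have h6 : g (l + 1 + 1) = g (l + 2) := rfl
      omega
    · have h4 := hg l (by omega)
      have h5 := hg (l + 1) (by omega)
      have h6 : g (l + 1 + 1) = g (l + 2) := rfl
      omega
  rcases hside with hs | hs
  · have h3 := next_h12 hF hz hM h h' hp hp' (hab 0 (by omega)) hca (hab' 0 (by omega)) hca'
      (fun h6 => hcon 0 (by omega) h6.symm) (he 0 (by omega)) hcc
    simp only [zero_add] at h3
    rw [hs] at h3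
    rcases nbr_h12 hg' (show 0 < l + 1 by omega) c' with h4 | h4
    · simp only [zero_add] at h4
      rw [h4] at h3
      exact h0 h3
    · simp only [zero_add] at h4
      rw [h4] at h3
      rcases Nat.eq_zero_or_pos l with hl0 | hl0
      · exact (h2 (by omega)).1 h3
      · have h5 := he 1 (by omega)
        have h6 : Q (g 0) = Q (g 2) := by
          rw [h3]
          exact h5.symm
        exact hn0.2.2 (h.inj _ _ hn0.1 hn0.2.1 h6)
  · have h3 := next_h12 hF hz hM h h' hp hp' (hab l (by omega)) hca (hab' l (by omega)) hca'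
      (fun h6 => hcon l (by omega) h6.symm) (he l (by omega)) hcc
    rw [hs] at h3
    rcases nbr_h12 hg' (show l < l + 1 by omega) c' with h4 | h4
    · rw [h4] at h3
      rcases Nat.eq_zero_or_pos l with hl0 | hl0
      · subst hl0
        exact (h2 rfl).2 h3
      · have h5 := he (l - 1) (by omega)
        have h7 : l - 1 + 1 = l := by omega
        rw [h7] at h5
        have h6 : Q (g (l + 2)) = Q (g l) := by
          rw [h3, h5]
        exact hn1.2.2 (h.inj _ _ hn1.2.1 hn1.1 h6)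
    · rw [h4] at h3
      exact h1 h3

private theorem edpair_h12 {Q : ℕ → P2} {g : ℕ → ℕ} {l : ℕ}
    (hg : (∀ i, i ≤ l → g (i + 1) = g i + 1) ∨ (∀ i, i ≤ l → g i = g (i + 1) + 1)) {i : ℕ} (hi : i < l) :
    ed (Q (g (i + 1) - 1)) (Q (g (i + 1))) + ed (Q (g (i + 1))) (Q (g (i + 1) + 1)) =
      ed (Q (g i)) (Q (g (i + 1))) + ed (Q (g (i + 1))) (Q (g (i + 2))) := by
  rcases hg with hg | hg
  · have h1 := hg i (by omega)
    have h2 : g (i + 2) = g (i + 1) + 1 := hg (i + 1) (by omega)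
    have h3 : g (i + 1) - 1 = g i := by omega
    rw [h3, h2]
  · have h1 := hg i (by omega)
    have h2 : g (i + 1) = g (i + 2) + 1 := hg (i + 1) (by omega)
    have h3 : g (i + 1) - 1 = g (i + 2) := by omega
    rw [h3, h1, ed_comm (Q (g (i + 2))), ed_comm (Q (g (i + 1))) (Q (g (i + 1) + 1)), add_comm]

theorem cross_common (hF : Forest F) {z : P2} (hz : z ∈ M) (hM : ∀ x y, F.Adj x y → x ∈ M) {Q Q' : ℕ → P2} {n n' : ℕ}
    (h : TrailOK F M Q n) (h' : TrailOK F M Q' n') (hout : ∀ a b, a ≤ n → b ≤ n' → Q a = Q' b → Q a ∈ M)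
    {a b a' b' : ℕ} (hp : IsPass F z Q n a b) (hp' : IsPass F z Q' n' a' b') {l : ℕ} (hl : 0 < l) {g g' : ℕ → ℕ}
    (hg : (∀ i, i ≤ l → g (i + 1) = g i + 1) ∨ (∀ i, i ≤ l → g i = g (i + 1) + 1))
    (hg' : (∀ i, i ≤ l → g' (i + 1) = g' i + 1) ∨ (∀ i, i ≤ l → g' i = g' (i + 1) + 1))
    (hab : ∀ i, i < l → a < g (i + 1) ∧ g (i + 1) < b) (hab' : ∀ i, i < l → a' < g' (i + 1) ∧ g' (i + 1) < b')
    (he : ∀ i, i < l → Q (g (i + 1)) = Q' (g' (i + 1))) (h0 : Q (g 0) ≠ Q' (g' 0))
    (h1 : Q (g (l + 1)) ≠ Q' (g' (l + 1))) (h2 : l = 1 → Q (g 0) ≠ Q' (g' 2) ∧ Q (g 2) ≠ Q' (g' 0)) :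
    cross (seg Q a b) (seg Q' a' b') = ∑ i ∈ Finset.range l,
      crossAt (ed (Q (g i)) (Q (g (i + 1))) + ed (Q (g (i + 1))) (Q (g (i + 2))))
        (ed (Q' (g' i)) (Q' (g' (i + 1))) + ed (Q' (g' (i + 1))) (Q' (g' (i + 2)))) (Q (g (i + 1))) := by
  have hbn := hp.2.1
  have hbn' := hp'.2.1
  have hX : ∀ p, Touch (seg Q a b) p → Touch (seg Q' a' b') p →
      p ∈ (Finset.range l).image fun i => Q (g (i + 1)) := by
    intro p t1 t2
    obtain ⟨c, c1, c2, rfl⟩ := touch_seg t1
    obtain ⟨c', c1', c2', hcc⟩ := touch_seg t2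
    obtain ⟨i, hi, hci⟩ := common_pts hF hz hM h h' hout hp hp' hl hg hg' hab hab' he h0 h1 h2 ⟨c1, c2⟩ ⟨c1', c2'⟩ hcc
    rw [Finset.mem_image]
    exact ⟨i, Finset.mem_range.2 hi, by rw [hci]⟩
  rw [cross_eq_sum _ hX, Finset.sum_image]
  · refine Finset.sum_congr rfl fun i hi => ?_
    rw [Finset.mem_range] at hi
    have hi1 := hab i hi
    have hi2 := hab' i hi
    have hL := crossAt_seg_left (Q := Q) (a := a) (b := b) (c := g (i + 1)) hi1.1 hi1.2
      (fun e e' _ h4 _ h6 h7 => h.inj e e' (by omega) (by omega) h7) (fun e _ h4 => h.adj e (by omega)) (seg Q' a' b')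
    have hR := crossAt_seg_right (Q := Q') (a := a') (b := b') (c := g' (i + 1)) hi2.1 hi2.2
      (fun e e' _ h4 _ h6 h7 => h'.inj e e' (by omega) (by omega) h7) (fun e _ h4 => h'.adj e (by omega))
      (ed (Q (g (i + 1) - 1)) (Q (g (i + 1))) + ed (Q (g (i + 1))) (Q (g (i + 1) + 1)))
    rw [← he i hi] at hR
    rw [hL, hR, edpair_h12 hg hi, he i hi, edpair_h12 hg' hi]
  · intro i hi j hj hij
    have hi' : i < l := Finset.mem_range.1 hi
    have hj' : j < l := Finset.mem_range.1 hj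
    have h3 := hab i hi'
    have h4 := hab j hj'
    have h5 := h.inj _ _ (by omega) (by omega) hij
    rcases hg with hg | hg
    · have h6 := up_h12 hg (i + 1) (by omega)
      have h7 := up_h12 hg (j + 1) (by omega)
      omega
    · have h6 := down_h12 hg (i + 1) (by omega)
      have h7 := down_h12 hg (j + 1) (by omega)
      omega

end Pool.Agent.Helper46.RM
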