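import Pool.Agent.Helper46.RM.Lev3

/-!
# Block RM-L4: the pieces of a route are pieces of the paths `qq`.

`k < rlen x`, `t = lev (rt x k)`, `j = pst x t` (`Nat.sInf_mem`, `Nat.sInf_le`), `X = px x t = rt x j`. Then `j ≤ k`, `lev X = t`, all points between have level `t`
(`lev_anti`), `stC x i = stC x k` for `j ≤ i ≤ k` (`stC_eq`), and `stC x j = cmin X` (if `j = 0`: `stC_zero`, `rt_zero`; otherwise the point before has a
larger level, `stC_succ_lt`). So `rt x (j + u) = (par C)^[u] X` for `j + u ≤ k + 1`, `C = cmin X` (`rt_succ`; the points `rt x i`, `i ≤ k`, are not `r`,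
`rt_ne`). As `dd C ((par C)^[u] X) = dd C X - u` (`par_spec`), `u ≤ dd C X` for `j + u ≤ k + 1` (the points with number `≤ k` are not `r`), and
`qq C X (dd C X - u) = (par C)^[u] X`.
`px_lev`: if a point of level `t` is on the route.
-/

namespace Pool.Agent.Helper46.RM

open scoped Classical

variable {ι : Type*} {L : LSys ι}

theorem LSys.pst_le {x : P2} {k t : ℕ} (hk : L.lev (L.rt x k) = t) : L.pst x t ≤ k := by
  exact Nat.sInf_le hk

theorem LSys.px_lev {x : P2} {k t : ℕ} (hk : L.lev (L.rt x k) = t) : L.lev (L.px x t) = t := by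
  have h1 : sInf {k | L.lev (L.rt x k) = t} ∈ {k | L.lev (L.rt x k) = t} := Nat.sInf_mem ⟨k, hk⟩
  exact h1

theorem LSys.OK.px_stC (h : L.OK) {x : P2} (hx : ∃ C, L.InV C x) {k t : ℕ} (hk : L.lev (L.rt x k) = t) :
    L.stC x k = L.cmin (L.px x t) := by
  have h1 : L.lev (L.rt x (L.pst x t)) = t := LSys.px_lev hk
  have h2 : L.stC x k = L.stC x (L.pst x t) := h.stC_eq hx (by rw [h1, hk])
  rw [h2]
  rcases Nat.eq_zero_or_eq_succ_pred (L.pst x t) with h3 | h3
  · change L.stC x (L.pst x t) = L.cmin (L.rt x (L.pst x t))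
    rw [h3, LSys.rt_zero, LSys.stC_zero]
  · change L.stC x (L.pst x t) = L.cmin (L.rt x (L.pst x t))
    have h4 : L.lev (L.rt x (L.pst x t).pred) ≠ t := by
      intro h5
      have h6 := LSys.pst_le h5
      omega
    have h5 := h.lev_anti hx (Nat.le_succ (L.pst x t).pred)
    have h6 : L.rt x (L.pst x t).pred.succ = L.rt x (L.pst x t) := by rw [← h3]
    rw [h6, h1] at h5
    have h7 := h.stC_succ_lt hx (k := (L.pst x t).pred) (by
      change L.lev (L.rt x (L.pst x t).pred.succ) < _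
      rw [h6, h1]
      omega)
    change L.stC x (L.pst x t).pred.succ = L.cmin (L.rt x (L.pst x t).pred.succ) at h7
    rw [← h3] at h7
    exact h7

theorem LSys.OK.px_inV (h : L.OK) {x : P2} (hx : ∃ C, L.InV C x) {k t : ℕ} (hk : L.lev (L.rt x k) = t) :
    L.InV (L.cmin (L.px x t)) (L.px x t) ∧ (L.cmin (L.px x t)).card = t := by
  have h1 : L.lev (L.rt x (L.pst x t)) = t := LSys.px_lev hk
  have h2 := h.px_stC hx h1
  obtain ⟨h3, h4⟩ := h.st_inv hx (L.pst x t)
  rw [h2] at h3 h4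
  exact ⟨h3, h4.trans h1⟩

private theorem piece26 (h : L.OK) {x : P2} (hx : ∃ C, L.InV C x) {k t : ℕ} (hkn : k < L.rlen x)
    (hk : L.lev (L.rt x k) = t) (u : ℕ) (hu : L.pst x t + u ≤ k + 1) :
    L.InV (L.cmin (L.px x t)) (L.rt x (L.pst x t + u)) ∧
      L.dd (L.cmin (L.px x t)) (L.rt x (L.pst x t + u)) + u = L.dd (L.cmin (L.px x t)) (L.px x t) ∧
      L.rt x (L.pst x t + u) = (L.par (L.cmin (L.px x t)))^[u] (L.px x t) := by
  induction u with
  | zero => exact ⟨(h.px_inV hx hk).1, rfl, rfl⟩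
  | succ u ih =>
    obtain ⟨i1, i2, i3⟩ := ih (by omega)
    have h1 : L.rt x (L.pst x t + u) ≠ L.r := LSys.rt_ne (by omega)
    have h0 : L.lev (L.rt x (L.pst x t)) = t := LSys.px_lev hk
    have h2 := h.lev_anti hx (show L.pst x t ≤ L.pst x t + u by omega)
    have h3 := h.lev_anti hx (show L.pst x t + u ≤ k by omega)
    have h4 : L.stC x (L.pst x t + u) = L.cmin (L.px x t) := h.px_stC hx (by omega)
    have h5 : L.rt x (L.pst x t + (u + 1)) = L.par (L.stC x (L.pst x t + u)) (L.rt x (L.pst x t + u)) :=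
      h.rt_succ hx h1
    rw [h4] at h5
    obtain ⟨_, h6, h7⟩ := h.par_spec i1 h1
    rw [h5]
    refine ⟨h7, by omega, ?_⟩
    rw [Function.iterate_succ_apply', i3]

theorem LSys.OK.piece (h : L.OK) {x : P2} (hx : ∃ C, L.InV C x) {k t : ℕ} (hkn : k < L.rlen x)
    (hk : L.lev (L.rt x k) = t) {u : ℕ} (hu : L.pst x t + u ≤ k + 1) : u ≤ L.dd (L.cmin (L.px x t)) (L.px x t) ∧
      L.rt x (L.pst x t + u) =
        L.qq (L.cmin (L.px x t)) (L.px x t) (L.dd (L.cmin (L.px x t)) (L.px x t) - u) := by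
  obtain ⟨h1, h2, h3⟩ := piece26 h hx hkn hk u hu
  refine ⟨by omega, ?_⟩
  rw [h3]
  unfold LSys.qq
  congr 2
  omega

end Pool.Agent.Helper46.RM
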