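import Pool.Agent.Helper46.RM.Ec1
import Pool.Agent.Helper46.RM.Ec2
import Pool.Agent.Helper46.RM.Lev4

/-!
# Block RM-E5: an essential crossing inside two paths.

`pass_around`: let `a` be the last position `< c0` outside the component of `z` (position `0` is outside; `Nat.findGreatest`) and `b` the first position
`> c0` outside.
`pair_core`: `K = C ∩ C'`, `F = FC K`, `M = MC K`, `Q = qq C X`, `Q' = qq C' X'`, `z = Q (g 1)`. `z ∈ MC C` (`qq_inV`), and `z = Q' (g' 1) ∈ MC C'`, so `z ∈ MC K`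
(`mc_inter`). `r = Q 0 = Q' 0` is not in the component of `z` (otherwise `InV K z` and `lev z ≤ K.card < C.card`, `lev_le`). If `X` is in the component of
`z`: `X ∈ MC K` (`fc_reach_mem`) and `Q'` visits it at the position `g' 1`: first alternative. If `X'` is in the component: second alternative.
Otherwise `pass_around` gives passes `(a, b)` of `Q` around `g 1` and `(a', b')` of `Q'` around `g' 1` (`qq_end`). All points `Q (g (i+1))`, `i < l`, are in
`MC K` (same argument) and consecutive ones are joined in `F` (`fc_span`, adjacency `qq_adj`), so they are in the component, and the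
positions `g (i+1)` are between `a` and `b` (they change by one and never meet `a`, `b`); the same for `g'`. `ess_ne` gives the hypotheses `h0, h1, h2` of
`cross_common`, `ess_sum` (with `f i = Q (g i)`, `f' i = Q' (g' i)`; no backtracking by `qq_inj`) says that the sum is `1`. `hout`: a common point is
in `MC C` and `MC C'`. `TrailOK`: `qq_trail` (`Finset.inter_subset_left/right`). Third alternative.
-/

namespace Pool.Agent.Helper46.RM

open scoped Classical

variable {ι : Type*} {L : LSys ι}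

theorem pass_around {F : SimpleGraph P2} {z : P2} {Q : ℕ → P2} {n c0 : ℕ} (h0 : ¬ F.Reachable z (Q 0))
    (hn : ¬ F.Reachable z (Q n)) (hc : c0 ≤ n) (hr : F.Reachable z (Q c0)) :
    ∃ a b, IsPass F z Q n a b ∧ a < c0 ∧ c0 < b := by
  have hcn : c0 < n := by
    rcases Nat.lt_or_ge c0 n with h1 | h1
    · exact h1
    · have h2 : c0 = n := le_antisymm hc h1
      rw [h2] at hr
      exact absurd hr hn
  obtain ⟨a, ha⟩ : ∃ a, a = Nat.findGreatest (fun e => ¬ F.Reachable z (Q e)) c0 := ⟨_, rfl⟩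
  have ha1 : ¬ F.Reachable z (Q a) := by
    rw [ha]
    exact Nat.findGreatest_spec (P := fun e => ¬ F.Reachable z (Q e)) (Nat.zero_le c0) h0
  have ha2 : a ≤ c0 := by
    rw [ha]
    exact Nat.findGreatest_le c0
  have ha3 : a < c0 := by
    rcases Nat.lt_or_ge a c0 with h1 | h1
    · exact h1
    · have h2 : a = c0 := le_antisymm ha2 h1
      rw [h2] at ha1
      exact absurd hr ha1
  have ha4 : ∀ c, a < c → c ≤ c0 → F.Reachable z (Q c) := by
    intro c h1 h2
    rw [ha] at h1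
    exact not_not.1 (Nat.findGreatest_is_greatest h1 h2)
  have hex : ∃ e, c0 < e ∧ ¬ F.Reachable z (Q e) := ⟨n, hcn, hn⟩
  obtain ⟨b, hb⟩ : ∃ b, b = Nat.find hex := ⟨_, rfl⟩
  have hb1 : c0 < b ∧ ¬ F.Reachable z (Q b) := by
    rw [hb]
    exact Nat.find_spec hex
  have hb2 : b ≤ n := by
    rw [hb]
    exact Nat.find_min' hex ⟨hcn, hn⟩
  have hb3 : ∀ c, c0 < c → c < b → F.Reachable z (Q c) := by
    intro c h1 h2
    rw [hb] at h2
    by_contra h3
    exact Nat.find_min hex h2 ⟨h1, h3⟩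
  refine ⟨a, b, ⟨by omega, hb2, ha1, hb1.2, fun c h1 h2 => ?_⟩, ha3, hb1.1⟩
  rcases Nat.lt_or_ge c0 c with h3 | h3
  · exact hb3 c h3 h2
  · exact ha4 c h1 h3

/-- positions which change by one and stay in the component stay inside the pass -/
private theorem stay45 {F : SimpleGraph P2} {z : P2} {Q : ℕ → P2} {n a b l : ℕ} {g : ℕ → ℕ}
    (hp : IsPass F z Q n a b) (h1 : a < g 1 ∧ g 1 < b)
    (hg : (∀ i, i ≤ l → g (i + 1) = g i + 1) ∨ (∀ i, i ≤ l → g i = g (i + 1) + 1))
    (hr : ∀ i, i < l → F.Reachable z (Q (g (i + 1)))) (i : ℕ) (hi : i < l) : a < g (i + 1) ∧ g (i + 1) < b := by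
  induction i with
  | zero => exact h1
  | succ i ih =>
    have h2 := ih (by omega)
    have h3 := hr (i + 1) hi
    have h4 : g (i + 1 + 1) ≠ a := by
      intro h5
      rw [h5] at h3
      exact hp.2.2.1 h3
    have h6 : g (i + 1 + 1) ≠ b := by
      intro h5
      rw [h5] at h3
      exact hp.2.2.2.1 h3
    rcases hg with hg | hg
    · have h7 := hg (i + 1) (by omega)
      omega
    · have h7 := hg (i + 1) (by omega)
      omega

/-- consecutive positions are adjacent -/
private theorem step45 (h : L.OK) {C : Finset ι} {X : P2} (hX : L.InV C X) {l : ℕ} {g : ℕ → ℕ}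
    (hg : (∀ i, i ≤ l → g (i + 1) = g i + 1) ∨ (∀ i, i ≤ l → g i = g (i + 1) + 1))
    (hgn : ∀ i, i ≤ l + 1 → g i ≤ L.dd C X) (i : ℕ) (hi : i ≤ l) :
    LAdj (L.qq C X (g i)) (L.qq C X (g (i + 1))) := by
  rcases hg with hg | hg
  · have h1 := hg i hi
    have h2 := hgn (i + 1) (by omega)
    rw [h1]
    exact (h.fc_forest C).le _ _ (h.qq_adj hX (by omega))
  · have h1 := hg i hi
    have h2 := hgn i (by omega)
    rw [h1]
    exact ((h.fc_forest C).le _ _ (h.qq_adj hX (by omega))).symm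

/-- no backtracking -/
private theorem nb45 (h : L.OK) {C : Finset ι} {X : P2} (hX : L.InV C X) {l : ℕ} {g : ℕ → ℕ}
    (hg : (∀ i, i ≤ l → g (i + 1) = g i + 1) ∨ (∀ i, i ≤ l → g i = g (i + 1) + 1))
    (hgn : ∀ i, i ≤ l + 1 → g i ≤ L.dd C X) (i : ℕ) (hi : i < l) :
    L.qq C X (g i) ≠ L.qq C X (g (i + 2)) := by
  intro h1
  have h2 := h.qq_inj hX (hgn i (by omega)) (hgn (i + 2) (by omega)) h1
  rcases hg with hg | hg
  · have h3 := hg i (by omega)
    have h4 : g (i + 2) = g (i + 1) + 1 := hg (i + 1) (by omega)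
    omega
  · have h3 := hg i (by omega)
    have h4 : g (i + 1) = g (i + 2) + 1 := hg (i + 1) (by omega)
    omega

theorem LSys.OK.pair_core (h : L.OK) {C C' : Finset ι} {X X' : P2} (hX : L.InV C X) (hX' : L.InV C' X') {l : ℕ}
    (hl : 0 < l) {g g' : ℕ → ℕ}
    (hg : (∀ i, i ≤ l → g (i + 1) = g i + 1) ∨ (∀ i, i ≤ l → g i = g (i + 1) + 1))
    (hg' : (∀ i, i ≤ l → g' (i + 1) = g' i + 1) ∨ (∀ i, i ≤ l → g' i = g' (i + 1) + 1))
    (hgn : ∀ i, i ≤ l + 1 → g i ≤ L.dd C X) (hgn' : ∀ i, i ≤ l + 1 → g' i ≤ L.dd C' X')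
    (he : ∀ i, i < l → L.qq C X (g (i + 1)) = L.qq C' X' (g' (i + 1)))
    (hE : EssAt (L.qq C X (g 0)) ((List.range l).map (fun i => L.qq C X (g (i + 1)))) (L.qq C X (g (l + 1)))
      (L.qq C' X' (g' 0)) (L.qq C' X' (g' (l + 1))))
    (hlev : L.lev (L.qq C X (g 1)) = C.card) (hlt : (C ∩ C').card < C.card) : L.Pair C C' X X' := by
  obtain ⟨z, hz⟩ : ∃ z, z = L.qq C X (g 1) := ⟨_, rfl⟩
  have hz' : z = L.qq C' X' (g' 1) := by
    rw [hz]
    exact he 0 hl
  have hmc : ∀ a b, L.qq C X a = L.qq C' X' b → L.qq C X a ∈ L.MC (C ∩ C') := by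
    intro a b hab
    refine LSys.mc_inter (h.qq_inV hX a).1 ?_
    rw [hab]
    exact (h.qq_inV hX' b).1
  have hzM : z ∈ L.MC (C ∩ C') := by
    rw [hz]
    exact hmc (g 1) (g' 1) (he 0 hl)
  have hzlev : L.lev z = C.card := by
    rw [hz]
    exact hlev
  have hzr : ¬ (L.FC (C ∩ C')).Reachable z L.r := by
    intro h1
    have h2 := h.lev_le (C := C ∩ C') (x := z) ⟨hzM, h1.symm⟩
    omega
  by_cases hx1 : (L.FC (C ∩ C')).Reachable z X
  · refine Or.inl ⟨h.fc_reach_mem hzM hx1, g' 1, hgn' 1 (by omega), ?_⟩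
    rw [← hz']
    exact hx1.symm
  by_cases hx2 : (L.FC (C ∩ C')).Reachable z X'
  · refine Or.inr (Or.inl ⟨h.fc_reach_mem hzM hx2, g 1, hgn 1 (by omega), ?_⟩)
    rw [← hz]
    exact hx2.symm
  refine Or.inr (Or.inr ⟨z, hzM, hzlev, ?_⟩)
  obtain ⟨a, b, hp, hpa, hpb⟩ := pass_around (F := L.FC (C ∩ C')) (z := z) (Q := L.qq C X) (n := L.dd C X) (c0 := g 1)
    (by rw [h.qq_zero hX]; exact hzr) (by rw [LSys.qq_end]; exact hx1) (hgn 1 (by omega))
    (by rw [← hz])
  obtain ⟨a', b', hp', hpa', hpb'⟩ := pass_around (F := L.FC (C ∩ C')) (z := z) (Q := L.qq C' X') (n := L.dd C' X')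
    (c0 := g' 1) (by rw [h.qq_zero hX']; exact hzr) (by rw [LSys.qq_end]; exact hx2) (hgn' 1 (by omega))
    (by rw [← hz'])
  have hreach : ∀ i, i < l → (L.FC (C ∩ C')).Reachable z (L.qq C X (g (i + 1))) := by
    intro i
    induction i with
    | zero =>
      intro _
      rw [← hz]
    | succ i ih =>
      intro hi
      have h1 := ih (by omega)
      refine h1.trans (h.fc_span (hmc _ _ (he i (by omega))) (hmc _ _ (he (i + 1) hi)) ?_)
      exact step45 h hX hg hgn (i + 1) (by omega)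
  have hreach' : ∀ i, i < l → (L.FC (C ∩ C')).Reachable z (L.qq C' X' (g' (i + 1))) := by
    intro i hi
    rw [← he i hi]
    exact hreach i hi
  have hf := fun i hi => step45 h hX hg hgn i hi
  have hf' := fun i hi => step45 h hX' hg' hgn' i hi
  obtain ⟨_, e0, e1, e2⟩ := ess_ne (l := l) (f := fun i => L.qq C X (g i)) (f' := fun i => L.qq C' X' (g' i))
    hf hf' he hE
  refine ⟨a, b, a', b', hp, hp', ?_⟩
  rw [cross_common (h.fc_forest (C ∩ C')) hzM (fun x y hxy => h.fc_mem hxy)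
    (h.qq_trail Finset.inter_subset_left hX) (h.qq_trail Finset.inter_subset_right hX')
    (fun a b _ _ hab => hmc a b hab) hp hp' hl hg hg' (stay45 hp ⟨hpa, hpb⟩ hg hreach)
    (stay45 hp' ⟨hpa', hpb'⟩ hg' hreach') he e0 e1 e2]
  exact ess_sum (l := l) (f := fun i => L.qq C X (g i)) (f' := fun i => L.qq C' X' (g' i))
    hf hf' (nb45 h hX hg hgn) (nb45 h hX' hg' hgn') he hE

end Pool.Agent.Helper46.RM
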