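import Pool.Agent.Helper46.RM.Ec3
import Pool.Agent.Helper46.RM.Ec4
import Pool.Agent.Helper46.RM.Ec5

/-!
# Block RM-E6: essentially crossing routes give crossing paths of the same level.

Let `u, ϖ, w, u', w'` be as in `Ess`, `l = ϖ.length` (`> 0` by `EssAt`). By `runs_rlist` there is `o` with `ϖ i = rt x (o+i)`, `w = rt x (o+l)`, and for `x'`
(1) `o'` with `ϖ i = rt x' (o'+i)`, `w' = rt x' (o'+l)`, `u' = rt x' (o'-1)` if `o' > 0`; or (2) (`runs_rev`) `o'` with `ϖ.reverse i = rt x' (o'+i)`, i.e.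
`ϖ i = rt x' (o'+(l-1-i))`, `u' = rt x' (o'+l)`, `w' = rt x' (o'-1)` if `o' > 0`.
`same_dir` (with `w ≠ w'`: from `EssAt`, for `l = 1` because `w, u` are opposite neighbours of the point and `w', u'` too; `u` is a
neighbour of `ϖ 0` also for `o = 0` by `hy`) or `opp_dir` (for `l = 1`: `w ≠ u'` by
`EssAt`) gives the level `t ≥ 1` of all `ϖ i`. Let `X = px x t`, `C = cmin X = stC x (o+i)` (`px_stC`), `X' = px x' t`, `C' = cmin X'`; `C ≠ C'`,
`C.card = C'.card = t` (`px_inV`), so `(C ∩ C').card < t`. `t ≤ lev x`: `lev_anti` from position `0`.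
`piece` for `k = o + l - 1` (`< rlen x`): with `j = pst x t ≤ o` (`pst_le`) and `n = dd C X`, `A = n - (o - j)`: `ϖ i = qq C X (A - i)`, `w = qq C X (A - l)`,
`l ≤ A ≤ n`, and if `j < o` then `A < n` and `u = rt x (o-1) = qq C X (A+1)`; if `j = o` then `ϖ 0 = X`. The same for `x'`: `A'`, `n'`.
If `j = o`: `X = ϖ 0` is in `MC C` and in `MC C'`, `= qq C' X' a` for some `a ≤ n'`: first alternative of `Pair` (`Reachable.refl`). If `j' = o'`: second
alternative. Otherwise `pair_core` with `g i = A + 1 - i` and `g' i = A' + 1 - i` in case (1), `g' i = A' - l + i` in case (2)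
(for `i ≤ l + 1`; define `g` by these formulas; `g i = g (i+1) + 1` for `i ≤ l` since `l ≤ A`).
-/

namespace Pool.Agent.Helper46.RM

open scoped Classical

variable {ι : Type*} {L : LSys ι}

private theorem side_h54 (h : L.OK) {x : P2} (hx : ∃ C, L.InV C x) {o l t : ℕ} (hl : 0 < l)
    (ho : o + l ≤ L.rlen x) (hlev : ∀ i, i < l → L.lev (L.rt x (o + i)) = t) :
    ∃ A, l ≤ A ∧ A ≤ L.dd (L.cmin (L.px x t)) (L.px x t) ∧
      (∀ i, i ≤ l → L.rt x (o + i) = L.qq (L.cmin (L.px x t)) (L.px x t) (A - i)) ∧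
      (L.px x t = L.rt x (o + 0) ∨ (0 < o ∧ A + 1 ≤ L.dd (L.cmin (L.px x t)) (L.px x t) ∧
        L.rt x (o - 1) = L.qq (L.cmin (L.px x t)) (L.px x t) (A + 1))) := by
  have h0 : L.lev (L.rt x o) = t := hlev 0 hl
  have hk : L.lev (L.rt x (o + l - 1)) = t := by
    have h1 := hlev (l - 1) (by omega)
    have e1 : o + l - 1 = o + (l - 1) := by omega
    rw [e1]
    exact h1
  have hkn : o + l - 1 < L.rlen x := by omega
  have hj := LSys.pst_le h0
  have hp := fun u hu => h.piece hx hkn hk (u := u) hu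
  have hpx : L.px x t = L.rt x (L.pst x t) := rfl
  generalize hn : L.dd (L.cmin (L.px x t)) (L.px x t) = n at hp ⊢
  generalize hjj : L.pst x t = j at hp hj hpx
  have hi : ∀ i, i ≤ l → (o - j + i ≤ n ∧ L.rt x (o + i) =
      L.qq (L.cmin (L.px x t)) (L.px x t) (n - (o - j + i))) := by
    intro i hi
    have h1 := hp (o - j + i) (by omega)
    have e1 : j + (o - j + i) = o + i := by omega
    rw [e1] at h1
    exact h1
  refine ⟨n - (o - j), ?_, Nat.sub_le _ _, ?_, ?_⟩
  · have h1 := (hi l le_rfl).1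
    omega
  · intro i hi1
    have h1 := (hi i hi1).2
    have e1 : n - (o - j) - i = n - (o - j + i) := by omega
    rw [e1]
    exact h1
  · rcases Nat.lt_or_ge j o with h1 | h1
    · refine Or.inr ⟨by omega, ?_, ?_⟩
      · have h2 := (hi 0 (by omega)).1
        omega
      · have h2 := hp (o - 1 - j) (by omega)
        have h3 := (hi 0 (by omega)).1
        have e1 : j + (o - 1 - j) = o - 1 := by omega
        have e2 : n - (o - j) + 1 = n - (o - 1 - j) := by omega
        rw [e1] at h2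
        rw [e2]
        exact h2.2
    · have h2 : j = o := le_antisymm hj h1
      left
      rw [hpx, h2]
      rfl

private theorem fin_h54 (h : L.OK) {C C' : Finset ι} {X X' : P2} (hX : L.InV C X) (hX' : L.InV C' X') {l : ℕ}
    (hl : 0 < l) {f : ℕ → P2} {g g' : ℕ → ℕ} {u w u' w' : P2}
    (hEs : EssAt u ((List.range l).map f) w u' w')
    (hg : (∀ i, i ≤ l → g (i + 1) = g i + 1) ∨ (∀ i, i ≤ l → g i = g (i + 1) + 1))
    (hg' : (∀ i, i ≤ l → g' (i + 1) = g' i + 1) ∨ (∀ i, i ≤ l → g' i = g' (i + 1) + 1))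
    (hq : ∀ i, i < l → f i = L.qq C X (g (i + 1))) (hq' : ∀ i, i < l → f i = L.qq C' X' (g' (i + 1)))
    (hb : ∀ i, i < l → g (i + 1) ≤ L.dd C X) (hb' : ∀ i, i < l → g' (i + 1) ≤ L.dd C' X')
    (hs : (∃ i, i < l ∧ X = f i) ∨ ((∀ i, i ≤ l + 1 → g i ≤ L.dd C X) ∧ u = L.qq C X (g 0) ∧
      w = L.qq C X (g (l + 1))))
    (hs' : (∃ i, i < l ∧ X' = f i) ∨ ((∀ i, i ≤ l + 1 → g' i ≤ L.dd C' X') ∧ u' = L.qq C' X' (g' 0) ∧
      w' = L.qq C' X' (g' (l + 1))))
    (hlev : L.lev (f 0) = C.card) (hlt : (C ∩ C').card < C.card) : L.Pair C C' X X' := by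
  rcases hs with ⟨i, hi, hXi⟩ | ⟨hgn, hu, hw⟩
  · have h1 : X = L.qq C' X' (g' (i + 1)) := by rw [hXi, hq' i hi]
    refine Or.inl ⟨LSys.mc_inter hX.1 ?_, g' (i + 1), hb' i hi, ?_⟩
    · rw [h1]
      exact (h.qq_inV hX' _).1
    · rw [← h1]
  rcases hs' with ⟨i, hi, hXi⟩ | ⟨hgn', hu', hw'⟩
  · have h1 : X' = L.qq C X (g (i + 1)) := by rw [hXi, hq i hi]
    refine Or.inr (Or.inl ⟨LSys.mc_inter ?_ hX'.1, g (i + 1), hb i hi, ?_⟩)
    · rw [h1]
      exact (h.qq_inV hX _).1
    · rw [← h1]
  have hm : (List.range l).map (fun i => L.qq C X (g (i + 1))) = (List.range l).map f :=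
    List.map_congr_left (fun i hi => (hq i (List.mem_range.1 hi)).symm)
  refine h.pair_core hX hX' hl hg hg' hgn hgn' ?_ ?_ ?_ hlt
  · intro i hi
    rw [← hq i hi, ← hq' i hi]
  · rw [hm, ← hu, ← hw, ← hu', ← hw']
    exact hEs
  · have h1 := hq 0 hl
    rw [Nat.zero_add] at h1
    rw [← h1]
    exact hlev

private theorem fadj_h54 (h : L.OK) {x y u : P2} (hx : ∃ C, L.InV C x) (hy : LAdj y x) {o l : ℕ}
    (hu0 : o = 0 → u = y) (hu1 : ∀ o', o = o' + 1 → u = L.rt x o') (ho : o + l ≤ L.rlen x) (hl : 0 < l) :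
    LAdj u (L.rt x (o + 0)) := by
  rcases o with _ | o
  · rw [hu0 rfl]
    exact hy
  · rw [hu1 o rfl]
    exact h.rt_adj hx (by omega)

/-- the end of the proof: both states and the pieces are known -/
private theorem end_h54 (h : L.OK) {x x' : P2} (hx : ∃ C, L.InV C x) (hx' : ∃ C, L.InV C x') {t k k' : ℕ}
    (ht : 1 ≤ t) (hk : L.lev (L.rt x k) = t) (hk' : L.lev (L.rt x' k') = t) (hne : L.stC x k ≠ L.stC x' k')
    (hP : L.InV (L.cmin (L.px x t)) (L.px x t) → L.InV (L.cmin (L.px x' t)) (L.px x' t) →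
      (L.cmin (L.px x t)).card = t →
      (L.cmin (L.px x t) ∩ L.cmin (L.px x' t)).card < (L.cmin (L.px x t)).card →
      L.Pair (L.cmin (L.px x t)) (L.cmin (L.px x' t)) (L.px x t) (L.px x' t)) :
    ∃ t, 1 ≤ t ∧ t ≤ L.lev x ∧ L.lev (L.px x t) = t ∧
      L.lev (L.px x' t) = t ∧ L.InV (L.cmin (L.px x t)) (L.px x t) ∧ L.InV (L.cmin (L.px x' t)) (L.px x' t) ∧
      (L.cmin (L.px x t)).card = t ∧ (L.cmin (L.px x' t)).card = t ∧ L.cmin (L.px x t) ≠ L.cmin (L.px x' t) ∧
      L.Pair (L.cmin (L.px x t)) (L.cmin (L.px x' t)) (L.px x t) (L.px x' t) := by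
  have h1 := h.px_inV hx hk
  have h1' := h.px_inV hx' hk'
  have h2 : L.cmin (L.px x t) ≠ L.cmin (L.px x' t) := by
    rw [← h.px_stC hx hk, ← h.px_stC hx' hk']
    exact hne
  have h3 : t ≤ L.lev x := by
    have h4 := h.lev_anti hx (Nat.zero_le k)
    rw [hk] at h4
    exact h4
  refine ⟨t, ht, h3, LSys.px_lev hk, LSys.px_lev hk', h1.1, h1'.1, h1.2, h1'.2, h2, ?_⟩
  refine hP h1.1 h1'.1 h1.2 ?_
  by_contra h4
  apply h2
  have h5 : L.cmin (L.px x t) ∩ L.cmin (L.px x' t) = L.cmin (L.px x t) :=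
    Finset.eq_of_subset_of_card_le Finset.inter_subset_left (by omega)
  refine Finset.eq_of_subset_of_card_le (Finset.inter_eq_left.1 h5) ?_
  rw [h1.2, h1'.2]

theorem LSys.OK.ec_pair (h : L.OK) {x x' y y' : P2} (hx : ∃ C, L.InV C x) (hx' : ∃ C, L.InV C x') (hy : LAdj y x)
    (hy' : LAdj y' x')
    (hE : Ess (y :: L.rlist x) (y' :: L.rlist x')) : ∃ t, 1 ≤ t ∧ t ≤ L.lev x ∧ L.lev (L.px x t) = t ∧
      L.lev (L.px x' t) = t ∧ L.InV (L.cmin (L.px x t)) (L.px x t) ∧ L.InV (L.cmin (L.px x' t)) (L.px x' t) ∧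
      (L.cmin (L.px x t)).card = t ∧ (L.cmin (L.px x' t)).card = t ∧ L.cmin (L.px x t) ≠ L.cmin (L.px x' t) ∧
      L.Pair (L.cmin (L.px x t)) (L.cmin (L.px x' t)) (L.px x t) (L.px x' t) := by
  obtain ⟨u, ϖ, w, u', w', hEs, hR, hR'⟩ := hE
  obtain ⟨o, ho, hϖ, hw, hu0, hu1⟩ := LSys.runs_rlist hR
  obtain ⟨l, hl⟩ : ∃ l, l = ϖ.length := ⟨_, rfl⟩
  rw [← hl] at ho hϖ hw
  have hlpos : 0 < l := by
    rcases Nat.eq_zero_or_pos l with h1 | h1
    · rw [hϖ, h1] at hEs
      exact absurd hEs (by simp [EssAt])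
    · exact h1
  have hfu := fadj_h54 h hx hy hu0 hu1 ho hlpos
  -- the first walk
  have hf : ∀ i, i ≤ l → LAdj ((fun i => if i = 0 then u else L.rt x (o + i - 1)) i)
      ((fun i => if i = 0 then u else L.rt x (o + i - 1)) (i + 1)) := by
    intro i hi
    rcases i with _ | i
    · simpa using hfu
    · have h1 := h.rt_adj hx (show o + i < L.rlen x by omega)
      simpa [Nat.add_assoc] using h1
  have hEs2 := hEs
  rw [hϖ] at hEs2
  rcases hR' with hR' | hR'
  · obtain ⟨o', ho', hϖ', hw', hu0', hu1'⟩ := LSys.runs_rlist hR'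
    rw [← hl] at ho' hϖ' hw'
    have hfu' := fadj_h54 h hx' hy' hu0' hu1' ho' hlpos
    have hf' : ∀ i, i ≤ l → LAdj ((fun i => if i = 0 then u' else L.rt x' (o' + i - 1)) i)
        ((fun i => if i = 0 then u' else L.rt x' (o' + i - 1)) (i + 1)) := by
      intro i hi
      rcases i with _ | i
      · simpa using hfu'
      · have h1 := h.rt_adj hx' (show o' + i < L.rlen x' by omega)
        simpa [Nat.add_assoc] using h1
    have he : ∀ i, i < l → L.rt x (o + i) = L.rt x' (o' + i) := by
      intro i hi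
      exact List.map_inj_left.1 (hϖ.symm.trans hϖ') i (List.mem_range.2 hi)
    obtain ⟨_, e0, e1, e2⟩ := ess_ne (l := l) (f := fun i => if i = 0 then u else L.rt x (o + i - 1))
      (f' := fun i => if i = 0 then u' else L.rt x' (o' + i - 1)) hf hf'
      (by intro i hi; simpa [Nat.add_assoc] using he i hi)
      (by
        have h1 : EssAt u ((List.range l).map (fun i => L.rt x (o + i))) (L.rt x (o + l)) u' (L.rt x' (o' + l)) := by
          rw [← hw, ← hw']
          exact hEs2
        simpa [Nat.add_assoc] using h1)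
    have hww : L.rt x (o + l) ≠ L.rt x' (o' + l) := by simpa [Nat.add_assoc] using e1
    obtain ⟨t, ht1, ht2, ht3⟩ := h.same_dir hx hx' hlpos ho ho' he hww
    have ht2' : ∀ i, i < l → L.lev (L.rt x' (o' + i)) = t := by
      intro i hi
      rw [← he i hi]
      exact ht2 i hi
    refine end_h54 h hx hx' ht1 (ht2 0 hlpos) (ht2' 0 hlpos) (ht3 0 hlpos) ?_
    intro hX hX' hc hlt
    obtain ⟨A, hA1, hA2, hA3, hA4⟩ := side_h54 h hx hlpos ho ht2
    obtain ⟨A', hA1', hA2', hA3', hA4'⟩ := side_h54 h hx' hlpos ho' ht2'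
    refine fin_h54 h hX hX' hlpos (f := fun i => L.rt x (o + i)) (g := fun i => A + 1 - i)
      (g' := fun i => A' + 1 - i) hEs2 (Or.inr ?_) (Or.inr ?_) ?_ ?_ ?_ ?_ ?_ ?_ ?_ hlt
    · intro i hi
      omega
    · intro i hi
      omega
    · intro i hi
      have e3 : A + 1 - (i + 1) = A - i := by omega
      simp only [e3]
      exact hA3 i hi.le
    · intro i hi
      have e3 : A' + 1 - (i + 1) = A' - i := by omega
      simp only [e3]
      rw [he i hi]
      exact hA3' i hi.le
    · intro i hi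
      omega
    · intro i hi
      omega
    · rcases hA4 with h1 | ⟨h1, h2, h3⟩
      · exact Or.inl ⟨0, hlpos, h1⟩
      · refine Or.inr ⟨?_, ?_, ?_⟩
        · intro i hi
          omega
        · simp only [Nat.sub_zero]
          rw [← h3]
          exact hu1 (o - 1) (by omega)
        · have e3 : A + 1 - (l + 1) = A - l := by omega
          simp only [e3]
          rw [← hA3 l le_rfl]
          exact hw
    · rcases hA4' with h1 | ⟨h1, h2, h3⟩
      · exact Or.inl ⟨0, hlpos, by rw [h1, ← he 0 hlpos]⟩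
      · refine Or.inr ⟨?_, ?_, ?_⟩
        · intro i hi
          omega
        · simp only [Nat.sub_zero]
          rw [← h3]
          exact hu1' (o' - 1) (by omega)
        · have e3 : A' + 1 - (l + 1) = A' - l := by omega
          simp only [e3]
          rw [← hA3' l le_rfl]
          exact hw'
    · rw [hc]
      exact ht2 0 hlpos
  · have hR2 := runs_rev hR'
    obtain ⟨o', ho', hϖ', hw', hu0', hu1'⟩ := LSys.runs_rlist hR2
    rw [List.length_reverse, ← hl] at ho' hϖ' hw'
    have hfu' := fadj_h54 h hx' hy' hu0' hu1' ho' hlpos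
    have he : ∀ i, i < l → L.rt x (o + i) = L.rt x' (o' + (l - 1 - i)) := by
      intro i hi
      have h1 : ϖ[i]? = some (L.rt x (o + i)) := by
        rw [hϖ]
        simp [hi]
      have h2 : ϖ.reverse[l - 1 - i]? = some (L.rt x' (o' + (l - 1 - i))) := by
        rw [hϖ']
        simp only [List.getElem?_map]
        rw [List.getElem?_range (by omega)]
        rfl
      rw [List.getElem?_reverse (by omega), ← hl] at h2
      have e3 : l - 1 - (l - 1 - i) = i := by omega
      rw [e3, h1] at h2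
      exact Option.some.inj h2
    have hf' : ∀ i, i ≤ l → LAdj ((fun i => if i = l + 1 then w' else L.rt x' (o' + l - i)) i)
        ((fun i => if i = l + 1 then w' else L.rt x' (o' + l - i)) (i + 1)) := by
      intro i hi
      rcases Nat.lt_or_ge i l with h1 | h1
      · have h2 := h.rt_adj hx' (show o' + (l - 1 - i) < L.rlen x' by omega)
        have e3 : o' + l - (i + 1) = o' + (l - 1 - i) := by omega
        have e4 : o' + l - i = o' + (l - 1 - i) + 1 := by omega
        have e5 : i ≠ l + 1 := by omega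
        have e6 : i + 1 ≠ l + 1 := by omega
        simp only [e5, e6, if_false, e3, e4]
        exact h2.symm
      · have h2 : i = l := le_antisymm hi h1
        subst h2
        have e5 : i ≠ i + 1 := by omega
        have e4 : o' + i - i = o' + 0 := by omega
        simp only [e5, if_false, if_true, e4]
        exact hfu'.symm
    have hm : (List.range l).map (fun i => L.rt x (o + i)) =
        (List.range l).map (fun i => (fun i => if i = 0 then u else L.rt x (o + i - 1)) (i + 1)) := by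
      refine List.map_congr_left (fun i _ => ?_)
      simp
    obtain ⟨_, e0, e1, e2⟩ := ess_ne (l := l) (f := fun i => if i = 0 then u else L.rt x (o + i - 1))
      (f' := fun i => if i = l + 1 then w' else L.rt x' (o' + l - i)) hf hf'
      (by
        intro i hi
        have e5 : i + 1 ≠ l + 1 := by omega
        have e3 : o' + l - (i + 1) = o' + (l - 1 - i) := by omega
        have e7 : i + 1 ≠ 0 := by omega
        have e8 : o + (i + 1) - 1 = o + i := by omega
        simp only [e5, e7, if_false, e3, e8]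
        exact he i hi)
      (by
        rw [← hm]
        have e3 : l + 1 ≠ 0 := by omega
        have e4 : o + (l + 1) - 1 = o + l := by omega
        have e5 : (0 : ℕ) ≠ l + 1 := by omega
        simp only [if_true, if_false, e3, e4, e5, Nat.sub_zero]
        rw [← hw, ← hw']
        exact hEs2)
    have hww : l = 1 → L.rt x (o + 1) ≠ L.rt x' (o' + 1) := by
      intro h1
      have h2 := (e2 h1).2
      subst h1
      simpa using h2
    obtain ⟨t, ht1, ht2, ht3⟩ := h.opp_dir hx hx' hlpos ho ho' he hww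
    have ht2' : ∀ i, i < l → L.lev (L.rt x' (o' + i)) = t := by
      intro i hi
      have h1 := he (l - 1 - i) (by omega)
      have e3 : l - 1 - (l - 1 - i) = i := by omega
      rw [e3] at h1
      rw [← h1]
      exact ht2 _ (by omega)
    refine end_h54 h hx hx' ht1 (ht2 0 hlpos) (ht2' (l - 1 - 0) (by omega)) (ht3 0 hlpos) ?_
    intro hX hX' hc hlt
    obtain ⟨A, hA1, hA2, hA3, hA4⟩ := side_h54 h hx hlpos ho ht2
    obtain ⟨A', hA1', hA2', hA3', hA4'⟩ := side_h54 h hx' hlpos ho' ht2'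
    refine fin_h54 h hX hX' hlpos (f := fun i => L.rt x (o + i)) (g := fun i => A + 1 - i)
      (g' := fun i => A' - l + i) hEs2 (Or.inr ?_) (Or.inl ?_) ?_ ?_ ?_ ?_ ?_ ?_ ?_ hlt
    · intro i hi
      omega
    · intro i hi
      omega
    · intro i hi
      have e3 : A + 1 - (i + 1) = A - i := by omega
      simp only [e3]
      exact hA3 i hi.le
    · intro i hi
      have e3 : A' - l + (i + 1) = A' - (l - 1 - i) := by omega
      simp only [e3]
      rw [he i hi]
      exact hA3' _ (by omega)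
    · intro i hi
      omega
    · intro i hi
      omega
    · rcases hA4 with h1 | ⟨h1, h2, h3⟩
      · exact Or.inl ⟨0, hlpos, h1⟩
      · refine Or.inr ⟨?_, ?_, ?_⟩
        · intro i hi
          omega
        · simp only [Nat.sub_zero]
          rw [← h3]
          exact hu1 (o - 1) (by omega)
        · have e3 : A + 1 - (l + 1) = A - l := by omega
          simp only [e3]
          rw [← hA3 l le_rfl]
          exact hw
    · rcases hA4' with h1 | ⟨h1, h2, h3⟩
      · refine Or.inl ⟨l - 1, by omega, ?_⟩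
        have h4 := he (l - 1) (by omega)
        have e3 : l - 1 - (l - 1) = 0 := by omega
        rw [e3] at h4
        rw [h1, ← h4]
      · refine Or.inr ⟨?_, ?_, ?_⟩
        · intro i hi
          omega
        · simp only [Nat.add_zero]
          rw [← hA3' l le_rfl]
          exact hw'
        · have e3 : A' - l + (l + 1) = A' + 1 := by omega
          simp only [e3]
          rw [← h3]
          exact hu1' (o' - 1) (by omega)
    · rw [hc]
      exact ht2 0 hlpos

end Pool.Agent.Helper46.RM
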