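import Pool.Agent.Helper46.RM.Fan1
import Pool.Agent.Helper46.RM.Ec

/-!
# Block RM-F2: the fan theorem.

`fan_level`: let `h = max 2` of the numbers of `fan_sys p` for `1 ≤ p ≤ t` (`Finset.sup`), `N` from `sunflower t h`. The sets `cmin (X i)` are different, so
there are `φ : Fin h → Fin N` and `K` with `cmin (X (φ i)) ∩ cmin (X (φ j)) = K` for `i ≠ j`; `K ⊆ cmin (X (φ i))` (`h ≥ 2`), and `K.card < t` (otherwise
`cmin (X (φ 0)) = K = cmin (X (φ 1))`). `fan_sys` for `p = t - K.card`, restricted by `Fin.castLE`.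
`fan`: `h = max 2` of the numbers of `fan_level t`, `t ≤ s0`; `N` from `ram2` for `Fin (s0 + 1)` and `h`. Colour `i < j` by the level `t` of `ec_pair` (`t ≤ lev (x i)
≤ s0` by `lev_le`). The homogeneous subfamily with the points `px (x i) t` contradicts `fan_level t` (each `i` is in a pair, as `h ≥ 2`).
-/

namespace Pool.Agent.Helper46.RM

open scoped Classical

private theorem fan_level26.{u} (t : ℕ) : ∃ N : ℕ, ∀ {ι : Type u} (L : LSys ι) (X : Fin N → P2), L.OK →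
    (∀ i, (L.cmin (X i)).card = t) → (∀ i, L.lev (X i) = t) → (∀ i, L.InV (L.cmin (X i)) (X i)) →
    (∀ i j, i < j → L.cmin (X i) ≠ L.cmin (X j)) →
    (∀ i j, i < j → L.Pair (L.cmin (X i)) (L.cmin (X j)) (X i) (X j)) → False := by
  have h0 : ∀ p : ℕ, ∃ N : ℕ, 1 ≤ p → ∀ {ι : Type u} (L : LSys ι) (K : Finset ι) (X : Fin N → P2), L.OK →
      (∀ i, K ⊆ L.cmin (X i)) → (∀ i j, i ≠ j → L.cmin (X i) ∩ L.cmin (X j) = K) →
      (∀ i, (L.cmin (X i)).card = K.card + p) → (∀ i, L.lev (X i) = K.card + p) →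
      (∀ i, L.InV (L.cmin (X i)) (X i)) →
      (∀ i j, i < j → L.Pair (L.cmin (X i)) (L.cmin (X j)) (X i) (X j)) → False := by
    intro p
    by_cases hp : 1 ≤ p
    · obtain ⟨N, hN⟩ := fan_sys p hp
      exact ⟨N, fun _ => hN⟩
    · exact ⟨0, fun hp' => absurd hp' hp⟩
  choose NF hNF using h0
  obtain ⟨N, hN⟩ := sunflower t (max 2 ((Finset.range (t + 1)).sup NF))
  refine ⟨N, fun {ι} L X hL hc hl hi hne hP => ?_⟩
  obtain ⟨φ, K, hφ, hK⟩ := hN (fun i => L.cmin (X i)) hc (by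
    intro i j hij
    by_contra hn
    rcases lt_or_gt_of_ne hn with h1 | h1
    · exact hne i j h1 hij
    · exact hne j i h1 hij.symm)
  have h2 : 2 ≤ max 2 ((Finset.range (t + 1)).sup NF) := le_max_left _ _
  have hex : ∀ i : Fin (max 2 ((Finset.range (t + 1)).sup NF)), ∃ j, i ≠ j := by
    intro i
    by_cases hi0 : i.1 = 0
    · refine ⟨⟨1, by omega⟩, fun h3 => ?_⟩
      have h4 := congrArg Fin.val h3
      rw [hi0] at h4
      exact absurd h4 (by norm_num)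
    · refine ⟨⟨0, by omega⟩, fun h3 => ?_⟩
      exact hi0 (congrArg Fin.val h3)
  have hsub : ∀ i, K ⊆ L.cmin (X (φ i)) := by
    intro i
    obtain ⟨j, hj⟩ := hex i
    rw [← hK i j hj]
    exact Finset.inter_subset_left
  have hKt : K.card < t := by
    by_contra hcon
    have h3 : ∀ i, K = L.cmin (X (φ i)) := by
      intro i
      refine Finset.eq_of_subset_of_card_le (hsub i) ?_
      rw [hc]
      omega
    have h4 : (⟨0, by omega⟩ : Fin (max 2 ((Finset.range (t + 1)).sup NF))) < ⟨1, by omega⟩ := by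
      rw [Fin.mk_lt_mk]
      omega
    exact hne _ _ (hφ h4) ((h3 _).symm.trans (h3 _))
  have hle : NF (t - K.card) ≤ max 2 ((Finset.range (t + 1)).sup NF) :=
    le_trans (Finset.le_sup (f := NF) (Finset.mem_range.2 (by omega))) (le_max_right _ _)
  have hψ : ∀ i j : Fin (NF (t - K.card)), i < j → φ (Fin.castLE hle i) < φ (Fin.castLE hle j) :=
    fun i j hij => hφ hij
  refine hNF (t - K.card) (by omega) L K (fun i => X (φ (Fin.castLE hle i))) hL (fun i => hsub _) ?_ ?_ ?_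
    (fun i => hi _) (fun i j hij => hP _ _ (hψ i j hij))
  · intro i j hij
    exact hK _ _ (fun h5 => hij (Fin.castLE_injective hle h5))
  · intro i
    rw [hc]
    omega
  · intro i
    rw [hl]
    omega

theorem fan_level (t : ℕ) : ∃ N : ℕ, ∀ {ι : Type*} (L : LSys ι) (X : Fin N → P2), L.OK →
    (∀ i, (L.cmin (X i)).card = t) → (∀ i, L.lev (X i) = t) → (∀ i, L.InV (L.cmin (X i)) (X i)) →
    (∀ i j, i < j → L.cmin (X i) ≠ L.cmin (X j)) →
    (∀ i j, i < j → L.Pair (L.cmin (X i)) (L.cmin (X j)) (X i) (X j)) → False := by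
  exact fan_level26 t

private def Spec26 {ι : Type*} (L : LSys ι) (x x' : P2) (t : ℕ) : Prop :=
  L.lev (L.px x t) = t ∧
      L.lev (L.px x' t) = t ∧ L.InV (L.cmin (L.px x t)) (L.px x t) ∧ L.InV (L.cmin (L.px x' t)) (L.px x' t) ∧
      (L.cmin (L.px x t)).card = t ∧ (L.cmin (L.px x' t)).card = t ∧ L.cmin (L.px x t) ≠ L.cmin (L.px x' t) ∧
      L.Pair (L.cmin (L.px x t)) (L.cmin (L.px x' t)) (L.px x t) (L.px x' t)

private theorem fan26.{u} (s0 : ℕ) : ∃ N : ℕ, ∀ {ι : Type u} (L : LSys ι) (x y : Fin N → P2), L.OK →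
    (∀ i, ∃ C : Finset ι, C.card ≤ s0 ∧ L.InV C (x i)) → (∀ i, LAdj (y i) (x i)) →
    (∀ i j, i < j → Ess (y i :: L.rlist (x i)) (y j :: L.rlist (x j))) → False := by
  choose NL hNL using fan_level26.{u}
  obtain ⟨N, hN⟩ := ram2 (Fin (s0 + 1)) (max 2 ((Finset.range (s0 + 1)).sup NL))
  refine ⟨N, fun {ι} L x y hL hx hy hE => ?_⟩
  have hx1 : ∀ i, ∃ C, L.InV C (x i) := fun i => by
    obtain ⟨C, _, hC⟩ := hx i
    exact ⟨C, hC⟩
  have hlev : ∀ i, L.lev (x i) ≤ s0 := fun i => by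
    obtain ⟨C, hc, hC⟩ := hx i
    exact (hL.lev_le hC).trans hc
  have hex : ∀ i j, i < j → ∃ t : Fin (s0 + 1), Spec26 L (x i) (x j) t.1 := by
    intro i j hij
    obtain ⟨t, _, ht2, ht⟩ := hL.ec_pair (hx1 i) (hx1 j) (hy i) (hy j) (hE i j hij)
    have h1 := hlev i
    exact ⟨⟨t, by omega⟩, ht⟩
  obtain ⟨φ, hφ, k0, hk⟩ := hN (fun i j =>
    if h : ∃ t : Fin (s0 + 1), Spec26 L (x i) (x j) t.1 then h.choose else 0)
  have hS : ∀ i j, i < j → Spec26 L (x (φ i)) (x (φ j)) k0.1 := by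
    intro i j hij
    have h1 := hk i j hij
    have h2 := hex _ _ (hφ hij)
    rw [dif_pos h2] at h1
    rw [← h1]
    exact h2.choose_spec
  have h2 : 2 ≤ max 2 ((Finset.range (s0 + 1)).sup NL) := le_max_left _ _
  have hone : ∀ i, L.lev (L.px (x (φ i)) k0.1) = k0.1 ∧
      L.InV (L.cmin (L.px (x (φ i)) k0.1)) (L.px (x (φ i)) k0.1) ∧
      (L.cmin (L.px (x (φ i)) k0.1)).card = k0.1 := by
    intro i
    by_cases hi0 : i.1 = 0
    · have h3 : i < ⟨1, by omega⟩ := by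
        rw [Fin.lt_def, hi0]
        exact Nat.one_pos
      obtain ⟨s1, _, s3, _, s5, _⟩ := hS _ _ h3
      exact ⟨s1, s3, s5⟩
    · have h3 : (⟨0, by omega⟩ : Fin (max 2 ((Finset.range (s0 + 1)).sup NL))) < i := by
        rw [Fin.lt_def]
        exact Nat.pos_of_ne_zero hi0
      obtain ⟨_, s2, _, s4, _, s6, _⟩ := hS _ _ h3
      exact ⟨s2, s4, s6⟩
  have hle : NL k0.1 ≤ max 2 ((Finset.range (s0 + 1)).sup NL) :=
    le_trans (Finset.le_sup (f := NL) (Finset.mem_range.2 k0.2)) (le_max_right _ _)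
  exact hNL k0.1 L (fun i => L.px (x (φ (Fin.castLE hle i))) k0.1) hL (fun i => (hone _).2.2)
    (fun i => (hone _).1) (fun i => (hone _).2.1)
    (fun i j hij => (hS (Fin.castLE hle i) (Fin.castLE hle j) hij).2.2.2.2.2.2.1)
    (fun i j hij => (hS (Fin.castLE hle i) (Fin.castLE hle j) hij).2.2.2.2.2.2.2)

theorem fan (s0 : ℕ) : ∃ N : ℕ, ∀ {ι : Type*} (L : LSys ι) (x y : Fin N → P2), L.OK →
    (∀ i, ∃ C : Finset ι, C.card ≤ s0 ∧ L.InV C (x i)) → (∀ i, LAdj (y i) (x i)) →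
    (∀ i j, i < j → Ess (y i :: L.rlist (x i)) (y j :: L.rlist (x j))) → False := by
  exact fan26 s0

end Pool.Agent.Helper46.RM
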