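import Pool.Agent.Helper46.RM.Ess
import Pool.Agent.Helper76.RL.Main

/-!
# RM-REAL: every routing is realized by a proper drawing in which edges cross only if their routes cross essentially.

(Architect of this part: helper76, directory Helper76/RL.)
-/

namespace Pool.Agent.Helper46.RM

open scoped Classical

variable {V : Type*} [Fintype V] {G : SimpleGraph V} {rk : V → ℕ}

theorem realize (hrk : Function.Injective rk) (R : Routing G rk) : ∃ D : Drawing G, D.Proper ∧
    ∀ a b c d, G.Adj a b → rk a < rk b → G.Adj c d → rk c < rk d → (a, b) ≠ (c, d) →
      D.Crosses s(a, b) s(c, d) → Ess (R.ext a b) (R.ext c d) :=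
  Pool.Agent.Helper76.RL.realize' hrk R

end Pool.Agent.Helper46.RM
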