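import Pool.Agent.Helper46.RM.Rank
import Pool.Agent.Helper46.RM.Real
import Pool.Agent.Helper46.RM.Fan

/-!
# Project RM: assembly. Definitions, part 8.

`reg L rk v`: the rectangle of `v` and the walks of all edges `a v` with `rk a < rk v`.
`sysv L rk wt ord v`: the level system with `S = reg v`, the colour classes `reg u`, `u ≠ v`, and the root `lo v`.
`hd L a v`: the first point of the walk of `a v`.
`rte v a`: the part of the route of `hd a v` before the first point of the rectangle of `v`; `fin v a`: this first point.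
-/

namespace Pool.Agent.Helper46.RM

open scoped Classical

noncomputable section

variable {V : Type*} {G : SimpleGraph V}

def reg (L : LatDraw G) (rk : V → ℕ) (v : V) : Set P2 :=
  {p | p ∈ L.blob v ∨ ∃ a, G.Adj a v ∧ rk a < rk v ∧ p ∈ L.W a v}

def sysv (L : LatDraw G) (rk : V → ℕ) (wt : Sym2 P2 → ℕ) (ord : Finset V → ℕ) (v : V) : LSys V where
  S := reg L rk v
  T := fun u => if u = v then ∅ else reg L rk u
  r := L.lo v
  wt := wt
  ord := ord

def hd (L : LatDraw G) (a v : V) : P2 := (L.W a v).headD (0, 0)

def rte (L : LatDraw G) (rk : V → ℕ) (wt : Sym2 P2 → ℕ) (ord : Finset V → ℕ) (a v : V) : List P2 :=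
  ((sysv L rk wt ord v).rlist (hd L a v)).takeWhile (fun p => decide (p ∉ L.blob v))

def fin (L : LatDraw G) (rk : V → ℕ) (wt : Sym2 P2 → ℕ) (ord : Finset V → ℕ) (a v : V) : P2 :=
  (((sysv L rk wt ord v).rlist (hd L a v)).dropWhile (fun p => decide (p ∉ L.blob v))).headD (0, 0)

/-- a point of the rectangle of `a` next to `hd a v` -/
def st0 (L : LatDraw G) (a v : V) : P2 := if h : ∃ y, y ∈ L.blob a ∧ LAdj y (hd L a v) then h.choose else (0, 0)

end

end Pool.Agent.Helper46.RM
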