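import Pool.Agent.Helper46.RM.Asm

/-!
# Block RM-M1: the regions and the level systems of a lattice drawing.

* `exists_wt`: `Sym2 (ℤ × ℤ)` and `Finset V` are countable (`exists_injective_nat`).
* `rect_conn`: two points of a rectangle are joined by an L-shaped walk in it.
* `reg_conn`: the walk `W a v` (`G.Adj a v`) is a lattice chain; its last point is adjacent to a point of the rectangle of `v` (`W_head` for `W v a`, which is the
  reverse of `W a v` by `W_symm`). So every point of the region is joined in the region to the rectangle of `v`.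
* `blob_reg`: a point of the rectangle of `v` is not in `reg u`, `u ≠ v` (`disj`, `W_out`).
* `sysv_ok`: from these.
* `hd_mem`, `st0_spec`: `W_head`.
* `cols_card`: for `a → v` (`G.Adj a v`, `rk a < rk v`) let `C` be the set of `u ≠ v` with a point of `W a v` in `reg u`. Such a point is in no rectangle
  (`W_out`), so on some `W a' u`, `a' → u`; `s(a', u) ≠ s(a, v)` (if `u = a`, `a' = v`: `rk v < rk a`). By `cover` for the edge `a v` there is `C0` with
  `C0.card ≤ 2k` and `a' ∈ C0` or `u ∈ C0`. So `C ⊆ C0 ∪ ⋃_{a' ∈ C0} {u | G.Adj a' u ∧ rk a' < rk u}`, `C.card ≤ 2k + 2k B`.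
  `InV C (hd a v)` by `inV_walk`: from `lo v` in the rectangle to the neighbour of the last point of `W a v`, then back along `W a v` to `hd a v`.
-/

namespace Pool.Agent.Helper46.RM

open scoped Classical

variable {V : Type*} {G : SimpleGraph V}

theorem exists_wt : ∃ wt : Sym2 P2 → ℕ, Function.Injective wt := by
  have : Countable (Sym2 P2) := inferInstanceAs (Countable (Quot _))
  exact exists_injective_nat _

theorem exists_ord (V : Type*) [Fintype V] : ∃ ord : Finset V → ℕ, Function.Injective ord := by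
  exact exists_injective_nat _

private def J67 (T : Set P2) (x y : P2) : Prop := ∃ w : Lat.Walk x y, ∀ z ∈ w.support, z ∈ T

private theorem J67_refl {T : Set P2} {x : P2} (hx : x ∈ T) : J67 T x x := by
  refine ⟨SimpleGraph.Walk.nil, fun z hz => ?_⟩
  rw [SimpleGraph.Walk.support_nil, List.mem_singleton] at hz
  rw [hz]
  exact hx

private theorem J67_symm {T : Set P2} {x y : P2} (h : J67 T x y) : J67 T y x := by
  obtain ⟨w, hw⟩ := h
  refine ⟨w.reverse, fun z hz => hw z ?_⟩
  rw [SimpleGraph.Walk.support_reverse, List.mem_reverse] at hz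
  exact hz

private theorem J67_trans {T : Set P2} {x y z : P2} (h : J67 T x y) (h' : J67 T y z) : J67 T x z := by
  obtain ⟨w, hw⟩ := h
  obtain ⟨w', hw'⟩ := h'
  refine ⟨w.append w', fun u hu => ?_⟩
  rw [SimpleGraph.Walk.mem_support_append_iff] at hu
  rcases hu with hu | hu
  · exact hw u hu
  · exact hw' u hu

private theorem J67_adj {T : Set P2} {x y : P2} (hx : x ∈ T) (hy : y ∈ T) (h : LAdj x y) : J67 T x y := by
  refine ⟨SimpleGraph.Walk.cons (G := Lat) h SimpleGraph.Walk.nil, fun z hz => ?_⟩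
  have hz' : z ∈ [x, y] := hz
  rw [List.mem_cons, List.mem_singleton] at hz'
  rcases hz' with rfl | rfl
  · exact hx
  · exact hy

private theorem rect67 {T : Set P2} {lo hi : P2} (hT : ∀ p ∈ rect lo hi, p ∈ T) :
    ∀ (n : ℕ) (p : P2), p ∈ rect lo hi → (p.1 - lo.1).toNat + (p.2 - lo.2).toNat = n → J67 T p lo := by
  intro n
  induction n with
  | zero =>
    intro p hp hn
    obtain ⟨h1, h2, h3, h4⟩ := hp
    have he : p = lo := by
      apply Prod.ext
      · omega
      · omega
    have hp : p ∈ rect lo hi := ⟨h1, h2, h3, h4⟩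
    rw [← he]
    exact J67_refl (hT p hp)
  | succ n ih =>
    intro p hp hn
    have hp' := hp
    obtain ⟨h1, h2, h3, h4⟩ := hp'
    by_cases hc : lo.1 < p.1
    · have hq : (p.1 - 1, p.2) ∈ rect lo hi := by
        refine ⟨?_, ?_, ?_, ?_⟩
        · show lo.1 ≤ p.1 - 1
          omega
        · show p.1 - 1 ≤ hi.1
          omega
        · exact h3
        · exact h4
      refine J67_trans (J67_adj (hT p hp) (hT _ hq) ?_) (ih _ hq ?_)
      · refine Or.inl (Or.inr ?_)
        apply Prod.ext
        · show p.1 = p.1 - 1 + 1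
          omega
        · rfl
      · show (p.1 - 1 - lo.1).toNat + (p.2 - lo.2).toNat = n
        omega
    · have hc2 : lo.2 < p.2 := by omega
      have hq : (p.1, p.2 - 1) ∈ rect lo hi := by
        refine ⟨h1, h2, ?_, ?_⟩
        · show lo.2 ≤ p.2 - 1
          omega
        · show p.2 - 1 ≤ hi.2
          omega
      refine J67_trans (J67_adj (hT p hp) (hT _ hq) ?_) (ih _ hq ?_)
      · refine Or.inr (Or.inr ?_)
        apply Prod.ext
        · rfl
        · show p.2 = p.2 - 1 + 1
          omega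
      · show (p.1 - lo.1).toNat + (p.2 - 1 - lo.2).toNat = n
        omega

private theorem chain67 {T : Set P2} : ∀ (l : List P2) (x : P2), List.IsChain LAdj (x :: l) →
    (∀ p ∈ x :: l, p ∈ T) → ∀ p ∈ x :: l, J67 T p x := by
  intro l
  induction l with
  | nil =>
    intro x _ hT p hp
    rw [List.mem_singleton] at hp
    rw [hp]
    exact J67_refl (hT x (List.mem_singleton.2 rfl))
  | cons y l ih =>
    intro x hch hT p hp
    rw [List.isChain_cons_cons] at hch
    obtain ⟨hxy, hch'⟩ := hch
    have hTx : x ∈ T := hT x List.mem_cons_self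
    have hTy : y ∈ T := hT y (List.mem_cons_of_mem _ List.mem_cons_self)
    rcases List.mem_cons.1 hp with rfl | hp
    · exact J67_refl hTx
    · exact J67_trans (ih y hch' (fun q hq => hT q (List.mem_cons_of_mem _ hq)) p hp) (J67_symm (J67_adj hTx hTy hxy))

private theorem walk67 (L : LatDraw G) {a v : V} (h : G.Adj a v) {T : Set P2} (hb : ∀ p ∈ L.blob v, p ∈ T)
    (hW : ∀ p ∈ L.W a v, p ∈ T) {p : P2} (hp : p ∈ L.W a v) : J67 T p (L.lo v) := by
  obtain ⟨x, y, hx, hy, hxy⟩ := L.W_head v a h.symm
  have hrev := L.W_symm a v h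
  have hch := L.W_chain v a h.symm
  have hp' : p ∈ L.W v a := by
    rw [hrev, List.mem_reverse]
    exact hp
  have hT : ∀ q ∈ L.W v a, q ∈ T := by
    intro q hq
    rw [hrev, List.mem_reverse] at hq
    exact hW q hq
  obtain ⟨l, hl⟩ : ∃ l, L.W v a = x :: l := by
    cases hl : L.W v a with
    | nil =>
      rw [hl] at hx
      simp at hx
    | cons z l =>
      rw [hl] at hx
      simp only [List.head?_cons, Option.some.injEq] at hx
      exact ⟨l, by rw [hx]⟩
  rw [hl] at hch hp' hT
  have h1 := chain67 l x hch hT p hp'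
  have h2 : J67 T x y := J67_symm (J67_adj (hb y hy) (hT x List.mem_cons_self) hxy)
  exact J67_trans h1 (J67_trans h2 (rect67 hb _ y hy rfl))

private theorem lo67 (L : LatDraw G) (v : V) : L.lo v ∈ L.blob v :=
  ⟨le_refl _, L.le1 v, le_refl _, L.le2 v⟩

theorem reg_conn (L : LatDraw G) (rk : V → ℕ) (v : V) : ConnSet (reg L rk v) := by
  have key : ∀ p ∈ reg L rk v, J67 (reg L rk v) p (L.lo v) := by
    intro p hp
    rcases hp with hp | ⟨a, ha, hr, hp⟩
    · exact rect67 (fun q hq => Or.inl hq) _ p hp rfl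
    · exact walk67 L ha (fun q hq => Or.inl hq) (fun q hq => Or.inr ⟨a, ha, hr, hq⟩) hp
  intro x hx y hy
  exact J67_trans (key x hx) (J67_symm (key y hy))

theorem blob_reg (L : LatDraw G) (rk : V → ℕ) {u v : V} (h : u ≠ v) {p : P2} (hp : p ∈ L.blob v) : p ∉ reg L rk u := by
  rintro (h1 | ⟨a, ha, _, h1⟩)
  · exact L.disj u v h p h1 hp
  · exact L.W_out a u ha p h1 v hp

theorem sysv_ok (L : LatDraw G) (rk : V → ℕ) {wt : Sym2 P2 → ℕ} (hw : Function.Injective wt) {ord : Finset V → ℕ}
    (ho : Function.Injective ord) (v : V) : (sysv L rk wt ord v).OK := by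
  refine ⟨?_, ?_, ?_, hw, ho⟩
  · intro c
    show ConnSet (if c = v then ∅ else reg L rk c)
    by_cases hc : c = v
    · rw [if_pos hc]
      intro x hx
      exact absurd hx (Set.notMem_empty x)
    · rw [if_neg hc]
      exact reg_conn L rk c
  · exact Or.inl (lo67 L v)
  · intro c
    show L.lo v ∉ (if c = v then ∅ else reg L rk c)
    by_cases hc : c = v
    · rw [if_pos hc]
      exact Set.notMem_empty _
    · rw [if_neg hc]
      exact blob_reg L rk hc (lo67 L v)

theorem hd_mem (L : LatDraw G) {a v : V} (h : G.Adj a v) : hd L a v ∈ L.W a v := by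
  obtain ⟨x, y, hx, _, _⟩ := L.W_head a v h
  unfold hd
  cases hl : L.W a v with
  | nil =>
    rw [hl] at hx
    simp at hx
  | cons z l =>
    exact List.mem_cons_self

theorem st0_spec (L : LatDraw G) {a v : V} (h : G.Adj a v) : st0 L a v ∈ L.blob a ∧ LAdj (st0 L a v) (hd L a v) := by
  have hex : ∃ y, y ∈ L.blob a ∧ LAdj y (hd L a v) := by
    obtain ⟨x, y, hx, hy, hxy⟩ := L.W_head a v h
    have he : hd L a v = x := by
      unfold hd
      cases hl : L.W a v with
      | nil =>
        rw [hl] at hx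
        simp at hx
      | cons z l =>
        rw [hl] at hx
        simp only [List.head?_cons, Option.some.injEq] at hx
        rw [List.headD_cons]
        exact hx
    exact ⟨y, hy, by rw [he]; exact hxy⟩
  unfold st0
  rw [dif_pos hex]
  exact hex.choose_spec

theorem cols_card [Fintype V] (L : LatDraw G) {rk : V → ℕ} {wt : Sym2 P2 → ℕ} {ord : Finset V → ℕ}
    (hw : Function.Injective wt) (ho : Function.Injective ord) {k B : ℕ} (hk : L.MP k)
    (hB : ∀ a, (Finset.univ.filter (fun b => G.Adj a b ∧ rk a < rk b)).card ≤ B) {a v : V} (h : G.Adj a v)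
    (hr : rk a < rk v) : ∃ C : Finset V, C.card ≤ 2 * k * (1 + B) ∧ (sysv L rk wt ord v).InV C (hd L a v) := by
  obtain ⟨C0, hC0, hcov⟩ := cover L hk h
  obtain ⟨C, hC⟩ : ∃ C : Finset V, C = Finset.univ.filter (fun u => u ≠ v ∧ ∃ p ∈ L.W a v, p ∈ reg L rk u) := ⟨_, rfl⟩
  have hCm : ∀ u, u ∈ C ↔ u ≠ v ∧ ∃ p ∈ L.W a v, p ∈ reg L rk u := by
    intro u
    rw [hC, Finset.mem_filter]
    exact ⟨fun h1 => h1.2, fun h1 => ⟨Finset.mem_univ _, h1⟩⟩
  refine ⟨C, ?_, ?_⟩
  · have hsub : C ⊆ C0 ∪ C0.biUnion (fun a' => Finset.univ.filter (fun b => G.Adj a' b ∧ rk a' < rk b)) := by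
      intro u hu
      obtain ⟨huv, p, hp, hpu⟩ := (hCm u).1 hu
      rcases hpu with hpu | ⟨a', ha', hr', hp'⟩
      · exact absurd hpu (L.W_out a v h p hp u)
      · have hne : s(a', u) ≠ s(a, v) := by
          intro he
          rw [Sym2.eq_iff] at he
          rcases he with ⟨_, h2⟩ | ⟨h1, h2⟩
          · exact huv h2
          · rw [h1, h2] at hr'
            omega
        rcases hcov a' u ha' hne ⟨p, hp, hp'⟩ with h3 | h3
        · refine Finset.mem_union_right _ (Finset.mem_biUnion.2 ⟨a', h3, ?_⟩)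
          exact Finset.mem_filter.2 ⟨Finset.mem_univ _, ha', hr'⟩
        · exact Finset.mem_union_left _ h3
    have h1 : (C0.biUnion (fun a' => Finset.univ.filter (fun b => G.Adj a' b ∧ rk a' < rk b))).card ≤ C0.card * B := by
      apply Finset.card_biUnion_le_card_mul
      intro a' _
      exact hB a'
    calc C.card ≤ (C0 ∪ C0.biUnion (fun a' => Finset.univ.filter (fun b => G.Adj a' b ∧ rk a' < rk b))).card :=
          Finset.card_le_card hsub
      _ ≤ C0.card + (C0.biUnion (fun a' => Finset.univ.filter (fun b => G.Adj a' b ∧ rk a' < rk b))).card :=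
          Finset.card_union_le _ _
      _ ≤ C0.card + C0.card * B := Nat.add_le_add_left h1 _
      _ = C0.card * (1 + B) := by ring
      _ ≤ 2 * k * (1 + B) := Nat.mul_le_mul_right _ hC0
  · rw [(sysv_ok L rk hw ho v).inV_walk]
    have hb : ∀ p ∈ L.blob v, p ∈ {y : P2 | y ∈ (sysv L rk wt ord v).S ∧ ∀ c, y ∈ (sysv L rk wt ord v).T c → c ∈ C} := by
      intro p hp
      refine ⟨Or.inl hp, fun c hc => ?_⟩
      have hc' : p ∈ (if c = v then ∅ else reg L rk c) := hc
      by_cases hcv : c = v
      · rw [if_pos hcv] at hc'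
        exact absurd hc' (Set.notMem_empty p)
      · rw [if_neg hcv] at hc'
        exact absurd hc' (blob_reg L rk hcv hp)
    have hW : ∀ p ∈ L.W a v, p ∈ {y : P2 | y ∈ (sysv L rk wt ord v).S ∧ ∀ c, y ∈ (sysv L rk wt ord v).T c → c ∈ C} := by
      intro p hp
      refine ⟨Or.inr ⟨a, h, hr, hp⟩, fun c hc => ?_⟩
      have hc' : p ∈ (if c = v then ∅ else reg L rk c) := hc
      by_cases hcv : c = v
      · rw [if_pos hcv] at hc'
        exact absurd hc' (Set.notMem_empty p)
      · rw [if_neg hcv] at hc'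
        exact (hCm c).2 ⟨hcv, p, hp, hc'⟩
    exact J67_symm (walk67 L h hb hW (hd_mem L h))

end Pool.Agent.Helper46.RM
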