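import Pool.Agent.Helper46.RM.Asm1

/-!
# Block RM-M2: the routing.

Let `R = rlist (hd a v)` in the system of `v`: its first point is `hd a v` (`rt_zero`), outside all rectangles (`W_out`), its last point is `lo v`
(`rt_rlen`), in the rectangle of `v`. So `R = rte ++ fin :: (rest)` with `rte` not empty, all points of `rte` outside the rectangle of `v`, `fin` in it
(`List.takeWhile_append_dropWhile`; `dropWhile` is not empty). `R` is a lattice chain (`rt_adj`) without repetitions (`rt_inj`), its points are in `reg v`.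
A point of `rte` is in `reg v` and not in the rectangle of `v`, so on some walk `W a' v` and outside all rectangles (`W_out`).
`routing`: with `lo, hi` of `L`, `rt a v = rte a v`, `y0 = st0 a v`, `y1 = fin a v`.
`rte_mem`: points of `rte` are points `rt (hd a v) k` of the route.
`ext_prefix`: `ext a v` is a prefix of `st0 a v :: rlist (hd a v)`.
-/

namespace Pool.Agent.Helper46.RM

open scoped Classical

noncomputable section

variable {V : Type*} {G : SimpleGraph V}

private lemma split65 (P : P2 → Bool) (d : P2) : ∀ l : List P2, (∃ x ∈ l, P x = false) →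
    ∃ t, l = l.takeWhile P ++ ((l.dropWhile P).headD d :: t) ∧ P ((l.dropWhile P).headD d) = false ∧
      (∀ x ∈ l.takeWhile P, P x = true) := by
  intro l
  induction l with
  | nil =>
    rintro ⟨x, hx, -⟩
    simp at hx
  | cons y l ih =>
    intro hx
    by_cases hy : P y = true
    · have h1 : ∃ x ∈ l, P x = false := by
        obtain ⟨x, hx1, hx2⟩ := hx
        rcases List.mem_cons.mp hx1 with rfl | h
        · rw [hy] at hx2; exact absurd hx2 (by simp)
        · exact ⟨x, h, hx2⟩
      obtain ⟨t, h2, h3, h4⟩ := ih h1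
      refine ⟨t, ?_, ?_, ?_⟩
      · rw [List.takeWhile_cons_of_pos hy, List.dropWhile_cons_of_pos hy, List.cons_append, ← h2]
      · rw [List.dropWhile_cons_of_pos hy]; exact h3
      · rw [List.takeWhile_cons_of_pos hy]
        intro x hx5
        rcases List.mem_cons.mp hx5 with rfl | h
        · exact hy
        · exact h4 x h
    · have hy' : P y = false := by simpa using hy
      refine ⟨l, ?_, ?_, ?_⟩
      · rw [List.takeWhile_cons_of_neg (by simpa using hy), List.dropWhile_cons_of_neg (by simpa using hy)]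
        rfl
      · rw [List.dropWhile_cons_of_neg (by simpa using hy)]
        exact hy'
      · rw [List.takeWhile_cons_of_neg (by simpa using hy)]
        simp

private lemma rl_mem65 {L : LSys V} {x p : P2} (hp : p ∈ L.rlist x) : ∃ k, k ≤ L.rlen x ∧ p = L.rt x k := by
  unfold LSys.rlist at hp
  obtain ⟨k, hk, rfl⟩ := List.mem_map.mp hp
  exact ⟨k, by have := List.mem_range.mp hk; omega, rfl⟩

private lemma rl_nodup65 {L : LSys V} (h : L.OK) {x : P2} (hx : ∃ C, L.InV C x) : (L.rlist x).Nodup := by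
  unfold LSys.rlist
  refine List.Nodup.map_on ?_ List.nodup_range
  intro a ha b hb hab
  have h1 := List.mem_range.mp ha
  have h2 := List.mem_range.mp hb
  exact h.rt_inj hx (by omega) (by omega) hab

private lemma rl_chain65 {L : LSys V} (h : L.OK) {x : P2} (hx : ∃ C, L.InV C x) : List.IsChain LAdj (L.rlist x) := by
  unfold LSys.rlist
  rw [List.isChain_map, List.isChain_range]
  intro m hm
  exact h.rt_adj hx (by omega)

private lemma rl_head65 {L : LSys V} (x : P2) : ∃ t, L.rlist x = x :: t := by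
  unfold LSys.rlist
  rw [List.range_succ_eq_map, List.map_cons]
  exact ⟨_, rfl⟩

private lemma rl_end65 {L : LSys V} (h : L.OK) {x : P2} (hx : ∃ C, L.InV C x) : L.r ∈ L.rlist x := by
  unfold LSys.rlist
  rw [List.mem_map]
  exact ⟨L.rlen x, List.mem_range.mpr (by omega), h.rt_rlen hx⟩

private lemma lo_blob65 (L : LatDraw G) (v : V) : L.lo v ∈ L.blob v :=
  ⟨le_refl _, L.le1 v, le_refl _, L.le2 v⟩

private lemma main65 (L : LatDraw G) {rk : V → ℕ} {wt : Sym2 P2 → ℕ} {ord : Finset V → ℕ} (hw : Function.Injective wt)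
    (ho : Function.Injective ord) {a v : V}
    (hC : ∃ C, (sysv L rk wt ord v).InV C (hd L a v)) :
    ∃ t, (sysv L rk wt ord v).rlist (hd L a v) = rte L rk wt ord a v ++ (fin L rk wt ord a v :: t) ∧
      fin L rk wt ord a v ∈ L.blob v ∧ ∀ x ∈ rte L rk wt ord a v, x ∉ L.blob v := by
  have hok := sysv_ok L rk hw ho v
  have hend := rl_end65 hok hC
  have hr : (sysv L rk wt ord v).r = L.lo v := rfl
  rw [hr] at hend
  obtain ⟨t, h1, h2, h3⟩ := split65 (fun p => decide (p ∉ L.blob v)) (0, 0)
    ((sysv L rk wt ord v).rlist (hd L a v)) ⟨L.lo v, hend, by simpa using lo_blob65 L v⟩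
  refine ⟨t, h1, ?_, ?_⟩
  · have h4 : decide (fin L rk wt ord a v ∉ L.blob v) = false := h2
    simpa using h4
  · intro x hx
    have := h3 x hx
    simpa using this

private lemma mem_reg65 (L : LatDraw G) {rk : V → ℕ} {wt : Sym2 P2 → ℕ} {ord : Finset V → ℕ}
    (hw : Function.Injective wt) (ho : Function.Injective ord) {a v : V}
    (hC : ∃ C, (sysv L rk wt ord v).InV C (hd L a v)) (k : ℕ) :
    (sysv L rk wt ord v).rt (hd L a v) k ∈ reg L rk v :=
  ((sysv_ok L rk hw ho v).st_inv hC k).1.1.1

theorem rte_ne (L : LatDraw G) {rk : V → ℕ} {wt : Sym2 P2 → ℕ} {ord : Finset V → ℕ} (hw : Function.Injective wt)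
    (ho : Function.Injective ord) {a v : V} (h : G.Adj a v) (hr : rk a < rk v)
    (hC : ∃ C, (sysv L rk wt ord v).InV C (hd L a v)) : rte L rk wt ord a v ≠ [] := by
  intro h0
  obtain ⟨t, h1, h2, -⟩ := main65 L hw ho hC
  obtain ⟨t', h3⟩ := rl_head65 (L := sysv L rk wt ord v) (hd L a v)
  rw [h0, h3, List.nil_append] at h1
  have h4 : hd L a v = fin L rk wt ord a v := (List.cons.inj h1).1
  rw [← h4] at h2
  exact L.W_out a v h _ (hd_mem L h) v h2

theorem rte_out (L : LatDraw G) {rk : V → ℕ} {wt : Sym2 P2 → ℕ} {ord : Finset V → ℕ} (hw : Function.Injective wt)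
    (ho : Function.Injective ord) {a v : V} (h : G.Adj a v) (hr : rk a < rk v)
    (hC : ∃ C, (sysv L rk wt ord v).InV C (hd L a v)) :
    ∀ p ∈ rte L rk wt ord a v, p ∈ reg L rk v ∧ (∀ c, p ∉ L.blob c) ∧
      ∃ k, p = (sysv L rk wt ord v).rt (hd L a v) k := by
  intro p hp
  obtain ⟨t, h1, -, h3⟩ := main65 L hw ho hC
  have h4 : p ∈ (sysv L rk wt ord v).rlist (hd L a v) := by
    rw [h1]
    exact List.mem_append_left _ hp
  obtain ⟨k, -, hk⟩ := rl_mem65 h4
  have h5 : p ∈ reg L rk v := by
    rw [hk]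
    exact mem_reg65 L hw ho hC k
  refine ⟨h5, ?_, k, hk⟩
  rcases h5 with h6 | ⟨a', h7, -, h8⟩
  · exact absurd h6 (h3 p hp)
  · intro c
    exact L.W_out a' v h7 p h8 c

theorem fin_mem (L : LatDraw G) {rk : V → ℕ} {wt : Sym2 P2 → ℕ} {ord : Finset V → ℕ} (hw : Function.Injective wt)
    (ho : Function.Injective ord) {a v : V} (h : G.Adj a v) (hr : rk a < rk v)
    (hC : ∃ C, (sysv L rk wt ord v).InV C (hd L a v)) : fin L rk wt ord a v ∈ L.blob v := by
  obtain ⟨t, -, h2, -⟩ := main65 L hw ho hC
  exact h2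

private lemma ext_eq65 (L : LatDraw G) {rk : V → ℕ} {wt : Sym2 P2 → ℕ} {ord : Finset V → ℕ}
    (hw : Function.Injective wt) (ho : Function.Injective ord) {a v : V}
    (hC : ∃ C, (sysv L rk wt ord v).InV C (hd L a v)) :
    ∃ t, (st0 L a v :: (rte L rk wt ord a v ++ [fin L rk wt ord a v])) ++ t =
      (st0 L a v :: (sysv L rk wt ord v).rlist (hd L a v)) := by
  obtain ⟨t, h1, -, -⟩ := main65 L hw ho hC
  refine ⟨t, ?_⟩
  rw [h1]
  simp

theorem ext_prefix (L : LatDraw G) {rk : V → ℕ} {wt : Sym2 P2 → ℕ} {ord : Finset V → ℕ} (hw : Function.Injective wt)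
    (ho : Function.Injective ord) {a v : V} (h : G.Adj a v) (hr : rk a < rk v)
    (hC : ∃ C, (sysv L rk wt ord v).InV C (hd L a v)) :
    (st0 L a v :: (rte L rk wt ord a v ++ [fin L rk wt ord a v])) <+:
      (st0 L a v :: (sysv L rk wt ord v).rlist (hd L a v)) := by
  exact ext_eq65 L hw ho hC

/-- the list `st0 :: rlist` is a lattice chain, `rlist` has no repetitions -/
theorem rlist_chain (L : LatDraw G) {rk : V → ℕ} {wt : Sym2 P2 → ℕ} {ord : Finset V → ℕ} (hw : Function.Injective wt)
    (ho : Function.Injective ord) {a v : V} (h : G.Adj a v) (hr : rk a < rk v)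
    (hC : ∃ C, (sysv L rk wt ord v).InV C (hd L a v)) :
    List.IsChain LAdj (st0 L a v :: (sysv L rk wt ord v).rlist (hd L a v)) ∧
      ((sysv L rk wt ord v).rlist (hd L a v)).Nodup := by
  have hok := sysv_ok L rk hw ho v
  refine ⟨?_, rl_nodup65 hok hC⟩
  obtain ⟨t', h3⟩ := rl_head65 (L := sysv L rk wt ord v) (hd L a v)
  have h4 := rl_chain65 hok hC
  rw [h3] at h4 ⊢
  rw [List.isChain_cons_cons]
  exact ⟨(st0_spec L h).2, h4⟩

def routing (L : LatDraw G) (rk : V → ℕ) (wt : Sym2 P2 → ℕ) (ord : Finset V → ℕ) (hw : Function.Injective wt)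
    (ho : Function.Injective ord)
    (hC : ∀ a v, G.Adj a v → rk a < rk v → ∃ C, (sysv L rk wt ord v).InV C (hd L a v)) : Routing G rk where
  lo := L.lo
  hi := L.hi
  le1 := L.le1
  le2 := L.le2
  disj := L.disj
  rt := rte L rk wt ord
  y0 := st0 L
  y1 := fin L rk wt ord
  ne := fun a b h hr => rte_ne L hw ho h hr (hC a b h hr)
  y0_mem := fun a b h _ => (st0_spec L h).1
  y1_mem := fun a b h hr => fin_mem L hw ho h hr (hC a b h hr)
  nodup := fun a b h hr => by
    have h1 := (rlist_chain L hw ho h hr (hC a b h hr)).2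
    exact List.Nodup.sublist (List.takeWhile_prefix _).sublist h1
  chain := fun a b h hr => by
    have h1 := (rlist_chain L hw ho h hr (hC a b h hr)).1
    obtain ⟨t, ht⟩ := ext_eq65 L hw ho (hC a b h hr)
    rw [← ht] at h1
    exact h1.left_of_append
  out := fun a b h hr p hp c => (rte_out L hw ho h hr (hC a b h hr) p hp).2.1 c

end

end Pool.Agent.Helper46.RM
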