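import Pool.Agent.Helper31.NR.Ram

/-!
# Block RM-RA: Ramsey numbers, independent sets, sunflowers.

`ramsey_sets` (Helper31/NR/Ram) is the finite Ramsey theorem for increasing maps `Fin a → Fin p`.
`ram2`, `ram3`: apply it with `a = 2`, `a = 3` and the colouring `g ↦ c (g 0) (g 1)` resp. `c (g 0) (g 1) (g 2)`; for `h ≤ 1` (`h ≤ 2`) there is nothing
to show; for larger `h` fix one increasing map to define `k0`; for `i < j` the map `![i, j]` is increasing. `ram1`: pigeonhole (or `a = 1`).
`indep`: a digraph with out-degrees `≤ B` on `n ≥ h (2B + 1)` points contains `h` points without arcs between them: induction on `h` (statement for finite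
sets `X` of points with `h (2B+1) ≤ X.card`): the in-degrees inside `X` have average `≤ B`, so some `x ∈ X` has in-degree `≤ B`; remove `x`, the at
most `B` points of `bad x` and the at most `B` points `y` with `x ∈ bad y`; then order the chosen set increasingly (`Finset.orderEmbOfFin`).
`sunflower` (Erdős-Rado): induction on `s`. `s = 0`: all sets are empty, `N = 2` is contradictory with injectivity. Step: take a maximal family of pairwise
disjoint sets among the `C i`; if it has `h` members they form a sunflower with `K = ∅`; otherwise its union `Y` has fewer than `h (s+1)` elements and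
meets all `C i`; by pigeonhole one `y ∈ Y` is in many `C i`; apply the induction hypothesis to the sets `C i \ {y}` and put `y` back into `K`.
(Or: use `ram2` repeatedly / any sunflower lemma in the repository, e.g. Helper13/NC/Sun.lean.)
-/

namespace Pool.Agent.Helper46.RM

theorem ram1 (κ : Type) [Finite κ] [Nonempty κ] (h : ℕ) : ∃ N : ℕ, ∀ c : Fin N → κ,
    ∃ φ : Fin h → Fin N, StrictMono φ ∧ ∃ k0, ∀ i, c (φ i) = k0 := by
  obtain ⟨p, hp⟩ := Pool.Agent.Helper31.NR.ramsey_sets 1 h κ
  refine ⟨p, fun c => ?_⟩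
  obtain ⟨g, hg, hc⟩ := hp (fun e => c (e 0))
  refine ⟨g, hg, ?_⟩
  rcases isEmpty_or_nonempty (Fin h) with hE | ⟨⟨i0⟩⟩
  · exact ⟨Classical.arbitrary κ, fun i => isEmptyElim i⟩
  · refine ⟨c (g i0), fun i => ?_⟩
    exact hc (fun _ => i) (fun _ => i0) (fun a b hab => absurd hab (by rw [Subsingleton.elim a b]; exact lt_irrefl _))
      (fun a b hab => absurd hab (by rw [Subsingleton.elim a b]; exact lt_irrefl _))

private theorem mono2_24 {h : ℕ} {i j : Fin h} (hij : i < j) : StrictMono ![i, j] := by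
  intro a b hab
  fin_cases a <;> fin_cases b <;> simp_all

private theorem mono3_24 {h : ℕ} {i j l : Fin h} (hij : i < j) (hjl : j < l) : StrictMono ![i, j, l] := by
  have hil := hij.trans hjl
  intro a b hab
  fin_cases a <;> fin_cases b <;> simp_all

theorem ram2 (κ : Type) [Finite κ] [Nonempty κ] (h : ℕ) : ∃ N : ℕ, ∀ c : Fin N → Fin N → κ,
    ∃ φ : Fin h → Fin N, StrictMono φ ∧ ∃ k0, ∀ i j, i < j → c (φ i) (φ j) = k0 := by
  obtain ⟨p, hp⟩ := Pool.Agent.Helper31.NR.ramsey_sets 2 h κ
  refine ⟨p, fun c => ?_⟩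
  obtain ⟨g, hg, hc⟩ := hp (fun e => c (e 0) (e 1))
  refine ⟨g, hg, ?_⟩
  by_cases hex : ∃ i j : Fin h, i < j
  · obtain ⟨i0, j0, h0⟩ := hex
    refine ⟨c (g i0) (g j0), fun i j hij => ?_⟩
    exact hc ![i, j] ![i0, j0] (mono2_24 hij) (mono2_24 h0)
  · exact ⟨Classical.arbitrary κ, fun i j hij => absurd ⟨i, j, hij⟩ hex⟩

theorem ram3 (κ : Type) [Finite κ] [Nonempty κ] (h : ℕ) : ∃ N : ℕ, ∀ c : Fin N → Fin N → Fin N → κ,
    ∃ φ : Fin h → Fin N, StrictMono φ ∧ ∃ k0, ∀ i j l, i < j → j < l → c (φ i) (φ j) (φ l) = k0 := by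
  obtain ⟨p, hp⟩ := Pool.Agent.Helper31.NR.ramsey_sets 3 h κ
  refine ⟨p, fun c => ?_⟩
  obtain ⟨g, hg, hc⟩ := hp (fun e => c (e 0) (e 1) (e 2))
  refine ⟨g, hg, ?_⟩
  by_cases hex : ∃ i j l : Fin h, i < j ∧ j < l
  · obtain ⟨i0, j0, l0, h0, h1⟩ := hex
    refine ⟨c (g i0) (g j0) (g l0), fun i j l hij hjl => ?_⟩
    exact hc ![i, j, l] ![i0, j0, l0] (mono3_24 hij hjl) (mono3_24 h0 h1)
  · exact ⟨Classical.arbitrary κ, fun i j l hij hjl => absurd ⟨i, j, l, hij, hjl⟩ hex⟩

private theorem indep24 {n B : ℕ} (bad : Fin n → Finset (Fin n)) (hb : ∀ i, (bad i).card ≤ B) (h : ℕ) :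
    ∀ X : Finset (Fin n), h * (2 * B + 1) ≤ X.card →
      ∃ Y ⊆ X, Y.card = h ∧ ∀ x ∈ Y, ∀ y ∈ Y, x ≠ y → y ∉ bad x := by
  classical
  induction h with
  | zero =>
    intro X _
    exact ⟨∅, Finset.empty_subset _, rfl, fun x hx => absurd hx (Finset.notMem_empty x)⟩
  | succ h ih =>
    intro X hX
    have hX' : h * (2 * B + 1) + (2 * B + 1) ≤ X.card := by
      rw [add_mul, one_mul] at hX
      exact hX
    have hne : X.Nonempty := Finset.card_pos.1 (by omega)
    have hsum : ∑ x ∈ X, (X.filter (fun y => x ∈ bad y)).card ≤ ∑ _x ∈ X, B := by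
      have e1 : ∑ x ∈ X, (X.filter (fun y => x ∈ bad y)).card = ∑ y ∈ X, (X.filter (fun x => x ∈ bad y)).card := by
        simp only [Finset.card_filter]
        rw [Finset.sum_comm]
      rw [e1]
      refine Finset.sum_le_sum fun y _ => ?_
      refine (Finset.card_le_card ?_).trans (hb y)
      intro x hx
      exact (Finset.mem_filter.1 hx).2
    obtain ⟨x, hx, hxB⟩ := Finset.exists_le_of_sum_le hne hsum
    have hcard : h * (2 * B + 1) ≤ (((X.erase x) \ bad x) \ (X.filter (fun y => x ∈ bad y))).card := by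
      have c1 := Finset.le_card_sdiff (X.filter (fun y => x ∈ bad y)) ((X.erase x) \ bad x)
      have c2 := Finset.le_card_sdiff (bad x) (X.erase x)
      have c3 : (X.erase x).card = X.card - 1 := Finset.card_erase_of_mem hx
      have c4 := hb x
      omega
    obtain ⟨Y, hYX, hYc, hY⟩ := ih _ hcard
    have hmem : ∀ y ∈ Y, y ∈ X ∧ y ≠ x ∧ y ∉ bad x ∧ x ∉ bad y := by
      intro y hy
      have h1 := hYX hy
      rw [Finset.mem_sdiff, Finset.mem_sdiff, Finset.mem_erase, Finset.mem_filter] at h1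
      obtain ⟨⟨⟨h2, h3⟩, h4⟩, h5⟩ := h1
      exact ⟨h3, h2, h4, fun h6 => h5 ⟨h3, h6⟩⟩
    have hxY : x ∉ Y := fun hh => (hmem x hh).2.1 rfl
    refine ⟨insert x Y, ?_, ?_, ?_⟩
    · intro y hy
      rcases Finset.mem_insert.1 hy with rfl | hy
      · exact hx
      · exact (hmem y hy).1
    · rw [Finset.card_insert_of_notMem hxY, hYc]
    · intro a ha b hb' hab
      rcases Finset.mem_insert.1 ha with ha1 | ha1
      · rcases Finset.mem_insert.1 hb' with hb1 | hb1
        · exact absurd (ha1.trans hb1.symm) hab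
        · rw [ha1]
          exact (hmem b hb1).2.2.1
      · rcases Finset.mem_insert.1 hb' with hb1 | hb1
        · rw [hb1]
          exact (hmem a ha1).2.2.2
        · exact hY a ha1 b hb1 hab

theorem indep {n h B : ℕ} (hn : h * (2 * B + 1) ≤ n) (bad : Fin n → Finset (Fin n)) (hb : ∀ i, (bad i).card ≤ B) :
    ∃ φ : Fin h → Fin n, StrictMono φ ∧ ∀ i j, i ≠ j → φ j ∉ bad (φ i) := by
  obtain ⟨Y, _, hYc, hY⟩ := indep24 bad hb h Finset.univ (by rw [Finset.card_univ, Fintype.card_fin]; exact hn)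
  refine ⟨fun i => Y.orderEmbOfFin hYc i, fun i j hij => (Y.orderEmbOfFin hYc).strictMono hij, fun i j hij => ?_⟩
  refine hY _ (Finset.orderEmbOfFin_mem _ _ _) _ (Finset.orderEmbOfFin_mem _ _ _) ?_
  intro he
  exact hij ((Y.orderEmbOfFin hYc).injective he)

private theorem sun24.{u} (h : ℕ) (s : ℕ) : ∃ N : ℕ, ∀ (ι : Type u) [DecidableEq ι] (M : ℕ) (I : Finset (Fin M))
    (C : Fin M → Finset ι), N ≤ I.card → (∀ i ∈ I, (C i).card = s) → (∀ i ∈ I, ∀ j ∈ I, C i = C j → i = j) →
    ∃ J ⊆ I, J.card = h ∧ ∃ K : Finset ι, ∀ i ∈ J, ∀ j ∈ J, i ≠ j → C i ∩ C j = K := by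
  classical
  induction s with
  | zero =>
    refine ⟨2, fun ι _ M I C hI hC hinj => ?_⟩
    exfalso
    obtain ⟨a, ha, b, hb, hab⟩ := Finset.one_lt_card.1 (show 1 < I.card by omega)
    exact hab (hinj a ha b hb (by rw [Finset.card_eq_zero.1 (hC a ha), Finset.card_eq_zero.1 (hC b hb)]))
  | succ s ih =>
    obtain ⟨N, hN⟩ := ih
    refine ⟨h * (s + 1) * N + 1, fun ι _ M I C hI hC hinj => ?_⟩
    by_cases hD : ∃ D ⊆ I, D.card = h ∧ ∀ i ∈ D, ∀ j ∈ D, i ≠ j → C i ∩ C j = ∅
    · obtain ⟨D, h1, h2, h3⟩ := hD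
      exact ⟨D, h1, h2, ∅, h3⟩
    · have hne : (I.powerset.filter (fun D => ∀ i ∈ D, ∀ j ∈ D, i ≠ j → C i ∩ C j = ∅)).Nonempty :=
        ⟨∅, by
          rw [Finset.mem_filter, Finset.mem_powerset]
          exact ⟨Finset.empty_subset _, fun i hi => absurd hi (Finset.notMem_empty i)⟩⟩
      obtain ⟨D, hDm, hDmax⟩ := Finset.exists_max_image _ Finset.card hne
      rw [Finset.mem_filter, Finset.mem_powerset] at hDm
      obtain ⟨hDI, hDd⟩ := hDm
      have hDh : D.card < h := by
        by_contra hlt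
        obtain ⟨D', hD', hc'⟩ := Finset.exists_subset_card_eq (not_lt.1 hlt)
        exact hD ⟨D', hD'.trans hDI, hc', fun i hi j hj => hDd i (hD' hi) j (hD' hj)⟩
      have hmeet : ∀ i ∈ I, ∃ y ∈ D.biUnion C, y ∈ C i := by
        intro i hi
        by_cases hiD : i ∈ D
        · have hpos : 0 < (C i).card := by rw [hC i hi]; omega
          obtain ⟨y, hy⟩ := Finset.card_pos.1 hpos
          exact ⟨y, Finset.mem_biUnion.2 ⟨i, hiD, hy⟩, hy⟩
        · by_contra hno
          push Not at hno
          have hins : insert i D ∈ I.powerset.filter (fun D => ∀ i ∈ D, ∀ j ∈ D, i ≠ j → C i ∩ C j = ∅) := by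
            rw [Finset.mem_filter, Finset.mem_powerset]
            refine ⟨?_, ?_⟩
            · intro j hj
              rcases Finset.mem_insert.1 hj with rfl | hj
              · exact hi
              · exact hDI hj
            · have hdis : ∀ j ∈ D, C i ∩ C j = ∅ := by
                intro j hj
                rw [Finset.eq_empty_iff_forall_notMem]
                intro y hy
                rw [Finset.mem_inter] at hy
                exact hno y (Finset.mem_biUnion.2 ⟨j, hj, hy.2⟩) hy.1
              intro a ha b hb hab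
              rcases Finset.mem_insert.1 ha with ha1 | ha1
              · rcases Finset.mem_insert.1 hb with hb1 | hb1
                · exact absurd (ha1.trans hb1.symm) hab
                · rw [ha1]
                  exact hdis b hb1
              · rcases Finset.mem_insert.1 hb with hb1 | hb1
                · rw [hb1, Finset.inter_comm]
                  exact hdis a ha1
                · exact hDd a ha1 b hb1 hab
          have := hDmax _ hins
          rw [Finset.card_insert_of_notMem hiD] at this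
          omega
      obtain ⟨i0, hi0⟩ : I.Nonempty := Finset.card_pos.1 (by omega)
      have : Nonempty ι := ⟨(hmeet i0 hi0).choose⟩
      choose! f hf1 hf2 using hmeet
      have hYc : (D.biUnion C).card ≤ h * (s + 1) := by
        refine (Finset.card_biUnion_le_card_mul D C (s + 1) fun i hi => (hC i (hDI hi)).le).trans ?_
        exact Nat.mul_le_mul_right _ hDh.le
      have hlt : (D.biUnion C).card * N < I.card := by
        have := Nat.mul_le_mul_right N hYc
        omega
      obtain ⟨y, _, hy⟩ := Finset.exists_lt_card_fiber_of_mul_lt_card_of_maps_to (fun i hi => hf1 i hi) hlt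
      have hsub : ∀ i ∈ I.filter (fun i => f i = y), i ∈ I ∧ y ∈ C i := by
        intro i hi
        rw [Finset.mem_filter] at hi
        refine ⟨hi.1, ?_⟩
        rw [← hi.2]
        exact hf2 i hi.1
      obtain ⟨J, hJ, hJc, K, hK⟩ := hN ι M (I.filter (fun i => f i = y)) (fun i => (C i).erase y) hy.le
        (fun i hi => by
          rw [Finset.card_erase_of_mem (hsub i hi).2, hC i (hsub i hi).1]
          rfl)
        (fun i hi j hj hij => by
          refine hinj i (hsub i hi).1 j (hsub j hj).1 ?_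
          rw [← Finset.insert_erase (hsub i hi).2, ← Finset.insert_erase (hsub j hj).2, hij])
      refine ⟨J, fun i hi => (hsub i (hJ hi)).1, hJc, insert y K, fun i hi j hj hij => ?_⟩
      rw [← hK i hi j hj hij]
      ext x
      simp only [Finset.mem_inter, Finset.mem_insert, Finset.mem_erase]
      constructor
      · rintro ⟨h1, h2⟩
        by_cases hxy : x = y
        · exact Or.inl hxy
        · exact Or.inr ⟨⟨hxy, h1⟩, hxy, h2⟩
      · rintro (rfl | ⟨⟨_, h1⟩, _, h2⟩)
        · exact ⟨(hsub i (hJ hi)).2, (hsub j (hJ hj)).2⟩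
        · exact ⟨h1, h2⟩

theorem sunflower (s h : ℕ) : ∃ N : ℕ, ∀ {ι : Type*} [DecidableEq ι] (C : Fin N → Finset ι), (∀ i, (C i).card = s) →
    Function.Injective C → ∃ (φ : Fin h → Fin N) (K : Finset ι), StrictMono φ ∧
      ∀ i j, i ≠ j → C (φ i) ∩ C (φ j) = K := by
  obtain ⟨N, hN⟩ := sun24 h s
  refine ⟨N, fun {ι} _ C hC hinj => ?_⟩
  obtain ⟨J, _, hJc, K, hK⟩ := hN ι N Finset.univ C (by rw [Finset.card_univ, Fintype.card_fin]) (fun i _ => hC i)
    (fun i _ j _ hij => hinj hij)
  refine ⟨fun i => J.orderEmbOfFin hJc i, K, fun i j hij => (J.orderEmbOfFin hJc).strictMono hij, fun i j hij => ?_⟩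
  have h1 := hK _ (Finset.orderEmbOfFin_mem J hJc i) _ (Finset.orderEmbOfFin_mem J hJc j)
    (fun he => hij ((J.orderEmbOfFin hJc).injective he))
  convert h1

end Pool.Agent.Helper46.RM
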