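import Pool.Agent.Helper46.RM.Chain

/-!
# Block RM-TR: chains of walks in a forest depend only on the ends.

`ch_closed_walk` (key, private): for a closed walk `w` in `F` (from `p` to `p`) `ch w.support = 0`. Proof: it is enough to show that for every edge
`{x, y}` of `F` the walk traverses it an even number of times (the coefficient of `ch w.support` at a lattice edge is the number, mod 2, of
traversals, and `ed x y` is a single lattice edge for `LAdj x y`, different edges giving different lattice edges). Every edge of an acyclic graph is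
a bridge; let `f v = 1` if `v` is reachable from `x` in `F \ {s(x,y)}` and `0` otherwise; along each step of `w` which is not
`s(x,y)` the value `f` does not change, along `s(x,y)` it changes (`x, y` are not joined in `F \ {s(x,y)}`). So the number of traversals is even.
(Another way: strong induction on the length: if a closed walk of positive length has no repeated vertices except the ends it is a cycle or of
length two `p, q, p`; else split it at a repeated vertex.)
`tr_eq`: two walks from `p` to `q`: the first followed by the reverse of the second is closed; `ch` of an append of walks is the sum (`ch_append`),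
`ch_reverse`.
`touch_tr`: the support of a walk consists of points reachable from `p`.
`seg_tr`: the function `Q` on `[a, b]` is a walk of `F`; induction on `b` with `tr_add` and `tr_adj`.
-/

namespace Pool.Agent.Helper46.RM

open scoped Classical

variable {F : SimpleGraph P2}

private theorem ch_cons_h54 {u v q : P2} (h : F.Adj u v) (w : F.Walk v q) :
    ch (SimpleGraph.Walk.cons h w).support = ed u v + ch w.support := by
  rw [SimpleGraph.Walk.support_cons]
  cases w with
  | nil => rfl
  | cons h' w' => rfl

private theorem uniq_h54 (hF : F.IsAcyclic) {p q : P2} (a b : F.Path p q) : a = b :=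
  (hF.subsingleton_path p q).elim a b

private theorem ch_path_h54 (hF : F.IsAcyclic) {p q : P2} (w : F.Walk p q) :
    ∀ π : F.Walk p q, π.IsPath → ch w.support = ch π.support := by
  induction w with
  | nil =>
    intro π hπ
    rw [SimpleGraph.Walk.isPath_iff_nil, SimpleGraph.Walk.nil_iff_eq_nil] at hπ
    rw [hπ]
  | @cons u v q h w' ih =>
    intro π hπ
    have hb := w'.bypass_isPath
    rw [ch_cons_h54, ih _ hb]
    by_cases hu : u ∈ w'.bypass.support
    · have h1 : (w'.bypass.takeUntil u hu).IsPath := hb.takeUntil hu
      have h2 : (SimpleGraph.Walk.cons h.symm SimpleGraph.Walk.nil : F.Walk v u).IsPath := by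
        rw [SimpleGraph.Walk.cons_isPath_iff]
        refine ⟨SimpleGraph.Walk.IsPath.nil, ?_⟩
        rw [SimpleGraph.Walk.support_nil, List.mem_singleton]
        exact h.symm.ne
      have h3 : w'.bypass.takeUntil u hu = SimpleGraph.Walk.cons h.symm SimpleGraph.Walk.nil :=
        congrArg Subtype.val (uniq_h54 hF ⟨_, h1⟩ ⟨_, h2⟩)
      have h4 : w'.bypass = SimpleGraph.Walk.cons h.symm (w'.bypass.dropUntil u hu) := by
        conv_lhs => rw [← SimpleGraph.Walk.take_spec w'.bypass hu, h3]
        rfl
      have h5 : π = w'.bypass.dropUntil u hu :=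
        congrArg Subtype.val (uniq_h54 hF ⟨_, hπ⟩ ⟨_, hb.dropUntil hu⟩)
      have h6 : ch w'.bypass.support = ed v u + ch (w'.bypass.dropUntil u hu).support := by
        conv_lhs => rw [h4]
        exact ch_cons_h54 _ _
      rw [h6, h5, ed_comm v u, ← add_assoc, add_self_ch, zero_add]
    · have h1 : (SimpleGraph.Walk.cons h w'.bypass).IsPath := by
        rw [SimpleGraph.Walk.cons_isPath_iff]
        exact ⟨hb, hu⟩
      have h2 : π = SimpleGraph.Walk.cons h w'.bypass :=
        congrArg Subtype.val (uniq_h54 hF ⟨_, hπ⟩ ⟨_, h1⟩)
      rw [h2, ch_cons_h54]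

theorem tr_eq (hF : Forest F) {p q : P2} (w : F.Walk p q) : ch w.support = tr F p q := by
  have h : F.Reachable p q := ⟨w⟩
  unfold tr
  rw [dif_pos h, ch_path_h54 hF.ac w _ w.bypass_isPath, ch_path_h54 hF.ac (Classical.choice h) _ w.bypass_isPath]

private theorem tr_none_h54 {p q : P2} (h : ¬ F.Reachable p q) : tr F p q = 0 := by
  unfold tr
  rw [dif_neg h]

theorem tr_self (hF : Forest F) (p : P2) : tr F p p = 0 := by
  rw [← tr_eq hF (SimpleGraph.Walk.nil : F.Walk p p)]
  rfl

theorem tr_comm (hF : Forest F) (p q : P2) : tr F p q = tr F q p := by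
  by_cases h : F.Reachable p q
  · obtain ⟨w⟩ := h
    rw [← tr_eq hF w, ← tr_eq hF w.reverse, SimpleGraph.Walk.support_reverse, ch_reverse]
  · rw [tr_none_h54 h, tr_none_h54 (fun h' => h h'.symm)]

private theorem ch_append_h54 {p q r : P2} (w : F.Walk p q) (w' : F.Walk q r) :
    ch (w.append w').support = ch w.support + ch w'.support := by
  induction w with
  | nil =>
    rw [SimpleGraph.Walk.nil_append, SimpleGraph.Walk.support_nil, ch_single, zero_add]
  | cons h w ih =>
    rw [SimpleGraph.Walk.cons_append, ch_cons_h54, ch_cons_h54, ih w', add_assoc]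

theorem tr_add (hF : Forest F) {p q r : P2} (h1 : F.Reachable p q) (h2 : F.Reachable q r) :
    tr F p q + tr F q r = tr F p r := by
  obtain ⟨w1⟩ := h1
  obtain ⟨w2⟩ := h2
  rw [← tr_eq hF w1, ← tr_eq hF w2, ← tr_eq hF (w1.append w2), ch_append_h54]

theorem tr_adj (hF : Forest F) {p q : P2} (h : F.Adj p q) : tr F p q = ed p q := by
  rw [← tr_eq hF (SimpleGraph.Walk.cons h SimpleGraph.Walk.nil), ch_cons_h54, SimpleGraph.Walk.support_nil,
    ch_single, add_zero]

private theorem bd_walk_h54 (hF : Forest F) {p q : P2} (w : F.Walk p q) (x : P2) :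
    bd (ch w.support) x = dl p x + dl q x := by
  induction w with
  | nil => rw [SimpleGraph.Walk.support_nil, ch_single, bd_zero, CharTwo.add_self_eq_zero]
  | @cons u v q h w ih =>
    rw [ch_cons_h54, bd_add, ih, bd_ed (hF.le u v h)]
    have h2 : dl v x + dl v x = 0 := CharTwo.add_self_eq_zero _
    linear_combination h2

theorem bd_tr (hF : Forest F) {p q : P2} (h : F.Reachable p q) (x : P2) : bd (tr F p q) x = dl p x + dl q x := by
  obtain ⟨w⟩ := h
  rw [← tr_eq hF w, bd_walk_h54 hF w]

theorem touch_tr (hF : Forest F) {p q x : P2} (h : Touch (tr F p q) x) : F.Reachable p x := by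
  by_cases h1 : F.Reachable p q
  · obtain ⟨w⟩ := h1
    rw [← tr_eq hF w] at h
    exact ⟨w.takeUntil x (touch_ch h)⟩
  · rw [tr_none_h54 h1] at h
    exact absurd h (not_touch_zero x)

/-- the chain is supported on every walk -/
theorem touch_tr_walk (hF : Forest F) {p q x : P2} (w : F.Walk p q) (h : Touch (tr F p q) x) : x ∈ w.support := by
  rw [← tr_eq hF w] at h
  exact touch_ch h

theorem seg_tr (hF : Forest F) {Q : ℕ → P2} {a b : ℕ} (h : a ≤ b) (hQ : ∀ c, a ≤ c → c < b → F.Adj (Q c) (Q (c + 1))) :
    seg Q a b = tr F (Q a) (Q b) := by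
  have key : F.Reachable (Q a) (Q b) ∧ seg Q a b = tr F (Q a) (Q b) := by
    induction b, h using Nat.le_induction with
    | base => exact ⟨SimpleGraph.Reachable.refl _, by rw [seg_self, tr_self hF]⟩
    | succ b hb ih =>
      obtain ⟨h1, h2⟩ := ih (fun c hc hcb => hQ c hc (by omega))
      have h3 := hQ b hb (by omega)
      refine ⟨h1.trans h3.reachable, ?_⟩
      rw [seg_succ Q hb, h2, ← tr_adj hF h3, tr_add hF h1 h3.reachable]
  exact key.2

end Pool.Agent.Helper46.RM
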