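import Pool.Agent.Helper46.RM.Four
import Pool.Agent.Helper46.RM.Tr

/-!
# Block RM-S4: the four leaf identity at a component of a forest.

`star4`: put `β i = tr F (y 0) (y i) + ed (y i) (q i)`; then `bd (β i) = dl (y 0) + dl (q i)` (`bd_tr`, `bd_ed`), `β i` touches only points of
the component of `y 0` and `q i` (`touch_tr`, `touch_ed`), so `four` applies (`b = y 0`). For `j = 1, 2, 3` and `{j, k, l} = {1, 2, 3}`:
`wind (Z j) (q k) + wind (Z j) (q l) = cross (Z j) (β k + β l)` (`cross_of_bd`; the boundary of `β k + β l` is `dl (q k) + dl (q l)`), and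
`Z j = β 0 + β j + η j` (`β 0 = ed (y 0) (q 0)`, `ed_comm`, `tr_self`) while `cross (η j) (β k + β l) = 0` (`cross_eq_zero`: no common point).
`lam_pass`: `a + 1 < b`: `seg Q a b = ed (Q a) (Q (a+1)) + seg Q (a+1) (b-1) + ed (Q (b-1)) (Q b)`, the middle is `tr F (Q (a+1)) (Q (b-1))`
(`seg_tr`) `= tr F z (Q (a+1)) + tr F z (Q (b-1))` (`tr_add`, `tr_comm`).
-/

namespace Pool.Agent.Helper46.RM

open scoped Classical

variable {F : SimpleGraph P2}

private theorem cc2 (x : ZMod 2) : x + x = 0 := CharTwo.add_self_eq_zero x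

private theorem bd_leg (hF : Forest F) {z y q : P2} (h : F.Reachable z y) (h1 : LAdj y q) (x : P2) :
    bd (tr F z y + ed y q) x = dl z x + dl q x := by
  rw [bd_add, bd_tr hF h, bd_ed h1]
  linear_combination cc2 (dl y x)

private theorem touch_leg (hF : Forest F) {z y q x : P2} (h : F.Reachable z y) (h1 : Touch (tr F z y + ed y q) x) :
    F.Reachable z x ∨ x = q := by
  rcases touch_add h1 with h2 | h2
  · exact Or.inl (touch_tr hF h2)
  · rcases touch_ed h2 with h3 | h3
    · rw [h3]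
      exact Or.inl h
    · exact Or.inr h3

theorem star4 (hF : Forest F) {y q : Fin 4 → P2} (hy : ∀ i, F.Reachable (y 0) (y i)) (ha : ∀ i, LAdj (y i) (q i))
    (hq : ∀ i, ¬ F.Reachable (y 0) (q i)) (hqi : Function.Injective q) {Z η : Fin 4 → Ch}
    (hZc : ∀ j, j ≠ 0 → Closed (Z j))
    (hZ : ∀ j, j ≠ 0 → Z j = ed (q 0) (y 0) + tr F (y 0) (y j) + ed (y j) (q j) + η j)
    (hη : ∀ j, j ≠ 0 → ∀ x, Touch (η j) x → ¬ F.Reachable (y 0) x ∧ ∀ k, k ≠ 0 → k ≠ j → x ≠ q k) :
    (wind (Z 1) (q 2) + wind (Z 1) (q 3)) + (wind (Z 2) (q 1) + wind (Z 2) (q 3)) +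
      (wind (Z 3) (q 1) + wind (Z 3) (q 2)) = 1 := by
  have hb : ∀ i, q i ≠ y 0 := by
    intro i h
    exact hq i (h ▸ SimpleGraph.Reachable.refl _)
  have hnt : ∀ i j, i ≠ j → ¬ Touch (tr F (y 0) (y i) + ed (y i) (q i)) (q j) := by
    intro i j hij h
    rcases touch_leg hF (hy i) h with h1 | h1
    · exact hq j h1
    · exact hij (hqi h1).symm
  have h4 := four (b := y 0) (q := q) (β := fun i => tr F (y 0) (y i) + ed (y i) (q i))
    (fun i x => bd_leg hF (hy i) (ha i) x) hnt hb
  have key : ∀ j k l, j ≠ 0 → k ≠ 0 → l ≠ 0 → k ≠ j → l ≠ j → wind (Z j) (q k) + wind (Z j) (q l) =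
      cross ((tr F (y 0) (y 0) + ed (y 0) (q 0)) + (tr F (y 0) (y j) + ed (y j) (q j)))
        ((tr F (y 0) (y k) + ed (y k) (q k)) + (tr F (y 0) (y l) + ed (y l) (q l))) := by
    intro j k l hj hk hl hkj hlj
    have h1 : cross (Z j) ((tr F (y 0) (y k) + ed (y k) (q k)) + (tr F (y 0) (y l) + ed (y l) (q l))) =
        wind (Z j) (q k) + wind (Z j) (q l) := by
      apply cross_of_bd (hZc j hj)
      intro x
      rw [bd_add, bd_leg hF (hy k) (ha k), bd_leg hF (hy l) (ha l)]
      linear_combination cc2 (dl (y 0) x)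
    have h2 : Z j = ((tr F (y 0) (y 0) + ed (y 0) (q 0)) + (tr F (y 0) (y j) + ed (y j) (q j))) + η j := by
      rw [hZ j hj, tr_self hF, ed_comm (q 0) (y 0)]
      abel
    have h3 : cross (η j) ((tr F (y 0) (y k) + ed (y k) (q k)) + (tr F (y 0) (y l) + ed (y l) (q l))) = 0 := by
      apply cross_eq_zero
      intro p hp hp2
      obtain ⟨g1, g2⟩ := hη j hj p hp
      rcases touch_add hp2 with h5 | h5
      · rcases touch_leg hF (hy k) h5 with h6 | h6
        · exact g1 h6
        · exact g2 k hk hkj h6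
      · rcases touch_leg hF (hy l) h5 with h6 | h6
        · exact g1 h6
        · exact g2 l hl hlj h6
    rw [← h1, h2, cross_add_left, h3, add_zero]
  rw [key 1 2 3 (by decide) (by decide) (by decide) (by decide) (by decide),
    key 2 1 3 (by decide) (by decide) (by decide) (by decide) (by decide),
    key 3 1 2 (by decide) (by decide) (by decide) (by decide) (by decide)]
  exact h4

/-- the form in which it gives a contradiction -/
theorem star4_false (hF : Forest F) {y q : Fin 4 → P2} (hy : ∀ i, F.Reachable (y 0) (y i)) (ha : ∀ i, LAdj (y i) (q i))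
    (hq : ∀ i, ¬ F.Reachable (y 0) (q i)) (hqi : Function.Injective q) {Z η : Fin 4 → Ch}
    (hZc : ∀ j, j ≠ 0 → Closed (Z j))
    (hZ : ∀ j, j ≠ 0 → Z j = ed (q 0) (y 0) + tr F (y 0) (y j) + ed (y j) (q j) + η j)
    (hη : ∀ j, j ≠ 0 → ∀ x, Touch (η j) x → ¬ F.Reachable (y 0) x ∧ ∀ k, k ≠ 0 → k ≠ j → x ≠ q k)
    (he : ∀ j k l, j ≠ 0 → k ≠ 0 → l ≠ 0 → k ≠ j → l ≠ j → wind (Z j) (q k) = wind (Z j) (q l)) : False := by
  have h := star4 hF hy ha hq hqi hZc hZ hη
  rw [he 1 2 3 (by decide) (by decide) (by decide) (by decide) (by decide),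
    he 2 1 3 (by decide) (by decide) (by decide) (by decide) (by decide),
    he 3 1 2 (by decide) (by decide) (by decide) (by decide) (by decide)] at h
  simp only [cc2, add_zero] at h
  exact zero_ne_one h

/-- chain from `z` through the component to the leaf `y q` -/
noncomputable def lam (F : SimpleGraph P2) (z y q : P2) : Ch := tr F z y + ed y q

theorem bd_lam (hF : Forest F) {z y q : P2} (h : F.Reachable z y) (h1 : LAdj y q) (x : P2) :
    bd (lam F z y q) x = dl z x + dl q x := by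
  exact bd_leg hF h h1 x

theorem touch_lam (hF : Forest F) {z y q x : P2} (h : F.Reachable z y) (h1 : Touch (lam F z y q) x) :
    F.Reachable z x ∨ x = q := by
  exact touch_leg hF h h1

/-- a pass of a walk through a component is the sum of two `lam` -/
theorem lam_pass (hF : Forest F) {z : P2} {Q : ℕ → P2} {a b : ℕ} (h : a + 1 < b)
    (hz : ∀ c, a < c → c < b → F.Reachable z (Q c)) (hQ : ∀ c, a < c → c + 1 < b → F.Adj (Q c) (Q (c + 1))) :
    seg Q a b = lam F z (Q (a + 1)) (Q a) + lam F z (Q (b - 1)) (Q b) := by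
  have e1 : seg Q a (a + 1) = ed (Q (a + 1)) (Q a) := by
    rw [seg_succ Q (le_refl a), seg_self, zero_add, ed_comm]
  have e2 : seg Q (b - 1) b = ed (Q (b - 1)) (Q b) := by
    have h1 := seg_succ Q (le_refl (b - 1))
    rw [seg_self, zero_add, Nat.sub_add_cancel (by omega)] at h1
    exact h1
  have e3 : seg Q (a + 1) (b - 1) = tr F z (Q (a + 1)) + tr F z (Q (b - 1)) := by
    have h1 := seg_tr hF (Q := Q) (a := a + 1) (b := b - 1) (by omega)
      (fun c hc hc2 => hQ c (by omega) (by omega))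
    rw [h1, tr_comm hF z (Q (a + 1))]
    symm
    exact tr_add hF (hz (a + 1) (by omega) (by omega)).symm (hz (b - 1) (by omega) (by omega))
  rw [← seg_add Q (show a ≤ a + 1 by omega) (show a + 1 ≤ b by omega),
    ← seg_add Q (show a + 1 ≤ b - 1 by omega) (show b - 1 ≤ b by omega), e1, e2, e3]
  unfold lam
  abel

end Pool.Agent.Helper46.RM
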