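import Pool.Agent.Helper46.RM.SegC
import Pool.Agent.Helper46.RM.Star
import Pool.Agent.Helper46.RM.Ram

/-!
# Project RM, case A: all walks cross pairwise at non-popular components. Definitions, part 6.

`AData s Z`: for every pair `i ≠ j` a component `z i j = z j i`, not popular, visited by the walks `i` and `j` and by no other walk.
`Last i j`: after every popular position the walk `i` visits the component of `z i j` again.
`AHom d`: `w` a popular component (`rep Z w`), `v i j` the first visit of `z i j` on the walk `i`; for `i < j`: `f j i` the last popular position before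
`v j i` on the walk `j`, it is in `w`; `e i` the last position of the walk `i` in `w`, `g i j` a later position of `i` in the component of `z i j`;
`ca i ∈ P i` a colour of all points `Q i (v i j - 1)`, `i < j`, and `cb j ∈ P j` a colour of all points `Q j (v j i - 1)`, `i < j`.
`gam i j` (`i < j`): the closed curve from `w` along `Q i` (positions `e i .. g i j`), through the component of `z i j`, back along `Q j` (positions
`v j i .. f j i`) and through `w`.
-/

namespace Pool.Agent.Helper46.RM

open scoped Classical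

noncomputable section

variable {ι : Type*} {p n m k : ℕ}

structure AData (s : Sys ι p n) (Z : Fin m → P2) where
  z : Fin n → Fin n → P2
  symm : ∀ i j, z i j = z j i
  mem : ∀ i j, i ≠ j → z i j ∈ s.MK
  np : ∀ i j, i ≠ j → z i j ∉ s.PopSet Z
  vis : ∀ i j, i ≠ j → s.Vis i (z i j)
  nvis : ∀ i j l, i ≠ j → l ≠ i → l ≠ j → ¬ s.Vis l (z i j)

variable {s : Sys ι p n} {Z : Fin m → P2}

def AData.comap (d : AData s Z) (φ : Fin k → Fin n) (hφ : Function.Injective φ) : AData (s.comap φ) Z where
  z := fun i j => d.z (φ i) (φ j)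
  symm := fun i j => d.symm (φ i) (φ j)
  mem := fun i j h => d.mem (φ i) (φ j) (fun e => h (hφ e))
  np := fun i j h => d.np (φ i) (φ j) (fun e => h (hφ e))
  vis := fun i j h => d.vis (φ i) (φ j) (fun e => h (hφ e))
  nvis := fun i j l h h1 h2 => d.nvis (φ i) (φ j) (φ l) (fun e => h (hφ e)) (fun e => h1 (hφ e)) (fun e => h2 (hφ e))

def AData.Last (d : AData s Z) (i j : Fin n) : Prop :=
  ∀ e, e ≤ s.len i → s.Q i e ∈ s.PopSet Z → ∃ c, e < c ∧ c ≤ s.len i ∧ s.F.Reachable (d.z i j) (s.Q i c)

/-- the representative of a popular component (`none`: the component of `r`) -/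
def Sys.repA (s : Sys ι p n) (Z : Fin m → P2) : Option (Fin m) → P2
  | none => s.r
  | some t => Z t

structure AHom (d : AData s Z) where
  w : Option (Fin m)
  v : Fin n → Fin n → ℕ
  f : Fin n → Fin n → ℕ
  g : Fin n → Fin n → ℕ
  e : Fin n → ℕ
  ca : Fin n → ι
  cb : Fin n → ι
  v_le : ∀ i j, i ≠ j → v i j ≤ s.len i
  v_reach : ∀ i j, i ≠ j → s.F.Reachable (d.z i j) (s.Q i (v i j))
  v_first : ∀ i j, i ≠ j → ∀ c, c < v i j → ¬ s.F.Reachable (d.z i j) (s.Q i c)
  f_lt : ∀ i j, i < j → f j i < v j i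
  f_reach : ∀ i j, i < j → s.F.Reachable (s.repA Z w) (s.Q j (f j i))
  f_last : ∀ i j, i < j → ∀ c, f j i < c → c < v j i → s.Q j c ∉ s.PopSet Z
  e_le : ∀ i, e i ≤ s.len i
  e_reach : ∀ i, s.F.Reachable (s.repA Z w) (s.Q i (e i))
  e_last : ∀ i c, e i < c → c ≤ s.len i → ¬ s.F.Reachable (s.repA Z w) (s.Q i c)
  g_lt : ∀ i j, i < j → e i < g i j
  g_le : ∀ i j, i < j → g i j ≤ s.len i
  g_reach : ∀ i j, i < j → s.F.Reachable (d.z i j) (s.Q i (g i j))
  ca_mem : ∀ i j, i < j → ca i ∈ s.P i
  ca_col : ∀ i j, i < j → s.Q i (v i j - 1) ∈ s.T (ca i)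
  cb_mem : ∀ i j, i < j → cb j ∈ s.P j
  cb_col : ∀ i j, i < j → s.Q j (v j i - 1) ∈ s.T (cb j)

variable {d : AData s Z}

def AHom.gam (a : AHom d) (i j : Fin n) : Ch := s.loop i (a.e i) (a.g i j) j (a.f j i) (a.v j i)

/-- winding parity of `gam i j` on the points of colour `c` (constant if `c ∈ P l`, `l ≠ i, j`) -/
def AHom.val (a : AHom d) (c : ι) (i j : Fin n) : ZMod 2 :=
  if h : (s.T c).Nonempty then wind (a.gam i j) h.some else 0

def AHom.Three (a : AHom d) : Prop :=
  ∃ x1 x2 x3 y1 y2 y3 : ZMod 2, ∀ i j l, i < j → l ≠ i → l ≠ j →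
    a.val (a.ca l) i j = (if l < i then x1 else if l < j then x2 else x3) ∧
    a.val (a.cb l) i j = (if l < i then y1 else if l < j then y2 else y3)

def AHom.comap (a : AHom d) (φ : Fin k → Fin n) (hφ : StrictMono φ) : AHom (d.comap φ hφ.injective) where
  w := a.w
  v := fun i j => a.v (φ i) (φ j)
  f := fun i j => a.f (φ i) (φ j)
  g := fun i j => a.g (φ i) (φ j)
  e := fun i => a.e (φ i)
  ca := fun i => a.ca (φ i)
  cb := fun i => a.cb (φ i)
  v_le := fun i j h => a.v_le (φ i) (φ j) (fun e => h (hφ.injective e))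
  v_reach := fun i j h => a.v_reach (φ i) (φ j) (fun e => h (hφ.injective e))
  v_first := fun i j h => a.v_first (φ i) (φ j) (fun e => h (hφ.injective e))
  f_lt := fun i j h => a.f_lt (φ i) (φ j) (hφ h)
  f_reach := fun i j h => by
    have h1 := a.f_reach (φ i) (φ j) (hφ h)
    revert h1
    cases a.w <;> exact fun h => h
  f_last := fun i j h => a.f_last (φ i) (φ j) (hφ h)
  e_le := fun i => a.e_le (φ i)
  e_reach := fun i => by
    have h1 := a.e_reach (φ i)
    revert h1
    cases a.w <;> exact fun h => h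
  e_last := fun i c h h' => by
    have h1 := a.e_last (φ i) c h h'
    revert h1
    cases a.w <;> exact fun h => h
  g_lt := fun i j h => a.g_lt (φ i) (φ j) (hφ h)
  g_le := fun i j h => a.g_le (φ i) (φ j) (hφ h)
  g_reach := fun i j h => a.g_reach (φ i) (φ j) (hφ h)
  ca_mem := fun i j h => a.ca_mem (φ i) (φ j) (hφ h)
  ca_col := fun i j h => a.ca_col (φ i) (φ j) (hφ h)
  cb_mem := fun i j h => a.cb_mem (φ i) (φ j) (hφ h)
  cb_col := fun i j h => a.cb_col (φ i) (φ j) (hφ h)

end

end Pool.Agent.Helper46.RM
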