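import Pool.Agent.Helper46.RM.CaA

/-!
# Block RM-A1: private crossing components.

`exists_adata`: let `h' = max h (D + 3)` and `N` from `ram3` for the type `Prop × Prop × Prop` (or `Bool × Bool × Bool`) and `h'`. For `i < j` choose
`z0 i j ∉ PopSet` with `XP i j (z0 i j)`. Colour `i < j < l` by `(Vis l (z0 i j), Vis j (z0 i l), Vis i (z0 j l))`; let `φ` be a homogeneous
subfamily of size `h'` (also restricted to its first `h` members at the end, `Fin.castLE`). Each of the three values is `False`: if `Vis l (z0 i j)` always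
holds, `z0 (φ 0) (φ 1)` is visited by the walks `φ 2, .., φ (h' - 1)`: at least `h' - 2 ≥ D + 1` walks, against `few`; in the second case
`z0 (φ 0) (φ (h' - 1))` is visited by `φ 1, .., φ (h' - 2)`, in the third case `z0 (φ (h'-2)) (φ (h'-1))` by `φ 0, .., φ (h' - 3)`.
`z i j = z0 (min) (max)` of the images (anything for `i = j`); the walks `i`, `j` visit it (`XP.cr` gives passes: `a + 1 < b`, position `a + 1`).
-/

namespace Pool.Agent.Helper46.RM

open scoped Classical

variable {ι : Type*} {p n m : ℕ}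

/-- a component visited by all but two of the walks is popular -/
private theorem few52 {s : Sys ι p n} {Z : Fin m → P2} {D k : ℕ} (hp : s.PopOK Z D) {φ : Fin k → Fin n}
    (hφ : Function.Injective φ) (hk : D + 2 ≤ k) {x : P2} (hx : x ∈ s.MK) (hx' : x ∉ s.PopSet Z) (a b : Fin k)
    (H : ∀ l, l ≠ a → l ≠ b → s.Vis (φ l) x) : False := by
  have h1 : (((Finset.univ.erase a).erase b).map ⟨φ, hφ⟩).card ≤ (Finset.univ.filter (fun i => s.Vis i x)).card := by
    refine Finset.card_le_card ?_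
    intro y hy
    obtain ⟨l, hl, rfl⟩ := Finset.mem_map.1 hy
    rw [Finset.mem_erase, Finset.mem_erase] at hl
    rw [Finset.mem_filter]
    exact ⟨Finset.mem_univ _, H l hl.2.1 hl.1⟩
  have h2 := hp.few x hx hx'
  have h3 := Finset.pred_card_le_card_erase (s := Finset.univ.erase a) (a := b)
  have h4 := Finset.pred_card_le_card_erase (s := (Finset.univ : Finset (Fin k))) (a := a)
  rw [Finset.card_univ, Fintype.card_fin] at h4
  rw [Finset.card_map] at h1
  omega

private theorem vis_pass52 {s : Sys ι p n} {i : Fin n} {z : P2} {a b : ℕ} (h : s.Pass i z a b) : s.Vis i z := by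
  obtain ⟨h1, h2, _, _, h5⟩ := h
  exact ⟨a + 1, by omega, h5 (a + 1) (by omega) (by omega)⟩

theorem exists_adata (p m D h : ℕ) : ∃ N : ℕ, ∀ {ι : Type*} (s : Sys ι p N) (Z : Fin m → P2), s.OK → s.PopOK Z D →
    (∀ i j, i < j → ∃ z, z ∉ s.PopSet Z ∧ s.XP i j z) →
    ∃ φ : Fin h → Fin N, StrictMono φ ∧ ∃ d : AData (s.comap φ) Z, ∀ i j, i < j → (s.comap φ).XP i j (d.z i j) := by
  obtain ⟨h', hh'⟩ : ∃ h', h' = max h (D + 3) := ⟨_, rfl⟩
  have hle : h ≤ h' := by omega
  have hle' : D + 3 ≤ h' := by omega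
  obtain ⟨N, hN⟩ := ram3 (Prop × Prop × Prop) h'
  refine ⟨N, fun {ι} s Z hs hp H => ?_⟩
  choose! z0 hz0 hx0 using H
  obtain ⟨ψ, hψ, ⟨p1, p2, p3⟩, hk⟩ := hN (fun i j l => (s.Vis l (z0 i j), s.Vis j (z0 i l), s.Vis i (z0 j l)))
  have hk1 : ∀ i j l, i < j → j < l → s.Vis (ψ l) (z0 (ψ i) (ψ j)) = p1 := fun i j l hij hjl =>
    congrArg Prod.fst (hk i j l hij hjl)
  have hk2 : ∀ i j l, i < j → j < l → s.Vis (ψ j) (z0 (ψ i) (ψ l)) = p2 := fun i j l hij hjl =>
    congrArg (fun q => q.2.1) (hk i j l hij hjl)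
  have hk3 : ∀ i j l, i < j → j < l → s.Vis (ψ i) (z0 (ψ j) (ψ l)) = p3 := fun i j l hij hjl =>
    congrArg (fun q => q.2.2) (hk i j l hij hjl)
  have q1 : ∀ i j l, i < j → j < l → ¬ s.Vis (ψ l) (z0 (ψ i) (ψ j)) := by
    intro i j l hij hjl hv
    have hp1 : p1 := (hk1 i j l hij hjl) ▸ hv
    have h01 : (⟨0, by omega⟩ : Fin h') < ⟨1, by omega⟩ := by
      rw [Fin.lt_def]
      exact zero_lt_one
    have e := hψ h01
    refine few52 hp hψ.injective (by omega) (hx0 _ _ e).mem (hz0 _ _ e) ⟨0, by omega⟩ ⟨1, by omega⟩ ?_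
    intro t ht ht'
    rw [hk1 _ _ t h01 (by
      rw [Fin.lt_def]
      rw [Ne, Fin.ext_iff] at ht ht'
      simp only at ht ht' ⊢
      omega)]
    exact hp1
  have q2 : ∀ i j l, i < j → j < l → ¬ s.Vis (ψ j) (z0 (ψ i) (ψ l)) := by
    intro i j l hij hjl hv
    have hp2 : p2 := (hk2 i j l hij hjl) ▸ hv
    have h01 : (⟨0, by omega⟩ : Fin h') < ⟨h' - 1, by omega⟩ := by
      rw [Fin.lt_def]
      simp only
      omega
    have e := hψ h01
    refine few52 hp hψ.injective (by omega) (hx0 _ _ e).mem (hz0 _ _ e) ⟨0, by omega⟩ ⟨h' - 1, by omega⟩ ?_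
    intro t ht ht'
    rw [Ne, Fin.ext_iff] at ht ht'
    have htl := t.isLt
    simp only at ht ht'
    rw [hk2 _ t _ (by
      rw [Fin.lt_def]
      simp only
      omega) (by
      rw [Fin.lt_def]
      simp only
      omega)]
    exact hp2
  have q3 : ∀ i j l, i < j → j < l → ¬ s.Vis (ψ i) (z0 (ψ j) (ψ l)) := by
    intro i j l hij hjl hv
    have hp3 : p3 := (hk3 i j l hij hjl) ▸ hv
    have h01 : (⟨h' - 2, by omega⟩ : Fin h') < ⟨h' - 1, by omega⟩ := by
      rw [Fin.lt_def]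
      simp only
      omega
    have e := hψ h01
    refine few52 hp hψ.injective (by omega) (hx0 _ _ e).mem (hz0 _ _ e) ⟨h' - 2, by omega⟩ ⟨h' - 1, by omega⟩ ?_
    intro t ht ht'
    rw [Ne, Fin.ext_iff] at ht ht'
    have htl := t.isLt
    simp only at ht ht'
    rw [hk3 t _ _ (by
      rw [Fin.lt_def]
      simp only
      omega) h01]
    exact hp3
  obtain ⟨φ, hφ⟩ : ∃ φ : Fin h → Fin N, φ = fun i => ψ (Fin.castLE hle i) := ⟨_, rfl⟩
  have hφm : StrictMono φ := by
    intro a b hab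
    rw [hφ]
    exact hψ (by
      rw [Fin.lt_def] at hab ⊢
      exact hab)
  have hcast : ∀ {a b : Fin h}, a < b → Fin.castLE hle a < Fin.castLE hle b := by
    intro a b hab
    rw [Fin.lt_def] at hab ⊢
    exact hab
  have hmm : ∀ {i j : Fin h}, i ≠ j → min i j < max i j := fun hij => min_lt_max.2 hij
  have nv : ∀ i j l : Fin h, i < j → l ≠ i → l ≠ j → ¬ s.Vis (φ l) (z0 (φ i) (φ j)) := by
    intro i j l hij hli hlj
    rw [hφ]
    rcases lt_or_gt_of_ne hli with h1 | h1
    · exact q3 _ _ _ (hcast h1) (hcast hij)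
    · rcases lt_or_gt_of_ne hlj with h2 | h2
      · exact q2 _ _ _ (hcast h1) (hcast h2)
      · exact q1 _ _ _ (hcast hij) (hcast h2)
  refine ⟨φ, hφm, ⟨fun i j => z0 (φ (min i j)) (φ (max i j)), ?_, ?_, ?_, ?_, ?_⟩, ?_⟩
  · intro i j
    rw [min_comm, max_comm]
  · intro i j hij
    exact (hx0 _ _ (hφm (hmm hij))).mem
  · intro i j hij
    exact hz0 _ _ (hφm (hmm hij))
  · intro i j hij
    obtain ⟨a, b, a', b', h1, h2, _⟩ := (hx0 _ _ (hφm (hmm hij))).cr
    show s.Vis (φ i) (z0 (φ (min i j)) (φ (max i j)))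
    rcases lt_or_gt_of_ne hij with h3 | h3
    · rw [min_eq_left h3.le, max_eq_right h3.le] at h1 ⊢
      exact vis_pass52 h1
    · rw [min_eq_right h3.le, max_eq_left h3.le] at h2 ⊢
      exact vis_pass52 h2
  · intro i j l hij hli hlj
    show ¬ s.Vis (φ l) (z0 (φ (min i j)) (φ (max i j)))
    rcases lt_or_gt_of_ne hij with h3 | h3
    · rw [min_eq_left h3.le, max_eq_right h3.le]
      exact nv i j l h3 hli hlj
    · rw [min_eq_right h3.le, max_eq_left h3.le]
      exact nv j i l h3 hlj hli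
  · intro i j hij
    rw [Sys.comap_xp]
    show s.XP (φ i) (φ j) (z0 (φ (min i j)) (φ (max i j)))
    rw [min_eq_left hij.le, max_eq_right hij.le]
    exact hx0 _ _ (hφm hij)

end Pool.Agent.Helper46.RM
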