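import Pool.Agent.Helper46.RM.ForX

/-!
# Block RM-FR: a walk is, near a component, the sum of its passes.

`Q 0`, `Q n` are not in the component of `z`. For a position `c < n` with `Q c` or `Q (c + 1)` in the component there is exactly one pass `(a, b)`
with `a ≤ c < b` (`a` = the last position `≤ c` outside the component if `Q (c + 1)` is inside, else if `Q c` is inside too the last position `< c`
outside; `b` = the first position `> a + 1`... outside). So `seg Q 0 n = (sum over all passes (a, b) of seg Q a b) + (sum of ed (Q c) (Q (c+1)) over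
the c with both points outside)`. In the crossing number with a chain `B` which touches only points `x` of the component or points that are not on `Q`
the second sum contributes nothing (`cross_eq_zero`).
A convenient way: put `S = {a < n : Q a outside, Q (a+1) inside}`, `e a` = least `b > a` with `Q b` outside and `b > a + 1`
(`Nat.find`, exists since `Q n` is outside), and prove by induction on `m ≤ n` with `Q m` outside:
`cross (seg Q 0 m) B = ∑ a ∈ S.filter (· < m), cross (seg Q a (e a)) B` (strong induction: step from the last position before `m` outside the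
component).
-/

namespace Pool.Agent.Helper46.RM

open scoped Classical

variable {F : SimpleGraph P2} {M : Set P2}

private theorem passes_sum75 {A : Type*} [AddCommMonoid A] (R : ℕ → Prop) (x : ℕ → A) (n : ℕ)
    (S : Finset ℕ) (e : ℕ → ℕ) (hS : ∀ a, a ∈ S ↔ a < n ∧ ¬ R a ∧ R (a + 1))
    (he : ∀ a b, a + 1 < b → b ≤ n → ¬ R a → ¬ R b → (∀ c, a < c → c < b → R c) → e a = b)
    (h0 : ¬ R 0) (hx : ∀ c, c < n → ¬ R c → ¬ R (c + 1) → x c = 0) :
    ∀ m, m ≤ n → ¬ R m →
      ∑ c ∈ Finset.range m, x c = ∑ a ∈ S.filter (· < m), ∑ c ∈ Finset.Ico a (e a), x c := by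
  intro m
  induction m using Nat.strong_induction_on with
  | _ m ih =>
    intro hm hRm
    rcases Nat.eq_zero_or_pos m with rfl | hpos
    · simp
    obtain ⟨k, rfl⟩ : ∃ k, m = k + 1 := ⟨m - 1, by omega⟩
    by_cases hk : R k
    · obtain ⟨a, hak, ha, hac⟩ : ∃ a, a < k ∧ ¬ R a ∧ ∀ c, a < c → c < k + 1 → R c := by
        refine ⟨Nat.findGreatest (fun a => ¬ R a) k, ?_, ?_, ?_⟩
        · have h1 : ¬ R (Nat.findGreatest (fun a => ¬ R a) k) :=
            Nat.findGreatest_spec (P := fun a => ¬ R a) (Nat.zero_le k) h0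
          rcases Nat.lt_or_ge (Nat.findGreatest (fun a => ¬ R a) k) k with h2 | h2
          · exact h2
          · have h3 := le_antisymm (Nat.findGreatest_le (P := fun a => ¬ R a) k) h2
            rw [h3] at h1
            exact absurd hk h1
        · exact Nat.findGreatest_spec (P := fun a => ¬ R a) (Nat.zero_le k) h0
        · intro c h1 h2
          have h3 := Nat.findGreatest_is_greatest h1 (Nat.lt_succ_iff.1 h2)
          exact not_not.1 h3
      have hea : e a = k + 1 := he a (k + 1) (by omega) hm ha hRm hac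
      have haS : a ∈ S := (hS a).2 ⟨by omega, ha, hac (a + 1) (by omega) (by omega)⟩
      have hfil : S.filter (· < k + 1) = insert a (S.filter (· < a)) := by
        ext b
        rw [Finset.mem_filter, Finset.mem_insert, Finset.mem_filter]
        constructor
        · rintro ⟨hb, hb'⟩
          rcases lt_trichotomy b a with h1 | h1 | h1
          · exact Or.inr ⟨hb, h1⟩
          · exact Or.inl h1
          · exact absurd (hac b h1 hb') ((hS b).1 hb).2.1
        · rintro (rfl | ⟨hb, hb'⟩)
          · exact ⟨haS, by omega⟩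
          · exact ⟨hb, by omega⟩
      rw [hfil, Finset.sum_insert (by simp), ← ih a (by omega) (by omega) ha, hea,
        Finset.range_eq_Ico, Finset.range_eq_Ico,
        ← Finset.sum_Ico_consecutive x (Nat.zero_le a) (by omega : a ≤ k + 1)]
      exact add_comm _ _
    · have hfil : S.filter (· < k + 1) = S.filter (· < k) := by
        ext b
        rw [Finset.mem_filter, Finset.mem_filter]
        constructor
        · rintro ⟨hb, hb'⟩
          refine ⟨hb, ?_⟩
          rcases Nat.lt_or_ge b k with h1 | h1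
          · exact h1
          · have h2 : b = k := by omega
            rw [h2] at hb
            exact absurd ((hS k).1 hb).2.2 hRm
        · rintro ⟨hb, hb'⟩
          exact ⟨hb, by omega⟩
      rw [hfil, ← ih k (by omega) (by omega) hk, Finset.sum_range_succ, hx k (by omega) hk hRm,
        add_zero]

theorem cross_passes {z : P2} {Q : ℕ → P2} {n : ℕ} (h0 : ¬ F.Reachable z (Q 0)) (hn : ¬ F.Reachable z (Q n)) (B : Ch)
    (hB : ∀ x, Touch B x → F.Reachable z x ∨ ∀ a, a ≤ n → Q a ≠ x) :
    ∃ (S : Finset ℕ) (e : ℕ → ℕ), (∀ a ∈ S, IsPass F z Q n a (e a)) ∧ (∀ a b, IsPass F z Q n a b → a ∈ S ∧ e a = b) ∧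
      cross (seg Q 0 n) B = ∑ a ∈ S, cross (seg Q a (e a)) B := by
  obtain ⟨R, hR⟩ : ∃ R : ℕ → Prop, ∀ c, R c ↔ F.Reachable z (Q c) := ⟨_, fun _ => Iff.rfl⟩
  have h0' : ¬ R 0 := fun h => h0 ((hR 0).1 h)
  have hn' : ¬ R n := fun h => hn ((hR n).1 h)
  have hseg : ∀ a b, cross (seg Q a b) B = ∑ c ∈ Finset.Ico a b, cross (ed (Q c) (Q (c + 1))) B := by
    intro a b
    unfold seg
    exact cross_sum_left _ _ _
  have hx : ∀ c, c < n → ¬ R c → ¬ R (c + 1) → cross (ed (Q c) (Q (c + 1))) B = 0 := by
    intro c hc h1 h2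
    apply cross_eq_zero
    intro p hp hp'
    rcases hB p hp' with h3 | h3
    · rcases touch_ed hp with rfl | rfl
      · exact h1 ((hR _).2 h3)
      · exact h2 ((hR _).2 h3)
    · rcases touch_ed hp with h4 | h4
      · exact h3 c (by omega) h4.symm
      · exact h3 (c + 1) (by omega) h4.symm
  let S : Finset ℕ := (Finset.range n).filter (fun a => ¬ R a ∧ R (a + 1))
  have hS : ∀ a, a ∈ S ↔ a < n ∧ ¬ R a ∧ R (a + 1) := by
    intro a
    simp [S]
  let e : ℕ → ℕ := fun a => if h : ∃ b, a + 1 < b ∧ ¬ R b then Nat.find h else 0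
  have he : ∀ a b, a + 1 < b → b ≤ n → ¬ R a → ¬ R b → (∀ c, a < c → c < b → R c) → e a = b := by
    intro a b hab hbn hRa hRb hc
    have hex : ∃ b, a + 1 < b ∧ ¬ R b := ⟨b, hab, hRb⟩
    have h1 : e a = Nat.find hex := dif_pos hex
    rw [h1]
    have h2 := Nat.find_spec hex
    have h3 : Nat.find hex ≤ b := Nat.find_min' hex ⟨hab, hRb⟩
    rcases lt_or_eq_of_le h3 with h4 | h4
    · exact absurd (hc _ (by omega) h4) h2.2
    · exact h4
  have hpass : ∀ a ∈ S, IsPass F z Q n a (e a) := by
    intro a ha
    obtain ⟨h1, h2, h3⟩ := (hS a).1 ha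
    have han : a + 1 < n := by
      rcases Nat.lt_or_ge (a + 1) n with h4 | h4
      · exact h4
      · have h5 : a + 1 = n := by omega
        rw [h5] at h3
        exact absurd h3 hn'
    have hex : ∃ b, a + 1 < b ∧ ¬ R b := ⟨n, han, hn'⟩
    have h4 : e a = Nat.find hex := dif_pos hex
    have h5 := Nat.find_spec hex
    rw [h4]
    refine ⟨h5.1, Nat.find_min' hex ⟨han, hn'⟩, fun h => h2 ((hR a).2 h), fun h => h5.2 ((hR _).2 h), ?_⟩
    intro c hc1 hc2
    rw [← hR]
    by_cases hc : c = a + 1
    · rw [hc]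
      exact h3
    · have h6 := Nat.find_min hex hc2
      by_contra h7
      exact h6 ⟨by omega, h7⟩
  refine ⟨S, e, hpass, ?_, ?_⟩
  · rintro a b ⟨h1, h2, h3, h4, h5⟩
    have h6 : ∀ c, a < c → c < b → R c := fun c hc hc' => (hR c).2 (h5 c hc hc')
    have h3' : ¬ R a := fun h => h3 ((hR a).1 h)
    have h4' : ¬ R b := fun h => h4 ((hR b).1 h)
    exact ⟨(hS a).2 ⟨by omega, h3', h6 (a + 1) (by omega) h1⟩, he a b h1 h2 h3' h4' h6⟩
  · rw [hseg, ← Finset.range_eq_Ico,
      passes_sum75 R (fun c => cross (ed (Q c) (Q (c + 1))) B) n S e hS he h0' hx n le_rfl hn']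
    have hfil : S.filter (· < n) = S := by
      apply Finset.filter_true_of_mem
      intro a ha
      exact ((hS a).1 ha).1
    rw [hfil]
    exact Finset.sum_congr rfl fun a _ => (hseg a (e a)).symm

end Pool.Agent.Helper46.RM
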