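import Pool.Agent.Helper46.RM.FxTop
import Pool.Agent.Helper46.RM.FxRun
import Pool.Agent.Helper46.RM.Sym

/-!
# Block RM-FM: even crossing numbers with all passes of the other walk force all crossing numbers to be zero.

Write `X A B = cross (seg Q a b) (seg Q' a' b')` for a pass `A = (a, b)` of `Q` and a pass `B = (a', b')` of `Q'`.
(1) `Q a, Q b ∉ M` (else they would be joined to their neighbour in the component by `hM2`), so they are not on `Q'`; same for `Q' a', Q' b'`.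
Therefore `cross (seg Q a b) (seg Q' a' b') = cross (seg Q' a' b') (seg Q a b)` (`cross_symm`, `bd_seg`, `touch_seg`), and `X A B ≠ 0` implies that
the passes have a common point in the component (`cross_eq_zero`).
(2) By `cross_passes` the hypotheses say: `∑ A, X A B = 0` for all `B`, `∑ B, X A B = 0` for all `A` (with `hB` of `cross_passes` from (1)).
(3) Suppose some `X A B ≠ 0`. Among all passes (of `Q` and of `Q'`) which have a nonzero crossing number with some pass of the other walk choose one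
whose top (`pass_top`) has the largest depth, say `A` of `Q` with the top `x` (the other case is the same with `Q`, `Q'` exchanged). If
`X A B ≠ 0`, then `A` and `B` have a common point and the depth of the top of `B` is at most that of `x`, so `x` is on `B` (`top_share`).
Two different passes of `Q'` have no common point (`Q'` is injective), so there is exactly one `B` with `X A B ≠ 0`, and
`∑ B, X A B ≠ 0`, contradiction.
-/

namespace Pool.Agent.Helper46.RM

open scoped Classical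

variable {F : SimpleGraph P2} {M : Set P2}

private theorem fm_mem (hM : ∀ x y, F.Adj x y → x ∈ M) {z w : P2} (hz : z ∈ M) (h : F.Reachable z w) : w ∈ M := by
  obtain ⟨p⟩ := h.symm
  cases p with
  | nil => exact hz
  | cons hadj _ => exact hM _ _ hadj

private theorem fm_ends (hM : ∀ x y, F.Adj x y → x ∈ M) {z : P2} (hz : z ∈ M) {Q : ℕ → P2} {n : ℕ}
    (h : TrailOK F M Q n) {a b : ℕ} (hp : IsPass F z Q n a b) : Q a ∉ M ∧ Q b ∉ M := by
  obtain ⟨h1, h2, h3, h4, h5⟩ := hp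
  constructor
  · intro hc
    have h6 := h5 (a + 1) (by omega) h1
    have h7 := h.fst a (by omega) hc (fm_mem hM hz h6)
    exact h3 (h6.trans h7.symm.reachable)
  · intro hc
    obtain ⟨k, rfl⟩ : ∃ k, b = k + 1 := ⟨b - 1, by omega⟩
    have h6 := h5 k (by omega) (by omega)
    have h7 := h.fst k (by omega) (fm_mem hM hz h6) hc
    exact h4 (h6.trans h7.reachable)

private theorem fm_common (hM : ∀ x y, F.Adj x y → x ∈ M) {z : P2} (hz : z ∈ M) {Q Q' : ℕ → P2} {n n' : ℕ}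
    (h : TrailOK F M Q n) (h' : TrailOK F M Q' n') (hout : ∀ a b, a ≤ n → b ≤ n' → Q a = Q' b → Q a ∈ M)
    {a b a' b' : ℕ} (hp : IsPass F z Q n a b) (hp' : IsPass F z Q' n' a' b') {c c' : ℕ} (h1 : a ≤ c) (h2 : c ≤ b)
    (h3 : a' ≤ c') (h4 : c' ≤ b') (he : Q c = Q' c') : a < c ∧ c < b ∧ a' < c' ∧ c' < b' := by
  obtain ⟨e1, e2⟩ := fm_ends hM hz h hp
  obtain ⟨e3, e4⟩ := fm_ends hM hz h' hp'
  have hb := hp.2.1
  have hb' := hp'.2.1
  have hm := hout c c' (by omega) (by omega) he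
  refine ⟨?_, ?_, ?_, ?_⟩
  · rcases Nat.lt_or_ge a c with h5 | h5
    · exact h5
    · have h6 : c = a := by omega
      rw [h6] at hm
      exact absurd hm e1
  · rcases Nat.lt_or_ge c b with h5 | h5
    · exact h5
    · have h6 : c = b := by omega
      rw [h6] at hm
      exact absurd hm e2
  · rcases Nat.lt_or_ge a' c' with h5 | h5
    · exact h5
    · have h6 : c' = a' := by omega
      rw [he, h6] at hm
      exact absurd hm e3
  · rcases Nat.lt_or_ge c' b' with h5 | h5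
    · exact h5
    · have h6 : c' = b' := by omega
      rw [he, h6] at hm
      exact absurd hm e4

private theorem fm_bd {Q : ℕ → P2} {n : ℕ} (h : TrailOK F M Q n) {z : P2} {a b : ℕ} (hp : IsPass F z Q n a b) {p : P2}
    (hb : bd (seg Q a b) p ≠ 0) : p = Q a ∨ p = Q b := by
  obtain ⟨h1, h2, -⟩ := hp
  rw [bd_seg (by omega) (fun c _ hc => h.adj c (by omega))] at hb
  by_contra hc
  rw [not_or] at hc
  apply hb
  rw [dl, dl, if_neg hc.1, if_neg hc.2, add_zero]

private theorem fm_symm (hM : ∀ x y, F.Adj x y → x ∈ M) {z : P2} (hz : z ∈ M) {Q Q' : ℕ → P2} {n n' : ℕ}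
    (h : TrailOK F M Q n) (h' : TrailOK F M Q' n') (hout : ∀ a b, a ≤ n → b ≤ n' → Q a = Q' b → Q a ∈ M)
    {a b a' b' : ℕ} (hp : IsPass F z Q n a b) (hp' : IsPass F z Q' n' a' b') :
    cross (seg Q a b) (seg Q' a' b') = cross (seg Q' a' b') (seg Q a b) := by
  have hab := hp.1
  have hab' := hp'.1
  apply cross_symm
  · intro p hb ht
    obtain ⟨c, h1, h2, h3⟩ := touch_seg ht
    rcases fm_bd h' hp' hb with h4 | h4
    · have := fm_common hM hz h h' hout hp hp' h1 h2 le_rfl (by omega) (h3.symm.trans h4)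
      omega
    · have := fm_common hM hz h h' hout hp hp' h1 h2 (by omega) le_rfl (h3.symm.trans h4)
      omega
  · intro p hb ht
    obtain ⟨c, h1, h2, h3⟩ := touch_seg ht
    rcases fm_bd h hp hb with h4 | h4
    · have := fm_common hM hz h h' hout hp hp' le_rfl (by omega) h1 h2 (h4.symm.trans h3)
      omega
    · have := fm_common hM hz h h' hout hp hp' (by omega) le_rfl h1 h2 (h4.symm.trans h3)
      omega

private theorem fm_pass_unique {z : P2} {Q : ℕ → P2} {n : ℕ} {a b a' b' u : ℕ} (hp : IsPass F z Q n a b)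
    (hp' : IsPass F z Q n a' b') (h1 : a < u) (h2 : u < b) (h3 : a' < u) (h4 : u < b') : a = a' := by
  obtain ⟨-, -, p3, p4, p5⟩ := hp
  obtain ⟨-, -, q3, q4, q5⟩ := hp'
  rcases lt_trichotomy a a' with h | h | h
  · exact absurd (p5 a' h (by omega)) q3
  · exact h
  · exact absurd (q5 a h (by omega)) p3

private theorem fm_key (hF : Forest F) (hM : ∀ x y, F.Adj x y → x ∈ M)
    (hM2 : ∀ x y, x ∈ M → y ∈ M → LAdj x y → F.Reachable x y) {z : P2} (hz : z ∈ M) {Q Q' : ℕ → P2} {n n' : ℕ}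
    (h : TrailOK F M Q n) (h' : TrailOK F M Q' n')
    (h0' : ¬ F.Reachable z (Q' 0)) (hn' : ¬ F.Reachable z (Q' n')) (hout : ∀ a b, a ≤ n → b ≤ n' → Q a = Q' b → Q a ∈ M)
    (hr' : ∀ a b, IsPass F z Q n a b → cross (seg Q' 0 n') (seg Q a b) = 0) {a b t : ℕ}
    (hp : IsPass F z Q n a b) (hta : a < t) (htb : t < b)
    (ht : ∀ c, a < c → c < b → F.dist z (Q t) ≤ F.dist z (Q c))
    (hmax : ∀ a₁ b₁, IsPass F z Q' n' a₁ b₁ → cross (seg Q' a₁ b₁) (seg Q a b) ≠ 0 →
      ∀ t₁, a₁ < t₁ → t₁ < b₁ → (∀ c, a₁ < c → c < b₁ → F.dist z (Q' t₁) ≤ F.dist z (Q' c)) →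
        F.dist z (Q' t₁) ≤ F.dist z (Q t)) {a' b' : ℕ} (hp' : IsPass F z Q' n' a' b') :
    cross (seg Q' a' b') (seg Q a b) = 0 := by
  by_contra hne
  have hall : ∀ a₁ b₁, IsPass F z Q' n' a₁ b₁ → cross (seg Q' a₁ b₁) (seg Q a b) ≠ 0 →
      ∃ u, a₁ < u ∧ u < b₁ ∧ Q' u = Q t := by
    intro a₁ b₁ hp₁ hc₁
    have hex : ∃ p, Touch (seg Q' a₁ b₁) p ∧ Touch (seg Q a b) p := by
      by_contra hno
      apply hc₁
      apply cross_eq_zero
      intro p h1 h2
      exact hno ⟨p, h1, h2⟩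
    obtain ⟨p, hp1, hp2⟩ := hex
    obtain ⟨c₁, h1, h2, h3⟩ := touch_seg hp1
    obtain ⟨c, h4, h5, h6⟩ := touch_seg hp2
    have he : Q c = Q' c₁ := h6.symm.trans h3
    obtain ⟨h7, h8, h9, h10⟩ := fm_common hM hz h h' hout hp hp₁ h4 h5 h1 h2 he
    obtain ⟨t₁, ht1, ht2, ht3, -⟩ := pass_top hF hM hM2 hz h' hp₁
    exact top_share hF hM hM2 hz h h' hp hp₁ hta htb ht ht1 ht2 ht3 h7 h8 h9 h10 he
      (hmax a₁ b₁ hp₁ hc₁ t₁ ht1 ht2 ht3)
  obtain ⟨u₀, hu1, hu2, hu3⟩ := hall a' b' hp' hne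
  obtain ⟨S, e, hS1, hS2, hS3⟩ := cross_passes (F := F) (z := z) (Q := Q') (n := n') h0' hn' (seg Q a b) (by
    intro x hx
    obtain ⟨c, h1, h2, h3⟩ := touch_seg hx
    by_cases hac : a < c
    · by_cases hcb : c < b
      · left
        rw [h3]
        exact hp.2.2.2.2 c hac hcb
      · right
        intro a₁ ha₁ he
        have h4 : c = b := by omega
        have h5 := hout c a₁ (by have := hp.2.1; omega) ha₁ (h3.symm.trans he.symm)
        rw [h4] at h5
        exact (fm_ends hM hz h hp).2 h5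
    · right
      intro a₁ ha₁ he
      have h4 : c = a := by omega
      have h5 := hout c a₁ (by have := hp.2.1; omega) ha₁ (h3.symm.trans he.symm)
      rw [h4] at h5
      exact (fm_ends hM hz h hp).1 h5)
  rw [hr' a b hp] at hS3
  obtain ⟨ha'S, hea'⟩ := hS2 a' b' hp'
  rw [Finset.sum_eq_single a' ?_ (fun hno => absurd ha'S hno), hea'] at hS3
  · exact hne hS3.symm
  · intro a₁ ha₁ hne₁
    by_contra hc₁
    obtain ⟨u₁, hv1, hv2, hv3⟩ := hall a₁ (e a₁) (hS1 a₁ ha₁) hc₁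
    have hle : u₁ ≤ n' := by
      have := (hS1 a₁ ha₁).2.1
      omega
    have hle' : u₀ ≤ n' := by
      have := hp'.2.1
      omega
    have hu : u₁ = u₀ := h'.inj u₁ u₀ hle hle' (hv3.trans hu3.symm)
    subst hu
    exact hne₁ (fm_pass_unique (hS1 a₁ ha₁) hp' hv1 hv2 hu1 hu2)

theorem forest_cross (hF : Forest F) (hM : ∀ x y, F.Adj x y → x ∈ M)
    (hM2 : ∀ x y, x ∈ M → y ∈ M → LAdj x y → F.Reachable x y) {z : P2} (hz : z ∈ M) {Q Q' : ℕ → P2} {n n' : ℕ}
    (h : TrailOK F M Q n) (h' : TrailOK F M Q' n') (h0 : ¬ F.Reachable z (Q 0)) (hn : ¬ F.Reachable z (Q n))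
    (h0' : ¬ F.Reachable z (Q' 0)) (hn' : ¬ F.Reachable z (Q' n')) (hout : ∀ a b, a ≤ n → b ≤ n' → Q a = Q' b → Q a ∈ M)
    (hr : ∀ a b, IsPass F z Q' n' a b → cross (seg Q 0 n) (seg Q' a b) = 0)
    (hr' : ∀ a b, IsPass F z Q n a b → cross (seg Q' 0 n') (seg Q a b) = 0) {a b a' b' : ℕ}
    (hp : IsPass F z Q n a b) (hp' : IsPass F z Q' n' a' b') : cross (seg Q a b) (seg Q' a' b') = 0 := by
  have hout' : ∀ a b, a ≤ n' → b ≤ n → Q' a = Q b → Q' a ∈ M := by
    intro a b ha hb he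
    rw [he]
    exact hout b a hb ha he.symm
  by_contra hne
  -- the set of the depths of the tops of crossing passes
  let P : Set ℕ := {d | ∃ a b a' b', IsPass F z Q n a b ∧ IsPass F z Q' n' a' b' ∧
    cross (seg Q a b) (seg Q' a' b') ≠ 0 ∧
    ((∃ t, a < t ∧ t < b ∧ (∀ c, a < c → c < b → F.dist z (Q t) ≤ F.dist z (Q c)) ∧ F.dist z (Q t) = d) ∨
     (∃ t, a' < t ∧ t < b' ∧ (∀ c, a' < c → c < b' → F.dist z (Q' t) ≤ F.dist z (Q' c)) ∧ F.dist z (Q' t) = d))}
  have hPne : P.Nonempty := by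
    obtain ⟨t, ht1, ht2, ht3, -⟩ := pass_top hF hM hM2 hz h hp
    exact ⟨F.dist z (Q t), a, b, a', b', hp, hp', hne, Or.inl ⟨t, ht1, ht2, ht3, rfl⟩⟩
  have hPb : BddAbove P := by
    refine ⟨∑ c ∈ Finset.range (n + 1), F.dist z (Q c) + ∑ c ∈ Finset.range (n' + 1), F.dist z (Q' c), ?_⟩
    rintro d ⟨a, b, a', b', h1, h2, -, (⟨t, h3, h4, -, rfl⟩ | ⟨t, h3, h4, -, rfl⟩)⟩
    · have h5 : t ∈ Finset.range (n + 1) := by
        have := h1.2.1
        rw [Finset.mem_range]
        omega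
      have := Finset.single_le_sum (f := fun c => F.dist z (Q c)) (fun _ _ => Nat.zero_le _) h5
      omega
    · have h5 : t ∈ Finset.range (n' + 1) := by
        have := h2.2.1
        rw [Finset.mem_range]
        omega
      have := Finset.single_le_sum (f := fun c => F.dist z (Q' c)) (fun _ _ => Nat.zero_le _) h5
      omega
  have hmem := Nat.sSup_mem hPne hPb
  have hmax : ∀ d ∈ P, d ≤ sSup P := fun d hd => le_csSup hPb hd
  obtain ⟨a₂, b₂, a₃, b₃, hA, hB, hAB, hcase⟩ := hmem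
  rcases hcase with ⟨t, ht1, ht2, ht3, ht4⟩ | ⟨t, ht1, ht2, ht3, ht4⟩
  · rw [fm_symm hM hz h h' hout hA hB] at hAB
    refine hAB (fm_key hF hM hM2 hz h h' h0' hn' hout hr' hA ht1 ht2 ht3 ?_ hB)
    intro a₁ b₁ hp₁ hc₁ t₁ h1 h2 h3
    rw [ht4]
    apply hmax
    refine ⟨a₂, b₂, a₁, b₁, hA, hp₁, ?_, Or.inr ⟨t₁, h1, h2, h3, rfl⟩⟩
    rw [fm_symm hM hz h h' hout hA hp₁]
    exact hc₁
  · refine hAB (fm_key hF hM hM2 hz h' h h0 hn hout' hr hB ht1 ht2 ht3 ?_ hA)
    intro a₁ b₁ hp₁ hc₁ t₁ h1 h2 h3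
    rw [ht4]
    apply hmax
    exact ⟨a₁, b₁, a₃, b₃, hp₁, hB, hc₁, Or.inl ⟨t₁, h1, h2, h3, rfl⟩⟩

end Pool.Agent.Helper46.RM
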