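import Pool.Agent.Helper46.RM.CaA
import Pool.Agent.Helper46.RM.FxMain

/-!
# Block RM-A2: one of the two walks visits its crossing component after its last popular position.

`cross_zero`: `i ≠ j`, `Q i e` popular, `(a, b)` a pass of `j` at `z i j`. Let `k ≠ i, j` be a third walk. It visits the component of `Q i e` (position `0` if it
is the component of `r`, `PopOK.vis` otherwise), say at position `e'`. `C = loop i 0 e k 0 e'` is closed (`loop_closed`, both start at `r`), `Sup` of
`{i, k}` (`loop_sup`), so `wind C (Q j a) = wind C (Q j b)` (`pass_const` with `l = j`) and `cross C (seg (Q j) a b) = 0` (`cross_seg`, characteristic two).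
`C = seg (Q i) 0 e + R`, `R = tr (Q i e) (Q k e') + (seg (Q k) 0 e' + tr r r)`; `seg (Q j) a b` touches only the points `Q j a`, `Q j b` and points of the
component of `z i j`, none of them touched by `R`: `R` touches points of the walk `k` (`nvis`; `Q j a, Q j b ∉ MK`, so `ne_of_not_mem`), and points of
popular components (in `MK`, not in the component of `z i j`). So `cross R (seg (Q j) a b) = 0` (`cross_eq_zero`).
`last_or`: otherwise there are `e ≤ len i` with `Q i e` popular and no later visit of `z i j` on the walk `i`, and `e' ≤ len j` in the same way. Apply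
`forest_cross` to `Q i` (on `0..e`) and `Q j` (on `0..e'`), `M = MK`: `hr`, `hr'` are `cross_zero` (`z j i = z i j`; a pass on `0..e` is a pass on
`0..len`); `h0`, `hn`: these points are popular, `z i j` is not (`popSet_reach`); `hout`: `ne_of_not_mem`. The passes in `XP i j` satisfy `b ≤ e`,
`b' ≤ e'` (the positions `b - 1`, `b' - 1` are visits), so their crossing number is `0`, not `1`.
-/

namespace Pool.Agent.Helper46.RM

open scoped Classical

variable {ι : Type*} {p n m D : ℕ} {s : Sys ι p n} {Z : Fin m → P2}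

private theorem h42_third {n : ℕ} (hn : 3 ≤ n) (i j : Fin n) : ∃ k : Fin n, k ≠ i ∧ k ≠ j := by
  by_contra hno
  push Not at hno
  have h1 : (Finset.univ : Finset (Fin n)) ⊆ {i, j} := by
    intro k _
    rw [Finset.mem_insert, Finset.mem_singleton]
    by_cases hk : k = i
    · exact Or.inl hk
    · exact Or.inr (hno k hk)
  have h2 := Finset.card_le_card h1
  have h3 : ({i, j} : Finset (Fin n)).card ≤ 2 := Finset.card_le_two
  rw [Finset.card_univ, Fintype.card_fin] at h2
  omega

private theorem h42_ends (h : s.OK) {z : P2} (hz : z ∈ s.MK) {j : Fin n} {a b : ℕ} (hab : s.Pass j z a b) :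
    s.Q j a ∉ s.MK ∧ s.Q j b ∉ s.MK := by
  obtain ⟨h1, h2, h3, h4, h5⟩ := hab
  exact ⟨h.not_mem_of_leaf hz (a := a + 1) (a' := a) (by omega) (by omega) (Or.inr rfl) (h5 _ (by omega) (by omega)) h3,
    h.not_mem_of_leaf hz (a := b - 1) (a' := b) (by omega) (by omega) (Or.inl (by omega))
      (h5 _ (by omega) (by omega)) h4⟩

theorem AData.cross_zero (d : AData s Z) (h : s.OK) (hZ : s.PopOK Z D) (hg : s.Good Z) (hn : 3 ≤ n) {i j : Fin n}
    (hij : i ≠ j) {e : ℕ} (he : e ≤ s.len i) (hp : s.Q i e ∈ s.PopSet Z) {a b : ℕ} (hab : s.Pass j (d.z i j) a b) :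
    cross (seg (s.Q i) 0 e) (seg (s.Q j) a b) = 0 := by
  obtain ⟨k, hki, hkj⟩ := h42_third hn i j
  obtain ⟨e', he', hr⟩ : ∃ e', e' ≤ s.len k ∧ s.F.Reachable (s.Q i e) (s.Q k e') := by
    rcases hp.2 with h1 | ⟨t, h1⟩
    · exact ⟨0, Nat.zero_le _, by rw [h.Q_zero k]; exact h1.symm⟩
    · obtain ⟨c, hc, hc2⟩ := hZ.vis k t
      exact ⟨c, hc, h1.symm.trans hc2⟩
  have h0 : s.F.Reachable (s.Q i 0) (s.Q k 0) := by
    rw [h.Q_zero i, h.Q_zero k]
  have hC : Closed (s.loop i 0 e k 0 e') := h.loop_closed (Nat.zero_le _) he (Nat.zero_le _) he' h0 hr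
  have hS : s.Sup (fun l => l ≠ j) (s.loop i 0 e k 0 e') := by
    intro x hx
    obtain ⟨l, hl, c, hc, hc2⟩ := h.loop_sup (Nat.zero_le _) he (Nat.zero_le _) he' x hx
    refine ⟨l, ?_, c, hc, hc2⟩
    rcases hl with rfl | rfl
    · exact hij
    · exact hkj
  have hzm := d.mem i j hij
  have hzp := d.np i j hij
  have hw := h.pass_const hg hzm hzp hab hC hS
  have hadj : ∀ c, a ≤ c → c < b → LAdj (s.Q j c) (s.Q j (c + 1)) := by
    intro c _ hc
    have := hab.2.1
    exact (h.Q_ok j).adj c (by omega)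
  have hc0 : cross (s.loop i 0 e k 0 e') (seg (s.Q j) a b) = 0 := by
    have := hab.1
    rw [cross_seg hC (by omega) hadj, hw]
    exact CharTwo.add_self_eq_zero _
  obtain ⟨ma, mb⟩ := h42_ends h hzm hab
  -- the points of the piece
  have hT : ∀ x, Touch (seg (s.Q j) a b) x →
      s.F.Reachable (d.z i j) x ∨ (x ∉ s.MK ∧ ∃ c, c ≤ s.len j ∧ x = s.Q j c) := by
    intro x hx
    obtain ⟨c, h1, h2, h3⟩ := touch_seg hx
    have hb := hab.2.1
    by_cases hac : c = a
    · subst hac
      exact Or.inr ⟨h3 ▸ ma, c, by omega, h3⟩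
    · by_cases hcb : c = b
      · subst hcb
        exact Or.inr ⟨h3 ▸ mb, c, by omega, h3⟩
      · rw [h3]
        exact Or.inl (hab.2.2.2.2 c (by omega) (by omega))
  have hpop : ∀ x, x ∈ s.PopSet Z → ¬ Touch (seg (s.Q j) a b) x := by
    intro x hx hx'
    rcases hT x hx' with h1 | ⟨h1, -⟩
    · exact hzp (Sys.popSet_reach h hx h1.symm)
    · exact h1 hx.1
  have e1 : cross (tr s.F (s.Q i e) (s.Q k e')) (seg (s.Q j) a b) = 0 := by
    apply cross_eq_zero
    intro x hx
    exact hpop x (Sys.popSet_reach h hp (touch_tr h.F_for hx))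
  have e2 : cross (tr s.F (s.Q k 0) (s.Q i 0)) (seg (s.Q j) a b) = 0 := by
    apply cross_eq_zero
    intro x hx
    have hrp : s.Q k 0 ∈ s.PopSet Z := by
      rw [h.Q_zero k]
      exact ⟨h.r_mem, Or.inl (SimpleGraph.Reachable.refl _)⟩
    exact hpop x (Sys.popSet_reach h hrp (touch_tr h.F_for hx))
  have e3 : cross (seg (s.Q k) 0 e') (seg (s.Q j) a b) = 0 := by
    apply cross_eq_zero
    intro x hx hx'
    obtain ⟨c', -, hc', rfl⟩ := touch_seg hx
    rcases hT _ hx' with h1 | ⟨h1, c, hc, h2⟩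
    · exact d.nvis i j k hij hki hkj ⟨c', by omega, h1⟩
    · rw [h2] at h1
      exact h.ne_of_not_mem (Ne.symm hkj) hc (show c' ≤ s.len k by omega) h1 h2.symm
  unfold Sys.loop at hc0
  rw [cross_add_left, cross_add_left, cross_add_left, e1, e2, e3] at hc0
  simpa using hc0

theorem AData.last_or (d : AData s Z) (h : s.OK) (hZ : s.PopOK Z D) (hg : s.Good Z) (hn : 3 ≤ n) {i j : Fin n}
    (hij : i < j) (hx : s.XP i j (d.z i j)) : d.Last i j ∨ d.Last j i := by
  by_contra hno
  rw [not_or] at hno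
  obtain ⟨hno1, hno2⟩ := hno
  unfold AData.Last at hno1 hno2
  push Not at hno1 hno2
  obtain ⟨e, he, hep, hec⟩ := hno1
  obtain ⟨e', he', hep', hec'⟩ := hno2
  rw [← d.symm i j] at hec'
  have hne : i ≠ j := ne_of_lt hij
  have hzm := d.mem i j hne
  have hzp := d.np i j hne
  obtain ⟨a, b, a', b', hp, hp', hc⟩ := hx.cr
  have hlt : ∀ (l : Fin n) (e a b : ℕ), s.Q l e ∈ s.PopSet Z → (∀ c, e < c → c ≤ s.len l → ¬ s.F.Reachable (d.z i j) (s.Q l c)) →
      s.Pass l (d.z i j) a b → b ≤ e := by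
    intro l e a b h1 h2 h3
    obtain ⟨q1, q2, q3, q4, q5⟩ := h3
    have h4 := q5 (b - 1) (by omega) (by omega)
    by_contra hbe
    rcases Nat.eq_or_lt_of_le (show e ≤ b - 1 by omega) with h5 | h5
    · rw [h5] at h1
      exact hzp (Sys.popSet_reach h h1 h4.symm)
    · exact h2 (b - 1) h5 (by omega) h4
  have hbe := hlt i e a b hep hec hp
  have hbe' := hlt j e' a' b' hep' hec' hp'
  have htr : ∀ (l : Fin n) (e : ℕ), e ≤ s.len l → TrailOK s.F s.MK (s.Q l) e := fun l e hle =>
    ⟨fun a b ha hb hq => (h.Q_ok l).inj a b (ha.trans hle) (hb.trans hle) hq,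
      fun a ha => (h.Q_ok l).adj a (ha.trans_le hle), fun a ha => (h.Q_ok l).fst a (ha.trans_le hle)⟩
  have h0 : ∀ l : Fin n, ¬ s.F.Reachable (d.z i j) (s.Q l 0) := by
    intro l hr
    rw [h.Q_zero l] at hr
    exact hx.nr hr.symm
  have hn0 : ∀ (l : Fin n) (e : ℕ), s.Q l e ∈ s.PopSet Z → ¬ s.F.Reachable (d.z i j) (s.Q l e) := by
    intro l e h1 h2
    exact hzp (Sys.popSet_reach h h1 h2.symm)
  have hfc := forest_cross h.F_for h.F_mem h.F_span hzm (htr i e he) (htr j e' he') (h0 i) (hn0 i e hep) (h0 j)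
    (hn0 j e' hep') (by
      intro a b ha hb hq
      by_contra hm
      exact h.ne_of_not_mem hne (ha.trans he) (hb.trans he') hm hq) (by
      intro a b hab
      exact d.cross_zero h hZ hg hn hne he hep ⟨hab.1, hab.2.1.trans he', hab.2.2⟩) (by
      intro a b hab
      refine d.cross_zero h hZ hg hn (Ne.symm hne) he' hep' ?_
      rw [← d.symm i j]
      exact ⟨hab.1, hab.2.1.trans he, hab.2.2⟩)
    (show IsPass s.F (d.z i j) (s.Q i) e a b from ⟨hp.1, hbe, hp.2.2⟩)
    (show IsPass s.F (d.z i j) (s.Q j) e' a' b' from ⟨hp'.1, hbe', hp'.2.2⟩)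
  rw [hfc] at hc
  exact zero_ne_one hc

end Pool.Agent.Helper46.RM
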