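import Pool.Agent.Helper46.RM.CaA1
import Pool.Agent.Helper46.RM.CaA2

/-!
# Block RM-A3: reordering and choice of the curves.

`exists_last`: `N1` from `ram2` for `Prop` (or `Bool`) and `h`, `N` from `exists_adata` for `max N1 3`. Colour `i < j` by `Last i j` (if it does not hold then
`Last j i` by `last_or`). If the colour of the homogeneous subfamily is `True` we are done, otherwise compose with `Fin.rev`. (`Last` for `comap` is `Last` for
the images, definitionally. `comap_ok`, `comap_popOK`, `comap_good` are in SysB.)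
`exists_ahom`: for `i ≠ j` let `v i j` be the first visit (`Nat.find`) of `z i j` on the walk `i`; `v i j ≥ 1` (`Q i 0 = r` is popular, `z i j` is not).
`f i j` = the last popular position `< v i j` (position `0` is popular; `Nat.findGreatest`). The point `Q i (v i j - 1)` is not in the component of `z i j`, so
not in `MK` (`not_mem_of_leaf`) and has a colour in `P i` (`priv`). Enumerate `P i` by `Fin p`. Colour `i < j` by (the `w : Option (Fin m)` with
`Q j (f j i)` in the component of `repA w`, the set of `t : Fin p` such that `Q i (v i j - 1)` has the colour number `t` of `P i`, the set of `t` such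
that `Q j (v j i - 1)` has the colour number `t` of `P j`); `ram2` gives a homogeneous subfamily; the sets are not empty (if `2 ≤ h`), choose `t` in each
of them. For `h ≤ 1` the statements on colours are empty, but `ca i : ι` is still needed (if `ι` is empty there is no walk with `h = 1` ... take
`max h 2` and restrict with `AHom.comap`). `e i` = the last position of the walk `i` in the component of `repA w` (the walk visits it: `Q_zero` or
`PopOK.vis`; `Nat.findGreatest`), `g i j` from `Last i j` (`i < j`) for the popular position `e i`.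
-/

namespace Pool.Agent.Helper46.RM

open scoped Classical

variable {ι : Type*} {p n m : ℕ}

theorem exists_last (p m D h : ℕ) : ∃ N : ℕ, ∀ {ι : Type*} (s : Sys ι p N) (Z : Fin m → P2), s.OK → s.PopOK Z D →
    s.Good Z → (∀ i j, i < j → ∃ z, z ∉ s.PopSet Z ∧ s.XP i j z) →
    ∃ φ : Fin h → Fin N, Function.Injective φ ∧ ∃ d : AData (s.comap φ) Z, ∀ i j, i < j → d.Last i j := by
  obtain ⟨N1, hN1⟩ := ram2 Prop h
  obtain ⟨N, hN⟩ := exists_adata p m D (max N1 3)
  refine ⟨N, fun {ι} s Z hs hZ hg hx => ?_⟩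
  obtain ⟨φ0, hφ0, d0, hd0⟩ := hN s Z hs hZ hx
  have hs0 := Sys.comap_ok hs hφ0.injective
  have hZ0 := Sys.comap_popOK hZ hφ0.injective
  have hg0 := Sys.comap_good hg hφ0.injective
  have hor : ∀ i j, i < j → d0.Last i j ∨ d0.Last j i := fun i j hij =>
    d0.last_or hs0 hZ0 hg0 (le_max_right _ _) hij (hd0 i j hij)
  let c : Fin N1 → Fin (max N1 3) := Fin.castLE (le_max_left _ _)
  have hc : StrictMono c := Fin.strictMono_castLE _
  obtain ⟨φ1, hφ1, k0, hk0⟩ := hN1 (fun i j => d0.Last (c i) (c j))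
  have hψ : StrictMono (fun a => c (φ1 a)) := hc.comp hφ1
  by_cases hk : k0
  · refine ⟨fun a => φ0 (c (φ1 a)), hφ0.injective.comp hψ.injective,
      d0.comap (fun a => c (φ1 a)) hψ.injective, fun i j hij => ?_⟩
    have h1 : d0.Last (c (φ1 i)) (c (φ1 j)) := by
      rw [hk0 i j hij]
      exact hk
    exact h1
  · have hψ' : Function.Injective (fun a => c (φ1 (Fin.rev a))) := hψ.injective.comp Fin.rev_injective
    refine ⟨fun a => φ0 (c (φ1 (Fin.rev a))), hφ0.injective.comp hψ',
      d0.comap (fun a => c (φ1 (Fin.rev a))) hψ', fun i j hij => ?_⟩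
    have hr : Fin.rev j < Fin.rev i := Fin.rev_lt_rev.mpr hij
    have h1 : d0.Last (c (φ1 (Fin.rev i))) (c (φ1 (Fin.rev j))) := by
      refine (hor _ _ (hψ hr)).resolve_left fun h2 => hk ?_
      rw [← hk0 _ _ hr]
      exact h2
    exact h1

private theorem repA_pop {s : Sys ι p n} {Z : Fin m → P2} {D : ℕ} (hs : s.OK) (hZ : s.PopOK Z D)
    (w : Option (Fin m)) : s.repA Z w ∈ s.PopSet Z := by
  cases w with
  | none => exact ⟨hs.r_mem, Or.inl (SimpleGraph.Reachable.refl _)⟩
  | some t => exact ⟨hZ.mem t, Or.inr ⟨t, SimpleGraph.Reachable.refl _⟩⟩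

private theorem repA_vis {s : Sys ι p n} {Z : Fin m → P2} {D : ℕ} (hs : s.OK) (hZ : s.PopOK Z D)
    (w : Option (Fin m)) (i : Fin n) : s.Vis i (s.repA Z w) := by
  cases w with
  | none => exact ⟨0, Nat.zero_le _, by rw [hs.Q_zero i]; exact SimpleGraph.Reachable.refl _⟩
  | some t => exact hZ.vis i t

private theorem repA_of_pop {s : Sys ι p n} {Z : Fin m → P2} {x : P2} (hx : x ∈ s.PopSet Z) :
    ∃ w : Option (Fin m), s.F.Reachable (s.repA Z w) x := by
  rcases hx.2 with h | ⟨t, h⟩
  · exact ⟨none, h⟩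
  · exact ⟨some t, h⟩

private theorem repA_comap {k : ℕ} {s : Sys ι p n} {Z : Fin m → P2} (φ : Fin k → Fin n) (w : Option (Fin m)) :
    (s.comap φ).repA Z w = s.repA Z w := by
  cases w <;> rfl

theorem exists_ahom (p m h : ℕ) : ∃ N : ℕ, ∀ {ι : Type*} (s : Sys ι p N) (Z : Fin m → P2) (D : ℕ) (d : AData s Z),
    s.OK → s.PopOK Z D → (∀ i j, i < j → d.Last i j) →
    ∃ (φ : Fin h → Fin N) (hφ : StrictMono φ), Nonempty (AHom (d.comap φ hφ.injective)) := by
  obtain ⟨N, hN⟩ := ram2 (Option (Fin m) × Set (Fin p) × Set (Fin p)) (max h 2)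
  refine ⟨N, fun {ι} s Z D d hs hZ hL => ?_⟩
  -- first visits
  let v : Fin N → Fin N → ℕ := fun i j => sInf {a | s.F.Reachable (d.z i j) (s.Q i a)}
  have hvis : ∀ i j, i ≠ j → ∃ a, a ≤ s.len i ∧ s.F.Reachable (d.z i j) (s.Q i a) := fun i j hij => d.vis i j hij
  have hv_le : ∀ i j, i ≠ j → v i j ≤ s.len i := by
    intro i j hij
    obtain ⟨a, ha, hr⟩ := hvis i j hij
    exact (Nat.sInf_le hr).trans ha
  have hv_reach : ∀ i j, i ≠ j → s.F.Reachable (d.z i j) (s.Q i (v i j)) := by
    intro i j hij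
    obtain ⟨a, ha, hr⟩ := hvis i j hij
    exact Nat.sInf_mem (s := {a | s.F.Reachable (d.z i j) (s.Q i a)}) ⟨a, hr⟩
  have hv_first : ∀ i j, i ≠ j → ∀ c, c < v i j → ¬ s.F.Reachable (d.z i j) (s.Q i c) := by
    intro i j hij c hc hr
    exact Nat.notMem_of_lt_sInf hc hr
  have hpop0 : ∀ i, s.Q i 0 ∈ s.PopSet Z := by
    intro i
    rw [hs.Q_zero i]
    exact ⟨hs.r_mem, Or.inl (SimpleGraph.Reachable.refl _)⟩
  have hv_pos : ∀ i j, i ≠ j → 1 ≤ v i j := by
    intro i j hij
    by_contra hlt
    have h0 : v i j = 0 := by omega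
    have h1 := hv_reach i j hij
    rw [h0] at h1
    exact d.np i j hij (Sys.popSet_reach hs (hpop0 i) h1.symm)
  -- last popular position before the first visit
  let f : Fin N → Fin N → ℕ := fun i j => Nat.findGreatest (fun a => s.Q i a ∈ s.PopSet Z) (v i j - 1)
  have hf_le : ∀ i j, f i j ≤ v i j - 1 := fun i j => Nat.findGreatest_le _
  have hf_pop : ∀ i j, s.Q i (f i j) ∈ s.PopSet Z := fun i j =>
    Nat.findGreatest_spec (P := fun a => s.Q i a ∈ s.PopSet Z) (Nat.zero_le (v i j - 1)) (hpop0 i)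
  have hf_last : ∀ i j c, f i j < c → c < v i j → s.Q i c ∉ s.PopSet Z := by
    intro i j c h1 h2
    exact Nat.findGreatest_is_greatest (P := fun a => s.Q i a ∈ s.PopSet Z) h1 (by omega)
  choose W hW using fun i j => repA_of_pop (hf_pop i j)
  -- colours
  let en : ∀ i, Fin p ≃ (s.P i) := fun i => ((s.P i).equivFinOfCardEq (hs.P_card i)).symm
  let col : Fin N → Fin N → Set (Fin p) := fun i j => {t | s.Q i (v i j - 1) ∈ s.T (en i t : ι)}
  have hcol : ∀ i j, i ≠ j → (col i j).Nonempty := by
    intro i j hij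
    have h1 := hv_pos i j hij
    have h2 : s.Q i (v i j - 1) ∉ s.MK := hs.not_mem_of_leaf (d.mem i j hij) (hv_le i j hij)
      ((Nat.sub_le _ _).trans (hv_le i j hij)) (Or.inr (by omega)) (hv_reach i j hij)
      (hv_first i j hij _ (by omega))
    obtain ⟨c, hc, hT⟩ := hs.priv ((Nat.sub_le _ _).trans (hv_le i j hij)) h2
    refine ⟨(en i).symm ⟨c, hc⟩, ?_⟩
    simp only [col, Set.mem_ofPred_eq, Equiv.apply_symm_apply]
    exact hT
  obtain ⟨φ, hφ, ⟨w, A, B⟩, hk⟩ := hN (fun i j => (W j i, col i j, col j i))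
  have hk' : ∀ i j, i < j → W (φ j) (φ i) = w ∧ col (φ i) (φ j) = A ∧ col (φ j) (φ i) = B := by
    intro i j hij
    have h1 := hk i j hij
    rw [Prod.mk.injEq, Prod.mk.injEq] at h1
    exact h1
  have hne : ∀ {i j : Fin (max h 2)}, i ≠ j → φ i ≠ φ j := fun hij he => hij (hφ.injective he)
  let i0 : Fin (max h 2) := ⟨0, by omega⟩
  let i1 : Fin (max h 2) := ⟨1, by omega⟩
  have h01 : i0 < i1 := by
    rw [Fin.lt_def]
    exact Nat.zero_lt_one
  obtain ⟨ta, hta⟩ : A.Nonempty := by
    rw [← (hk' i0 i1 h01).2.1]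
    exact hcol _ _ (hne h01.ne)
  obtain ⟨tb, htb⟩ : B.Nonempty := by
    rw [← (hk' i0 i1 h01).2.2]
    exact hcol _ _ (hne h01.ne')
  -- last position in w
  let e : Fin (max h 2) → ℕ := fun i =>
    Nat.findGreatest (fun a => s.F.Reachable (s.repA Z w) (s.Q (φ i) a)) (s.len (φ i))
  have he_le : ∀ i, e i ≤ s.len (φ i) := fun i => Nat.findGreatest_le _
  have he_reach : ∀ i, s.F.Reachable (s.repA Z w) (s.Q (φ i) (e i)) := by
    intro i
    obtain ⟨a, ha, hr⟩ := repA_vis hs hZ w (φ i)
    exact Nat.findGreatest_spec (P := fun a => s.F.Reachable (s.repA Z w) (s.Q (φ i) a)) ha hr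
  have he_last : ∀ i c, e i < c → c ≤ s.len (φ i) → ¬ s.F.Reachable (s.repA Z w) (s.Q (φ i) c) := by
    intro i c h1 h2
    exact Nat.findGreatest_is_greatest (P := fun a => s.F.Reachable (s.repA Z w) (s.Q (φ i) a)) h1 h2
  have hg : ∀ i j : Fin (max h 2), ∃ c, i < j → e i < c ∧ c ≤ s.len (φ i) ∧
      s.F.Reachable (d.z (φ i) (φ j)) (s.Q (φ i) c) := by
    intro i j
    by_cases hij : i < j
    · obtain ⟨c, hc⟩ := hL (φ i) (φ j) (hφ hij) (e i) (he_le i)
        (Sys.popSet_reach hs (repA_pop hs hZ w) (he_reach i))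
      exact ⟨c, fun _ => hc⟩
    · exact ⟨0, fun h1 => absurd h1 hij⟩
  choose g hg using hg
  let a : AHom (d.comap φ hφ.injective) :=
    { w := w
      v := fun i j => v (φ i) (φ j)
      f := fun i j => f (φ i) (φ j)
      g := g
      e := e
      ca := fun i => (en (φ i) ta : ι)
      cb := fun i => (en (φ i) tb : ι)
      v_le := fun i j hij => hv_le _ _ (hne hij)
      v_reach := fun i j hij => hv_reach _ _ (hne hij)
      v_first := fun i j hij => hv_first _ _ (hne hij)
      f_lt := fun i j hij => by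
        have h1 := hf_le (φ j) (φ i)
        have h2 := hv_pos (φ j) (φ i) (hne hij.ne')
        omega
      f_reach := fun i j hij => by
        rw [repA_comap, ← (hk' i j hij).1]
        exact hW (φ j) (φ i)
      f_last := fun i j hij => hf_last (φ j) (φ i)
      e_le := he_le
      e_reach := fun i => by
        rw [repA_comap]
        exact he_reach i
      e_last := fun i c h1 h2 => by
        rw [repA_comap]
        exact he_last i c h1 h2
      g_lt := fun i j hij => (hg i j hij).1
      g_le := fun i j hij => (hg i j hij).2.1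
      g_reach := fun i j hij => (hg i j hij).2.2
      ca_mem := fun i j hij => (en (φ i) ta).2
      ca_col := fun i j hij => by
        have h1 : ta ∈ col (φ i) (φ j) := by
          rw [(hk' i j hij).2.1]
          exact hta
        exact h1
      cb_mem := fun i j hij => (en (φ j) tb).2
      cb_col := fun i j hij => by
        have h1 : tb ∈ col (φ j) (φ i) := by
          rw [(hk' i j hij).2.2]
          exact htb
        exact h1 }
  have hc : StrictMono (Fin.castLE (le_max_left h 2)) := Fin.strictMono_castLE _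
  exact ⟨fun i => φ (Fin.castLE (le_max_left h 2) i), hφ.comp hc, ⟨a.comap (Fin.castLE (le_max_left h 2)) hc⟩⟩

end Pool.Agent.Helper46.RM
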