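import Pool.Agent.Helper46.RM.CaA

/-!
# Block RM-A4: homogeneous winding parities, and their equality.

`exists_three`: `ram3` with the colouring `(i, j, l) ↦` the six values `val (ca i) j l, val (ca j) i l, val (ca l) i j` and the same for `cb`
(type `Fin 6 → ZMod 2` or a product). `val` of the restriction is `val` of the images (definitional).
`val_eq`: `wind_T` (`gam i j` is closed, `loop_closed`, and `Sup` of `{i, j}`, `loop_sup`).
`val_pair`: `i < j`, `k < l`, all different: `val (ca k) i j = wind (gam i j) (Q k (v k l - 1))` (`val_eq`, `ca_mem`, `ca_col`)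
`= wind (gam i j) (z k l)` (`wind_leaf`: the component of `z k l` is not touched (`sup_vis`, `nvis`), the point `Q k (v k l - 1)` is adjacent to
`Q k (v k l)` and not touched (`sup_not_touch`)), in the same way `val (cb l) i j = wind (gam i j) (Q l (v l k - 1)) = wind (gam i j) (z l k)`, `z l k = z k l`.
`all_equal`: `4 ≤ n` and `Three`: all six values are equal: `val_pair` for `(k, l; i, j) = (0,1;2,3), (0,2;1,3), (0,3;1,2), (1,2;0,3), (1,3;0,2), (2,3;0,1)`
(as elements of `Fin n`) gives `x1 = y1`, `x1 = y2`, `x1 = y3`, `x2 = y2`, `x2 = y3`, `x3 = y3`.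
-/

namespace Pool.Agent.Helper46.RM

open scoped Classical

variable {ι : Type*} {p n m D : ℕ} {s : Sys ι p n} {Z : Fin m → P2} {d : AData s Z}

theorem exists_three (p m h : ℕ) : ∃ N : ℕ, ∀ {ι : Type*} (s : Sys ι p N) (Z : Fin m → P2) (d : AData s Z)
    (a : AHom d), ∃ (φ : Fin h → Fin N) (hφ : StrictMono φ), (a.comap φ hφ).Three := by
  obtain ⟨N, hN⟩ := ram3 (ZMod 2 × ZMod 2 × ZMod 2 × ZMod 2 × ZMod 2 × ZMod 2) h
  refine ⟨N, fun {ι} s Z d a => ?_⟩
  obtain ⟨φ, hφ, ⟨x3, x2, x1, y3, y2, y1⟩, hk⟩ := hN (fun i j l => (a.val (a.ca l) i j, a.val (a.ca j) i l,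
    a.val (a.ca i) j l, a.val (a.cb l) i j, a.val (a.cb j) i l, a.val (a.cb i) j l))
  refine ⟨φ, hφ, x1, x2, x3, y1, y2, y3, fun i j l hij hli hlj => ?_⟩
  have e1 : (a.comap φ hφ).val ((a.comap φ hφ).ca l) i j = a.val (a.ca (φ l)) (φ i) (φ j) := rfl
  have e2 : (a.comap φ hφ).val ((a.comap φ hφ).cb l) i j = a.val (a.cb (φ l)) (φ i) (φ j) := rfl
  rw [e1, e2]
  by_cases h1 : l < i
  · have h2 := hk l i j h1 hij
    simp only [Prod.mk.injEq] at h2
    rw [if_pos h1, if_pos h1]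
    exact ⟨h2.2.2.1, h2.2.2.2.2.2⟩
  · rw [if_neg h1, if_neg h1]
    by_cases h3 : l < j
    · have h2 := hk i l j (lt_of_le_of_ne (not_lt.1 h1) (Ne.symm hli)) h3
      simp only [Prod.mk.injEq] at h2
      rw [if_pos h3, if_pos h3]
      exact ⟨h2.2.1, h2.2.2.2.2.1⟩
    · have h2 := hk i j l hij (lt_of_le_of_ne (not_lt.1 h3) (Ne.symm hlj))
      simp only [Prod.mk.injEq] at h2
      rw [if_neg h3, if_neg h3]
      exact ⟨h2.1, h2.2.2.2.1⟩

theorem AHom.gam_closed (a : AHom d) (h : s.OK) {i j : Fin n} (hij : i < j) : Closed (a.gam i j) := by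
  refine h.loop_closed (a.g_lt i j hij).le (a.g_le i j hij) (a.f_lt i j hij).le (a.v_le j i hij.ne') ?_ ?_
  · exact (a.e_reach i).symm.trans (a.f_reach i j hij)
  · have h1 := a.v_reach j i hij.ne'
    rw [d.symm j i] at h1
    exact (a.g_reach i j hij).symm.trans h1

theorem AHom.gam_sup (a : AHom d) (h : s.OK) {i j : Fin n} (hij : i < j) :
    s.Sup (fun k => k = i ∨ k = j) (a.gam i j) := by
  exact h.loop_sup (a.g_lt i j hij).le (a.g_le i j hij) (a.f_lt i j hij).le (a.v_le j i hij.ne')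

theorem AHom.val_eq (a : AHom d) (h : s.OK) {i j l : Fin n} (hij : i < j) (hli : l ≠ i) (hlj : l ≠ j) {c : ι}
    (hc : c ∈ s.P l) {x : P2} (hx : x ∈ s.T c) : wind (a.gam i j) x = a.val c i j := by
  unfold AHom.val
  have hne : (s.T c).Nonempty := ⟨x, hx⟩
  rw [dif_pos hne]
  refine h.wind_T (a.gam_closed h hij) (a.gam_sup h hij) ?_ hc hx (Set.Nonempty.some_mem _)
  rintro (h1 | h1)
  · exact hli h1
  · exact hlj h1

theorem AHom.val_pair (a : AHom d) (h : s.OK) {i j k l : Fin n} (hij : i < j) (hkl : k < l) (h1 : k ≠ i) (h2 : k ≠ j)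
    (h3 : l ≠ i) (h4 : l ≠ j) : a.val (a.ca k) i j = a.val (a.cb l) i j := by
  have hC := a.gam_closed h hij
  have hS := a.gam_sup h hij
  have hz : ∀ x, s.F.Reachable (d.z k l) x → ¬ Touch (a.gam i j) x := by
    intro x hx
    refine h.sup_vis hS ?_ hx
    rintro e (rfl | rfl)
    · exact d.nvis k l e hkl.ne h1.symm h3.symm
    · exact d.nvis k l e hkl.ne h2.symm h4.symm
  have key : ∀ (u v : Fin n) (c : ι), u ≠ v → d.z u v = d.z k l → u ≠ i → u ≠ j → c ∈ s.P u →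
      s.Q u (a.v u v - 1) ∈ s.T c → a.val c i j = wind (a.gam i j) (d.z k l) := by
    intro u v c huv hzz hui huj hc hT
    rw [← a.val_eq h hij hui huj hc hT]
    have hr := a.v_reach u v huv
    rw [hzz] at hr
    have hpos : 0 < a.v u v := by
      rcases Nat.eq_zero_or_pos (a.v u v) with h5 | h5
      · exfalso
        rw [h5, h.Q_zero] at hr
        exact d.np k l hkl.ne ⟨d.mem k l hkl.ne, Or.inl hr.symm⟩
      · exact h5
    obtain ⟨e, he⟩ : ∃ e, a.v u v = e + 1 := ⟨a.v u v - 1, by omega⟩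
    have hle := a.v_le u v huv
    rw [he] at hr hT hle ⊢
    rw [Nat.add_sub_cancel] at hT ⊢
    refine h.wind_leaf hC hz hr ((h.Q_ok u).adj e (by omega)).symm (h.sup_not_touch hS (l := u) ?_ hc hT)
    rintro (h5 | h5)
    · exact hui h5
    · exact huj h5
  rw [key k l (a.ca k) hkl.ne rfl h1 h2 (a.ca_mem k l hkl) (a.ca_col k l hkl),
    key l k (a.cb l) hkl.ne' (d.symm l k) h3 h4 (a.cb_mem k l hkl) (a.cb_col k l hkl)]

theorem AHom.all_equal (a : AHom d) (h : s.OK) (hn : 4 ≤ n) (h3 : a.Three) : ∃ x : ZMod 2, ∀ i j l, i < j → l ≠ i →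
    l ≠ j → a.val (a.ca l) i j = x ∧ a.val (a.cb l) i j = x := by
  obtain ⟨x1, x2, x3, y1, y2, y3, hx⟩ := h3
  obtain ⟨i0, hi0⟩ : ∃ i : Fin n, i.val = 0 := ⟨⟨0, by omega⟩, rfl⟩
  obtain ⟨i1, hi1⟩ : ∃ i : Fin n, i.val = 1 := ⟨⟨1, by omega⟩, rfl⟩
  obtain ⟨i2, hi2⟩ : ∃ i : Fin n, i.val = 2 := ⟨⟨2, by omega⟩, rfl⟩
  obtain ⟨i3, hi3⟩ : ∃ i : Fin n, i.val = 3 := ⟨⟨3, by omega⟩, rfl⟩
  have hlt : ∀ {i j : Fin n}, i.val < j.val → i < j := fun h => h
  have hne : ∀ {i j : Fin n}, i.val ≠ j.val → i ≠ j := fun h e => h (by rw [e])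
  have g1 : ∀ {i j l : Fin n}, i < j → l < i → a.val (a.ca l) i j = x1 ∧ a.val (a.cb l) i j = y1 := by
    intro i j l hij hl
    have h5 := hx i j l hij hl.ne (hl.trans hij).ne
    rw [if_pos hl, if_pos hl] at h5
    exact h5
  have g2 : ∀ {i j l : Fin n}, i < l → l < j → a.val (a.ca l) i j = x2 ∧ a.val (a.cb l) i j = y2 := by
    intro i j l hl hl'
    have h5 := hx i j l (hl.trans hl') hl.ne' hl'.ne
    rw [if_neg (not_lt.2 hl.le), if_neg (not_lt.2 hl.le), if_pos hl', if_pos hl'] at h5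
    exact h5
  have g3 : ∀ {i j l : Fin n}, i < j → j < l → a.val (a.ca l) i j = x3 ∧ a.val (a.cb l) i j = y3 := by
    intro i j l hij hl
    have h5 := hx i j l hij (hij.trans hl).ne' hl.ne'
    rw [if_neg (not_lt.2 (hij.trans hl).le), if_neg (not_lt.2 (hij.trans hl).le), if_neg (not_lt.2 hl.le),
      if_neg (not_lt.2 hl.le)] at h5
    exact h5
  have l01 : i0 < i1 := hlt (by omega)
  have l02 : i0 < i2 := hlt (by omega)
  have l03 : i0 < i3 := hlt (by omega)
  have l12 : i1 < i2 := hlt (by omega)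
  have l13 : i1 < i3 := hlt (by omega)
  have l23 : i2 < i3 := hlt (by omega)
  have p1 := a.val_pair h (i := i2) (j := i3) (k := i0) (l := i1) l23 l01 l02.ne l03.ne l12.ne l13.ne
  rw [(g1 l23 l02).1, (g1 l23 l12).2] at p1
  have p2 := a.val_pair h (i := i1) (j := i3) (k := i0) (l := i2) l13 l02 l01.ne l03.ne l12.ne' l23.ne
  rw [(g1 l13 l01).1, (g2 l12 l23).2] at p2
  have p3 := a.val_pair h (i := i1) (j := i2) (k := i0) (l := i3) l12 l03 l01.ne l02.ne l13.ne' l23.ne'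
  rw [(g1 l12 l01).1, (g3 l12 l23).2] at p3
  have p4 := a.val_pair h (i := i0) (j := i3) (k := i1) (l := i2) l03 l12 l01.ne' l13.ne l02.ne' l23.ne
  rw [(g2 l01 l13).1, (g2 l02 l23).2] at p4
  have p6 := a.val_pair h (i := i0) (j := i1) (k := i2) (l := i3) l01 l23 l02.ne' l12.ne' l03.ne' l13.ne'
  rw [(g3 l01 l12).1, (g3 l01 l13).2] at p6
  refine ⟨x1, fun i j l hij hli hlj => ?_⟩
  have h5 := hx i j l hij hli hlj
  have q2 : x2 = x1 := p4.trans p2.symm
  have q3 : x3 = x1 := p6.trans p3.symm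
  rw [q2, q3, ← p1, ← p2, ← p3] at h5
  simp only [ite_self] at h5
  exact h5

end Pool.Agent.Helper46.RM
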