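import Pool.Agent.Helper46.RM.CaA3
import Pool.Agent.Helper46.RM.CaA4

/-!
# Block RM-A5: the star, and case A.

`f_lt2`: `f j i + 1 < v j i`: `Q j (f j i)` is in a popular component, `Q j (v j i)` is not; adjacent points of `MK` are in the same component.
`q_not_mem`: `Q j (f j i + 1)` is not popular (`f_last`), so not in the component of `Q j (f j i)`, so not in `MK` (`not_mem_of_leaf`).
`Q j (v j i - 1) ∉ MK`: not in the component of `z j i` (`v_first`).
`AHom.false`: apply `star4_false` with `y 0 = Q 0 (e 0)`, `q 0 = Q 0 (e 0 + 1)`, and for `j = 1, 2, 3` (as elements of `Fin n`) `y j = Q j (f j 0)`,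
`q j = Q j (f j 0 + 1)`, `Z j = gam 0 j`, decomposed by `loop_star`: `η j = seg (Q 0) (e 0 + 1) (g 0 j) + tr (Q 0 (g 0 j)) (Q j (v j 0)) +
seg (Q j) (f j 0 + 1) (v j 0)`. It touches points `Q 0 c`, `e 0 < c ≤ g 0 j` (not in the component of `y 0` by `e_last`), points of the component of
`z 0 j` (not popular), points `Q j c`, `f j 0 < c ≤ v j 0` (not popular by `f_last`, `np`); the points `q k`, `k ≠ 0, j`, are not in `MK`, so not among
them (`ne_of_not_mem`, `reach_mem`). `q 0 ∉ MK` (`e_last`, `not_mem_of_leaf`). The `q`'s are distinct (`ne_of_not_mem`).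
`he`: `wind (gam 0 j) (q k)` for `k ≠ 0, j`: by `seg_const` on `Q k` between the positions `f k 0 + 1` and `v k 0 - 1` (`C = gam 0 j`) it equals
`wind (gam 0 j) (Q k (v k 0 - 1)) = val (cb k) 0 j` (`cb_col`, `val_eq`) `= x` (`all_equal`).
`caseA`: `N3` from `exists_three p m 4`, `N2` from `exists_ahom p m N3`, `N` from `exists_last p m D N2`. (`comap_ok`, `comap_popOK`, `comap_good`;
`Sys.comap` of `Sys.comap` is definitionally the `comap` of the composition.)
-/

namespace Pool.Agent.Helper46.RM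

open scoped Classical

variable {ι : Type*} {p n m D : ℕ} {s : Sys ι p n} {Z : Fin m → P2} {d : AData s Z}

private theorem rep_mem75 (h : s.OK) (hZ : s.PopOK Z D) (w : Option (Fin m)) : s.repA Z w ∈ s.MK := by
  cases w with
  | none => exact h.r_mem
  | some t => exact hZ.mem t

private theorem rep_pop75 (h : s.OK) (hZ : s.PopOK Z D) {w : Option (Fin m)} {x : P2}
    (hx : s.F.Reachable (s.repA Z w) x) : x ∈ s.PopSet Z := by
  refine ⟨h.reach_mem (rep_mem75 h hZ w) hx, ?_⟩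
  cases w with
  | none => exact Or.inl hx
  | some t => exact Or.inr ⟨t, hx⟩

private theorem z_nonpop75 (d : AData s Z) (h : s.OK) {i j : Fin n} (hij : i ≠ j) {x : P2}
    (hx : s.F.Reachable (d.z i j) x) : x ∉ s.PopSet Z := fun hp =>
  d.np i j hij (Sys.popSet_reach h hp hx.symm)

theorem AHom.f_lt2 (a : AHom d) (h : s.OK) (hZ : s.PopOK Z D) {i j : Fin n} (hij : i < j) :
    a.f j i + 1 < a.v j i := by
  have h1 := a.f_lt i j hij
  rcases Nat.lt_or_ge (a.f j i + 1) (a.v j i) with h2 | h2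
  · exact h2
  exfalso
  have h3 : a.v j i = a.f j i + 1 := by omega
  have hpop : s.Q j (a.f j i) ∈ s.PopSet Z := rep_pop75 h hZ (a.f_reach i j hij)
  have hv := a.v_reach j i hij.ne'
  have hnp : s.Q j (a.v j i) ∉ s.PopSet Z := z_nonpop75 d h hij.ne' hv
  have hvm : s.Q j (a.v j i) ∈ s.MK := h.reach_mem (d.mem j i hij.ne') hv
  have hle := a.v_le j i hij.ne'
  have hadj : s.F.Adj (s.Q j (a.f j i)) (s.Q j (a.f j i + 1)) :=
    (h.Q_ok j).fst _ (by omega) hpop.1 (by rw [← h3]; exact hvm)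
  apply hnp
  rw [h3]
  exact Sys.popSet_reach h hpop hadj.reachable

theorem AHom.q_not_mem (a : AHom d) (h : s.OK) (hZ : s.PopOK Z D) {i j : Fin n} (hij : i < j) :
    s.Q j (a.f j i + 1) ∉ s.MK ∧ s.Q j (a.v j i - 1) ∉ s.MK := by
  have h1 := a.f_lt2 h hZ hij
  have hle := a.v_le j i hij.ne'
  constructor
  · refine h.not_mem_of_leaf (rep_mem75 h hZ a.w) (a := a.f j i) (by omega) (by omega) (Or.inl rfl)
      (a.f_reach i j hij) ?_
    intro h2
    exact a.f_last i j hij (a.f j i + 1) (by omega) h1 (rep_pop75 h hZ h2)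
  · exact h.not_mem_of_leaf (d.mem j i hij.ne') (a := a.v j i) hle (by omega) (Or.inr (by omega))
      (a.v_reach j i hij.ne') (a.v_first j i hij.ne' _ (by omega))

theorem AHom.false (a : AHom d) (h : s.OK) (hZ : s.PopOK Z D) (hg : s.Good Z) (hn : 4 ≤ n) (h3 : a.Three) :
    False := by
  obtain ⟨x, hx⟩ := a.all_equal h hn h3
  obtain ⟨em, hem⟩ : ∃ em : Fin 4 → Fin n, StrictMono em := ⟨Fin.castLE hn, Fin.strictMono_castLE hn⟩
  have hlt : ∀ j : Fin 4, j ≠ 0 → em 0 < em j := fun j hj => hem (Fin.pos_of_ne_zero hj)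
  have hne : ∀ {j k : Fin 4}, j ≠ k → em j ≠ em k := fun hjk hh => hjk (hem.injective hh)
  obtain ⟨pos, hpos0, hposj⟩ : ∃ pos : Fin 4 → ℕ, pos 0 = a.e (em 0) ∧ ∀ j, j ≠ 0 → pos j = a.f (em j) (em 0) :=
    ⟨fun j => if j = 0 then a.e (em 0) else a.f (em j) (em 0), if_pos rfl, fun j hj => if_neg hj⟩
  have hposlt : ∀ i, pos i < s.len (em i) := by
    intro i
    by_cases hi : i = 0
    · rw [hi, hpos0]
      exact lt_of_lt_of_le (a.g_lt (em 0) (em 1) (hlt 1 (by decide))) (a.g_le _ _ (hlt 1 (by decide)))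
    · rw [hposj i hi]
      exact lt_of_lt_of_le (a.f_lt (em 0) (em i) (hlt i hi)) (a.v_le _ _ (hlt i hi).ne')
  have hreach : ∀ i, s.F.Reachable (s.repA Z a.w) (s.Q (em i) (pos i)) := by
    intro i
    by_cases hi : i = 0
    · rw [hi, hpos0]
      exact a.e_reach (em 0)
    · rw [hposj i hi]
      exact a.f_reach (em 0) (em i) (hlt i hi)
  have hqm : ∀ i, s.Q (em i) (pos i + 1) ∉ s.MK := by
    intro i
    by_cases hi : i = 0
    · have h1 := hposlt 0
      rw [hi]
      refine h.not_mem_of_leaf (rep_mem75 h hZ a.w) (a := pos 0) h1.le h1 (Or.inl rfl) (hreach 0) ?_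
      rw [hpos0] at h1 ⊢
      exact a.e_last (em 0) _ (by omega) h1
    · rw [hposj i hi]
      exact (a.q_not_mem h hZ (hlt i hi)).1
  have hymem : s.Q (em 0) (pos 0) ∈ s.MK := h.reach_mem (rep_mem75 h hZ a.w) (hreach 0)
  -- points in the component of `y 0` are popular
  have hpop : ∀ p, s.F.Reachable (s.Q (em 0) (pos 0)) p → s.F.Reachable (s.repA Z a.w) p :=
    fun p hp => (hreach 0).trans hp
  refine star4_false h.F_for (y := fun i => s.Q (em i) (pos i)) (q := fun i => s.Q (em i) (pos i + 1))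
    (fun i => (hreach 0).symm.trans (hreach i)) (fun i => (h.Q_ok (em i)).adj _ (hposlt i)) ?_ ?_
    (Z := fun j => a.gam (em 0) (em j))
    (η := fun j => seg (s.Q (em 0)) (a.e (em 0) + 1) (a.g (em 0) (em j)) +
      tr s.F (s.Q (em 0) (a.g (em 0) (em j))) (s.Q (em j) (a.v (em j) (em 0))) +
      seg (s.Q (em j)) (a.f (em j) (em 0) + 1) (a.v (em j) (em 0))) ?_ ?_ ?_ ?_
  · intro i hi
    exact hqm i (h.reach_mem hymem hi)
  · intro i j hij
    by_contra hcon
    exact h.ne_of_not_mem (hne hcon) (hposlt i) (hposlt j) (hqm i) hij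
  · intro j hj
    exact a.gam_closed h (hlt j hj)
  · intro j hj
    show s.loop _ _ _ _ _ _ = _
    have h1 := h.loop_star (i := em 0) (j := em j) (a.g_lt (em 0) (em j) (hlt j hj)) (a.f_lt (em 0) (em j) (hlt j hj))
    rw [h1]
    simp only [hpos0, hposj j hj]
  · intro j hj p hp
    rcases touch_add hp with hp1 | hp1
    · rcases touch_add hp1 with hp2 | hp2
      · obtain ⟨c, hc1, hc2, rfl⟩ := touch_seg hp2
        have hcl : c ≤ s.len (em 0) := hc2.trans (a.g_le _ _ (hlt j hj))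
        refine ⟨fun hr => a.e_last (em 0) c hc1 hcl (hpop _ hr), fun k hk hkj hh => ?_⟩
        exact h.ne_of_not_mem (hne hk) (hposlt k) hcl (hqm k) hh.symm
      · have hr1 : s.F.Reachable (d.z (em 0) (em j)) p :=
          (a.g_reach (em 0) (em j) (hlt j hj)).trans (touch_tr h.F_for hp2)
        refine ⟨fun hr => z_nonpop75 d h (hlt j hj).ne hr1 (rep_pop75 h hZ (hpop _ hr)), fun k hk hkj hh => ?_⟩
        apply hqm k
        rw [← hh]
        exact h.reach_mem (d.mem _ _ (hlt j hj).ne) hr1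
    · obtain ⟨c, hc1, hc2, rfl⟩ := touch_seg hp1
      have hcl : c ≤ s.len (em j) := hc2.trans (a.v_le _ _ (hlt j hj).ne')
      refine ⟨fun hr => ?_, fun k hk hkj hh => ?_⟩
      · have hp3 : s.Q (em j) c ∈ s.PopSet Z := rep_pop75 h hZ (hpop _ hr)
        rcases Nat.lt_or_ge c (a.v (em j) (em 0)) with h4 | h4
        · exact a.f_last (em 0) (em j) (hlt j hj) c hc1 h4 hp3
        · have h5 : c = a.v (em j) (em 0) := le_antisymm hc2 h4
          rw [h5] at hp3
          exact z_nonpop75 d h (hlt j hj).ne' (a.v_reach _ _ (hlt j hj).ne') hp3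
      · exact h.ne_of_not_mem (hne hkj) (hposlt k) hcl (hqm k) hh.symm
  · have key : ∀ j k, j ≠ 0 → k ≠ 0 → k ≠ j → wind (a.gam (em 0) (em j)) (s.Q (em k) (pos k + 1)) = x := by
      intro j k hj hk hkj
      have h1 := a.f_lt2 h hZ (hlt k hk)
      have h2 := a.v_le (em k) (em 0) (hlt k hk).ne'
      have h4 := a.q_not_mem h hZ (hlt k hk)
      have hS : s.Sup (fun i => i ≠ em k) (a.gam (em 0) (em j)) := by
        intro p hp
        obtain ⟨i, hi, hi2⟩ := a.gam_sup h (hlt j hj) p hp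
        refine ⟨i, ?_, hi2⟩
        rcases hi with hi | hi
        · rw [hi]
          exact (hlt k hk).ne
        · rw [hi]
          exact hne hkj.symm
      have h5 := h.seg_const hg (l := em k) (a := a.f (em k) (em 0) + 1) (b := a.v (em k) (em 0) - 1) (by omega)
        (by omega) (fun c hc1 hc2 => a.f_last (em 0) (em k) (hlt k hk) c hc1 (by omega)) h4.1 h4.2
        (a.gam_closed h (hlt j hj)) hS
      rw [hposj k hk, h5, a.val_eq h (hlt j hj) (hlt k hk).ne' (hne hkj) (a.cb_mem (em 0) (em k) (hlt k hk))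
        (a.cb_col (em 0) (em k) (hlt k hk))]
      exact (hx (em 0) (em j) (em k) (hlt j hj) (hlt k hk).ne' (hne hkj)).2
    intro j k l hj hk hl hkj hlj
    exact (key j k hj hk hkj).trans (key j l hj hl hlj).symm

theorem caseA (p m D : ℕ) : ∃ N : ℕ, ∀ {ι : Type*} (s : Sys ι p N) (Z : Fin m → P2), s.OK → s.PopOK Z D → s.Good Z →
    (∀ i j, i < j → ∃ z, z ∉ s.PopSet Z ∧ s.XP i j z) → False := by
  obtain ⟨N3, h3⟩ := exists_three p m 4
  obtain ⟨N2, h2⟩ := exists_ahom p m N3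
  obtain ⟨N, h1⟩ := exists_last p m D N2
  refine ⟨N, fun s Z hs hZ hg hx => ?_⟩
  obtain ⟨φ, hφ, d, hd⟩ := h1 s Z hs hZ hg hx
  have hs1 := Sys.comap_ok hs hφ
  have hZ1 := Sys.comap_popOK hZ hφ
  have hg1 := Sys.comap_good hg hφ
  obtain ⟨φ2, hφ2, ⟨a⟩⟩ := h2 (s.comap φ) Z D d hs1 hZ1 hd
  obtain ⟨φ3, hφ3, h4⟩ := h3 ((s.comap φ).comap φ2) Z (d.comap φ2 hφ2.injective) a
  exact (a.comap φ3 hφ3).false (Sys.comap_ok (Sys.comap_ok hs1 hφ2.injective) hφ3.injective)
    (Sys.comap_popOK (Sys.comap_popOK hZ1 hφ2.injective) hφ3.injective)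
    (Sys.comap_good (Sys.comap_good hg1 hφ2.injective) hφ3.injective) le_rfl h4

end Pool.Agent.Helper46.RM
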