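import Pool.Agent.Helper46.RM.SegC
import Pool.Agent.Helper46.RM.Star

/-!
# Project RM, case B: all walks cross pairwise at one popular component. Definitions, part 5.

`rep Z w`: the representative of a popular component (`none`: the component of `r`).
`BData s Z t0`: a path `none = u 0, u 1, .., u q = some t0` of different popular components and, for every walk `i` and `a < q`, positions
`α i a < β i a` of the walk `i` between the components `u a` and `u (a + 1)` (if `fl a` then `α` is in `u a` and `β` in `u (a+1)`, otherwise
the other way round) with no popular point strictly between. `lp a i j` is the closed curve along the pieces `a` of the walks `i` and `j`.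
-/

namespace Pool.Agent.Helper46.RM

open scoped Classical

noncomputable section

variable {ι : Type*} {p n m : ℕ}

def Sys.rep (s : Sys ι p n) (Z : Fin m → P2) : Option (Fin m) → P2
  | none => s.r
  | some t => Z t

structure BData (s : Sys ι p n) (Z : Fin m → P2) (t0 : Fin m) where
  q : ℕ
  u : ℕ → Option (Fin m)
  fl : ℕ → Bool
  α : Fin n → ℕ → ℕ
  β : Fin n → ℕ → ℕ
  u_zero : u 0 = none
  u_q : u q = some t0
  u_inj : ∀ a b, a ≤ q → b ≤ q → u a = u b → a = b
  lt : ∀ i a, a < q → α i a < β i a
  le : ∀ i a, a < q → β i a ≤ s.len i
  inner : ∀ i a, a < q → ∀ c, α i a < c → c < β i a → s.Q i c ∉ s.PopSet Z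
  endα : ∀ i a, a < q → s.F.Reachable (s.rep Z (if fl a then u a else u (a + 1))) (s.Q i (α i a))
  endβ : ∀ i a, a < q → s.F.Reachable (s.rep Z (if fl a then u (a + 1) else u a)) (s.Q i (β i a))

variable {s : Sys ι p n} {Z : Fin m → P2} {t0 : Fin m}

def BData.lp (d : BData s Z t0) (a : ℕ) (i j : Fin n) : Ch :=
  s.loop i (d.α i a) (d.β i a) j (d.α j a) (d.β j a)

/-- the whole curve from the component of `r` to the component `t0` along `i` and back along `j` -/
def BData.gam (d : BData s Z t0) (i j : Fin n) : Ch := ∑ a ∈ Finset.range d.q, d.lp a i j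

/-- homogeneity: (pairs) the winding parity of `lp a i j` at a popular component which is not an end of the piece `a` does not depend on `i < j`;
(triples) at the first inner point of the piece `a` of a third walk `l` it depends only on the order of `i < j` and `l` -/
structure BData.Hom (d : BData s Z t0) : Prop where
  two : ∀ a, a < d.q → ∀ w, w ≠ d.u a → w ≠ d.u (a + 1) → ∀ i j i' j', i < j → i' < j' →
    wind (d.lp a i j) (s.rep Z w) = wind (d.lp a i' j') (s.rep Z w)
  three : ∀ a, a < d.q → ∃ v1 v2 v3 : ZMod 2, ∀ i j l, i < j → l ≠ i → l ≠ j →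
    wind (d.lp a i j) (s.Q l (d.α l a + 1)) = if l < i then v1 else if l < j then v2 else v3

end

end Pool.Agent.Helper46.RM
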