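import Pool.Agent.Helper46.RM.CaB
import Pool.Agent.Helper46.RM.Ram

/-!
# Block RM-B1: a path of popular components along every walk, the same for many walks.

`pop_path` (one walk `i`): let `G` be the graph on `Option (Fin m)` in which `w ≠ w'` are adjacent if there are positions `a < b ≤ len i`, one of
`Q i a, Q i b` in the component `w`, the other in `w'`, and no popular point strictly between. Claim: `none` and `some t0` are joined in `G`: by induction on
the position `b` (strong): if `Q i b` is in the popular component `w`, then `none` and `w` are joined in `G` (`b = 0`: `w = none`, since different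
representatives are not joined in `F` (`PopOK.nr`, `ne`); otherwise let `a < b` be the last popular position before `b`; it is in some `w'`,
joined to `none`, and `w' = w` or adjacent). Take a path (no repetitions) from `none` to `some t0` in `G` (`SimpleGraph.Walk.toPath`); `u a` = its `a`-th vertex
for `a ≤ q`, `none` for `a > q`; its length `q` is at most `m` (`m + 1` vertices; `SimpleGraph.Walk.IsPath.length_lt`). For `a < q` choose the positions;
`fl a = true` if `Q i (α a)` is in `u a`.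
`exists_bdata`: the data `(q, u 0, .., u m, fl 0, .., fl (m-1))` take finitely many values (`q ≤ m`, `u a = none` for `a > q`, `fl a = false` for
`a ≥ q`), `ram1` gives `h` walks with the same data. (The code of a walk: `Fin (m+1) × (Fin (m+1) → Option (Fin m)) × (Fin (m+1) → Bool)`.)
-/

namespace Pool.Agent.Helper46.RM

open scoped Classical

variable {ι : Type*} {p n m : ℕ}

private theorem path_abs92 {W : Type*} [Fintype W] (hcard : Fintype.card W = m + 1) (R : W → ℕ → Prop)
    (N : ℕ) (w0 w1 : W) (h0 : R w0 0) (b0 : ℕ) (hb0 : b0 ≤ N) (h1 : R w1 b0)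
    (hu : ∀ w w' b, R w b → R w' b → w = w') :
    ∃ (q : ℕ) (u : ℕ → W) (fl : ℕ → Bool) (α β : ℕ → ℕ), q ≤ m ∧ (∀ a, q < a → u a = w0) ∧
      (∀ a, q ≤ a → fl a = false) ∧ u 0 = w0 ∧ u q = w1 ∧ (∀ a b, a ≤ q → b ≤ q → u a = u b → a = b) ∧
      ∀ a, a < q → α a < β a ∧ β a ≤ N ∧ (∀ c, α a < c → c < β a → ¬ ∃ w, R w c) ∧
        R (if fl a then u a else u (a + 1)) (α a) ∧ R (if fl a then u (a + 1) else u a) (β a) := by
  let G : SimpleGraph W :=
    { Adj := fun w w' => w ≠ w' ∧ ∃ a b, a < b ∧ b ≤ N ∧ (∀ c, a < c → c < b → ¬ ∃ w, R w c) ∧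
        ((R w a ∧ R w' b) ∨ (R w' a ∧ R w b))
      symm := by
        constructor
        rintro w w' ⟨hne, a, b, h2, h3, h4, h5⟩
        exact ⟨hne.symm, a, b, h2, h3, h4, h5.symm⟩
      loopless := ⟨fun w hw => hw.1 rfl⟩ }
  have hreach : ∀ b, b ≤ N → ∀ w, R w b → G.Reachable w0 w := by
    intro b
    induction b using Nat.strong_induction_on with
    | _ b ih =>
      intro hb w hw
      rcases Nat.eq_zero_or_pos b with hb1 | hb1
      · subst hb1
        rw [hu w w0 0 hw h0]
      · obtain ⟨a, ha⟩ : ∃ a, a = Nat.findGreatest (fun a => ∃ w', R w' a) (b - 1) := ⟨_, rfl⟩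
        have hP0 : ∃ w', R w' 0 := ⟨w0, h0⟩
        have ha1 : ∃ w', R w' a := by
          rw [ha]
          exact Nat.findGreatest_spec (P := fun a => ∃ w', R w' a) (Nat.zero_le _) hP0
        have ha2 : a ≤ b - 1 := by
          rw [ha]
          exact Nat.findGreatest_le _
        have ha3 : ∀ c, a < c → c < b → ¬ ∃ w, R w c := by
          intro c hc hcb
          rw [ha] at hc
          exact Nat.findGreatest_is_greatest hc (by omega)
        obtain ⟨w', hw'⟩ := ha1
        have h5 := ih a (by omega) (by omega) w' hw'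
        by_cases hww : w' = w
        · rw [← hww]
          exact h5
        · refine h5.trans (SimpleGraph.Adj.reachable ?_)
          exact ⟨hww, a, b, by omega, hb, ha3, Or.inl ⟨hw', hw⟩⟩
  obtain ⟨p, hp⟩ := (hreach b0 hb0 w1 h1).exists_isPath
  have hq : p.length ≤ m := by
    have h5 := hp.length_lt
    omega
  obtain ⟨u, hudef⟩ : ∃ u : ℕ → W, u = fun a => if a ≤ p.length then p.getVert a else w0 := ⟨_, rfl⟩
  have hule : ∀ a, a ≤ p.length → u a = p.getVert a := by
    intro a ha
    rw [hudef]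
    exact if_pos ha
  have hcho : ∀ a, ∃ (f : Bool) (x y : ℕ), (p.length ≤ a → f = false) ∧ (a < p.length →
      x < y ∧ y ≤ N ∧ (∀ c, x < c → c < y → ¬ ∃ w, R w c) ∧
        R (if f then u a else u (a + 1)) x ∧ R (if f then u (a + 1) else u a) y) := by
    intro a
    rcases Nat.lt_or_ge a p.length with ha | ha
    · have hadj := p.adj_getVert_succ ha
      rw [← hule a ha.le, ← hule (a + 1) ha] at hadj
      obtain ⟨-, x, y, h2, h3, h4, h5⟩ := hadj
      rcases h5 with h5 | h5
      · refine ⟨true, x, y, fun h6 => absurd ha (Nat.not_lt.2 h6), fun _ => ⟨h2, h3, h4, ?_, ?_⟩⟩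
        · rw [if_pos rfl]
          exact h5.1
        · rw [if_pos rfl]
          exact h5.2
      · refine ⟨false, x, y, fun _ => rfl, fun _ => ⟨h2, h3, h4, ?_, ?_⟩⟩
        · rw [if_neg Bool.false_ne_true]
          exact h5.1
        · rw [if_neg Bool.false_ne_true]
          exact h5.2
    · exact ⟨false, 0, 0, fun _ => rfl, fun h6 => absurd h6 (Nat.not_lt.2 ha)⟩
  choose fl α β hfl hrest using hcho
  refine ⟨p.length, u, fl, α, β, hq, ?_, hfl, ?_, ?_, ?_, hrest⟩
  · intro a ha
    rw [hudef]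
    exact if_neg (Nat.not_le.2 ha)
  · rw [hule 0 (Nat.zero_le _), SimpleGraph.Walk.getVert_zero]
  · rw [hule _ le_rfl, SimpleGraph.Walk.getVert_length]
  · intro a b ha hb hab
    rw [hule a ha, hule b hb] at hab
    exact hp.getVert_injOn ha hb hab

theorem pop_path {D : ℕ} (s : Sys ι p n) (h : s.OK) (Z : Fin m → P2) (hZ : s.PopOK Z D) (t0 : Fin m) (i : Fin n) :
    ∃ (q : ℕ) (u : ℕ → Option (Fin m)) (fl : ℕ → Bool) (α β : ℕ → ℕ), q ≤ m ∧ (∀ a, q < a → u a = none) ∧
      (∀ a, q ≤ a → fl a = false) ∧ u 0 = none ∧ u q = some t0 ∧ (∀ a b, a ≤ q → b ≤ q → u a = u b → a = b) ∧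
      ∀ a, a < q → α a < β a ∧ β a ≤ s.len i ∧ (∀ c, α a < c → c < β a → s.Q i c ∉ s.PopSet Z) ∧
        s.F.Reachable (s.rep Z (if fl a then u a else u (a + 1))) (s.Q i (α a)) ∧
        s.F.Reachable (s.rep Z (if fl a then u (a + 1) else u a)) (s.Q i (β a)) := by
  have hw1 : ∃ b0, b0 ≤ s.len i ∧ s.F.Reachable (Z t0) (s.Q i b0) := hZ.vis i t0
  obtain ⟨b0, hb0, h1⟩ := hw1
  have hu : ∀ (w w' : Option (Fin m)) (b : ℕ), s.F.Reachable (s.rep Z w) (s.Q i b) →
      s.F.Reachable (s.rep Z w') (s.Q i b) → w = w' := by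
    intro w w' b h2 h3
    have h4 : s.F.Reachable (s.rep Z w) (s.rep Z w') := h2.trans h3.symm
    cases w with
    | none =>
      cases w' with
      | none => rfl
      | some t => exact absurd h4 (hZ.nr t)
    | some t =>
      cases w' with
      | none => exact absurd h4.symm (hZ.nr t)
      | some t' =>
        by_contra hne
        exact hZ.ne t t' (fun h5 => hne (by rw [h5])) h4
  obtain ⟨q, u, fl, α, β, e1, e2, e3, e4, e5, e6, e7⟩ := path_abs92 (W := Option (Fin m)) (m := m)
    (by rw [Fintype.card_option, Fintype.card_fin])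
    (fun w b => s.F.Reachable (s.rep Z w) (s.Q i b)) (s.len i) none (some t0)
    (by
      show s.F.Reachable s.r (s.Q i 0)
      rw [h.Q_zero i]) b0 hb0 h1 hu
  refine ⟨q, u, fl, α, β, e1, e2, e3, e4, e5, e6, fun a ha => ?_⟩
  obtain ⟨f1, f2, f3, f4, f5⟩ := e7 a ha
  refine ⟨f1, f2, fun c hc hc' hmem => ?_, f4, f5⟩
  apply f3 c hc hc'
  rcases hmem.2 with h6 | ⟨t, h6⟩
  · exact ⟨none, h6⟩
  · exact ⟨some t, h6⟩

theorem exists_bdata (p m h : ℕ) (t0 : Fin m) : ∃ N : ℕ, ∀ {ι : Type*} (s : Sys ι p N) (D : ℕ) (Z : Fin m → P2), s.OK →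
    s.PopOK Z D → ∃ φ : Fin h → Fin N, StrictMono φ ∧ Nonempty (BData (s.comap φ) Z t0) := by
  obtain ⟨N, hN⟩ := ram1 (Fin (m + 1) × (Fin (m + 1) → Option (Fin m)) × (Fin (m + 1) → Bool)) (h + 1)
  refine ⟨N, fun {ι} s D Z hs hZ => ?_⟩
  choose q u fl α β e1 e2 e3 e4 e5 e6 e7 using fun i => pop_path s hs Z hZ t0 i
  obtain ⟨φ, hφ, k0, hk⟩ := hN (fun i => (⟨q i, Nat.lt_succ_of_le (e1 i)⟩, fun a => u i a, fun a => fl i a))
  obtain ⟨l, hl⟩ : ∃ l, l = φ (Fin.last h) := ⟨_, rfl⟩
  have hsame : ∀ i, q (φ i) = q l ∧ u (φ i) = u l ∧ fl (φ i) = fl l := by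
    intro i
    have h1 := (hk i).trans (hk (Fin.last h)).symm
    rw [← hl] at h1
    simp only [Prod.mk.injEq] at h1
    obtain ⟨h2, h3, h4⟩ := h1
    have h2' : q (φ i) = q l := congrArg Fin.val h2
    refine ⟨h2', ?_, ?_⟩
    · funext a
      rcases Nat.lt_or_ge a (m + 1) with ha | ha
      · exact congrFun h3 ⟨a, ha⟩
      · have h5 := e1 l
        rw [e2 (φ i) a (by omega), e2 l a (by omega)]
    · funext a
      rcases Nat.lt_or_ge a (m + 1) with ha | ha
      · exact congrFun h4 ⟨a, ha⟩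
      · have h5 := e1 l
        rw [e3 (φ i) a (by omega), e3 l a (by omega)]
  have hrep : ∀ (ψ : Fin h → Fin N) (w : Option (Fin m)), (s.comap ψ).rep Z w = s.rep Z w := by
    intro ψ w
    cases w <;> rfl
  refine ⟨fun i => φ i.castSucc, fun i j hij => hφ (Fin.castSucc_lt_castSucc_iff.2 hij), ⟨?_⟩⟩
  refine
    { q := q l
      u := u l
      fl := fl l
      α := fun i => α (φ i.castSucc)
      β := fun i => β (φ i.castSucc)
      u_zero := e4 l
      u_q := e5 l
      u_inj := e6 l
      lt := ?_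
      le := ?_
      inner := ?_
      endα := ?_
      endβ := ?_ }
  · intro i a ha
    rw [← (hsame i.castSucc).1] at ha
    exact (e7 _ a ha).1
  · intro i a ha
    rw [← (hsame i.castSucc).1] at ha
    exact (e7 _ a ha).2.1
  · intro i a ha c hc hc' hmem
    rw [← (hsame i.castSucc).1] at ha
    exact (e7 _ a ha).2.2.1 c hc hc' hmem
  · intro i a ha
    rw [← (hsame i.castSucc).1] at ha
    rw [hrep, ← (hsame i.castSucc).2.1, ← (hsame i.castSucc).2.2]
    exact (e7 _ a ha).2.2.2.1
  · intro i a ha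
    rw [← (hsame i.castSucc).1] at ha
    rw [hrep, ← (hsame i.castSucc).2.1, ← (hsame i.castSucc).2.2]
    exact (e7 _ a ha).2.2.2.2

end Pool.Agent.Helper46.RM
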