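import Pool.Agent.Helper46.RM.CaB
import Pool.Agent.Helper46.RM.Ram

/-!
# Block RM-B2: homogeneous subfamilies in case B.

`BData.comap`: restrict `α`, `β` to the subfamily; `lp` and `gam` of the restriction are those of the images (definitional, `Sys.loop` of `comap`).
`exists_hom`: `q ≤ m` (the `u a`, `a ≤ q`, are different elements of `Option (Fin m)`). By `ram2` with the colouring
`(i, j) ↦ (a : Fin m, w : Option (Fin m)) ↦ wind (lp a i j) (rep w)` and then `ram3` with the colouring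
`(i, j, l) ↦ a : Fin m ↦ (wind (lp a i j) (Q l (α l a + 1)), wind (lp a i l) (Q j (α j a + 1)), wind (lp a j l) (Q i (α i a + 1)))` one gets
a subfamily with the properties `two` and `three` (`v3`, `v2`, `v1` are the three components). The number must not depend on the data: `N` from
`ram2`, `ram3` for the types `Fin m → Option (Fin m) → ZMod 2` and `Fin m → ZMod 2 × ZMod 2 × ZMod 2`.
-/

namespace Pool.Agent.Helper46.RM

open scoped Classical

variable {ι : Type*} {p n m k : ℕ} {s : Sys ι p n} {Z : Fin m → P2} {t0 : Fin m}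

def BData.comap (d : BData s Z t0) (φ : Fin k → Fin n) : BData (s.comap φ) Z t0 where
  q := d.q
  u := d.u
  fl := d.fl
  α := fun i => d.α (φ i)
  β := fun i => d.β (φ i)
  u_zero := d.u_zero
  u_q := d.u_q
  u_inj := d.u_inj
  lt := fun i => d.lt (φ i)
  le := fun i => d.le (φ i)
  inner := fun i => d.inner (φ i)
  endα := fun i a ha => by
    have h := d.endα (φ i) a ha
    revert h
    cases d.fl a <;> cases d.u a <;> cases d.u (a + 1) <;> exact fun h => h
  endβ := fun i a ha => by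
    have h := d.endβ (φ i) a ha
    revert h
    cases d.fl a <;> cases d.u a <;> cases d.u (a + 1) <;> exact fun h => h

theorem exists_hom (p m h : ℕ) (t0 : Fin m) : ∃ N : ℕ, ∀ {ι : Type*} (s : Sys ι p N) (Z : Fin m → P2)
    (d : BData s Z t0), ∃ φ : Fin h → Fin N, StrictMono φ ∧ (d.comap φ).Hom := by
  obtain ⟨N3, h3⟩ := ram3 (Fin m → ZMod 2 × ZMod 2 × ZMod 2) h
  obtain ⟨N2, h2⟩ := ram2 (Fin m → Option (Fin m) → ZMod 2) N3
  refine ⟨N2, fun s Z d => ?_⟩
  obtain ⟨φ2, hφ2, k2, hk2⟩ := h2 (fun i j a w => wind (d.lp a i j) (s.rep Z w))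
  obtain ⟨φ3, hφ3, k3, hk3⟩ := h3 (fun i j l a =>
    (wind (d.lp a (φ2 i) (φ2 j)) (s.Q (φ2 l) (d.α (φ2 l) a + 1)),
      wind (d.lp a (φ2 i) (φ2 l)) (s.Q (φ2 j) (d.α (φ2 j) a + 1)),
      wind (d.lp a (φ2 j) (φ2 l)) (s.Q (φ2 i) (d.α (φ2 i) a + 1))))
  have hq : d.q ≤ m := by
    have hinj : Function.Injective (fun a : Fin (d.q + 1) => d.u a) := by
      intro a b hab
      exact Fin.ext (d.u_inj a b (Nat.lt_succ_iff.1 a.2) (Nat.lt_succ_iff.1 b.2) hab)
    have hc := Fintype.card_le_of_injective _ hinj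
    rw [Fintype.card_fin, Fintype.card_option, Fintype.card_fin] at hc
    exact Nat.succ_le_succ_iff.1 hc
  refine ⟨fun i => φ2 (φ3 i), hφ2.comp hφ3, ?_, ?_⟩
  · intro a ha w _ _ i j i' j' hij hij'
    have ha' : a < m := lt_of_lt_of_le ha hq
    have e1 := congrFun (congrFun (hk2 (φ3 i) (φ3 j) (hφ3 hij)) ⟨a, ha'⟩) w
    have e2 := congrFun (congrFun (hk2 (φ3 i') (φ3 j') (hφ3 hij')) ⟨a, ha'⟩) w
    cases w <;> exact e1.trans e2.symm
  · intro a ha
    have ha' : a < m := lt_of_lt_of_le ha hq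
    refine ⟨(k3 ⟨a, ha'⟩).2.2, (k3 ⟨a, ha'⟩).2.1, (k3 ⟨a, ha'⟩).1, ?_⟩
    intro i j l hij hli hlj
    by_cases h1 : l < i
    · rw [if_pos h1]
      exact congrArg (fun x : ZMod 2 × ZMod 2 × ZMod 2 => x.2.2)
        (congrFun (hk3 l i j h1 hij) ⟨a, ha'⟩)
    · rw [if_neg h1]
      have h2 : i < l := lt_of_le_of_ne (not_lt.1 h1) (Ne.symm hli)
      by_cases h4 : l < j
      · rw [if_pos h4]
        exact congrArg (fun x : ZMod 2 × ZMod 2 × ZMod 2 => x.2.1)
          (congrFun (hk3 i l j h2 h4) ⟨a, ha'⟩)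
      · rw [if_neg h4]
        have h5 : j < l := lt_of_le_of_ne (not_lt.1 h4) (Ne.symm hlj)
        exact congrArg (fun x : ZMod 2 × ZMod 2 × ZMod 2 => x.1)
          (congrFun (hk3 i j l hij h5) ⟨a, ha'⟩)

end Pool.Agent.Helper46.RM
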