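import Pool.Agent.Helper46.RM.CaB

/-!
# Block RM-B3: winding parities of the pieces in a homogeneous family.

Throughout: `s.OK`, `PopOK`, `Good`, `d : BData s Z t0`, `d.Hom`, `4 ≤ n`.
Elementary facts. (1) `α l a + 1 < β l a`: otherwise consecutive positions in two different popular components, but adjacent points of `MK` are in one component
(`u a ≠ u (a+1)`, and the representatives are not joined in `F`). (2) The points `Q l (α l a + 1)`, `Q l (β l a - 1)` are not in `MK` (they would be in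
the popular component of their neighbour; `not_mem_of_leaf`). (3) `lp a i j` is closed (`loop_closed`), `lp a i j + lp a j k = lp a i k` (`loop_add`),
`lp a i j = lp a j i` (`loop_swap`), `Sup (fun k => k = i ∨ k = j)` (`loop_sup`). (4) A popular component `w ≠ u a, u (a+1)` is not touched by `lp a i j`
(`loop_touch`: the inner points of the pieces are not popular, the ends are in `u a`, `u (a+1)`).
`wind_rep`: `i ≠ j`, `w ≠ u a, u (a+1)`: `wind (lp a i j) (rep w) = 0`. For `i < j < k`: `x + x = x` with the common value `x` (`Hom.two`, (3), `wind_add`).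
`wind_own`: for `a` let `v1 v2 v3` be as in `Hom.three`. For `l < i < j < k`: `v1 + v1 = v1`, so `v1 = 0`; for `i < j < k < l`: `v3 = 0` (four walks).
And `v2 = 1`: `star4` for the walks `0, 1, 2, 3` (as `Fin n`), `y k = Q k (α k a)`, `q k = Q k (α k a + 1)`, `Z j = lp a 0 j` (`loop_star`): the sum is
`(v3 + v3) + (v2 + v3) + (v2 + v2) = v2 + v3 = v2`, so `v2 = 1`. (`η j = seg (Q 0) (α + 1) β + tr .. + seg (Q j) (α + 1) β` touches neither the
component of `y 0` (inner points are not popular, the ends `β` are in the other component) nor `q k`, `k ≠ 0, j` (`ne_of_not_mem` and `q k ∉ MK`).)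
`wind_inner`: for `l ≠ i, j`, `i < j`, `b < q` and a position `α l b < c < β l b` with `x = Q l c ∉ MK`: `wind (lp a i j) x = 1` if `a = b` and
`i < l < j`, else `0`. By `seg_const` on the piece (`C = lp a i j`) the value is the same for all such `c`. If `a = b`: take `c = α l a + 1`. If `a ≠ b`: one of
the two ends `w ∈ {u b, u (b+1)}` of the piece `b` is different from `u a` and `u (a+1)` (`u_inj`); take `c` next to this end (`α l b + 1` or `β l b - 1`):
`wind_leaf` and `wind_rep` give `0`.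
-/

namespace Pool.Agent.Helper46.RM

open scoped Classical

variable {ι : Type*} {p n m D : ℕ} {s : Sys ι p n} {Z : Fin m → P2} {t0 : Fin m}

private theorem rep_mem50 (h : s.OK) (hZ : s.PopOK Z D) (w : Option (Fin m)) : s.rep Z w ∈ s.MK := by
  cases w with
  | none => exact h.r_mem
  | some t => exact hZ.mem t

private theorem rep_inj50 (hZ : s.PopOK Z D) {w w' : Option (Fin m)}
    (hr : s.F.Reachable (s.rep Z w) (s.rep Z w')) : w = w' := by
  cases w with
  | none =>
    cases w' with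
    | none => rfl
    | some t => exact absurd hr (hZ.nr t)
  | some t =>
    cases w' with
    | none => exact absurd hr.symm (hZ.nr t)
    | some t' =>
      by_contra hne
      exact hZ.ne t t' (fun e => hne (by rw [e])) hr

private theorem rep_pop50 (h : s.OK) (hZ : s.PopOK Z D) {w : Option (Fin m)} {x : P2}
    (hx : s.F.Reachable (s.rep Z w) x) : x ∈ s.PopSet Z := by
  refine ⟨h.reach_mem (rep_mem50 h hZ w) hx, ?_⟩
  cases w with
  | none => exact Or.inl hx
  | some t => exact Or.inr ⟨t, hx⟩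

/-- the two ends of the pieces `a` -/
private theorem ends50 (d : BData s Z t0) {a : ℕ} (ha : a < d.q) : ∃ wα wβ : Option (Fin m), wα ≠ wβ ∧
    ((wα = d.u a ∧ wβ = d.u (a + 1)) ∨ (wα = d.u (a + 1) ∧ wβ = d.u a)) ∧
    (∀ i, s.F.Reachable (s.rep Z wα) (s.Q i (d.α i a))) ∧
    (∀ i, s.F.Reachable (s.rep Z wβ) (s.Q i (d.β i a))) := by
  have hu : d.u a ≠ d.u (a + 1) := by
    intro he
    have := d.u_inj a (a + 1) (by omega) (by omega) he
    omega
  by_cases hf : d.fl a = true
  · refine ⟨d.u a, d.u (a + 1), hu, Or.inl ⟨rfl, rfl⟩, fun i => ?_, fun i => ?_⟩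
    · have h1 := d.endα i a ha
      rwa [if_pos hf] at h1
    · have h1 := d.endβ i a ha
      rwa [if_pos hf] at h1
  · refine ⟨d.u (a + 1), d.u a, hu.symm, Or.inr ⟨rfl, rfl⟩, fun i => ?_, fun i => ?_⟩
    · have h1 := d.endα i a ha
      rwa [if_neg hf] at h1
    · have h1 := d.endβ i a ha
      rwa [if_neg hf] at h1

private theorem two50 (x : ZMod 2) (h : x + x = x) : x = 0 := by
  rw [CharTwo.add_self_eq_zero] at h
  exact h.symm

private theorem len50 (d : BData s Z t0) {a : ℕ} (ha : a < d.q) (i : Fin n) : d.α i a < s.len i :=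
  (d.lt i a ha).trans_le (d.le i a ha)

theorem BData.lt2 (d : BData s Z t0) (h : s.OK) (hZ : s.PopOK Z D) {a : ℕ} (ha : a < d.q) (l : Fin n) :
    d.α l a + 1 < d.β l a := by
  obtain ⟨wα, wβ, hne, -, hα, hβ⟩ := ends50 d ha
  have h1 := d.lt l a ha
  by_contra h2
  have h3 : d.β l a = d.α l a + 1 := by omega
  have h4 := (h.Q_ok l).adj (d.α l a) (len50 d ha l)
  have h5 := hβ l
  rw [h3] at h5
  have h6 := h.F_span _ _ (h.reach_mem (rep_mem50 h hZ wα) (hα l)) (h.reach_mem (rep_mem50 h hZ wβ) h5) h4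
  exact hne (rep_inj50 hZ (((hα l).trans h6).trans h5.symm))

theorem BData.not_mem (d : BData s Z t0) (h : s.OK) (hZ : s.PopOK Z D) {a : ℕ} (ha : a < d.q) (l : Fin n) :
    s.Q l (d.α l a + 1) ∉ s.MK ∧ s.Q l (d.β l a - 1) ∉ s.MK := by
  obtain ⟨wα, wβ, -, -, hα, hβ⟩ := ends50 d ha
  have h1 := d.lt2 h hZ ha l
  have h2 := d.le l a ha
  constructor
  · refine h.not_mem_of_leaf (rep_mem50 h hZ wα) (a := d.α l a) (by omega) (by omega) (Or.inl rfl)
      (hα l) (fun hr => ?_)
    exact d.inner l a ha _ (by omega) h1 (rep_pop50 h hZ hr)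
  · refine h.not_mem_of_leaf (rep_mem50 h hZ wβ) (a := d.β l a) (by omega) (by omega)
      (Or.inr (by omega)) (hβ l) (fun hr => ?_)
    exact d.inner l a ha _ (by omega) (by omega) (rep_pop50 h hZ hr)

theorem BData.lp_closed (d : BData s Z t0) (h : s.OK) {a : ℕ} (ha : a < d.q) (i j : Fin n) : Closed (d.lp a i j) := by
  obtain ⟨wα, wβ, -, -, hα, hβ⟩ := ends50 d ha
  exact h.loop_closed (d.lt i a ha).le (d.le i a ha) (d.lt j a ha).le (d.le j a ha)
    ((hα i).symm.trans (hα j)) ((hβ i).symm.trans (hβ j))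

theorem BData.lp_sup (d : BData s Z t0) (h : s.OK) {a : ℕ} (ha : a < d.q) (i j : Fin n) :
    s.Sup (fun k => k = i ∨ k = j) (d.lp a i j) :=
  h.loop_sup (d.lt i a ha).le (d.le i a ha) (d.lt j a ha).le (d.le j a ha)

/-- popular components other than the ends of the piece are not touched -/
theorem BData.lp_not_touch (d : BData s Z t0) (h : s.OK) (hZ : s.PopOK Z D) {a : ℕ} (ha : a < d.q) (i j : Fin n)
    {w : Option (Fin m)} (hw : w ≠ d.u a) (hw' : w ≠ d.u (a + 1)) {x : P2} (hx : s.F.Reachable (s.rep Z w) x) :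
    ¬ Touch (d.lp a i j) x := by
  obtain ⟨wα, wβ, -, hcase, hα, hβ⟩ := ends50 d ha
  have wA : w ≠ wα := by
    rcases hcase with ⟨rfl, -⟩ | ⟨rfl, -⟩
    · exact hw
    · exact hw'
  have wB : w ≠ wβ := by
    rcases hcase with ⟨-, rfl⟩ | ⟨-, rfl⟩
    · exact hw'
    · exact hw
  have key : ∀ k c, d.α k a ≤ c → c ≤ d.β k a → x ≠ s.Q k c := by
    rintro k c h1 h2 rfl
    rcases Nat.lt_or_ge (d.α k a) c with h3 | h3
    · rcases Nat.lt_or_ge c (d.β k a) with h4 | h4
      · exact d.inner k a ha c h3 h4 (rep_pop50 h hZ hx)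
      · have h5 : c = d.β k a := by omega
        rw [h5] at hx
        exact wB (rep_inj50 hZ (hx.trans (hβ k).symm))
    · have h5 : c = d.α k a := by omega
      rw [h5] at hx
      exact wA (rep_inj50 hZ (hx.trans (hα k).symm))
  intro ht
  rcases h.loop_touch ht ((hα i).symm.trans (hα j)) ((hβ i).symm.trans (hβ j)) with
    ⟨c, h1, h2, h3⟩ | ⟨c, h1, h2, h3⟩ | h1 | h1
  · exact key i c h1 h2 h3
  · exact key j c h1 h2 h3
  · exact wA (rep_inj50 hZ (hx.trans ((hα i).trans h1).symm))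
  · exact wB (rep_inj50 hZ (hx.trans ((hβ i).trans h1).symm))

private theorem lp_add50 (d : BData s Z t0) (h : s.OK) {a : ℕ} (ha : a < d.q) (i j k : Fin n) :
    d.lp a i j + d.lp a j k = d.lp a i k := by
  obtain ⟨wα, wβ, -, -, hα, hβ⟩ := ends50 d ha
  exact h.loop_add ((hα i).symm.trans (hα j)) ((hβ i).symm.trans (hβ j))
    ((hα j).symm.trans (hα k)) ((hβ j).symm.trans (hβ k))

theorem BData.wind_rep (d : BData s Z t0) (h : s.OK) (hZ : s.PopOK Z D) (hd : d.Hom) (hn : 4 ≤ n) {a : ℕ}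
    (ha : a < d.q) {i j : Fin n} (hij : i ≠ j) {w : Option (Fin m)} (hw : w ≠ d.u a) (hw' : w ≠ d.u (a + 1)) :
    wind (d.lp a i j) (s.rep Z w) = 0 := by
  have key : ∀ i j : Fin n, i < j → wind (d.lp a i j) (s.rep Z w) = 0 := by
    have h01 : (⟨0, by omega⟩ : Fin n) < ⟨1, by omega⟩ := by simp
    have h12 : (⟨1, by omega⟩ : Fin n) < ⟨2, by omega⟩ := by simp
    have h02 : (⟨0, by omega⟩ : Fin n) < ⟨2, by omega⟩ := by simp
    have h1 := congrArg (fun C => wind C (s.rep Z w)) (lp_add50 d h ha ⟨0, by omega⟩ ⟨1, by omega⟩ ⟨2, by omega⟩)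
    simp only [wind_add] at h1
    rw [hd.two a ha w hw hw' _ _ _ _ h12 h01, hd.two a ha w hw hw' _ _ _ _ h02 h01] at h1
    intro i j hij
    rw [hd.two a ha w hw hw' _ _ _ _ hij h01]
    exact two50 _ h1
  rcases lt_or_gt_of_ne hij with h1 | h1
  · exact key i j h1
  · have h2 : d.lp a i j = d.lp a j i := h.loop_swap i j _ _ _ _
    rw [h2]
    exact key j i h1

theorem BData.wind_own (d : BData s Z t0) (h : s.OK) (hZ : s.PopOK Z D) (hd : d.Hom) (hn : 4 ≤ n) {a : ℕ}
    (ha : a < d.q) {i j l : Fin n} (hij : i < j) (hli : l ≠ i) (hlj : l ≠ j) :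
    wind (d.lp a i j) (s.Q l (d.α l a + 1)) = if i < l ∧ l < j then 1 else 0 := by
  obtain ⟨wα, wβ, hwne, -, hα, hβ⟩ := ends50 d ha
  obtain ⟨v1, v2, v3, hv⟩ := hd.three a ha
  obtain ⟨e, he⟩ : ∃ e : Fin 4 → Fin n, e = fun k => ⟨k, by omega⟩ := ⟨_, rfl⟩
  have elt : ∀ {k k' : Fin 4}, k < k' → e k < e k' := by
    intro k k' hk
    rw [he]
    exact hk
  have ene : ∀ {k k' : Fin 4}, k ≠ k' → e k ≠ e k' := by
    intro k k' hk
    rcases lt_or_gt_of_ne hk with h1 | h1
    · exact (elt h1).ne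
    · exact (elt h1).ne'
  have hnl : ∀ {k k' : Fin 4}, k < k' → ¬ e k' < e k := fun hk => not_lt.2 (elt hk).le
  have hv1 : v1 = 0 := by
    have h1 := congrArg (fun C => wind C (s.Q (e 0) (d.α (e 0) a + 1))) (lp_add50 d h ha (e 1) (e 2) (e 3))
    simp only [wind_add] at h1
    rw [hv (e 1) (e 2) (e 0) (elt (by decide)) (ene (by decide)) (ene (by decide)),
      hv (e 2) (e 3) (e 0) (elt (by decide)) (ene (by decide)) (ene (by decide)),
      hv (e 1) (e 3) (e 0) (elt (by decide)) (ene (by decide)) (ene (by decide)),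
      if_pos (elt (k := 0) (k' := 1) (by decide)), if_pos (elt (k := 0) (k' := 2) (by decide)),
      if_pos (elt (k := 0) (k' := 1) (by decide))] at h1
    exact two50 _ h1
  have hv3 : v3 = 0 := by
    have h1 := congrArg (fun C => wind C (s.Q (e 3) (d.α (e 3) a + 1))) (lp_add50 d h ha (e 0) (e 1) (e 2))
    simp only [wind_add] at h1
    rw [hv (e 0) (e 1) (e 3) (elt (by decide)) (ene (by decide)) (ene (by decide)),
      hv (e 1) (e 2) (e 3) (elt (by decide)) (ene (by decide)) (ene (by decide)),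
      hv (e 0) (e 2) (e 3) (elt (by decide)) (ene (by decide)) (ene (by decide))] at h1
    simp only [hnl (k := 0) (k' := 3) (by decide), hnl (k := 1) (k' := 3) (by decide),
      hnl (k := 2) (k' := 3) (by decide), if_false] at h1
    exact two50 _ h1
  have hnm : ∀ k : Fin 4, s.Q (e k) (d.α (e k) a + 1) ∉ s.MK := fun k => (d.not_mem h hZ ha (e k)).1
  have hyM : s.Q (e 0) (d.α (e 0) a) ∈ s.MK := h.reach_mem (rep_mem50 h hZ wα) (hα (e 0))
  have hnβ : ∀ x, s.F.Reachable (s.rep Z wβ) x → ¬ s.F.Reachable (s.Q (e 0) (d.α (e 0) a)) x := by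
    intro x h1 h2
    exact hwne (rep_inj50 hZ (((hα (e 0)).trans h2).trans h1.symm))
  have hη0 : ∀ k c x, d.α (e k) a + 1 ≤ c → c ≤ d.β (e k) a → x = s.Q (e k) c →
      ¬ s.F.Reachable (s.Q (e 0) (d.α (e 0) a)) x := by
    rintro k c x h1 h2 rfl
    rcases Nat.lt_or_ge c (d.β (e k) a) with h3 | h3
    · intro hr
      exact d.inner (e k) a ha c (by omega) h3 (rep_pop50 h hZ ((hα (e 0)).trans hr))
    · have h4 : c = d.β (e k) a := by omega
      rw [h4]
      exact hnβ _ (hβ (e k))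
  have hle : ∀ k, d.α (e k) a + 1 ≤ s.len (e k) := fun k => len50 d ha (e k)
  have hst := star4 h.F_for (y := fun k => s.Q (e k) (d.α (e k) a))
    (q := fun k => s.Q (e k) (d.α (e k) a + 1)) (fun k => (hα (e 0)).symm.trans (hα (e k)))
    (fun k => (h.Q_ok (e k)).adj _ (len50 d ha (e k)))
    (fun k hr => hnm k (h.reach_mem hyM hr))
    (by
      intro k k' hk
      by_contra hne
      exact h.ne_of_not_mem (ene hne) (hle k) (hle k') (hnm k) hk)
    (Z := fun k => d.lp a (e 0) (e k))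
    (η := fun k => seg (s.Q (e 0)) (d.α (e 0) a + 1) (d.β (e 0) a) +
      tr s.F (s.Q (e 0) (d.β (e 0) a)) (s.Q (e k) (d.β (e k) a)) +
      seg (s.Q (e k)) (d.α (e k) a + 1) (d.β (e k) a))
    (fun k _ => d.lp_closed h ha (e 0) (e k))
    (fun k _ => h.loop_star (d.lt (e 0) a ha) (d.lt (e k) a ha))
    (by
      intro j hj x hx
      rcases touch_add hx with hx | hx
      · rcases touch_add hx with hx | hx
        · obtain ⟨c, h1, h2, h3⟩ := touch_seg hx
          refine ⟨hη0 0 c x h1 h2 h3, fun k hk _ => ?_⟩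
          rw [h3]
          exact (h.ne_of_not_mem (ene hk) (hle k) (h2.trans (d.le (e 0) a ha)) (hnm k)).symm
        · have h1 := (hβ (e 0)).trans (touch_tr h.F_for hx)
          refine ⟨hnβ x h1, ?_⟩
          rintro k - - rfl
          exact hnm k (h.reach_mem (rep_mem50 h hZ wβ) h1)
      · obtain ⟨c, h1, h2, h3⟩ := touch_seg hx
        refine ⟨hη0 j c x h1 h2 h3, fun k _ hk => ?_⟩
        rw [h3]
        exact (h.ne_of_not_mem (ene hk) (hle k) (h2.trans (d.le (e j) a ha)) (hnm k)).symm)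
  rw [hv (e 0) (e 1) (e 2) (elt (by decide)) (ene (by decide)) (ene (by decide)),
    hv (e 0) (e 1) (e 3) (elt (by decide)) (ene (by decide)) (ene (by decide)),
    hv (e 0) (e 2) (e 1) (elt (by decide)) (ene (by decide)) (ene (by decide)),
    hv (e 0) (e 2) (e 3) (elt (by decide)) (ene (by decide)) (ene (by decide)),
    hv (e 0) (e 3) (e 1) (elt (by decide)) (ene (by decide)) (ene (by decide)),
    hv (e 0) (e 3) (e 2) (elt (by decide)) (ene (by decide)) (ene (by decide))] at hst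
  simp only [hnl (k := 0) (k' := 2) (by decide), hnl (k := 1) (k' := 2) (by decide),
    hnl (k := 0) (k' := 3) (by decide), hnl (k := 1) (k' := 3) (by decide),
    hnl (k := 0) (k' := 1) (by decide), elt (k := 1) (k' := 2) (by decide),
    hnl (k := 2) (k' := 3) (by decide), elt (k := 1) (k' := 3) (by decide),
    elt (k := 2) (k' := 3) (by decide), hv3, if_false, if_true] at hst
  have hv2 : v2 = 1 := by
    rw [CharTwo.add_self_eq_zero v2] at hst
    simpa using hst
  rw [hv i j l hij hli hlj, hv1, hv2, hv3]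
  by_cases h1 : l < i
  · rw [if_pos h1, if_neg (fun h2 => absurd h1 (not_lt.2 h2.1.le))]
  · rw [if_neg h1]
    have h2 : i < l := lt_of_le_of_ne (not_lt.1 h1) hli.symm
    by_cases h3 : l < j
    · rw [if_pos h3, if_pos ⟨h2, h3⟩]
    · rw [if_neg h3, if_neg (fun h4 => h3 h4.2)]

theorem BData.wind_inner (d : BData s Z t0) (h : s.OK) (hZ : s.PopOK Z D) (hg : s.Good Z) (hd : d.Hom) (hn : 4 ≤ n)
    {a b : ℕ} (ha : a < d.q) (hb : b < d.q) {i j l : Fin n} (hij : i < j) (hli : l ≠ i) (hlj : l ≠ j) {c : ℕ}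
    (hc : d.α l b < c) (hc' : c < d.β l b) (hm : s.Q l c ∉ s.MK) :
    wind (d.lp a i j) (s.Q l c) = if a = b ∧ i < l ∧ l < j then 1 else 0 := by
  have hcl := d.lp_closed h ha i j
  have hsup := d.lp_sup h ha i j
  have hH : ¬ (l = i ∨ l = j) := by
    rintro (h1 | h1)
    · exact hli h1
    · exact hlj h1
  have hsup' : s.Sup (fun k => k ≠ l) (d.lp a i j) := by
    intro x hx
    obtain ⟨k, hk, c', hc1, hc2⟩ := hsup x hx
    refine ⟨k, ?_, c', hc1, hc2⟩
    rintro rfl
    exact hH hk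
  have hlt := d.lt2 h hZ hb l
  have hlen := d.le l b hb
  obtain ⟨n1, n2⟩ := d.not_mem h hZ hb l
  have s1 : wind (d.lp a i j) (s.Q l (d.α l b + 1)) = wind (d.lp a i j) (s.Q l c) :=
    h.seg_const hg (by omega) (by omega) (fun c' h1 h2 => d.inner l b hb c' (by omega) (by omega)) n1 hm
      hcl hsup'
  have s2 : wind (d.lp a i j) (s.Q l c) = wind (d.lp a i j) (s.Q l (d.β l b - 1)) :=
    h.seg_const hg (by omega) (by omega) (fun c' h1 h2 => d.inner l b hb c' (by omega) (by omega)) hm n2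
      hcl hsup'
  by_cases hab : a = b
  · rw [hab] at s1 ⊢
    rw [← s1, d.wind_own h hZ hd hn hb hij hli hlj]
    by_cases h1 : i < l ∧ l < j
    · rw [if_pos h1, if_pos ⟨rfl, h1⟩]
    · rw [if_neg h1, if_neg (fun h2 => h1 h2.2)]
  · rw [if_neg (fun h1 => hab h1.1)]
    have t1 : ¬ Touch (d.lp a i j) (s.Q l (d.α l b + 1)) := h.sup_not_touch' hsup hH (by omega) n1
    have t2 : ¬ Touch (d.lp a i j) (s.Q l (d.β l b - 1)) := h.sup_not_touch' hsup hH (by omega) n2
    obtain ⟨wα, wβ, -, hcase, hα, hβ⟩ := ends50 d hb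
    have uinj : ∀ x y, x ≤ d.q → y ≤ d.q → x ≠ y → d.u x ≠ d.u y :=
      fun x y hx hy hne he => hne (d.u_inj x y hx hy he)
    have kα : wα ≠ d.u a → wα ≠ d.u (a + 1) → wind (d.lp a i j) (s.Q l c) = 0 := by
      intro h1 h2
      rw [← s1, h.wind_leaf hcl (z := s.rep Z wα) (fun x hx => d.lp_not_touch h hZ ha i j h1 h2 hx)
        (hα l) ((h.Q_ok l).adj _ (len50 d hb l)) t1]
      exact d.wind_rep h hZ hd hn ha hij.ne h1 h2
    have kβ : wβ ≠ d.u a → wβ ≠ d.u (a + 1) → wind (d.lp a i j) (s.Q l c) = 0 := by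
      intro h1 h2
      have hadj := (h.Q_ok l).adj (d.β l b - 1) (by omega)
      rw [Nat.sub_add_cancel (by omega)] at hadj
      rw [s2, h.wind_leaf hcl (z := s.rep Z wβ) (fun x hx => d.lp_not_touch h hZ ha i j h1 h2 hx)
        (hβ l) hadj.symm t2]
      exact d.wind_rep h hZ hd hn ha hij.ne h1 h2
    rcases Nat.lt_or_ge b a with hba | hba
    · -- `b < a`: the component `u b` is free
      have f1 := uinj b a (by omega) (by omega) (by omega)
      have f2 := uinj b (a + 1) (by omega) (by omega) (by omega)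
      rcases hcase with ⟨rfl, -⟩ | ⟨-, rfl⟩
      · exact kα f1 f2
      · exact kβ f1 f2
    · have f1 := uinj (b + 1) a (by omega) (by omega) (by omega)
      have f2 := uinj (b + 1) (a + 1) (by omega) (by omega) (by omega)
      rcases hcase with ⟨-, rfl⟩ | ⟨rfl, -⟩
      · exact kβ f1 f2
      · exact kα f1 f2

end Pool.Agent.Helper46.RM
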