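import Pool.Agent.Helper46.RM.Exact

/-!
# Block RM-SX: six leaves.

`six` (algebra): write `I i j k l = cross (λ i + λ j) (λ k + λ l)`; it is additive: `I i j k l + I i j l m = I i j k m`, and symmetric:
`I i j k l = I k l i j` for different `i, j, k, l` (`cross_symm`: boundaries `q`'s, not touched by the other). Suppose `I 0 1 2 3 = 1`.
Then `I 0 1 2 4 + I 0 1 4 3 = 1`; by the symmetry of the hypotheses in `2, 3` (`I 4 5 0 3 = I 4 5 0 2 + I 4 5 2 3 = 1`) we may assume `I 0 1 2 4 = 1`.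
`I 0 1 4 5 = I 4 5 0 1 = 0`, so `I 0 1 2 5 = 1`. By `exact4`: `I 0 2 1 4 = 0`, `I 0 2 1 5 = 0`, so `I 0 2 4 5 = 0`, but `I 0 2 4 5 = I 4 5 0 2 = 1`.
-/

namespace Pool.Agent.Helper46.RM

open scoped Classical

variable {F : SimpleGraph P2}

private theorem z2_92 {a : ZMod 2} (h : a ≠ 0) : a = 1 := by
  revert h
  revert a
  decide

private theorem add92 (L : Fin 6 → Ch) (i j k l m : Fin 6) :
    cross (L i + L j) (L k + L l) + cross (L i + L j) (L l + L m) = cross (L i + L j) (L k + L m) := by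
  rw [← cross_add_right]
  congr 1
  have h := add_self_ch (L l)
  calc L k + L l + (L l + L m) = L k + (L l + L l) + L m := by abel
    _ = L k + L m := by rw [h, add_zero]

theorem six (hF : Forest F) {z : P2} {y q : Fin 6 → P2} (hy : ∀ i, F.Reachable z (y i)) (ha : ∀ i, LAdj (y i) (q i))
    (hq : ∀ i, ¬ F.Reachable z (q i)) (hqi : Function.Injective q)
    (h1 : cross (lam F z (y 4) (q 4) + lam F z (y 5) (q 5)) (lam F z (y 0) (q 0) + lam F z (y 1) (q 1)) = 0)
    (h2 : cross (lam F z (y 4) (q 4) + lam F z (y 5) (q 5)) (lam F z (y 2) (q 2) + lam F z (y 3) (q 3)) = 0)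
    (h3 : cross (lam F z (y 4) (q 4) + lam F z (y 5) (q 5)) (lam F z (y 0) (q 0) + lam F z (y 2) (q 2)) = 1) :
    cross (lam F z (y 0) (q 0) + lam F z (y 1) (q 1)) (lam F z (y 2) (q 2) + lam F z (y 3) (q 3)) = 0 := by
  obtain ⟨L, hL⟩ : ∃ L : Fin 6 → Ch, ∀ i, lam F z (y i) (q i) = L i := ⟨fun i => lam F z (y i) (q i), fun _ => rfl⟩
  -- the two facts on four leaves
  have E : ∀ σ : Fin 4 → Fin 6, Function.Injective σ → cross (L (σ 0) + L (σ 1)) (L (σ 2) + L (σ 3)) = 1 →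
      cross (L (σ 0) + L (σ 2)) (L (σ 1) + L (σ 3)) = 0 := by
    intro σ hσ h
    have := exact4 hF (z := z) (y := fun n => y (σ n)) (q := fun n => q (σ n)) (fun n => hy _) (fun n => ha _)
      (fun n => hq _) (hqi.comp hσ)
    simp only [hL] at this
    exact this h
  have S : ∀ σ : Fin 4 → Fin 6, Function.Injective σ →
      cross (L (σ 0) + L (σ 1)) (L (σ 2) + L (σ 3)) = cross (L (σ 2) + L (σ 3)) (L (σ 0) + L (σ 1)) := by
    intro σ hσ
    have := lam_cross_symm hF (z := z) (y := fun n => y (σ n)) (q := fun n => q (σ n)) (fun n => hy _) (fun n => ha _)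
      (fun n => hq _) (hqi.comp hσ)
    simp only [hL] at this
    exact this
  simp only [hL] at h1 h2 h3 ⊢
  clear hL
  have hA := add92 L
  by_contra hcon
  have h0 : cross (L 0 + L 1) (L 2 + L 3) = 1 := z2_92 hcon
  have s1 : cross (L 0 + L 1) (L 4 + L 5) = 0 := (S ![0, 1, 4, 5] (by decide)).trans h1
  have e1 : cross (L 0 + L 1) (L 2 + L 4) + cross (L 0 + L 1) (L 4 + L 3) = 1 := (hA 0 1 2 4 3).trans h0
  by_cases hc : cross (L 0 + L 1) (L 2 + L 4) = 0
  · rw [hc, zero_add] at e1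
    have e2 : cross (L 0 + L 1) (L 3 + L 4) = 1 := by rw [add_comm (L 3) (L 4)]; exact e1
    have e3 : cross (L 0 + L 1) (L 3 + L 5) = 1 := by rw [← hA 0 1 3 4 5, e2, s1, add_zero]
    have e4 : cross (L 0 + L 3) (L 1 + L 4) = 0 := E ![0, 1, 3, 4] (by decide) e2
    have e5 : cross (L 0 + L 3) (L 1 + L 5) = 0 := E ![0, 1, 3, 5] (by decide) e3
    have e6 : cross (L 0 + L 3) (L 4 + L 1) = 0 := by rw [add_comm (L 4) (L 1)]; exact e4
    have e7 : cross (L 0 + L 3) (L 4 + L 5) = 0 := by rw [← hA 0 3 4 1 5, e6, e5, add_zero]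
    have e8 : cross (L 4 + L 5) (L 0 + L 3) = 0 := (S ![4, 5, 0, 3] (by decide)).trans e7
    have e9 : cross (L 4 + L 5) (L 0 + L 3) = 1 := by rw [← hA 4 5 0 2 3, h3, h2, add_zero]
    rw [e8] at e9
    exact zero_ne_one e9
  · have e2 : cross (L 0 + L 1) (L 2 + L 4) = 1 := z2_92 hc
    have e3 : cross (L 0 + L 1) (L 2 + L 5) = 1 := by rw [← hA 0 1 2 4 5, e2, s1, add_zero]
    have e4 : cross (L 0 + L 2) (L 1 + L 4) = 0 := E ![0, 1, 2, 4] (by decide) e2
    have e5 : cross (L 0 + L 2) (L 1 + L 5) = 0 := E ![0, 1, 2, 5] (by decide) e3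
    have e6 : cross (L 0 + L 2) (L 4 + L 1) = 0 := by rw [add_comm (L 4) (L 1)]; exact e4
    have e7 : cross (L 0 + L 2) (L 4 + L 5) = 0 := by rw [← hA 0 2 4 1 5, e6, e5, add_zero]
    have e8 : cross (L 4 + L 5) (L 0 + L 2) = 0 := (S ![4, 5, 0, 2] (by decide)).trans e7
    rw [e8] at h3
    exact zero_ne_one h3

end Pool.Agent.Helper46.RM
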