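import Pool.Agent.Helper46.RM.CaB3
import Pool.Agent.Helper46.RM.Six

/-!
# Block RM-B4: contradiction in case B for a homogeneous family.

`all_colours` (with `PopOK`): `Sat (Z t0)`, `l` a walk, `c0 ∈ P l`: some piece of `l` has an inner point of colour `c0`. Otherwise take `C = K ∪ (P l).erase c0`
(`C.card < K.card + p`, `K ⊆ C`): from `r` to `Z t0` there is a walk with all points in `S` and colours in `C`: the pieces `b = 0, .., q - 1` of the walk `l`
(in the appropriate direction) joined by walks of `F` inside the popular components `u 0, .., u q` (points of `MK`): all points of the pieces are in `S`, with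
colours in `K ∪ P l`, the end points are in `MK`, and the inner points do not have the colour `c0`. (Induction on `b ≤ q`: there is such a walk from
`r` to `rep (u b)`.) This contradicts `Sat`.
`wind_gam`: `i < j`, `l ≠ i, j`, `x = Q l c ∉ MK`, `c ≤ len l`: `wind (gam i j) x = 1` if `i < l < j`, else `0`. `x` has a colour `c0 ∈ P l` (`priv`);
`all_colours` gives an inner point `y` of the piece `b` of colour `c0`; `wind (lp a i j) x = wind (lp a i j) y` (`wind_T`, closed, `lp_sup`), and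
`∑ a, wind (lp a i j) y = [i < l < j]` by `wind_inner` (`wind_add` for sums).
`gam_split`: `gam i j = (lam F z y q + lam F z y' q') + η` where `z = Z t0`, `(y, q)` is the end of the piece `q - 1` of `i` in the component of `z` with its
inner neighbour, `(y', q')` the same for `j`, and `η` does not touch the component of `z`, nor any point `Q l c ∉ MK` with `l ≠ i, j`: for `a < q - 1`
`lp a i j` does not touch the component of `z` (`lp_not_touch`, `u q ≠ u a, u (a+1)`), for `a = q - 1` use `loop_star` or `loop_star'` (depending on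
`fl a`): `ed (q, y) + tr y y' + ed (y', q') = lam F z y q + lam F z y' q'` (`tr_add`, `tr_comm`, `ed_comm`), the rest as in `CaB3`. (`q ≥ 1` since
`u 0 = none ≠ some t0`.)
`caseB_false`: let `i < j` have the passes `(a, b)`, `(a', b')` at `z = Z t0` with `cross = 1` (`XP i j z`), and `k < i < k' < j`. Leaves
`0: (Q i (a+1), Q i a)`, `1: (Q i (b-1), Q i b)`, `2: (Q j (a'+1), Q j a')`, `3: (Q j (b'-1), Q j b')`, `4, 5`: those of `gam_split` for `k, k'`. The six
outer points are distinct (`ne_of_not_mem`; `Q i` is injective) and outside the component. `seg (Q i) a b = lam_0 + lam_1`, `seg (Q j) a' b' = lam_2 + lam_3`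
(`lam_pass`). For leaves `x, y ∈ {0,1,2,3}`: `cross (lam_4 + lam_5) (lam_x + lam_y) = cross (gam k k') (lam_x + lam_y) = wind (gam k k') (q x) +
wind (gam k k') (q y)` (`η` has no common point with `lam_x + lam_y`; `cross_of_bd`). By `wind_gam`: value `1` at `q 0, q 1` (`k < i < k'`) and `0` at `q 2, q 3`
(`k' < j`). So `six` applies and says that `cross (seg (Q i) a b) (seg (Q j) a' b') = 0`, a contradiction.
-/

namespace Pool.Agent.Helper46.RM

open scoped Classical

variable {ι : Type*} {p n m D : ℕ} {s : Sys ι p n} {Z : Fin m → P2} {t0 : Fin m}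

private theorem rep_mem56 (h : s.OK) (hZ : s.PopOK Z D) (w : Option (Fin m)) : s.rep Z w ∈ s.MK := by
  cases w with
  | none => exact h.r_mem
  | some t => exact hZ.mem t

private theorem rep_inj56 (hZ : s.PopOK Z D) {w w' : Option (Fin m)}
    (hr : s.F.Reachable (s.rep Z w) (s.rep Z w')) : w = w' := by
  cases w with
  | none =>
    cases w' with
    | none => rfl
    | some t => exact absurd hr (hZ.nr t)
  | some t =>
    cases w' with
    | none => exact absurd hr.symm (hZ.nr t)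
    | some t' =>
      by_contra hne
      exact hZ.ne t t' (fun e => hne (by rw [e])) hr

private theorem rep_pop56 (h : s.OK) (hZ : s.PopOK Z D) {w : Option (Fin m)} {x : P2}
    (hx : s.F.Reachable (s.rep Z w) x) : x ∈ s.PopSet Z := by
  refine ⟨h.reach_mem (rep_mem56 h hZ w) hx, ?_⟩
  cases w with
  | none => exact Or.inl hx
  | some t => exact Or.inr ⟨t, hx⟩

/-- the two ends of the pieces `a` -/
private theorem ends56 (d : BData s Z t0) {a : ℕ} (ha : a < d.q) : ∃ wα wβ : Option (Fin m), wα ≠ wβ ∧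
    ((wα = d.u a ∧ wβ = d.u (a + 1)) ∨ (wα = d.u (a + 1) ∧ wβ = d.u a)) ∧
    (∀ i, s.F.Reachable (s.rep Z wα) (s.Q i (d.α i a))) ∧
    (∀ i, s.F.Reachable (s.rep Z wβ) (s.Q i (d.β i a))) := by
  have hu : d.u a ≠ d.u (a + 1) := by
    intro he
    have := d.u_inj a (a + 1) (by omega) (by omega) he
    omega
  by_cases hf : d.fl a = true
  · refine ⟨d.u a, d.u (a + 1), hu, Or.inl ⟨rfl, rfl⟩, fun i => ?_, fun i => ?_⟩
    · have h1 := d.endα i a ha
      rwa [if_pos hf] at h1
    · have h1 := d.endβ i a ha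
      rwa [if_pos hf] at h1
  · refine ⟨d.u (a + 1), d.u a, hu.symm, Or.inr ⟨rfl, rfl⟩, fun i => ?_, fun i => ?_⟩
    · have h1 := d.endα i a ha
      rwa [if_neg hf] at h1
    · have h1 := d.endβ i a ha
      rwa [if_neg hf] at h1

/-- joined in `S` by a lattice walk with colours in `C` -/
private def Jn56 (s : Sys ι p n) (C : Finset ι) (x y : P2) : Prop :=
  ∃ w : Lat.Walk x y, ∀ z ∈ w.support, z ∈ s.S ∧ ∀ c, z ∈ s.T c → c ∈ C

private theorem jn_refl56 {C : Finset ι} {x : P2} (hx : x ∈ s.S ∧ ∀ c, x ∈ s.T c → c ∈ C) : Jn56 s C x x := by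
  refine ⟨SimpleGraph.Walk.nil, fun z hz => ?_⟩
  rw [SimpleGraph.Walk.support_nil, List.mem_singleton] at hz
  rw [hz]
  exact hx

private theorem jn_symm56 {C : Finset ι} {x y : P2} (h : Jn56 s C x y) : Jn56 s C y x := by
  obtain ⟨w, hw⟩ := h
  refine ⟨w.reverse, fun z hz => hw z ?_⟩
  rwa [SimpleGraph.Walk.support_reverse, List.mem_reverse] at hz

private theorem jn_trans56 {C : Finset ι} {x y z : P2} (h : Jn56 s C x y) (h' : Jn56 s C y z) : Jn56 s C x z := by
  obtain ⟨w, hw⟩ := h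
  obtain ⟨w', hw'⟩ := h'
  refine ⟨w.append w', fun t ht => ?_⟩
  rw [SimpleGraph.Walk.mem_support_append_iff] at ht
  rcases ht with h1 | h1
  · exact hw t h1
  · exact hw' t h1

private theorem jn_edge56 {C : Finset ι} {x y : P2} (hxy : LAdj x y) (hx : x ∈ s.S ∧ ∀ c, x ∈ s.T c → c ∈ C)
    (hy : y ∈ s.S ∧ ∀ c, y ∈ s.T c → c ∈ C) : Jn56 s C x y := by
  refine ⟨SimpleGraph.Walk.cons (show Lat.Adj x y from hxy) SimpleGraph.Walk.nil, fun z hz => ?_⟩
  rw [SimpleGraph.Walk.support_cons, SimpleGraph.Walk.support_nil, List.mem_cons, List.mem_singleton] at hz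
  rcases hz with h1 | h1
  · rw [h1]
    exact hx
  · rw [h1]
    exact hy

private theorem jn_reach56 (h : s.OK) {C : Finset ι} (hK : s.K ⊆ C) {x y : P2} (hx : x ∈ s.MK)
    (hxy : s.F.Reachable x y) : Jn56 s C x y := by
  obtain ⟨w⟩ := hxy
  induction w with
  | nil => exact jn_refl56 ⟨hx.1, fun c hc => hK (hx.2 c hc)⟩
  | cons hadj w ih =>
    have h1 := h.F_mem _ _ hadj.symm
    exact jn_trans56 (jn_edge56 (h.F_for.le _ _ hadj) ⟨hx.1, fun c hc => hK (hx.2 c hc)⟩
      ⟨h1.1, fun c hc => hK (h1.2 c hc)⟩) (ih h1)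

private theorem jn_seg56 (h : s.OK) {C : Finset ι} {l : Fin n} {a : ℕ} : ∀ b, a ≤ b → b ≤ s.len l →
    (∀ c, a ≤ c → c ≤ b → s.Q l c ∈ s.S ∧ ∀ e, s.Q l c ∈ s.T e → e ∈ C) → Jn56 s C (s.Q l a) (s.Q l b) := by
  intro b hab
  induction b, hab using Nat.le_induction with
  | base => exact fun _ hc => jn_refl56 (hc a le_rfl le_rfl)
  | succ b hab ih =>
    intro hb hc
    exact jn_trans56 (ih (by omega) (fun c h1 h2 => hc c h1 (by omega)))
      (jn_edge56 ((h.Q_ok l).adj b (by omega)) (hc b hab (by omega)) (hc (b + 1) (by omega) le_rfl))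

theorem BData.all_colours (d : BData s Z t0) (h : s.OK) (hZ : s.PopOK Z D) (hs : s.Sat (Z t0)) (l : Fin n) {c0 : ι}
    (hc : c0 ∈ s.P l) : ∃ b c, b < d.q ∧ d.α l b < c ∧ c < d.β l b ∧ s.Q l c ∈ s.T c0 := by
  by_contra hno
  have hno' : ∀ b c, b < d.q → d.α l b < c → c < d.β l b → s.Q l c ∉ s.T c0 :=
    fun b c h1 h2 h3 h4 => hno ⟨b, c, h1, h2, h3, h4⟩
  obtain ⟨C, hC⟩ : ∃ C, C = s.K ∪ (s.P l).erase c0 := ⟨_, rfl⟩
  have hK : s.K ⊆ C := by
    rw [hC]
    exact Finset.subset_union_left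
  have hcard : C.card < s.K.card + p := by
    have h1 := Finset.card_erase_lt_of_mem hc
    rw [h.P_card l] at h1
    have h2 := Finset.card_union_le s.K ((s.P l).erase c0)
    rw [hC]
    omega
  have hin : ∀ c, c ≤ s.len l → s.Q l c ∉ s.T c0 → s.Q l c ∈ s.S ∧ ∀ e, s.Q l c ∈ s.T e → e ∈ C := by
    intro c h1 h2
    refine ⟨h.Q_mem l c h1, fun e he => ?_⟩
    rw [hC]
    rcases h.Q_col l c h1 e he with h3 | h3
    · exact Finset.mem_union_left _ h3
    · refine Finset.mem_union_right _ (Finset.mem_erase.2 ⟨?_, h3⟩)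
      rintro rfl
      exact h2 he
  have hMK : ∀ x, x ∈ s.MK → x ∈ s.S ∧ ∀ e, x ∈ s.T e → e ∈ C :=
    fun x hx => ⟨hx.1, fun e he => hK (hx.2 e he)⟩
  have key : ∀ b, b ≤ d.q → Jn56 s C s.r (s.rep Z (d.u b)) := by
    intro b
    induction b with
    | zero =>
      intro _
      rw [d.u_zero]
      exact jn_refl56 (hMK _ h.r_mem)
    | succ b ih =>
      intro hb
      have hb' : b < d.q := hb
      obtain ⟨wα, wβ, -, hcase, hα, hβ⟩ := ends56 d hb'
      have hseg : Jn56 s C (s.Q l (d.α l b)) (s.Q l (d.β l b)) := by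
        refine jn_seg56 h _ (d.lt l b hb').le (d.le l b hb') (fun c h1 h2 => ?_)
        rcases Nat.eq_or_lt_of_le h1 with h3 | h3
        · rw [← h3]
          exact hMK _ (h.reach_mem (rep_mem56 h hZ wα) (hα l))
        · rcases Nat.eq_or_lt_of_le h2 with h4 | h4
          · rw [h4]
            exact hMK _ (h.reach_mem (rep_mem56 h hZ wβ) (hβ l))
          · exact hin c (h2.trans (d.le l b hb')) (hno' b c hb' h3 h4)
      have hfull : Jn56 s C (s.rep Z wα) (s.rep Z wβ) :=
        jn_trans56 (jn_trans56 (jn_reach56 h hK (rep_mem56 h hZ wα) (hα l)) hseg)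
          (jn_symm56 (jn_reach56 h hK (rep_mem56 h hZ wβ) (hβ l)))
      have hprev := ih (by omega)
      rcases hcase with ⟨rfl, rfl⟩ | ⟨rfl, rfl⟩
      · exact jn_trans56 hprev hfull
      · exact jn_trans56 hprev (jn_symm56 hfull)
  have hend := key d.q le_rfl
  rw [d.u_q] at hend
  exact hs C hK hcard hend

private theorem wind_sum56 (f : ℕ → Ch) (x : P2) (N : ℕ) :
    wind (∑ a ∈ Finset.range N, f a) x = ∑ a ∈ Finset.range N, wind (f a) x := by
  induction N with
  | zero => rw [Finset.range_zero, Finset.sum_empty, Finset.sum_empty, wind_zero]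
  | succ N ih => rw [Finset.sum_range_succ, Finset.sum_range_succ, wind_add, ih]

private theorem closed_sum56 (f : ℕ → Ch) (N : ℕ) (hf : ∀ a, a < N → Closed (f a)) :
    Closed (∑ a ∈ Finset.range N, f a) := by
  induction N with
  | zero =>
    rw [Finset.range_zero, Finset.sum_empty]
    exact fun x => bd_zero x
  | succ N ih =>
    rw [Finset.sum_range_succ]
    exact (ih (fun a ha => hf a (by omega))).add (hf N (by omega))

private theorem touch_sum56 (f : ℕ → Ch) (x : P2) (N : ℕ) (h : Touch (∑ a ∈ Finset.range N, f a) x) :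
    ∃ a, a < N ∧ Touch (f a) x := by
  induction N with
  | zero =>
    rw [Finset.range_zero, Finset.sum_empty] at h
    exact absurd h (not_touch_zero x)
  | succ N ih =>
    rw [Finset.sum_range_succ] at h
    rcases touch_add h with h1 | h1
    · obtain ⟨a, h2, h3⟩ := ih h1
      exact ⟨a, by omega, h3⟩
    · exact ⟨N, by omega, h1⟩

theorem BData.wind_gam (d : BData s Z t0) (h : s.OK) (hZ : s.PopOK Z D) (hg : s.Good Z) (hd : d.Hom) (hn : 4 ≤ n)
    (hs : s.Sat (Z t0)) {i j l : Fin n} (hij : i < j) (hli : l ≠ i) (hlj : l ≠ j) {c : ℕ} (hc : c ≤ s.len l)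
    (hm : s.Q l c ∉ s.MK) : wind (d.gam i j) (s.Q l c) = if i < l ∧ l < j then 1 else 0 := by
  obtain ⟨c0, hc0, hcT⟩ := h.priv hc hm
  obtain ⟨b, c1, hb, h1, h2, h3⟩ := d.all_colours h hZ hs l hc0
  have hm1 : s.Q l c1 ∉ s.MK := by
    intro hmem
    exact Finset.disjoint_left.1 (h.P_K l) hc0 (hmem.2 c0 h3)
  have hH : ¬ (l = i ∨ l = j) := by
    rintro (h4 | h4)
    · exact hli h4
    · exact hlj h4
  unfold BData.gam
  rw [wind_sum56]
  have key : ∀ a ∈ Finset.range d.q, wind (d.lp a i j) (s.Q l c) =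
      if a = b then (if i < l ∧ l < j then (1 : ZMod 2) else 0) else 0 := by
    intro a ha
    have ha' : a < d.q := Finset.mem_range.1 ha
    rw [h.wind_T (d.lp_closed h ha' i j) (d.lp_sup h ha' i j) hH hc0 hcT h3,
      d.wind_inner h hZ hg hd hn ha' hb hij hli hlj h1 h2 hm1]
    by_cases hab : a = b
    · rw [if_pos hab]
      by_cases h4 : i < l ∧ l < j
      · rw [if_pos h4, if_pos ⟨hab, h4⟩]
      · rw [if_neg h4, if_neg (fun h5 => h4 h5.2)]
    · rw [if_neg hab, if_neg (fun h5 => hab h5.1)]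
  rw [Finset.sum_congr rfl key, Finset.sum_ite_eq', if_pos (Finset.mem_range.2 hb)]

/-- one piece, split at the end in the component of `u (a + 1)` -/
private theorem lp_split56 (d : BData s Z t0) (h : s.OK) (hZ : s.PopOK Z D) {a : ℕ} (ha : a < d.q) {i j : Fin n}
    {w : Option (Fin m)} (hw : d.u (a + 1) = w) :
    ∃ (c c' e e' : ℕ) (η : Ch), (c' = c + 1 ∨ c = c' + 1) ∧ (e' = e + 1 ∨ e = e' + 1) ∧ c ≤ s.len i ∧ c' ≤ s.len i ∧
      e ≤ s.len j ∧ e' ≤ s.len j ∧ s.F.Reachable (s.rep Z w) (s.Q i c) ∧ s.F.Reachable (s.rep Z w) (s.Q j e) ∧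
      ¬ s.F.Reachable (s.rep Z w) (s.Q i c') ∧ ¬ s.F.Reachable (s.rep Z w) (s.Q j e') ∧
      d.lp a i j = (lam s.F (s.rep Z w) (s.Q i c) (s.Q i c') + lam s.F (s.rep Z w) (s.Q j e) (s.Q j e')) + η ∧
      (∀ x, s.F.Reachable (s.rep Z w) x → ¬ Touch η x) ∧
      ∀ l b, l ≠ i → l ≠ j → b ≤ s.len l → s.Q l b ∉ s.MK → ¬ Touch η (s.Q l b) := by
  obtain ⟨wα, wβ, hne, hcase, hα, hβ⟩ := ends56 d ha
  have l1 := d.lt2 h hZ ha i
  have l2 := d.lt2 h hZ ha j
  have m1 := d.le i a ha
  have m2 := d.le j a ha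
  rw [hw] at hcase
  have hlam : ∀ (y q y' q' : P2), s.F.Reachable (s.rep Z w) y → s.F.Reachable (s.rep Z w) y' →
      ed q y + tr s.F y y' + ed y' q' = lam s.F (s.rep Z w) y q + lam s.F (s.rep Z w) y' q' := by
    intro y q y' q' hy hy'
    unfold lam
    rw [← tr_add h.F_for hy.symm hy', tr_comm h.F_for y (s.rep Z w), ed_comm q y]
    abel
  rcases hcase with ⟨h1, h2⟩ | ⟨h1, h2⟩
  · -- the end `β`
    rw [h2] at hβ hne
    refine ⟨d.β i a, d.β i a - 1, d.β j a, d.β j a - 1,
      seg (s.Q i) (d.α i a) (d.β i a - 1) + tr s.F (s.Q i (d.α i a)) (s.Q j (d.α j a)) +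
        seg (s.Q j) (d.α j a) (d.β j a - 1), Or.inr (by omega), Or.inr (by omega), m1, by omega, m2, by omega,
      hβ i, hβ j, fun hr => d.inner i a ha _ (by omega) (by omega) (rep_pop56 h hZ hr),
      fun hr => d.inner j a ha _ (by omega) (by omega) (rep_pop56 h hZ hr), ?_, ?_, ?_⟩
    · rw [← hlam _ _ _ _ (hβ i) (hβ j)]
      exact h.loop_star' (d.lt i a ha) (d.lt j a ha)
    · intro x hx ht
      have hs1 : ∀ k c, d.α k a ≤ c → c ≤ d.β k a - 1 → x ≠ s.Q k c := by
        rintro k c h3 h4 rfl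
        have l3 := d.lt k a ha
        rcases Nat.eq_or_lt_of_le h3 with h5 | h5
        · rw [← h5] at hx
          exact hne (rep_inj56 hZ ((hα k).trans hx.symm))
        · exact d.inner k a ha c h5 (by omega) (rep_pop56 h hZ hx)
      rcases touch_add ht with ht | ht
      · rcases touch_add ht with ht | ht
        · obtain ⟨c, h3, h4, h5⟩ := touch_seg ht
          exact hs1 i c h3 h4 h5
        · exact hne (rep_inj56 hZ (((hα i).trans (touch_tr h.F_for ht)).trans hx.symm))
      · obtain ⟨c, h3, h4, h5⟩ := touch_seg ht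
        exact hs1 j c h3 h4 h5
    · intro l b hli hlj hb hm ht
      rcases touch_add ht with ht | ht
      · rcases touch_add ht with ht | ht
        · obtain ⟨c, h3, h4, h5⟩ := touch_seg ht
          exact h.ne_of_not_mem hli hb (by omega) hm h5
        · exact hm (h.reach_mem (rep_mem56 h hZ wα) ((hα i).trans (touch_tr h.F_for ht)))
      · obtain ⟨c, h3, h4, h5⟩ := touch_seg ht
        exact h.ne_of_not_mem hlj hb (by omega) hm h5
  · -- the end `α`
    rw [h1] at hα hne
    refine ⟨d.α i a, d.α i a + 1, d.α j a, d.α j a + 1,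
      seg (s.Q i) (d.α i a + 1) (d.β i a) + tr s.F (s.Q i (d.β i a)) (s.Q j (d.β j a)) +
        seg (s.Q j) (d.α j a + 1) (d.β j a), Or.inl rfl, Or.inl rfl, by omega, by omega, by omega, by omega,
      hα i, hα j, fun hr => d.inner i a ha _ (by omega) (by omega) (rep_pop56 h hZ hr),
      fun hr => d.inner j a ha _ (by omega) (by omega) (rep_pop56 h hZ hr), ?_, ?_, ?_⟩
    · rw [← hlam _ _ _ _ (hα i) (hα j)]
      exact h.loop_star (d.lt i a ha) (d.lt j a ha)
    · intro x hx ht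
      have hs1 : ∀ k c, d.α k a + 1 ≤ c → c ≤ d.β k a → x ≠ s.Q k c := by
        rintro k c h3 h4 rfl
        rcases Nat.eq_or_lt_of_le h4 with h5 | h5
        · rw [h5] at hx
          exact hne (rep_inj56 hZ (hx.trans (hβ k).symm))
        · exact d.inner k a ha c (by omega) h5 (rep_pop56 h hZ hx)
      rcases touch_add ht with ht | ht
      · rcases touch_add ht with ht | ht
        · obtain ⟨c, h3, h4, h5⟩ := touch_seg ht
          exact hs1 i c h3 h4 h5
        · exact hne (rep_inj56 hZ (hx.trans ((hβ i).trans (touch_tr h.F_for ht)).symm))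
      · obtain ⟨c, h3, h4, h5⟩ := touch_seg ht
        exact hs1 j c h3 h4 h5
    · intro l b hli hlj hb hm ht
      rcases touch_add ht with ht | ht
      · rcases touch_add ht with ht | ht
        · obtain ⟨c, h3, h4, h5⟩ := touch_seg ht
          exact h.ne_of_not_mem hli hb (by omega) hm h5
        · exact hm (h.reach_mem (rep_mem56 h hZ wβ) ((hβ i).trans (touch_tr h.F_for ht)))
      · obtain ⟨c, h3, h4, h5⟩ := touch_seg ht
        exact h.ne_of_not_mem hlj hb (by omega) hm h5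

theorem BData.gam_split (d : BData s Z t0) (h : s.OK) (hZ : s.PopOK Z D) {i j : Fin n} (hij : i ≠ j) :
    ∃ (c c' e e' : ℕ) (η : Ch), (c' = c + 1 ∨ c = c' + 1) ∧ (e' = e + 1 ∨ e = e' + 1) ∧ c ≤ s.len i ∧ c' ≤ s.len i ∧
      e ≤ s.len j ∧ e' ≤ s.len j ∧ s.F.Reachable (Z t0) (s.Q i c) ∧ s.F.Reachable (Z t0) (s.Q j e) ∧
      ¬ s.F.Reachable (Z t0) (s.Q i c') ∧ ¬ s.F.Reachable (Z t0) (s.Q j e') ∧
      d.gam i j = (lam s.F (Z t0) (s.Q i c) (s.Q i c') + lam s.F (Z t0) (s.Q j e) (s.Q j e')) + η ∧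
      (∀ x, s.F.Reachable (Z t0) x → ¬ Touch η x) ∧
      ∀ l b, l ≠ i → l ≠ j → b ≤ s.len l → s.Q l b ∉ s.MK → ¬ Touch η (s.Q l b) := by
  obtain ⟨a, ha⟩ : ∃ a, d.q = a + 1 := by
    cases hq : d.q with
    | zero =>
      exfalso
      have h1 := d.u_q
      rw [hq, d.u_zero] at h1
      cases h1
    | succ a => exact ⟨a, rfl⟩
  have hua : d.u (a + 1) = some t0 := by
    rw [← ha]
    exact d.u_q
  obtain ⟨c, c', e, e', η, h1, h2, h3, h4, h5, h6, h7, h8, h9, h10, h11, h12, h13⟩ :=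
    lp_split56 d h hZ (a := a) (by omega) (i := i) (j := j) hua
  refine ⟨c, c', e, e', η + ∑ b ∈ Finset.range a, d.lp b i j, h1, h2, h3, h4, h5, h6, h7, h8, h9, h10, ?_, ?_, ?_⟩
  · unfold BData.gam
    rw [ha, Finset.sum_range_succ, h11, add_comm]
    exact add_assoc _ _ _
  · intro x hx ht
    rcases touch_add ht with ht | ht
    · exact h12 x hx ht
    · obtain ⟨b, hb, hb'⟩ := touch_sum56 _ _ _ ht
      refine d.lp_not_touch h hZ (by omega) i j (w := some t0) ?_ ?_ hx hb'
      · rw [← hua]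
        intro hu
        have := d.u_inj (a + 1) b (by omega) (by omega) hu
        omega
      · rw [← hua]
        intro hu
        have := d.u_inj (a + 1) (b + 1) (by omega) (by omega) hu
        omega
  · intro l b hli hlj hb hm ht
    rcases touch_add ht with ht | ht
    · exact h13 l b hli hlj hb hm ht
    · obtain ⟨b', hb', hb''⟩ := touch_sum56 _ _ _ ht
      refine h.sup_not_touch' (d.lp_sup h (by omega) i j) (l := l) ?_ hb hm hb''
      rintro (h14 | h14)
      · exact hli h14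
      · exact hlj h14

theorem BData.caseB_false (d : BData s Z t0) (h : s.OK) (hZ : s.PopOK Z D) (hg : s.Good Z) (hd : d.Hom) (hn : 4 ≤ n)
    {k i k' j : Fin n} (h1 : k < i) (h2 : i < k') (h3 : k' < j) (hx : s.XP i j (Z t0)) : False := by
  obtain ⟨a, b, a', b', ⟨p1, p2, p3, p4, p5⟩, ⟨q1, q2, q3, q4, q5⟩, hcr⟩ := hx.cr
  obtain ⟨c, c', e, e', η, g1, g2, g3, g4, g5, g6, g7, g8, g9, g10, g11, g12, g13⟩ :=
    d.gam_split h hZ (i := k) (j := k') (h1.trans h2).ne
  obtain ⟨W, hW⟩ : ∃ W : Fin 6 → Fin n, W = ![i, i, j, j, k, k'] := ⟨_, rfl⟩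
  obtain ⟨A, hA⟩ : ∃ A : Fin 6 → ℕ, A = ![a + 1, b - 1, a' + 1, b' - 1, c, e] := ⟨_, rfl⟩
  obtain ⟨B, hB⟩ : ∃ B : Fin 6 → ℕ, B = ![a, b, a', b', c', e'] := ⟨_, rfl⟩
  have w0 : W 0 = i := by rw [hW]; rfl
  have w1 : W 1 = i := by rw [hW]; rfl
  have w2 : W 2 = j := by rw [hW]; rfl
  have w3 : W 3 = j := by rw [hW]; rfl
  have w4 : W 4 = k := by rw [hW]; rfl
  have w5 : W 5 = k' := by rw [hW]; rfl
  have a0 : A 0 = a + 1 := by rw [hA]; rfl
  have a1 : A 1 = b - 1 := by rw [hA]; rfl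
  have a2 : A 2 = a' + 1 := by rw [hA]; rfl
  have a3 : A 3 = b' - 1 := by rw [hA]; rfl
  have a4 : A 4 = c := by rw [hA]; rfl
  have a5 : A 5 = e := by rw [hA]; rfl
  have b0 : B 0 = a := by rw [hB]; rfl
  have b1 : B 1 = b := by rw [hB]; rfl
  have b2 : B 2 = a' := by rw [hB]; rfl
  have b3 : B 3 = b' := by rw [hB]; rfl
  have b4 : B 4 = c' := by rw [hB]; rfl
  have b5 : B 5 = e' := by rw [hB]; rfl
  have all : ∀ t : Fin 6, A t ≤ s.len (W t) ∧ B t ≤ s.len (W t) ∧ (B t = A t + 1 ∨ A t = B t + 1) ∧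
      s.F.Reachable (Z t0) (s.Q (W t) (A t)) ∧ ¬ s.F.Reachable (Z t0) (s.Q (W t) (B t)) := by
    intro t
    match t with
    | 0 =>
      rw [w0, a0, b0]
      exact ⟨by omega, by omega, Or.inr rfl, p5 _ (by omega) p1, p3⟩
    | 1 =>
      rw [w1, a1, b1]
      exact ⟨by omega, p2, Or.inl (by omega), p5 _ (by omega) (by omega), p4⟩
    | 2 =>
      rw [w2, a2, b2]
      exact ⟨by omega, by omega, Or.inr rfl, q5 _ (by omega) q1, q3⟩
    | 3 =>
      rw [w3, a3, b3]
      exact ⟨by omega, q2, Or.inl (by omega), q5 _ (by omega) (by omega), q4⟩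
    | 4 =>
      rw [w4, a4, b4]
      exact ⟨g3, g4, g1, g7, g9⟩
    | 5 =>
      rw [w5, a5, b5]
      exact ⟨g5, g6, g2, g8, g10⟩
  have hnm : ∀ t, s.Q (W t) (B t) ∉ s.MK := by
    intro t
    obtain ⟨u1, u2, u3, u4, u5⟩ := all t
    exact h.not_mem_of_leaf hx.mem u1 u2 u3 u4 u5
  have hadj : ∀ t, LAdj (s.Q (W t) (A t)) (s.Q (W t) (B t)) := by
    intro t
    obtain ⟨u1, u2, u3, u4, u5⟩ := all t
    rcases u3 with u3 | u3
    · rw [u3]
      exact (h.Q_ok (W t)).adj _ (by omega)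
    · rw [u3]
      exact ((h.Q_ok (W t)).adj _ (by omega)).symm
  have hinj : Function.Injective (fun t => s.Q (W t) (B t)) := by
    intro t t' he
    have he' : s.Q (W t) (B t) = s.Q (W t') (B t') := he
    have e1 : W t = W t' := by
      by_contra hne
      exact h.ne_of_not_mem hne (all t).2.1 (all t').2.1 (hnm t) he'
    have e2 : B t = B t' := by
      rw [← e1] at he'
      refine (h.Q_ok (W t)).inj _ _ (all t).2.1 ?_ he'
      rw [e1]
      exact (all t').2.1
    have e3 : ((W t : Fin n) : ℕ) = (W t' : ℕ) := by rw [e1]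
    have n1 : (k : ℕ) < i := h1
    have n2 : (i : ℕ) < k' := h2
    have n3 : (k' : ℕ) < j := h3
    fin_cases t <;> fin_cases t' <;> first
      | rfl
      | (exfalso
         simp only [Fin.zero_eta, Fin.mk_one, Fin.reduceFinMk, w0, w1, w2, w3, w4, w5, b0, b1, b2, b3, b4, b5]
           at e3 e2
         omega)
  have hclosed : Closed (d.gam k k') := closed_sum56 _ _ (fun a ha => d.lp_closed h ha k k')
  have hWk : ∀ t : Fin 6, t.val < 4 → W t ≠ k ∧ W t ≠ k' := by
    intro t ht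
    match t with
    | 0 =>
      rw [w0]
      exact ⟨h1.ne', h2.ne⟩
    | 1 =>
      rw [w1]
      exact ⟨h1.ne', h2.ne⟩
    | 2 =>
      rw [w2]
      exact ⟨(h1.trans (h2.trans h3)).ne', h3.ne'⟩
    | 3 =>
      rw [w3]
      exact ⟨(h1.trans (h2.trans h3)).ne', h3.ne'⟩
    | 4 => exact absurd ht (by decide)
    | 5 => exact absurd ht (by decide)
  have h20 : (2 : ZMod 2) = 0 := by decide
  obtain ⟨L, hL⟩ : ∃ L : Fin 6 → Ch, L = fun t => lam s.F (Z t0) (s.Q (W t) (A t)) (s.Q (W t) (B t)) := ⟨_, rfl⟩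
  have hLt : ∀ t, lam s.F (Z t0) (s.Q (W t) (A t)) (s.Q (W t) (B t)) = L t := by
    intro t
    rw [hL]
  have hcross : ∀ x y : Fin 6, x.val < 4 → y.val < 4 → cross (L 4 + L 5) (L x + L y) =
      wind (d.gam k k') (s.Q (W x) (B x)) + wind (d.gam k k') (s.Q (W y) (B y)) := by
    intro x y hxv hyv
    have c1 : cross (d.gam k k') (L x + L y) =
        wind (d.gam k k') (s.Q (W x) (B x)) + wind (d.gam k k') (s.Q (W y) (B y)) := by
      refine cross_of_bd hclosed (fun t => ?_)
      rw [bd_add, ← hLt x, ← hLt y, bd_lam h.F_for (all x).2.2.2.1 (hadj x), bd_lam h.F_for (all y).2.2.2.1 (hadj y)]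
      linear_combination (dl (Z t0) t) * h20
    have c2 : cross η (L x + L y) = 0 := by
      refine cross_eq_zero (fun t ht1 ht2 => ?_)
      have hone : ∀ u : Fin 6, u.val < 4 → Touch (L u) t → False := by
        intro u hu ht3
        rw [← hLt u] at ht3
        rcases touch_lam h.F_for (all u).2.2.2.1 ht3 with h4 | h4
        · exact g12 t h4 ht1
        · rw [h4] at ht1
          exact g13 (W u) (B u) (hWk u hu).1 (hWk u hu).2 (all u).2.1 (hnm u) ht1
      rcases touch_add ht2 with h4 | h4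
      · exact hone x hxv h4
      · exact hone y hyv h4
    have c3 : d.gam k k' = (L 4 + L 5) + η := by
      rw [g11, ← hLt 4, ← hLt 5, w4, w5, a4, a5, b4, b5]
    rw [c3, cross_add_left, c2, add_zero] at c1
    rw [c3]
    exact c1
  have hval : ∀ t : Fin 6, t.val < 4 → wind (d.gam k k') (s.Q (W t) (B t)) = if k < W t ∧ W t < k' then 1 else 0 :=
    fun t ht => d.wind_gam h hZ hg hd hn hx.sat (h1.trans h2) (hWk t ht).1 (hWk t ht).2 (all t).2.1 (hnm t)
  have v0 : wind (d.gam k k') (s.Q (W 0) (B 0)) = 1 := by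
    rw [hval 0 (by decide), w0, if_pos ⟨h1, h2⟩]
  have v1 : wind (d.gam k k') (s.Q (W 1) (B 1)) = 1 := by
    rw [hval 1 (by decide), w1, if_pos ⟨h1, h2⟩]
  have v2 : wind (d.gam k k') (s.Q (W 2) (B 2)) = 0 := by
    rw [hval 2 (by decide), w2, if_neg (fun h4 => absurd h4.2 (not_lt.2 h3.le))]
  have v3 : wind (d.gam k k') (s.Q (W 3) (B 3)) = 0 := by
    rw [hval 3 (by decide), w3, if_neg (fun h4 => absurd h4.2 (not_lt.2 h3.le))]
  have hsix := six h.F_for (z := Z t0) (y := fun t => s.Q (W t) (A t)) (q := fun t => s.Q (W t) (B t))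
    (fun t => (all t).2.2.2.1) hadj (fun t => (all t).2.2.2.2) hinj
    (by
      rw [hLt 4, hLt 5, hLt 0, hLt 1, hcross 0 1 (by decide) (by decide), v0, v1]
      decide)
    (by
      rw [hLt 4, hLt 5, hLt 2, hLt 3, hcross 2 3 (by decide) (by decide), v2, v3]
      decide)
    (by
      rw [hLt 4, hLt 5, hLt 0, hLt 2, hcross 0 2 (by decide) (by decide), v0, v2]
      decide)
  have hadjF : ∀ (l : Fin n) (u v : ℕ), v ≤ s.len l → (∀ x, u < x → x < v → s.F.Reachable (Z t0) (s.Q l x)) →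
      ∀ x, u < x → x + 1 < v → s.F.Adj (s.Q l x) (s.Q l (x + 1)) := by
    intro l u v hv hr x hx1 hx2
    exact (h.Q_ok l).fst x (by omega) (h.reach_mem hx.mem (hr x hx1 (by omega)))
      (h.reach_mem hx.mem (hr (x + 1) (by omega) hx2))
  have s1 := lam_pass h.F_for (z := Z t0) (Q := s.Q i) p1 p5 (hadjF i a b p2 p5)
  have s2 := lam_pass h.F_for (z := Z t0) (Q := s.Q j) q1 q5 (hadjF j a' b' q2 q5)
  simp only [w0, w1, w2, w3, a0, a1, a2, a3, b0, b1, b2, b3] at hsix
  rw [← s1, ← s2, hcr] at hsix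
  exact one_ne_zero hsix

end Pool.Agent.Helper46.RM
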