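import Pool.Agent.Helper46.RM.CaB1
import Pool.Agent.Helper46.RM.CaB2
import Pool.Agent.Helper46.RM.CaB4

/-!
# Block RM-B5: case B.

Take `N2` from `exists_hom p m 4 t0` and `N` from `exists_bdata p m N2 t0`. `exists_bdata`, then `exists_hom` give a subfamily of four walks
with homogeneous data; `comap_ok`, `comap_popOK`, `comap_good`, `comap_xp` (`Sys.comap` of `Sys.comap` is definitionally the `comap` of the composition);
`caseB_false` with `k = 0, i = 1, k' = 2, j = 3`.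
-/

namespace Pool.Agent.Helper46.RM

open scoped Classical

theorem caseB (p m : ℕ) (t0 : Fin m) : ∃ N : ℕ, ∀ {ι : Type*} (s : Sys ι p N) (D : ℕ) (Z : Fin m → P2), s.OK →
    s.PopOK Z D → s.Good Z → (∀ i j, i < j → s.XP i j (Z t0)) → False := by
  obtain ⟨N2, hN2⟩ := exists_hom p m 4 t0
  obtain ⟨N, hN⟩ := exists_bdata p m N2 t0
  refine ⟨N, fun {ι} s D Z hs hZ hg hx => ?_⟩
  obtain ⟨φ, hφ, ⟨d⟩⟩ := hN s D Z hs hZ
  obtain ⟨ψ, hψ, hd⟩ := hN2 (s.comap φ) Z d
  have h1 := Sys.comap_ok (Sys.comap_ok hs hφ.injective) hψ.injective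
  have h2 := Sys.comap_popOK (Sys.comap_popOK hZ hφ.injective) hψ.injective
  have h3 := Sys.comap_good (Sys.comap_good hg hφ.injective) hψ.injective
  have h4 : ((s.comap φ).comap ψ).XP (1 : Fin 4) (3 : Fin 4) (Z t0) :=
    Sys.comap_xp.2 (Sys.comap_xp.2 (hx _ _ (hφ (hψ (by decide)))))
  exact (d.comap ψ).caseB_false h1 h2 h3 hd le_rfl (k := 0) (i := 1) (k' := 2) (j := 3)
    (by decide) (by decide) (by decide) h4

end Pool.Agent.Helper46.RM
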