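import Pool.Agent.Helper46.RM.Defs

/-!
# Block RM-CH: elementary facts about lattice chains.

Everything by unfolding the definitions (`Defs.lean`); `ZMod 2` has characteristic two (`CharTwo`).
* `bd_ed`, `touch_ed`: four cases of `LAdj`; the single edge `((x,y),false)` has `cE = 1` at `(x,y)` and `cW = 1` at `(x+1,y)`, all other
  coefficients are zero; similarly the vertical edge.
* `bd_ch`, `touch_ch`: induction on the list. `ch_append`: induction on the first list. `ch_reverse`: from `ch_append` and `ed_comm`.
* `bd_seg`, `touch_seg`, `seg_add`: `Finset.sum_Ico_consecutive`, induction on `b` (`Nat.le_induction`).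
* `crossAt_support`: the points with `crossAt a b p ≠ 0` are images of elements of `a.support`. `cross_add_left`, `cross_add_right`:
  `finsum_add_distrib`. `cross_eq_sum`: `finsum_eq_sum_of_support_subset` (if `crossAt a b p ≠ 0`, then `Touch a p` and `Touch b p`).
-/

namespace Pool.Agent.Helper46.RM

open scoped Classical

theorem cE_add (a b : Ch) (p : P2) : cE (a + b) p = cE a p + cE b p := by
  rfl

theorem cW_add (a b : Ch) (p : P2) : cW (a + b) p = cW a p + cW b p := by
  rfl

theorem cN_add (a b : Ch) (p : P2) : cN (a + b) p = cN a p + cN b p := by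
  rfl

theorem cS_add (a b : Ch) (p : P2) : cS (a + b) p = cS a p + cS b p := by
  rfl

theorem add_self_ch (a : Ch) : a + a = 0 := by
  ext x
  rw [Finsupp.add_apply, CharTwo.add_self_eq_zero]
  rfl

theorem bd_add (a b : Ch) (p : P2) : bd (a + b) p = bd a p + bd b p := by
  simp only [bd, cE_add, cW_add, cN_add, cS_add]
  ring

theorem bd_zero (p : P2) : bd 0 p = 0 := by
  simp [bd, cE, cW, cN, cS]

theorem Closed.add {a b : Ch} (ha : Closed a) (hb : Closed b) : Closed (a + b) := by
  intro p
  rw [bd_add, ha p, hb p, add_zero]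

theorem not_touch_zero (p : P2) : ¬ Touch 0 p := by
  simp [Touch, cE, cW, cN, cS]

theorem touch_add {a b : Ch} {p : P2} (h : Touch (a + b) p) : Touch a p ∨ Touch b p := by
  by_contra hc
  rw [not_or] at hc
  obtain ⟨h1, h2⟩ := hc
  simp only [Touch, not_or, not_not] at h1 h2
  apply absurd h
  simp only [Touch, cE_add, cW_add, cN_add, cS_add, h1.1, h1.2.1, h1.2.2.1, h1.2.2.2, h2.1, h2.2.1,
    h2.2.2.1, h2.2.2.2]
  simp

/-- the boundary is zero at points which are not touched -/
theorem bd_of_not_touch {a : Ch} {p : P2} (h : ¬ Touch a p) : bd a p = 0 := by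
  simp only [Touch, not_or, not_not] at h
  rw [bd, h.1, h.2.1, h.2.2.1, h.2.2.2]
  simp

theorem finite_touch (a : Ch) : {p | Touch a p}.Finite := by
  apply Set.Finite.subset ((((a.support.image fun e => e.1) ∪
    (a.support.image fun e => ((e.1.1 + 1, e.1.2) : P2)) ∪
    (a.support.image fun e => ((e.1.1, e.1.2 + 1) : P2)) : Finset P2)).finite_toSet)
  intro p hp
  simp only [Finset.coe_union, Finset.coe_image, Set.mem_union, Set.mem_image, Finset.mem_coe,
    Finsupp.mem_support_iff]
  rcases hp with h | h | h | h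
  · exact Or.inl (Or.inl ⟨(p, false), h, rfl⟩)
  · refine Or.inl (Or.inr ⟨((p.1 - 1, p.2), false), h, ?_⟩)
    ext <;> simp
  · exact Or.inl (Or.inl ⟨(p, true), h, rfl⟩)
  · refine Or.inr ⟨((p.1, p.2 - 1), true), h, ?_⟩
    ext <;> simp

theorem ed_comm (p q : P2) : ed p q = ed q p := by
  obtain ⟨px, py⟩ := p
  obtain ⟨qx, qy⟩ := q
  simp only [ed, Prod.mk.injEq]
  split_ifs <;> first
    | rfl
    | omega

theorem bd_ed {p q : P2} (h : LAdj p q) (x : P2) : bd (ed p q) x = dl p x + dl q x := by
  have h1 : ∀ y x : P2, bd (Finsupp.single (y, false) 1) x = dl y x + dl (y.1 + 1, y.2) x := by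
    rintro ⟨y1, y2⟩ ⟨x1, x2⟩
    simp only [bd, cE, cW, cN, cS, dl, Finsupp.single_apply, Prod.mk.injEq, and_true, Bool.false_eq_true,
      and_false, if_false, add_zero]
    congr 1
    · exact if_congr (by omega) rfl rfl
    · exact if_congr (by omega) rfl rfl
  have h2 : ∀ y x : P2, bd (Finsupp.single (y, true) 1) x = dl y x + dl (y.1, y.2 + 1) x := by
    rintro ⟨y1, y2⟩ ⟨x1, x2⟩
    simp only [bd, cE, cW, cN, cS, dl, Finsupp.single_apply, Prod.mk.injEq, and_true, Bool.true_eq_false,
      and_false, if_false, add_zero, zero_add]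
    congr 1
    · exact if_congr (by omega) rfl rfl
    · exact if_congr (by omega) rfl rfl
  have h3 : ∀ p : P2, ed p (p.1 + 1, p.2) = Finsupp.single (p, false) 1 := by
    intro p
    rw [ed, if_pos rfl]
  have h4 : ∀ p : P2, ed p (p.1, p.2 + 1) = Finsupp.single (p, true) 1 := by
    rintro ⟨p1, p2⟩
    simp only [ed, Prod.mk.injEq]
    split_ifs <;> first
      | rfl
      | omega
  rcases h with (h | h) | (h | h)
  · rw [h, h3, h1]
  · rw [h, ed_comm, h3, h1, add_comm]
  · rw [h, h4, h2]
  · rw [h, ed_comm, h4, h2, add_comm]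

theorem touch_ed {p q x : P2} (h : Touch (ed p q) x) : x = p ∨ x = q := by
  have h1 : ∀ y x : P2, Touch (Finsupp.single (y, false) 1) x → x = y ∨ x = (y.1 + 1, y.2) := by
    rintro ⟨y1, y2⟩ ⟨x1, x2⟩ h
    simp only [Touch, cE, cW, cN, cS, Finsupp.single_apply, Prod.mk.injEq, and_true, Bool.false_eq_true,
      and_false, if_false, ne_eq, not_true_eq_false, or_false, ite_eq_right_iff, one_ne_zero, imp_false,
      not_not] at h ⊢
    omega
  have h2 : ∀ y x : P2, Touch (Finsupp.single (y, true) 1) x → x = y ∨ x = (y.1, y.2 + 1) := by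
    rintro ⟨y1, y2⟩ ⟨x1, x2⟩ h
    simp only [Touch, cE, cW, cN, cS, Finsupp.single_apply, Prod.mk.injEq, and_true, Bool.true_eq_false,
      and_false, if_false, ne_eq, not_true_eq_false, false_or, ite_eq_right_iff, one_ne_zero,
      imp_false, not_not] at h ⊢
    omega
  unfold ed at h
  split_ifs at h with c1 c2 c3 c4
  · rw [c1]
    exact h1 _ _ h
  · rw [c2]
    exact (h1 _ _ h).symm
  · rw [c3]
    exact h2 _ _ h
  · rw [c4]
    exact (h2 _ _ h).symm
  · exact absurd h (not_touch_zero x)

theorem ch_nil : ch [] = 0 := rfl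

theorem ch_single (p : P2) : ch [p] = 0 := rfl

theorem ch_cons_cons (p q : P2) (l : List P2) : ch (p :: q :: l) = ed p q + ch (q :: l) := rfl

theorem touch_ch {l : List P2} {x : P2} (h : Touch (ch l) x) : x ∈ l := by
  induction l with
  | nil => exact absurd h (not_touch_zero x)
  | cons p l ih =>
    cases l with
    | nil => exact absurd h (not_touch_zero x)
    | cons q l =>
      rw [ch_cons_cons] at h
      rcases touch_add h with h1 | h1
      · rcases touch_ed h1 with h2 | h2
        · rw [h2]
          exact List.mem_cons_self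
        · rw [h2]
          exact List.mem_cons_of_mem _ List.mem_cons_self
      · exact List.mem_cons_of_mem _ (ih h1)

theorem bd_ch (p : P2) (l : List P2) (h : List.IsChain LAdj (p :: l)) (x : P2) :
    bd (ch (p :: l)) x = dl p x + dl ((p :: l).getLast (List.cons_ne_nil p l)) x := by
  induction l generalizing p with
  | nil =>
    rw [ch_single, bd_zero, List.getLast_singleton, CharTwo.add_self_eq_zero]
  | cons q l ih =>
    rw [ch_cons_cons, bd_add, ih q (List.isChain_cons_cons.1 h).2, bd_ed (List.isChain_cons_cons.1 h).1,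
      List.getLast_cons (List.cons_ne_nil q l), add_assoc, ← add_assoc (dl q x) (dl q x),
      CharTwo.add_self_eq_zero, zero_add]

/-- cut a list at the element `p` -/
theorem ch_append (l l' : List P2) (p : P2) : ch (l ++ p :: l') = ch (l ++ [p]) + ch (p :: l') := by
  induction l with
  | nil =>
    rw [List.nil_append, List.nil_append, ch_single, zero_add]
  | cons q l ih =>
    cases l with
    | nil =>
      show ch (q :: p :: l') = ch (q :: [p]) + ch (p :: l')
      rw [ch_cons_cons, ch_cons_cons, ch_single, add_zero]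
    | cons r l =>
      show ch (q :: r :: (l ++ p :: l')) = ch (q :: r :: (l ++ [p])) + ch (p :: l')
      rw [ch_cons_cons, ch_cons_cons, add_assoc]
      exact congrArg _ ih

theorem ch_reverse (l : List P2) : ch l.reverse = ch l := by
  induction l with
  | nil => rfl
  | cons p l ih =>
    cases l with
    | nil => rfl
    | cons q l =>
      rw [ch_cons_cons, ← ih, List.reverse_cons, List.reverse_cons, List.append_assoc, List.singleton_append,
        ch_append, ch_cons_cons, ch_single, add_zero, add_comm, ed_comm]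

theorem seg_self (Q : ℕ → P2) (a : ℕ) : seg Q a a = 0 := by
  rw [seg, Finset.Ico_self, Finset.sum_empty]

theorem seg_succ (Q : ℕ → P2) {a b : ℕ} (h : a ≤ b) : seg Q a (b + 1) = seg Q a b + ed (Q b) (Q (b + 1)) := by
  rw [seg, seg, Finset.sum_Ico_succ_top h]

theorem seg_add (Q : ℕ → P2) {a b c : ℕ} (h : a ≤ b) (h' : b ≤ c) : seg Q a b + seg Q b c = seg Q a c := by
  exact Finset.sum_Ico_consecutive _ h h'

theorem bd_seg {Q : ℕ → P2} {a b : ℕ} (h : a ≤ b) (hQ : ∀ c, a ≤ c → c < b → LAdj (Q c) (Q (c + 1))) (x : P2) :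
    bd (seg Q a b) x = dl (Q a) x + dl (Q b) x := by
  induction b, h using Nat.le_induction with
  | base => rw [seg_self, bd_zero, CharTwo.add_self_eq_zero]
  | succ b hb ih =>
    rw [seg_succ Q hb, bd_add, ih (fun c h1 h2 => hQ c h1 (by omega)), bd_ed (hQ b hb (by omega)), add_assoc,
      ← add_assoc (dl (Q b) x) (dl (Q b) x), CharTwo.add_self_eq_zero, zero_add]

theorem touch_seg {Q : ℕ → P2} {a b : ℕ} {x : P2} (h : Touch (seg Q a b) x) : ∃ c, a ≤ c ∧ c ≤ b ∧ x = Q c := by
  by_cases hab : a ≤ b
  · induction b, hab using Nat.le_induction with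
    | base =>
      rw [seg_self] at h
      exact absurd h (not_touch_zero x)
    | succ b hb ih =>
      rw [seg_succ Q hb] at h
      rcases touch_add h with h1 | h1
      · obtain ⟨c, h2, h3, h4⟩ := ih h1
        exact ⟨c, h2, by omega, h4⟩
      · rcases touch_ed h1 with h2 | h2
        · exact ⟨b, hb, by omega, h2⟩
        · exact ⟨b + 1, by omega, le_rfl, h2⟩
  · rw [seg, Finset.Ico_eq_empty (by omega), Finset.sum_empty] at h
    exact absurd h (not_touch_zero x)

theorem seg_eq_ch (Q : ℕ → P2) {a b : ℕ} (h : a ≤ b) : seg Q a b = ch ((List.range' a (b + 1 - a)).map Q) := by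
  obtain ⟨n, rfl⟩ := Nat.exists_eq_add_of_le h
  clear h
  induction n generalizing a with
  | zero =>
    rw [add_zero, seg_self, Nat.add_sub_cancel_left]
    rfl
  | succ n ih =>
    have h1 : seg Q a (a + (n + 1)) = ed (Q a) (Q (a + 1)) + seg Q (a + 1) (a + 1 + n) := by
      rw [seg, Finset.sum_eq_sum_Ico_succ_bot (by omega), seg]
      congr 2
      congr 1
      omega
    have h2 : a + (n + 1) + 1 - a = n + 1 + 1 := by omega
    have h3 : a + 1 + n + 1 - (a + 1) = n + 1 := by omega
    rw [h1, ih (a := a + 1), h2, h3, List.range'_succ, List.range'_succ, List.map_cons, List.map_cons,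
      List.range'_succ, List.map_cons, ch_cons_cons]

/-- local coefficients of a piece of an injective walk at an inner point -/
theorem crossAt_congr {a a' b b' : Ch} {p : P2} (h1 : cE a p = cE a' p) (h2 : cN a p = cN a' p) (h3 : cS b p = cS b' p)
    (h4 : cW b p = cW b' p) : crossAt a b p = crossAt a' b' p := by
  rw [crossAt, crossAt, h1, h2, h3, h4]

theorem cross_eq_sum {a b : Ch} (X : Finset P2) (h : ∀ p, Touch a p → Touch b p → p ∈ X) :
    cross a b = ∑ p ∈ X, crossAt a b p := by
  rw [cross]
  apply finsum_eq_sum_of_support_subset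
  intro p hp
  rw [Function.mem_support, crossAt] at hp
  apply Finset.mem_coe.2
  by_cases h1 : cE a p * cS b p = 0
  · rw [h1, zero_add] at hp
    exact h p (Or.inr (Or.inr (Or.inl (left_ne_zero_of_mul hp)))) (Or.inr (Or.inl (right_ne_zero_of_mul hp)))
  · exact h p (Or.inl (left_ne_zero_of_mul h1)) (Or.inr (Or.inr (Or.inr (right_ne_zero_of_mul h1))))

theorem cross_eq_zero {a b : Ch} (h : ∀ p, Touch a p → ¬ Touch b p) : cross a b = 0 := by
  rw [cross_eq_sum ∅ (fun p h1 h2 => absurd h2 (h p h1)), Finset.sum_empty]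

theorem cross_add_left (a a' b : Ch) : cross (a + a') b = cross a b + cross a' b := by
  rw [cross_eq_sum (a := a + a') (b := b) (finite_touch b).toFinset
      (fun p _ h => (Set.Finite.mem_toFinset _).2 h),
    cross_eq_sum (a := a) (b := b) (finite_touch b).toFinset
      (fun p _ h => (Set.Finite.mem_toFinset _).2 h),
    cross_eq_sum (a := a') (b := b) (finite_touch b).toFinset
      (fun p _ h => (Set.Finite.mem_toFinset _).2 h), ← Finset.sum_add_distrib]
  apply Finset.sum_congr rfl
  intro p _
  rw [crossAt, crossAt, crossAt, cE_add, cN_add]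
  ring

theorem cross_add_right (a b b' : Ch) : cross a (b + b') = cross a b + cross a b' := by
  rw [cross_eq_sum (a := a) (b := b + b') (finite_touch a).toFinset
      (fun p h _ => (Set.Finite.mem_toFinset _).2 h),
    cross_eq_sum (a := a) (b := b) (finite_touch a).toFinset
      (fun p h _ => (Set.Finite.mem_toFinset _).2 h),
    cross_eq_sum (a := a) (b := b') (finite_touch a).toFinset
      (fun p h _ => (Set.Finite.mem_toFinset _).2 h), ← Finset.sum_add_distrib]
  apply Finset.sum_congr rfl
  intro p _
  rw [crossAt, crossAt, crossAt, cS_add, cW_add]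
  ring

theorem cross_zero_left (b : Ch) : cross 0 b = 0 := by
  exact cross_eq_zero fun p h => absurd h (not_touch_zero p)

theorem cross_zero_right (a : Ch) : cross a 0 = 0 := by
  exact cross_eq_zero fun p _ => not_touch_zero p

theorem cross_sum_right {β : Type*} (s : Finset β) (a : Ch) (f : β → Ch) : cross a (∑ i ∈ s, f i) = ∑ i ∈ s, cross a (f i) := by
  induction s using Finset.induction_on with
  | empty => rw [Finset.sum_empty, Finset.sum_empty, cross_zero_right]
  | insert i s hi ih => rw [Finset.sum_insert hi, Finset.sum_insert hi, cross_add_right, ih]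

theorem cross_sum_left {β : Type*} (s : Finset β) (f : β → Ch) (b : Ch) : cross (∑ i ∈ s, f i) b = ∑ i ∈ s, cross (f i) b := by
  induction s using Finset.induction_on with
  | empty => rw [Finset.sum_empty, Finset.sum_empty, cross_zero_left]
  | insert i s hi ih => rw [Finset.sum_insert hi, Finset.sum_insert hi, cross_add_left, ih]

end Pool.Agent.Helper46.RM
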