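import Pool.Agent.Helper46.RM.SysL
import Pool.Agent.Helper46.RM.Star

/-!
# Block RM-CX: many walks cannot visit `p + 1` common components.

For `i ∈ I` and `t : Fin (p + 1)` let `v i t` be the first position of the walk `i` in the component of `z t` (`Nat.find`); `v i t ≥ 1` since `Q i 0 = r`.
The point `q i t = Q i (v i t - 1)` is not in the component, so not in `MK` (`not_mem_of_leaf`), and has a colour `c i t ∈ P i` (`priv`). Since
`(P i).card = p`, there are `t ≠ u` with `c i t = c i u` (pigeonhole; if `p = 0` already `c i 0 ∈ P i = ∅` is a contradiction); name them such that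
`v i t < v i u` (they are different: the components are disjoint). So every `i ∈ I` gets a pair `(t, u)`; as `I.card > 3 (p+1)^2`, four walks
`i 0, i 1, i 2, i 3` of `I` have the same pair `(t, u)` (`Finset.exists_lt_card_fiber_of_mul_lt_card_of_maps_to`).
Apply `star4_false` with `y k = Q (i k) (v (i k) t)`, `q k = Q (i k) (v (i k) t - 1)`, `Z j = loop (i 0) 0 (v (i 0) t) (i j) 0 (v (i j) t)` (closed: both start at
`r`), decomposed by `loop_star'`: `η j = seg (Q (i 0)) 0 (v - 1) + tr F r r + seg (Q (i j)) 0 (v' - 1)`; it touches only points `Q (i 0) c`,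
`Q (i j) c` with `c < v` resp. `c < v'` (`tr_self`), which are not in the component of `z t` (first visit) and are different from the other `q k`
(`ne_of_not_mem`). The `q k` are distinct (`ne_of_not_mem`).
It remains to show `wind (Z j) (q k) = wind (Z j) (q l)` for `k, l ≠ 0, j`. The chain `Z j` touches no point of the component of `z u`: its points are
points of the walks `i 0`, `i j` before the first visit of `t`, so before the first visit of `u`, or in the component of `z t` (`loop_touch`).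
`wind (Z j) (q k) = wind (Z j) (q' k)` with `q' k = Q (i k) (v (i k) u - 1)`: same colour `c (i k) t = c (i k) u` (`wind_T`, `loop_sup`), and
`wind (Z j) (q' k) = wind (Z j) (z u)` (`wind_leaf`; `q' k` is not touched by `sup_not_touch'`). This does not depend on `k`.
-/

namespace Pool.Agent.Helper46.RM

open scoped Classical

variable {ι : Type*} {p n : ℕ} {s : Sys ι p n}

private lemma first65 (h : s.OK) {z : P2} (hz : z ∈ s.MK) (h0 : ¬ s.F.Reachable s.r z) {i : Fin n}
    (hv : s.Vis i z) : ∃ a, a ≤ s.len i ∧ s.F.Reachable z (s.Q i a) ∧ (∀ c, c < a → ¬ s.F.Reachable z (s.Q i c)) ∧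
      1 ≤ a ∧ s.Q i (a - 1) ∉ s.MK ∧ LAdj (s.Q i a) (s.Q i (a - 1)) := by
  obtain ⟨a, ⟨ha1, ha2⟩, ha3⟩ : ∃ a, (a ≤ s.len i ∧ s.F.Reachable z (s.Q i a)) ∧
      ∀ c, c < a → ¬ (c ≤ s.len i ∧ s.F.Reachable z (s.Q i c)) :=
    ⟨Nat.find hv, Nat.find_spec hv, fun c hc => Nat.find_min hv hc⟩
  have ha4 : ∀ c, c < a → ¬ s.F.Reachable z (s.Q i c) := fun c hc hr => ha3 c hc ⟨by omega, hr⟩
  have ha5 : 1 ≤ a := by
    by_contra hcon
    have : a = 0 := by omega
    rw [this, h.Q_zero] at ha2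
    exact h0 ha2.symm
  refine ⟨a, ha1, ha2, ha4, ha5, ?_, ?_⟩
  · exact h.not_mem_of_leaf hz ha1 (show a - 1 ≤ s.len i by omega) (Or.inr (by omega)) ha2 (ha4 _ (by omega))
  · have h1 := (h.Q_ok i).adj (a - 1) (by omega)
    rw [Nat.sub_add_cancel ha5] at h1
    exact h1.symm

private lemma four65 {α : Type*} {I : Finset (Fin n)} {f : Fin n → α} {y : α} [DecidableEq α]
    (hc : 3 < (I.filter (fun x => f x = y)).card) :
    ∃ e : Fin 4 → Fin n, Function.Injective e ∧ (∀ k, e k ∈ I) ∧ ∀ k, f (e k) = y := by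
  set J := I.filter (fun x => f x = y) with hJ
  have hm : ∀ k : Fin 4, J.orderEmbOfFin rfl (Fin.castLE (by omega) k) ∈ J := fun k => Finset.orderEmbOfFin_mem _ _ _
  refine ⟨fun k => J.orderEmbOfFin rfl (Fin.castLE (by omega) k), ?_, fun k => ?_, fun k => ?_⟩
  · intro a b hab
    have h1 := (J.orderEmbOfFin rfl).injective hab
    exact Fin.castLE_injective _ h1
  · exact (Finset.mem_filter.mp (hm k)).1
  · exact (Finset.mem_filter.mp (hm k)).2

theorem Sys.OK.claimX (h : s.OK) {z : Fin (p + 1) → P2} (hz : ∀ t, z t ∈ s.MK) (h0 : ∀ t, ¬ s.F.Reachable s.r (z t))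
    (hd : ∀ t u, t ≠ u → ¬ s.F.Reachable (z t) (z u)) (I : Finset (Fin n)) (hI : 3 * (p + 1) ^ 2 + 1 ≤ I.card)
    (hv : ∀ i ∈ I, ∀ t, s.Vis i (z t)) : False := by
  have h1 : ∀ i ∈ I, ∀ t, ∃ a, a ≤ s.len i ∧ s.F.Reachable (z t) (s.Q i a) ∧
      (∀ c, c < a → ¬ s.F.Reachable (z t) (s.Q i c)) ∧
      1 ≤ a ∧ s.Q i (a - 1) ∉ s.MK ∧ LAdj (s.Q i a) (s.Q i (a - 1)) :=
    fun i hi t => first65 h (hz t) (h0 t) (hv i hi t)
  choose! v hv1 hv2 hv3 hv4 hv5 hv6 using h1
  have h2 : ∀ i ∈ I, ∀ t, ∃ c ∈ s.P i, s.Q i (v i t - 1) ∈ s.T c :=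
    fun i hi t => h.priv (by have := hv1 i hi t; omega) (hv5 i hi t)
  have h3 : ∀ i ∈ I, ∃ pr : Fin (p + 1) × Fin (p + 1), v i pr.1 < v i pr.2 ∧
      ∃ c ∈ s.P i, s.Q i (v i pr.1 - 1) ∈ s.T c ∧ s.Q i (v i pr.2 - 1) ∈ s.T c := by
    intro i hi
    choose col hc1 hc2 using h2 i hi
    obtain ⟨t, -, u, -, htu, hcc⟩ := Finset.exists_ne_map_eq_of_card_lt_of_maps_to
      (s := (Finset.univ : Finset (Fin (p + 1)))) (t := s.P i) (f := col)
      (by rw [h.P_card, Finset.card_univ, Fintype.card_fin]; omega) (fun t _ => hc1 t)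
    have hne : v i t ≠ v i u := by
      intro he
      have e1 := hv2 i hi t
      rw [he] at e1
      exact hd t u htu (e1.trans (hv2 i hi u).symm)
    rcases lt_or_gt_of_ne hne with hlt | hlt
    · exact ⟨(t, u), hlt, col t, hc1 t, hc2 t, by rw [hcc]; exact hc2 u⟩
    · exact ⟨(u, t), hlt, col t, hc1 t, by rw [hcc]; exact hc2 u, hc2 t⟩
  choose! pr hp1 hp2 using h3
  obtain ⟨⟨t, u⟩, -, hy⟩ := Finset.exists_lt_card_fiber_of_mul_lt_card_of_maps_to (s := I)
    (t := (Finset.univ : Finset (Fin (p + 1) × Fin (p + 1)))) (f := pr) (n := 3) (fun _ _ => Finset.mem_univ _)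
    (by
      rw [Finset.card_univ, Fintype.card_prod, Fintype.card_fin]
      have : (p + 1) * (p + 1) * 3 = 3 * (p + 1) ^ 2 := by ring
      omega)
  obtain ⟨e, he, heI, hepr⟩ := four65 hy
  have hlt : ∀ k, v (e k) t < v (e k) u := by
    intro k
    have := hp1 (e k) (heI k)
    rw [hepr k] at this
    exact this
  have hcol : ∀ k, ∃ c ∈ s.P (e k), s.Q (e k) (v (e k) t - 1) ∈ s.T c ∧ s.Q (e k) (v (e k) u - 1) ∈ s.T c := by
    intro k
    have := hp2 (e k) (heI k)
    rw [hepr k] at this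
    exact this
  have htu : t ≠ u := by
    intro heq
    have := hlt 0
    rw [heq] at this
    omega
  have hne : ∀ k l, k ≠ l → e k ≠ e l := fun k l hkl heq => hkl (he heq)
  -- the facts for the four walks
  have a1 : ∀ k w, v (e k) w ≤ s.len (e k) := fun k w => hv1 _ (heI k) w
  have a2 : ∀ k w, s.F.Reachable (z w) (s.Q (e k) (v (e k) w)) := fun k w => hv2 _ (heI k) w
  have a3 : ∀ k w c, c < v (e k) w → ¬ s.F.Reachable (z w) (s.Q (e k) c) := fun k w => hv3 _ (heI k) w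
  have a4 : ∀ k w, 1 ≤ v (e k) w := fun k w => hv4 _ (heI k) w
  have a5 : ∀ k w, s.Q (e k) (v (e k) w - 1) ∉ s.MK := fun k w => hv5 _ (heI k) w
  have a6 : ∀ k w, LAdj (s.Q (e k) (v (e k) w)) (s.Q (e k) (v (e k) w - 1)) := fun k w => hv6 _ (heI k) w
  have hy0 : ∀ k, s.F.Reachable (s.Q (e 0) (v (e 0) t)) (s.Q (e k) (v (e k) t)) :=
    fun k => (a2 0 t).symm.trans (a2 k t)
  have hr0 : ∀ k, s.F.Reachable (s.Q (e 0) 0) (s.Q (e k) 0) := by
    intro k
    rw [h.Q_zero, h.Q_zero]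
  have hcl : ∀ j, Closed (s.loop (e 0) 0 (v (e 0) t) (e j) 0 (v (e j) t)) := fun j =>
    h.loop_closed (Nat.zero_le _) (a1 0 t) (Nat.zero_le _) (a1 j t) (hr0 j) (hy0 j)
  have hsup : ∀ j, s.Sup (fun k => k = e 0 ∨ k = e j) (s.loop (e 0) 0 (v (e 0) t) (e j) 0 (v (e j) t)) := fun j =>
    h.loop_sup (Nat.zero_le _) (a1 0 t) (Nat.zero_le _) (a1 j t)
  -- a point of one of the walks before the first visit
  have hpt : ∀ k c, c < v (e k) t → ∀ x, x = s.Q (e k) c →
      ¬ s.F.Reachable (s.Q (e 0) (v (e 0) t)) x ∧ ∀ l, l ≠ k → x ≠ s.Q (e l) (v (e l) t - 1) := by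
    intro k c hc x hx
    subst hx
    refine ⟨fun hr => a3 k t c hc ((a2 0 t).trans hr), fun l hl heq => ?_⟩
    exact h.ne_of_not_mem (hne l k hl) (by have := a1 l t; omega) (by have := a1 k t; omega) (a5 l t) heq.symm
  have hwind : ∀ j k, k ≠ 0 → k ≠ j →
      wind (s.loop (e 0) 0 (v (e 0) t) (e j) 0 (v (e j) t)) (s.Q (e k) (v (e k) t - 1)) =
        wind (s.loop (e 0) 0 (v (e 0) t) (e j) 0 (v (e j) t)) (z u) := by
    intro j k hk0 hkj
    have hl : ¬ (fun m => m = e 0 ∨ m = e j) (e k) := by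
      rintro (h5 | h5)
      · exact hk0 (he h5)
      · exact hkj (he h5)
    obtain ⟨c, hc1, hc2, hc3⟩ := hcol k
    rw [h.wind_T (hcl j) (hsup j) hl hc1 hc2 hc3]
    apply h.wind_leaf (hcl j) _ (a2 k u) (a6 k u)
    · exact h.sup_not_touch' (hsup j) hl (by have := a1 k u; omega) (a5 k u)
    · intro x hx htx
      rcases h.loop_touch htx (hr0 j) (hy0 j) with ⟨c', -, hc', rfl⟩ | ⟨c', -, hc', rfl⟩ | h6 | h6
      · exact a3 0 u c' (by have := hlt 0; omega) hx
      · exact a3 j u c' (by have := hlt j; omega) hx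
      · rw [h.Q_zero] at h6
        exact h0 u (h6.trans hx.symm)
      · exact hd t u htu ((a2 0 t).trans (h6.trans hx.symm))
  refine star4_false h.F_for (y := fun k => s.Q (e k) (v (e k) t)) (q := fun k => s.Q (e k) (v (e k) t - 1))
    hy0 (fun k => a6 k t) ?_ ?_ (Z := fun j => s.loop (e 0) 0 (v (e 0) t) (e j) 0 (v (e j) t))
    (η := fun j => seg (s.Q (e 0)) 0 (v (e 0) t - 1) + tr s.F (s.Q (e 0) 0) (s.Q (e j) 0) +
      seg (s.Q (e j)) 0 (v (e j) t - 1)) (fun j _ => hcl j) ?_ ?_ ?_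
  · intro k hr
    exact a3 k t _ (by have := a4 k t; omega) ((a2 0 t).trans hr)
  · intro k l hkl
    by_contra hne'
    exact h.ne_of_not_mem (hne k l hne') (by have := a1 k t; omega) (by have := a1 l t; omega) (a5 k t) hkl
  · intro j _
    exact h.loop_star' (a4 0 t) (a4 j t)
  · intro j hj x hx
    rcases touch_add hx with h7 | h7
    · rcases touch_add h7 with h8 | h8
      · obtain ⟨c, hc⟩ := touch_seg h8
        have h9 := hpt 0 c (by have := a4 0 t; omega) x hc.2.2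
        exact ⟨h9.1, fun k hk _ => h9.2 k hk⟩
      · exfalso
        rw [h.Q_zero, h.Q_zero, tr_self h.F_for] at h8
        exact not_touch_zero x h8
    · obtain ⟨c, hc⟩ := touch_seg h7
      have h9 := hpt j c (by have := a4 j t; omega) x hc.2.2
      exact ⟨h9.1, fun k _ hkj => h9.2 k hkj⟩
  · intro j k l _ hk hl hkj hlj
    rw [hwind j k hk hkj, hwind j l hl hlj]

end Pool.Agent.Helper46.RM
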