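import Pool.Agent.Helper46.RM.Top

/-!
# Block RM-CV: covers of the edges meeting an edge.

`cover`: take a set `M` of pairwise disjoint edges meeting `a b` (a set as in `MP`) of maximal cardinality (at most `k`); let `C`
be the set of their ends. An edge `c d` meeting `a b`, different from it, with no end in `C`, could be added to `M`.
-/

namespace Pool.Agent.Helper46.RM

open scoped Classical

variable {V : Type*} [Fintype V] {G : SimpleGraph V}

theorem cover (L : LatDraw G) {k : ℕ} (hk : L.MP k) {a b : V} (h : G.Adj a b) : ∃ C : Finset V, C.card ≤ 2 * k ∧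
    ∀ c d, G.Adj c d → s(c, d) ≠ s(a, b) → L.Meet a b c d → c ∈ C ∨ d ∈ C := by
  let P : Finset (Sym2 V) → Prop := fun M =>
    (∀ f ∈ M, ∃ c d, f = s(c, d) ∧ G.Adj c d ∧ s(c, d) ≠ s(a, b) ∧ L.Meet a b c d) ∧
    (∀ f ∈ M, ∀ g ∈ M, f ≠ g → ∀ v, v ∈ f → v ∉ g)
  have hne : (Finset.univ.filter P).Nonempty :=
    ⟨∅, Finset.mem_filter.2 ⟨Finset.mem_univ _, by simp [P]⟩⟩
  obtain ⟨M, hM, hmax⟩ := Finset.exists_max_image (Finset.univ.filter P) Finset.card hne
  have hP : P M := (Finset.mem_filter.1 hM).2
  have hk' : M.card ≤ k := hk a b h M hP.1 hP.2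
  refine ⟨M.biUnion (fun f => Finset.univ.filter (fun v => v ∈ f)), ?_, ?_⟩
  · calc (M.biUnion (fun f => Finset.univ.filter (fun v => v ∈ f))).card
        ≤ M.card * 2 := by
          apply Finset.card_biUnion_le_card_mul
          intro f _
          induction f with
          | h x y =>
            refine (Finset.card_le_card (t := {x, y}) ?_).trans Finset.card_le_two
            intro v hv
            simpa using hv
      _ ≤ 2 * k := by omega
  · intro c d hcd hne' hmeet
    by_contra hc
    push Not at hc
    have hcM : ∀ g ∈ M, c ∉ g := by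
      intro g hg hcg
      exact hc.1 (Finset.mem_biUnion.2 ⟨g, hg, by simpa using hcg⟩)
    have hdM : ∀ g ∈ M, d ∉ g := by
      intro g hg hdg
      exact hc.2 (Finset.mem_biUnion.2 ⟨g, hg, by simpa using hdg⟩)
    have hnot : s(c, d) ∉ M := fun hm => hcM _ hm (Sym2.mem_mk_left c d)
    have hP' : P (insert s(c, d) M) := by
      constructor
      · intro f hf
        rcases Finset.mem_insert.1 hf with rfl | hf
        · exact ⟨c, d, rfl, hcd, hne', hmeet⟩
        · exact hP.1 f hf
      · intro f hf g hg hfg v hvf hvg
        rcases Finset.mem_insert.1 hf with rfl | hf2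
        · rcases Finset.mem_insert.1 hg with rfl | hg2
          · exact hfg rfl
          · rcases Sym2.mem_iff.1 hvf with rfl | rfl
            · exact hcM g hg2 hvg
            · exact hdM g hg2 hvg
        · rcases Finset.mem_insert.1 hg with rfl | hg2
          · rcases Sym2.mem_iff.1 hvg with rfl | rfl
            · exact hcM f hf2 hvf
            · exact hdM f hf2 hvf
          · exact hP.2 f hf2 g hg2 hfg v hvf hvg
    have hle := hmax (insert s(c, d) M) (Finset.mem_filter.2 ⟨Finset.mem_univ _, hP'⟩)
    rw [Finset.card_insert_of_notMem hnot] at hle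
    omega

end Pool.Agent.Helper46.RM
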