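import Mathlib

/-!
# Project RM (MP_149cd4_co): redrawing matching-planar graphs without large crossing fans. Definitions, part 1.

The square lattice `ℤ × ℤ`, mod 2 chains of lattice edges, the crossing form `cross`, the winding parity `wind`.

The edge `((x, y), false)` runs from `(x, y)` to `(x + 1, y)`, the edge `((x, y), true)` from `(x, y)` to `(x, y + 1)`.
`cE a p, cW a p, cN a p, cS a p` are the coefficients of the chain `a` at the four edges at `p` (east, west, north, south),
`bd a p` their sum (the boundary of `a`), `Touch a p`: one of them is not zero.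
`cross a b` is the number (mod 2) of crossings of `a` with the chain `b` shifted by `(ε, ε)`: near `p` the edge east of `p`
in `a` crosses the edge south of `p` in the shifted `b`, the edge north of `p` in `a` crosses the edge west of `p` in the shifted `b`.
`wind a p` is the number (mod 2) of vertical edges of `a` met by the ray from `p + (ε, ε)` to the east.
-/

namespace Pool.Agent.Helper46.RM

open scoped Classical

noncomputable section

/-- lattice points -/
abbrev P2 := ℤ × ℤ

/-- lattice adjacency -/
def LAdj (p q : P2) : Prop :=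
  (q = (p.1 + 1, p.2) ∨ p = (q.1 + 1, q.2)) ∨ (q = (p.1, p.2 + 1) ∨ p = (q.1, q.2 + 1))

theorem LAdj.symm {p q : P2} (h : LAdj p q) : LAdj q p := by
  rcases h with (h | h) | (h | h)
  · exact Or.inl (Or.inr h)
  · exact Or.inl (Or.inl h)
  · exact Or.inr (Or.inr h)
  · exact Or.inr (Or.inl h)

theorem not_LAdj_self (p : P2) : ¬ LAdj p p := by
  rintro ((h | h) | (h | h)) <;> simp [Prod.ext_iff] at h

/-- the lattice graph -/
def Lat : SimpleGraph P2 where
  Adj := LAdj
  symm := ⟨fun _ _ h => h.symm⟩
  loopless := ⟨fun p h => not_LAdj_self p h⟩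

/-- mod 2 chains of lattice edges -/
abbrev Ch := (P2 × Bool) →₀ ZMod 2

def cE (a : Ch) (p : P2) : ZMod 2 := a (p, false)
def cW (a : Ch) (p : P2) : ZMod 2 := a ((p.1 - 1, p.2), false)
def cN (a : Ch) (p : P2) : ZMod 2 := a (p, true)
def cS (a : Ch) (p : P2) : ZMod 2 := a ((p.1, p.2 - 1), true)

/-- boundary -/
def bd (a : Ch) (p : P2) : ZMod 2 := cE a p + cW a p + (cN a p + cS a p)

/-- the point `p` lies on an edge of `a` -/
def Touch (a : Ch) (p : P2) : Prop := cE a p ≠ 0 ∨ cW a p ≠ 0 ∨ cN a p ≠ 0 ∨ cS a p ≠ 0

def crossAt (a b : Ch) (p : P2) : ZMod 2 := cE a p * cS b p + cN a p * cW b p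

/-- crossing number of `a` with the shifted `b` -/
def cross (a b : Ch) : ZMod 2 := ∑ᶠ p : P2, crossAt a b p

/-- winding parity at `p + (ε, ε)` -/
def wind (a : Ch) (p : P2) : ZMod 2 := ∑ᶠ i : ℕ, a ((p.1 + 1 + i, p.2), true)

/-- point mass -/
def dl (b p : P2) : ZMod 2 := if p = b then 1 else 0

/-- closed chains -/
def Closed (a : Ch) : Prop := ∀ p, bd a p = 0

/-- the edge `p q` as a chain -/
def ed (p q : P2) : Ch :=
  if q = (p.1 + 1, p.2) then Finsupp.single (p, false) 1
  else if p = (q.1 + 1, q.2) then Finsupp.single (q, false) 1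
  else if q = (p.1, p.2 + 1) then Finsupp.single (p, true) 1
  else if p = (q.1, q.2 + 1) then Finsupp.single (q, true) 1
  else 0

/-- the chain of a walk given by a list -/
def ch : List P2 → Ch
  | [] => 0
  | [_] => 0
  | p :: q :: l => ed p q + ch (q :: l)

/-- the chain of the piece `[a, b]` of a walk given by a function -/
def seg (Q : ℕ → P2) (a b : ℕ) : Ch := ∑ c ∈ Finset.Ico a b, ed (Q c) (Q (c + 1))

/-- the chain of a walk in `F` from `p` to `q` (unique if `F` is acyclic) -/
def tr (F : SimpleGraph P2) (p q : P2) : Ch :=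
  if h : F.Reachable p q then ch (Classical.choice h).support else 0

/-- connected sets of lattice points -/
def ConnSet (T : Set P2) : Prop := ∀ x ∈ T, ∀ y ∈ T, ∃ w : Lat.Walk x y, ∀ z ∈ w.support, z ∈ T

/-- `F` is a forest in the lattice -/
structure Forest (F : SimpleGraph P2) : Prop where
  le : ∀ x y, F.Adj x y → LAdj x y
  ac : F.IsAcyclic

end

end Pool.Agent.Helper46.RM
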