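import Pool.Agent.Helper46.RM.Ess
import Pool.Agent.Helper46.RM.Chain

/-!
# Block RM-E1: an essential crossing has crossing number one.

`lamd p q = 1` if the step from `p` to `q` goes north or west. The four local formulas are finite checks: translate so that the centre is `(0, 0)` (or write the
neighbours as `(p.1 ± 1, p.2)`, `(p.1, p.2 ± 1)`), `ed` of an edge at the centre `p` has exactly one of the four coefficients `cE, cW, cN, cS` at `p`
equal to `1` (`ed_comm`; e.g. `cE (ed p q) p = 1` iff `q = (p.1 + 1, p.2)`), and check all directions (`crossAt_mid`: 12 cases, `crossAt_first`,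
`crossAt_last`: 24 cases, `crossAt_one`: 8 cases; verified by computer). In `crossAt_first` `p` is the first point of the common piece, `q` the second, `u, u'` the
points before; in `crossAt_last` `q` is the last point, `p` the last but one, `w, w'` the points after.
`ess_ne`: `ϖ = [p]`: `u, w` are opposite neighbours of `p` (`turn = 0`, `u ≠ w`), `u', w'` too, and `u' ≠ u, w`, so `{u', w'}` and `{u, w}` are disjoint.
`ess_sum`: `l = 1`: `crossAt_one`. `l ≥ 2`: the term `i = 0` is `1 + [turn (f 2) (f 1) (f' 0) < turn (f 2) (f 1) (f 0)] + lamd (f 1) (f 2)`, the terms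
`0 < i < l - 1` are `lamd (f i) (f (i+1)) + lamd (f (i+1)) (f (i+2))` and telescope (characteristic two), the last one is
`[turn (f (l-1)) (f l) (f' (l+1)) < turn (f (l-1)) (f l) (f (l+1))] + lamd (f (l-1)) (f l)`. The sum is `1 + [..] + [..]`, and by `EssAt` both brackets are equal.
(The list `(List.range l).map (fun i => f (i+1))` is `f 1 :: f 2 :: ..` and ends with `f (l-1), f l`.)
-/

namespace Pool.Agent.Helper46.RM

open scoped Classical

noncomputable section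

/-- 1 if the step from `p` to `q` is to the north or to the west -/
def lamd (p q : P2) : ZMod 2 := if q = (p.1, p.2 + 1) ∨ p = (q.1 + 1, q.2) then 1 else 0

private def vx61 : Fin 4 → ℤ := ![1, 0, -1, 0]
private def vy61 : Fin 4 → ℤ := ![0, 1, 0, -1]

private theorem nb61 {p q : P2} (h : LAdj p q) : ∃ i : Fin 4, q = (p.1 + vx61 i, p.2 + vy61 i) := by
  obtain ⟨p1, p2⟩ := p
  obtain ⟨q1, q2⟩ := q
  simp only [LAdj, Prod.mk.injEq] at h
  rcases h with (h | h) | (h | h)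
  · exact ⟨0, by simp only [vx61, vy61, Prod.mk.injEq]; simp; omega⟩
  · exact ⟨2, by simp only [vx61, vy61, Prod.mk.injEq]; simp; omega⟩
  · exact ⟨1, by simp only [vx61, vy61, Prod.mk.injEq]; simp; omega⟩
  · exact ⟨3, by simp only [vx61, vy61, Prod.mk.injEq]; simp; omega⟩

private def kE61 (i : Fin 4) : ZMod 2 := if i = 0 then 1 else 0
private def kN61 (i : Fin 4) : ZMod 2 := if i = 1 then 1 else 0
private def kW61 (i : Fin 4) : ZMod 2 := if i = 2 then 1 else 0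
private def kS61 (i : Fin 4) : ZMod 2 := if i = 3 then 1 else 0

private theorem coef61 (p : P2) (i : Fin 4) :
    cE (ed p (p.1 + vx61 i, p.2 + vy61 i)) p = kE61 i ∧ cN (ed p (p.1 + vx61 i, p.2 + vy61 i)) p = kN61 i ∧
    cW (ed p (p.1 + vx61 i, p.2 + vy61 i)) p = kW61 i ∧ cS (ed p (p.1 + vx61 i, p.2 + vy61 i)) p = kS61 i := by
  obtain ⟨p1, p2⟩ := p
  have h1' : ∀ x y : ℤ, ed (x, y) (x + 1, y) = Finsupp.single ((x, y), false) 1 := by
    intro x y
    simp only [ed, if_true]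
  have h2' : ∀ x y : ℤ, ed (x, y) (x, y + 1) = Finsupp.single ((x, y), true) 1 := by
    intro x y
    simp only [ed, Prod.mk.injEq]
    split_ifs <;> first
      | rfl
      | omega
  have h1 := h1' p1 p2
  have h2 := h2' p1 p2
  have h3 : ed (p1, p2) (p1 - 1, p2) = Finsupp.single ((p1 - 1, p2), false) 1 := by
    rw [ed_comm]
    have h := h1' (p1 - 1) p2
    rwa [sub_add_cancel] at h
  have h4 : ed (p1, p2) (p1, p2 - 1) = Finsupp.single ((p1, p2 - 1), true) 1 := by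
    rw [ed_comm]
    have h := h2' p1 (p2 - 1)
    rwa [sub_add_cancel] at h
  fin_cases i
  · have h5 : ed (p1, p2) (p1 + vx61 0, p2 + vy61 0) = Finsupp.single ((p1, p2), false) 1 := by
      rw [← h1]
      simp [vx61, vy61]
    show cE (ed (p1, p2) (p1 + vx61 0, p2 + vy61 0)) _ = _ ∧ cN (ed (p1, p2) (p1 + vx61 0, p2 + vy61 0)) _ = _ ∧
      cW (ed (p1, p2) (p1 + vx61 0, p2 + vy61 0)) _ = _ ∧ cS (ed (p1, p2) (p1 + vx61 0, p2 + vy61 0)) _ = _
    rw [h5]
    simp [cE, cN, cW, cS, kE61, kN61, kW61, kS61]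
  · have h5 : ed (p1, p2) (p1 + vx61 1, p2 + vy61 1) = Finsupp.single ((p1, p2), true) 1 := by
      rw [← h2]
      simp [vx61, vy61]
    show cE (ed (p1, p2) (p1 + vx61 1, p2 + vy61 1)) _ = _ ∧ cN (ed (p1, p2) (p1 + vx61 1, p2 + vy61 1)) _ = _ ∧
      cW (ed (p1, p2) (p1 + vx61 1, p2 + vy61 1)) _ = _ ∧ cS (ed (p1, p2) (p1 + vx61 1, p2 + vy61 1)) _ = _
    rw [h5]
    simp [cE, cN, cW, cS, kE61, kN61, kW61, kS61]
  · have h5 : ed (p1, p2) (p1 + vx61 2, p2 + vy61 2) = Finsupp.single ((p1 - 1, p2), false) 1 := by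
      rw [← h3]
      simp [vx61, vy61, sub_eq_add_neg]
    show cE (ed (p1, p2) (p1 + vx61 2, p2 + vy61 2)) _ = _ ∧ cN (ed (p1, p2) (p1 + vx61 2, p2 + vy61 2)) _ = _ ∧
      cW (ed (p1, p2) (p1 + vx61 2, p2 + vy61 2)) _ = _ ∧ cS (ed (p1, p2) (p1 + vx61 2, p2 + vy61 2)) _ = _
    rw [h5]
    simp [cE, cN, cW, cS, kE61, kN61, kW61, kS61]
  · have h5 : ed (p1, p2) (p1 + vx61 3, p2 + vy61 3) = Finsupp.single ((p1, p2 - 1), true) 1 := by
      rw [← h4]
      simp [vx61, vy61, sub_eq_add_neg]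
    show cE (ed (p1, p2) (p1 + vx61 3, p2 + vy61 3)) _ = _ ∧ cN (ed (p1, p2) (p1 + vx61 3, p2 + vy61 3)) _ = _ ∧
      cW (ed (p1, p2) (p1 + vx61 3, p2 + vy61 3)) _ = _ ∧ cS (ed (p1, p2) (p1 + vx61 3, p2 + vy61 3)) _ = _
    rw [h5]
    simp [cE, cN, cW, cS, kE61, kN61, kW61, kS61]

private def X61 (i j k l : Fin 4) : ZMod 2 := (kE61 i + kE61 j) * (kS61 k + kS61 l) + (kN61 i + kN61 j) * (kW61 k + kW61 l)

private theorem crossAt61 (p : P2) (i j k l : Fin 4) :
    crossAt (ed p (p.1 + vx61 i, p.2 + vy61 i) + ed p (p.1 + vx61 j, p.2 + vy61 j))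
      (ed p (p.1 + vx61 k, p.2 + vy61 k) + ed p (p.1 + vx61 l, p.2 + vy61 l)) p = X61 i j k l := by
  rw [crossAt, cE_add, cN_add, cS_add, cW_add, (coef61 p i).1, (coef61 p j).1, (coef61 p k).2.2.2, (coef61 p l).2.2.2,
    (coef61 p i).2.1, (coef61 p j).2.1, (coef61 p k).2.2.1, (coef61 p l).2.2.1, X61]

private theorem out61 (p : P2) (i : Fin 4) :
    lamd p (p.1 + vx61 i, p.2 + vy61 i) = if i = 1 ∨ i = 2 then 1 else 0 := by
  obtain ⟨p1, p2⟩ := p
  unfold lamd
  apply if_congr _ rfl rfl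
  fin_cases i <;> simp [vx61, vy61]
  omega

private theorem in61 (p : P2) (i : Fin 4) :
    lamd (p.1 + vx61 i, p.2 + vy61 i) p = if i = 3 ∨ i = 0 then 1 else 0 := by
  obtain ⟨p1, p2⟩ := p
  unfold lamd
  apply if_congr _ rfl rfl
  fin_cases i <;> simp [vx61, vy61]
  omega

private def T61 (i j : Fin 4) : ℤ := vy61 i * vx61 j - vx61 i * vy61 j

private theorem turn61 (p : P2) (i j : Fin 4) :
    turn (p.1 + vx61 i, p.2 + vy61 i) p (p.1 + vx61 j, p.2 + vy61 j) = T61 i j := by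
  unfold turn T61
  ring

private theorem ne61 {p : P2} {i j : Fin 4} (h : ((p.1 + vx61 i, p.2 + vy61 i) : P2) ≠ (p.1 + vx61 j, p.2 + vy61 j)) :
    i ≠ j := by
  rintro rfl
  exact h rfl

private theorem ne61' {p : P2} {i j : Fin 4} (h : i ≠ j) :
    ((p.1 + vx61 i, p.2 + vy61 i) : P2) ≠ (p.1 + vx61 j, p.2 + vy61 j) := by
  intro h1
  simp only [Prod.mk.injEq, add_right_inj] at h1
  apply h
  revert i j
  decide

theorem crossAt_mid {u p w : P2} (hu : LAdj u p) (hw : LAdj p w) (huw : u ≠ w) :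
    crossAt (ed u p + ed p w) (ed u p + ed p w) p = lamd u p + lamd p w := by
  obtain ⟨i, rfl⟩ := nb61 hu.symm
  obtain ⟨j, rfl⟩ := nb61 hw
  rw [ed_comm _ p, crossAt61, in61, out61]
  have h1 := ne61 huw
  clear hu hw huw
  revert i j
  decide

theorem crossAt_first {u u' p q : P2} (hu : LAdj u p) (hu' : LAdj u' p) (hq : LAdj p q) (h1 : u ≠ q) (h2 : u' ≠ q)
    (h3 : u ≠ u') : crossAt (ed u p + ed p q) (ed u' p + ed p q) p =
      1 + (if turn q p u' < turn q p u then 1 else 0) + lamd p q := by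
  obtain ⟨i, rfl⟩ := nb61 hu.symm
  obtain ⟨i', rfl⟩ := nb61 hu'.symm
  obtain ⟨j, rfl⟩ := nb61 hq
  rw [ed_comm _ p, ed_comm (p.1 + vx61 i', p.2 + vy61 i') p, crossAt61, out61, turn61, turn61]
  have h4 := ne61 h1
  have h5 := ne61 h2
  have h6 := ne61 h3
  clear hu hu' hq h1 h2 h3
  revert i i' j
  decide

theorem crossAt_last {w w' p q : P2} (hq : LAdj p q) (hw : LAdj q w) (hw' : LAdj q w') (h1 : w ≠ p) (h2 : w' ≠ p)
    (h3 : w ≠ w') : crossAt (ed p q + ed q w) (ed p q + ed q w') q =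
      (if turn p q w' < turn p q w then 1 else 0) + lamd p q := by
  obtain ⟨i, rfl⟩ := nb61 hq.symm
  obtain ⟨j, rfl⟩ := nb61 hw
  obtain ⟨j', rfl⟩ := nb61 hw'
  rw [ed_comm _ q, crossAt61, in61, turn61, turn61]
  have h4 := ne61 h1
  have h5 := ne61 h2
  have h6 := ne61 h3
  clear hq hw hw' h1 h2 h3
  revert i j j'
  decide

attribute [-instance] Classical.propDecidable in
private theorem key61 : ∀ i j i' j' : Fin 4, (T61 i j = 0 ∧ T61 i' j' = 0 ∧ i' ≠ i ∧ i' ≠ j ∧ i ≠ j ∧ i' ≠ j') →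
    (X61 i j i' j' = 1 ∧ j ≠ j' ∧ i ≠ j') := by
  decide

private theorem ess1_61 {u w u' w' p : P2} (hu : LAdj u p) (hw : LAdj p w) (hu' : LAdj u' p) (hw' : LAdj p w')
    (hE : EssAt u [p] w u' w') : crossAt (ed u p + ed p w) (ed u' p + ed p w') p = 1 ∧ w ≠ w' ∧ u ≠ w' := by
  simp only [EssAt] at hE
  obtain ⟨h1, h2, h3, h4, h5, h6⟩ := hE
  obtain ⟨i, rfl⟩ := nb61 hu.symm
  obtain ⟨j, rfl⟩ := nb61 hw
  obtain ⟨i', rfl⟩ := nb61 hu'.symm
  obtain ⟨j', rfl⟩ := nb61 hw'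
  rw [turn61] at h1 h2
  replace h3 := ne61 h3
  replace h4 := ne61 h4
  replace h5 := ne61 h5
  replace h6 := ne61 h6
  obtain ⟨k1, k2, k3⟩ := key61 i j i' j' ⟨h1, h2, h3, h4, h5, h6⟩
  refine ⟨?_, ne61' k2, ne61' k3⟩
  rw [ed_comm _ p, ed_comm (p.1 + vx61 i', p.2 + vy61 i') p, crossAt61]
  exact k1

theorem crossAt_one {u w u' w' p : P2} (hu : LAdj u p) (hw : LAdj p w) (hu' : LAdj u' p) (hw' : LAdj p w')
    (hE : EssAt u [p] w u' w') : crossAt (ed u p + ed p w) (ed u' p + ed p w') p = 1 :=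
  (ess1_61 hu hw hu' hw' hE).1

private theorem list2_61 (f : ℕ → P2) (m : ℕ) : (List.range (m + 2)).map (fun i => f (i + 1)) =
    f 1 :: f 2 :: (List.range m).map (fun i => f (i + 3)) := by
  rw [List.range_succ_eq_map, List.map_cons, List.map_map, List.range_succ_eq_map, List.map_cons, List.map_map]
  rfl

private theorem list3_61 (f : ℕ → P2) (m : ℕ) : (List.range (m + 2)).map (fun i => f (i + 1)) =
    (List.range m).map (fun i => f (i + 1)) ++ [f (m + 1), f (m + 2)] := by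
  rw [List.range_succ, List.range_succ, List.map_append, List.map_append, List.append_assoc]
  rfl

private theorem ess2_61 {m : ℕ} {f : ℕ → P2} {u w u' w' : P2}
    (hE : EssAt u ((List.range (m + 2)).map (fun i => f (i + 1))) w u' w') : u ≠ u' ∧ w ≠ w' ∧
      ((turn (f 2) (f 1) u' < turn (f 2) (f 1) u ∧ turn (f (m + 1)) (f (m + 2)) w' < turn (f (m + 1)) (f (m + 2)) w) ∨
       (turn (f 2) (f 1) u < turn (f 2) (f 1) u' ∧ turn (f (m + 1)) (f (m + 2)) w < turn (f (m + 1)) (f (m + 2)) w')) := by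
  have h0 := list3_61 f m
  rw [list2_61] at hE h0
  obtain ⟨h1, h2, q1, q2, l', h3, h4⟩ := hE
  refine ⟨h1, h2, ?_⟩
  rw [h0] at h3
  obtain ⟨_, h5⟩ := List.append_inj' h3 rfl
  simp only [List.cons.injEq, and_true] at h5
  rw [h5.1, h5.2]
  exact h4

theorem ess_ne {l : ℕ} {f f' : ℕ → P2} (hf : ∀ i, i ≤ l → LAdj (f i) (f (i + 1)))
    (hf' : ∀ i, i ≤ l → LAdj (f' i) (f' (i + 1))) (he : ∀ i, i < l → f (i + 1) = f' (i + 1))
    (hE : EssAt (f 0) ((List.range l).map (fun i => f (i + 1))) (f (l + 1)) (f' 0) (f' (l + 1))) :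
    0 < l ∧ f 0 ≠ f' 0 ∧ f (l + 1) ≠ f' (l + 1) ∧ (l = 1 → f 0 ≠ f' 2 ∧ f 2 ≠ f' 0) := by
  match l with
  | 0 => exact hE.elim
  | 1 =>
    have h1 : f 1 = f' 1 := he 0 (by omega)
    have h2 : (List.range 1).map (fun i => f (i + 1)) = [f 1] := rfl
    rw [h2] at hE
    obtain ⟨_, h3, h4⟩ := ess1_61 (hf 0 (by omega)) (hf 1 le_rfl) (by rw [h1]; exact hf' 0 (by omega))
      (by rw [h1]; exact hf' 1 le_rfl) hE
    simp only [EssAt] at hE
    exact ⟨one_pos, hE.2.2.1.symm, h3, fun _ => ⟨h4, hE.2.2.2.1.symm⟩⟩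
  | m + 2 =>
    obtain ⟨h1, h2, _⟩ := ess2_61 hE
    exact ⟨by omega, h1, h2, fun h => by omega⟩

private theorem tele61 (g : ℕ → ZMod 2) (m : ℕ) :
    ∑ i ∈ Finset.range m, (g (i + 1) + g (i + 2)) = g 1 + g (m + 1) := by
  induction m with
  | zero => rw [Finset.sum_range_zero, zero_add, CharTwo.add_self_eq_zero]
  | succ m ih =>
    rw [Finset.sum_range_succ, ih, add_assoc, ← add_assoc (g (m + 1)) (g (m + 1)), CharTwo.add_self_eq_zero, zero_add]

theorem ess_sum {l : ℕ} {f f' : ℕ → P2} (hf : ∀ i, i ≤ l → LAdj (f i) (f (i + 1)))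
    (hf' : ∀ i, i ≤ l → LAdj (f' i) (f' (i + 1))) (hb : ∀ i, i < l → f i ≠ f (i + 2))
    (hb' : ∀ i, i < l → f' i ≠ f' (i + 2)) (he : ∀ i, i < l → f (i + 1) = f' (i + 1))
    (hE : EssAt (f 0) ((List.range l).map (fun i => f (i + 1))) (f (l + 1)) (f' 0) (f' (l + 1))) :
    ∑ i ∈ Finset.range l, crossAt (ed (f i) (f (i + 1)) + ed (f (i + 1)) (f (i + 2)))
      (ed (f' i) (f' (i + 1)) + ed (f' (i + 1)) (f' (i + 2))) (f (i + 1)) = 1 := by
  match l with
  | 0 => exact hE.elim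
  | 1 =>
    have h1 : f 1 = f' 1 := he 0 (by omega)
    have h2 : (List.range 1).map (fun i => f (i + 1)) = [f 1] := rfl
    rw [h2] at hE
    have h3 := crossAt_one (hf 0 (by omega)) (hf 1 le_rfl) (by rw [h1]; exact hf' 0 (by omega))
      (by rw [h1]; exact hf' 1 le_rfl) hE
    rw [Finset.sum_range_one]
    simp only [zero_add] at h3 ⊢
    rw [← h1]
    exact h3
  | m + 2 =>
    obtain ⟨h1, h2, h3⟩ := ess2_61 hE
    rw [Finset.sum_range_succ, Finset.sum_range_succ']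
    have e1 : f 1 = f' 1 := he 0 (by omega)
    have e2 : f 2 = f' 2 := he 1 (by omega)
    have e3 : f (m + 1) = f' (m + 1) := he m (by omega)
    have e4 : f (m + 2) = f' (m + 2) := he (m + 1) (by omega)
    have t0 : crossAt (ed (f 0) (f (0 + 1)) + ed (f (0 + 1)) (f (0 + 2)))
        (ed (f' 0) (f' (0 + 1)) + ed (f' (0 + 1)) (f' (0 + 2))) (f (0 + 1)) =
        1 + (if turn (f 2) (f 1) (f' 0) < turn (f 2) (f 1) (f 0) then 1 else 0) + lamd (f 1) (f 2) := by
      simp only [zero_add]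
      rw [← e1, ← e2]
      refine crossAt_first (hf 0 (by omega)) ?_ (hf 1 (by omega)) (hb 0 (by omega)) ?_ h1
      · rw [e1]
        exact hf' 0 (by omega)
      · rw [e2]
        exact hb' 0 (by omega)
    have t1 : crossAt (ed (f (m + 1)) (f (m + 1 + 1)) + ed (f (m + 1 + 1)) (f (m + 1 + 2)))
        (ed (f' (m + 1)) (f' (m + 1 + 1)) + ed (f' (m + 1 + 1)) (f' (m + 1 + 2))) (f (m + 1 + 1)) =
        (if turn (f (m + 1)) (f (m + 2)) (f' (m + 3)) < turn (f (m + 1)) (f (m + 2)) (f (m + 3)) then 1 else 0) +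
          lamd (f (m + 1)) (f (m + 2)) := by
      show crossAt (ed (f (m + 1)) (f (m + 2)) + ed (f (m + 2)) (f (m + 3)))
        (ed (f' (m + 1)) (f' (m + 2)) + ed (f' (m + 2)) (f' (m + 3))) (f (m + 2)) = _
      rw [← e3, ← e4]
      refine crossAt_last (hf (m + 1) (by omega)) (hf (m + 2) (by omega)) ?_ (hb (m + 1) (by omega)).symm ?_ h2
      · rw [e4]
        exact hf' (m + 2) (by omega)
      · rw [e3]
        exact (hb' (m + 1) (by omega)).symm
    have t2 : ∑ k ∈ Finset.range m, crossAt (ed (f (k + 1)) (f (k + 1 + 1)) + ed (f (k + 1 + 1)) (f (k + 1 + 2)))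
        (ed (f' (k + 1)) (f' (k + 1 + 1)) + ed (f' (k + 1 + 1)) (f' (k + 1 + 2))) (f (k + 1 + 1)) =
        ∑ k ∈ Finset.range m, (lamd (f (k + 1)) (f (k + 2)) + lamd (f (k + 2)) (f (k + 3))) := by
      apply Finset.sum_congr rfl
      intro k hk
      rw [Finset.mem_range] at hk
      show crossAt (ed (f (k + 1)) (f (k + 2)) + ed (f (k + 2)) (f (k + 3)))
        (ed (f' (k + 1)) (f' (k + 2)) + ed (f' (k + 2)) (f' (k + 3))) (f (k + 2)) = _
      rw [← he k (by omega), ← he (k + 1) (by omega), ← he (k + 2) (by omega)]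
      exact crossAt_mid (hf (k + 1) (by omega)) (hf (k + 2) (by omega)) (hb (k + 1) (by omega))
    rw [t0, t1, t2, tele61 (fun i => lamd (f i) (f (i + 1)))]
    show lamd (f 1) (f 2) + lamd (f (m + 1)) (f (m + 2)) + _ + _ = (1 : ZMod 2)
    have c : ∀ a b x y : ZMod 2, x = y → a + b + (1 + x + a) + (y + b) = 1 := by decide
    apply c
    rcases h3 with ⟨h4, h5⟩ | ⟨h4, h5⟩
    · rw [if_pos h4, if_pos h5]
    · rw [if_neg h4.le.not_gt, if_neg h5.le.not_gt]

end

end Pool.Agent.Helper46.RM
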