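import Pool.Agent.Helper46.RM.Ess
import Pool.Agent.Helper46.RM.Lev4

/-!
# Block RM-E3: from lists to functions.

`runs_rev`: reverse the decomposition `R.reverse = s ++ (u :: (ϖ ++ [w])) ++ t`. `runs_sub`: transitivity of `<:+:`. `ess_sub`: from `runs_sub` (also for the
reversed lists, `List.reverse_infix`).
`runs_rlist`: the list `y :: rlist x` has length `rlen x + 2`, its element number `0` is `y`, number `k + 1` is `rt x k` (`k ≤ rlen x`). If
`s ++ (u :: (ϖ ++ [w])) ++ t` is this list, `o = s.length`.
-/

namespace Pool.Agent.Helper46.RM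

open scoped Classical

variable {ι : Type*} {L : LSys ι}

theorem runs_rev {R : List P2} {u w : P2} {ϖ : List P2} (h : Runs R.reverse u ϖ w) : Runs R w ϖ.reverse u := by
  have h1 := List.reverse_infix.2 h
  rw [List.reverse_reverse] at h1
  have h2 : (u :: (ϖ ++ [w])).reverse = w :: (ϖ.reverse ++ [u]) := by simp
  rw [h2] at h1
  exact h1

theorem ess_sub {R1 R2 R1' R2' : List P2} (h1 : R1 <:+: R1') (h2 : R2 <:+: R2') (h : Ess R1 R2) : Ess R1' R2' := by
  obtain ⟨u, ϖ, w, u', w', h3, h4, h5⟩ := h
  refine ⟨u, ϖ, w, u', w', h3, List.IsInfix.trans h4 h1, ?_⟩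
  rcases h5 with h5 | h5
  · exact Or.inl (List.IsInfix.trans h5 h2)
  · exact Or.inr (List.IsInfix.trans h5 (List.reverse_infix.2 h2))

theorem LSys.runs_rlist {x y u w : P2} {ϖ : List P2} (h : Runs (y :: L.rlist x) u ϖ w) : ∃ o,
    o + ϖ.length ≤ L.rlen x ∧ ϖ = (List.range ϖ.length).map (fun i => L.rt x (o + i)) ∧
      w = L.rt x (o + ϖ.length) ∧ (o = 0 → u = y) ∧ ∀ o', o = o' + 1 → u = L.rt x o' := by
  obtain ⟨s, t, hst⟩ := h
  have hlen := congrArg List.length hst
  have hl : (L.rlist x).length = L.rlen x + 1 := by simp [LSys.rlist]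
  have hle : s.length + ϖ.length ≤ L.rlen x := by
    simp only [List.length_append, List.length_cons, List.length_nil, hl] at hlen
    omega
  have hr : ∀ n, n ≤ L.rlen x → (y :: L.rlist x)[n + 1]? = some (L.rt x n) := by
    intro n hn
    rw [List.getElem?_cons_succ]
    simp only [LSys.rlist, List.getElem?_map]
    rw [List.getElem?_range (by omega)]
    rfl
  have hs : ∀ n, (s ++ (u :: (ϖ ++ [w])) ++ t)[s.length + n]? = ((u :: (ϖ ++ [w])) ++ t)[n]? := by
    intro n
    rw [List.append_assoc, List.getElem?_append_right (by omega)]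
    congr 1
    omega
  refine ⟨s.length, hle, ?_, ?_, ?_, ?_⟩
  · apply List.ext_getElem?
    intro i
    by_cases hi : i < ϖ.length
    · have h1 := hs (i + 1)
      rw [hst, show s.length + (i + 1) = (s.length + i) + 1 by omega, hr _ (by omega), List.cons_append,
        List.getElem?_cons_succ, List.append_assoc, List.getElem?_append_left hi] at h1
      rw [← h1, List.getElem?_map, List.getElem?_range hi]
      rfl
    · rw [List.getElem?_eq_none (by omega), List.getElem?_eq_none (by simpa using hi)]
  · have h1 := hs (ϖ.length + 1)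
    rw [hst, show s.length + (ϖ.length + 1) = (s.length + ϖ.length) + 1 by omega, hr _ hle, List.cons_append,
      List.getElem?_cons_succ, List.append_assoc, List.getElem?_append_right (le_refl _), Nat.sub_self] at h1
    simpa using h1.symm
  · intro h0
    have h1 := hs 0
    rw [hst, Nat.add_zero, h0] at h1
    simpa using h1.symm
  · intro o' h0
    have h1 := hs 0
    rw [hst, Nat.add_zero, h0, hr _ (by omega)] at h1
    simpa using h1.symm

end Pool.Agent.Helper46.RM
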