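import Pool.Agent.Helper46.RM.Top

/-!
# Project RM: routes in the lattice and essential crossings. Definitions, part 4.

`turn p q r` for consecutive points of a lattice walk: `1` for a left turn at `q`, `0` straight, `-1` right turn.
`EssAt u ϖ w u' w'`: the walks `u, ϖ, w` and `u', ϖ, w'` (with the common piece `ϖ`, a nonempty list) separate at both ends and cross:
if `ϖ = [p]`, both go straight through `p` in different directions; if `ϖ` has at least two points, `u ≠ u'`, `w ≠ w'` and the first walk is on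
the left of the second at the end (looking forward) and on the left at the beginning (looking backward), or on the right both times.
`Ess R R'`: the walks `R`, `R'` (lists) have pieces of this form, `R'` possibly run through in the opposite direction.

`Routing G rk`: rectangles and for every edge `a b` with `rk a < rk b` a walk `rt a b` outside the rectangles from (a neighbour of a point `y0 a b` of) the
rectangle of `a` to (a neighbour of a point `y1 a b` of) the rectangle of `b`; `ext a b` is the walk including these two points.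
-/

namespace Pool.Agent.Helper46.RM

open scoped Classical

noncomputable section

/-- `1` left, `0` straight, `-1` right -/
def turn (p q r : P2) : ℤ := (q.1 - p.1) * (r.2 - q.2) - (q.2 - p.2) * (r.1 - q.1)

/-- essential crossing along the common piece `ϖ` -/
def EssAt (u : P2) (ϖ : List P2) (w u' w' : P2) : Prop :=
  match ϖ with
  | [] => False
  | [p] => turn u p w = 0 ∧ turn u' p w' = 0 ∧ u' ≠ u ∧ u' ≠ w ∧ u ≠ w ∧ u' ≠ w'
  | p1 :: p2 :: l => u ≠ u' ∧ w ≠ w' ∧
      ∃ q1 q2 l', p1 :: p2 :: l = l' ++ [q1, q2] ∧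
        ((turn p2 p1 u' < turn p2 p1 u ∧ turn q1 q2 w' < turn q1 q2 w) ∨
          (turn p2 p1 u < turn p2 p1 u' ∧ turn q1 q2 w < turn q1 q2 w'))

/-- the walk `R` runs `u`, then `ϖ`, then `w` -/
def Runs (R : List P2) (u : P2) (ϖ : List P2) (w : P2) : Prop := (u :: (ϖ ++ [w])) <:+: R

def Ess (R R' : List P2) : Prop :=
  ∃ u ϖ w u' w', EssAt u ϖ w u' w' ∧ Runs R u ϖ w ∧ (Runs R' u' ϖ w' ∨ Runs R'.reverse u' ϖ w')

variable {V : Type*}

structure Routing (G : SimpleGraph V) (rk : V → ℕ) where
  lo : V → P2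
  hi : V → P2
  le1 : ∀ v, (lo v).1 ≤ (hi v).1
  le2 : ∀ v, (lo v).2 ≤ (hi v).2
  disj : ∀ u v, u ≠ v → ∀ p, p ∈ rect (lo u) (hi u) → p ∉ rect (lo v) (hi v)
  rt : V → V → List P2
  y0 : V → V → P2
  y1 : V → V → P2
  ne : ∀ a b, G.Adj a b → rk a < rk b → rt a b ≠ []
  y0_mem : ∀ a b, G.Adj a b → rk a < rk b → y0 a b ∈ rect (lo a) (hi a)
  y1_mem : ∀ a b, G.Adj a b → rk a < rk b → y1 a b ∈ rect (lo b) (hi b)
  nodup : ∀ a b, G.Adj a b → rk a < rk b → (rt a b).Nodup
  chain : ∀ a b, G.Adj a b → rk a < rk b → List.IsChain LAdj (y0 a b :: (rt a b ++ [y1 a b]))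
  out : ∀ a b, G.Adj a b → rk a < rk b → ∀ p ∈ rt a b, ∀ c, p ∉ rect (lo c) (hi c)

variable {G : SimpleGraph V} {rk : V → ℕ}

def Routing.ext (R : Routing G rk) (a b : V) : List P2 := R.y0 a b :: (R.rt a b ++ [R.y1 a b])

end

end Pool.Agent.Helper46.RM
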