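import Pool.Agent.Helper46.RM.Star

/-!
# Block RM-EX: of the three pairings of four leaves of a plane tree only one crosses.

Leaves `(y i, q i)` at the component of `z`; `λ i = lam F z (y i) (q i)`; `y i` in the component, `q i` outside, the `q i` distinct.

`exact4`: assume `cross (λ 0 + λ 1) (λ 2 + λ 3) = 1`. We show that `cross (λ 0 + λ 2) (λ 1 + λ 3) = 0`.
By `cross_eq_zero` there is a point `x` touched by `λ 0 + λ 1` and by `λ 2 + λ 3`; it lies in the component (the `q`'s are distinct and outside).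
We may replace the base `z` by `x`: `lam F z y q = tr F z x + lam F x y q`, and the sums `λ i + λ j` do not change. For each `i` take the path
(in the forest) from `x` to `y i` followed by `q i`: a list `x = p_0, p_1, .., q i` without repetitions with `lam F x (y i) (q i) = ch` of it; let `e i`
be its second point (`e i = q i` if `y i = x`), one of the four lattice neighbours of `x`. Facts:
(a) `e 0 ≠ e 1`, else the coefficient of `λ 0 + λ 1` at every edge at `x` is zero (each `ch` has at `x` only the edge to `e i`); same `e 2 ≠ e 3`.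
(b) if `e i ≠ e j`, the two lists have only `x` in common: a common point `u ≠ x` (in the component; `q i ≠ q j`) would be joined to `x` by
two different paths of the forest (`SimpleGraph.IsAcyclic.path_unique`), with second points `e i` and `e j`.
(c) if `e i = e j` then `x` is not touched by `λ i + λ j`, and every point touched by it is on one of the two lists.
Case 1: `e 0 = e 2`. The points touched by `λ 0 + λ 2` are `≠ x` and on the lists `0` or `2`; those touched by `λ 1 + λ 3` are on the lists
`1, 3`. `e 1 ≠ e 0 = e 2` and `e 3 ≠ e 2 = e 0`: by (b) there is no common point, `cross = 0`. Case 2: `e 1 = e 3`: same with the roles exchanged.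
Case 3: `e 0 = e 3` or `e 1 = e 2`: in the same way `cross (λ 0 + λ 3) (λ 1 + λ 2) = 0`; `four` (with the base `x`, `b = x`) says that the sum of the
three crossing numbers is `1`, so `cross (λ 0 + λ 2) (λ 1 + λ 3) = 1 - 1 - 0 = 0`.
Case 4: all `e i` are different: they are the four neighbours of `x`. The chains meet only at `x`, so `cross = crossAt _ _ x` (`cross_eq_sum`), which
is determined by the `e i`: `crossAt = 1` iff `{e 0, e 1}` is `{east, west}` or `{north, south}` (check the six possibilities for the pair).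
As this holds for the pair `{0, 1}`, it does not hold for the pair `{0, 2}`.

-/

namespace Pool.Agent.Helper46.RM

open scoped Classical

variable {F : SimpleGraph P2}

/-- points on the leg from `x` through the neighbour `e` to the leaf `q`, without `x` -/
private def T88 (F : SimpleGraph P2) (x e q : P2) : Set P2 :=
  {u | u = q ∨ (F.Adj x e ∧ ∃ w : F.Walk e u, x ∉ w.support)}

private theorem leg88 (hF : Forest F) {x y q : P2} (hy : F.Reachable x y) (ha : LAdj y q) :
    ∃ e ρ, LAdj x e ∧ lam F x y q = ed x e + ρ ∧ (∀ p, Touch ρ p → p ∈ T88 F x e q) ∧ e ∈ T88 F x e q := by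
  obtain ⟨w0⟩ := hy
  have hp := w0.bypass_isPath
  generalize w0.bypass = w at hp
  cases w with
  | nil =>
    refine ⟨q, 0, ha, ?_, ?_, Or.inl rfl⟩
    · unfold lam
      rw [tr_self hF, zero_add, add_zero]
    · intro p hp
      exact absurd hp (not_touch_zero p)
  | @cons _ v _ h w' =>
    rw [SimpleGraph.Walk.cons_isPath_iff] at hp
    refine ⟨v, ch w'.support + ed y q, hF.le _ _ h, ?_, ?_, Or.inr ⟨h, SimpleGraph.Walk.nil, ?_⟩⟩
    · unfold lam
      rw [← tr_eq hF (SimpleGraph.Walk.cons h w'), SimpleGraph.Walk.support_cons]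
      have : ch (x :: w'.support) = ed x v + ch w'.support := by
        cases w' with
        | nil => rfl
        | cons h' w'' => rfl
      rw [this, add_assoc]
    · intro p hp'
      rcases touch_add hp' with h1 | h1
      · have h2 := touch_ch h1
        refine Or.inr ⟨h, w'.takeUntil p h2, fun h3 => hp.2 ?_⟩
        exact SimpleGraph.Walk.support_takeUntil_subset_support w' h2 h3
      · rcases touch_ed h1 with h2 | h2
        · subst h2
          exact Or.inr ⟨h, w', hp.2⟩
        · exact Or.inl h2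
    · rw [SimpleGraph.Walk.support_nil, List.mem_singleton]
      exact h.ne

private theorem xT88 {x e q : P2} (hq : ¬ F.Reachable x q) : x ∉ T88 F x e q := by
  rintro (h | ⟨h, w, h1⟩)
  · exact hq (h ▸ SimpleGraph.Reachable.refl _)
  · exact h1 w.end_mem_support

private theorem dis88 (hF : Forest F) {x e e' q q' : P2} (hne : e ≠ e') (hqq : q ≠ q') (hq : ¬ F.Reachable x q)
    (hq' : ¬ F.Reachable x q') {u : P2} (h1 : u ∈ T88 F x e q) (h2 : u ∈ T88 F x e' q') : False := by
  rcases h1 with h1 | ⟨a1, w1, b1⟩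
  · rcases h2 with h2 | ⟨a2, w2, b2⟩
    · exact hqq (h1.symm.trans h2)
    · apply hq
      rw [← h1]
      exact a2.reachable.trans ⟨w2⟩
  · rcases h2 with h2 | ⟨a2, w2, b2⟩
    · apply hq'
      rw [← h2]
      exact a1.reachable.trans ⟨w1⟩
    · have hp1 : (SimpleGraph.Walk.cons a1.symm (SimpleGraph.Walk.cons a2 SimpleGraph.Walk.nil) :
          F.Walk e e').IsPath := by
        rw [SimpleGraph.Walk.cons_isPath_iff, SimpleGraph.Walk.cons_isPath_iff]
        refine ⟨⟨SimpleGraph.Walk.IsPath.nil, ?_⟩, ?_⟩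
        · rw [SimpleGraph.Walk.support_nil, List.mem_singleton]
          exact a2.ne
        · rw [SimpleGraph.Walk.support_cons, SimpleGraph.Walk.support_nil, List.mem_cons, List.mem_singleton]
          rintro (h | h)
          · exact a1.ne h.symm
          · exact hne h
      have hp2 := (w1.append w2.reverse).bypass_isPath
      have h3 : (SimpleGraph.Walk.cons a1.symm (SimpleGraph.Walk.cons a2 SimpleGraph.Walk.nil) : F.Walk e e') =
          (w1.append w2.reverse).bypass :=
        congrArg Subtype.val ((hF.ac.subsingleton_path e e').elim ⟨_, hp1⟩ ⟨_, hp2⟩)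
      have h4 : x ∈ (w1.append w2.reverse).bypass.support := by
        rw [← h3, SimpleGraph.Walk.support_cons, SimpleGraph.Walk.support_cons]
        simp
      have h5 := SimpleGraph.Walk.support_bypass_subset_support (w1.append w2.reverse) h4
      rw [SimpleGraph.Walk.mem_support_append_iff, SimpleGraph.Walk.support_reverse, List.mem_reverse] at h5
      rcases h5 with h5 | h5
      · exact b1 h5
      · exact b2 h5

private theorem re88 (hF : Forest F) {z x y y' q q' : P2} (hx : F.Reachable z x) (hy : F.Reachable z y)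
    (hy' : F.Reachable z y') : lam F z y q + lam F z y' q' = lam F x y q + lam F x y' q' := by
  unfold lam
  rw [← tr_add hF hx (hx.symm.trans hy), ← tr_add hF hx (hx.symm.trans hy')]
  have h := add_self_ch (tr F z x)
  calc tr F z x + tr F x y + ed y q + (tr F z x + tr F x y' + ed y' q')
      = (tr F z x + tr F z x) + (tr F x y + ed y q + (tr F x y' + ed y' q')) := by abel
    _ = _ := by rw [h, zero_add]

private theorem ntouch88 {a : Ch} {x : P2} (h : ¬ Touch a x) : cE a x = 0 ∧ cW a x = 0 ∧ cN a x = 0 ∧ cS a x = 0 := by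
  unfold Touch at h
  push Not at h
  exact h

private def nb88 (x : P2) : Fin 4 → P2 := ![(x.1 + 1, x.2), (x.1 - 1, x.2), (x.1, x.2 + 1), (x.1, x.2 - 1)]

private theorem adj88 {x e : P2} (h : LAdj x e) : ∃ d, e = nb88 x d := by
  obtain ⟨x1, x2⟩ := x
  obtain ⟨e1, e2⟩ := e
  rcases h with (h | h) | (h | h)
  · exact ⟨0, h⟩
  · refine ⟨1, ?_⟩
    simp only [Prod.mk.injEq] at h
    simp only [nb88, Matrix.cons_val, Prod.mk.injEq]
    omega
  · exact ⟨2, h⟩
  · refine ⟨3, ?_⟩
    simp only [Prod.mk.injEq] at h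
    simp only [nb88, Matrix.cons_val, Prod.mk.injEq]
    omega

private theorem co88 (x : P2) (d : Fin 4) : cE (ed x (nb88 x d)) x = (if d = 0 then 1 else 0) ∧
    cW (ed x (nb88 x d)) x = (if d = 1 then 1 else 0) ∧ cN (ed x (nb88 x d)) x = (if d = 2 then 1 else 0) ∧
    cS (ed x (nb88 x d)) x = (if d = 3 then 1 else 0) := by
  obtain ⟨x1, x2⟩ := x
  have n1 : ¬ (x1 - 1 = x1 + 1) := by omega
  have n2 : ¬ (x2 - 1 = x2 + 1) := by omega
  fin_cases d <;>
  · simp only [nb88, ed, cE, cW, cN, cS, Prod.mk.injEq]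
    simp [n1, n2]

private theorem dec88 : ∀ d0 d1 d2 d3 : Fin 4, d0 ≠ d1 → d0 ≠ d2 → d0 ≠ d3 → d1 ≠ d2 → d1 ≠ d3 → d2 ≠ d3 →
    (((if d0 = 0 then 1 else 0) + (if d1 = 0 then 1 else 0)) * ((if d2 = 3 then 1 else 0) + (if d3 = 3 then 1 else 0)) +
      ((if d0 = 2 then 1 else 0) + (if d1 = 2 then 1 else 0)) *
        ((if d2 = 1 then 1 else 0) + (if d3 = 1 then 1 else 0)) : ZMod 2) = 1 →
    (((if d0 = 0 then 1 else 0) + (if d2 = 0 then 1 else 0)) * ((if d1 = 3 then 1 else 0) + (if d3 = 3 then 1 else 0)) +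
      ((if d0 = 2 then 1 else 0) + (if d2 = 2 then 1 else 0)) *
        ((if d1 = 1 then 1 else 0) + (if d3 = 1 then 1 else 0)) : ZMod 2) = 0 := by
  decide

private theorem main88 (hF : Forest F) {x : P2} {y q : Fin 4 → P2} (hy : ∀ i, F.Reachable x (y i))
    (ha : ∀ i, LAdj (y i) (q i)) (hq : ∀ i, ¬ F.Reachable x (q i)) (hqi : Function.Injective q)
    (t1 : Touch (lam F x (y 0) (q 0) + lam F x (y 1) (q 1)) x)
    (t2 : Touch (lam F x (y 2) (q 2) + lam F x (y 3) (q 3)) x)
    (h : cross (lam F x (y 0) (q 0) + lam F x (y 1) (q 1)) (lam F x (y 2) (q 2) + lam F x (y 3) (q 3)) = 1) :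
    cross (lam F x (y 0) (q 0) + lam F x (y 2) (q 2)) (lam F x (y 1) (q 1) + lam F x (y 3) (q 3)) = 0 := by
  have hf := four (b := x) (q := q) (β := fun i => lam F x (y i) (q i)) (fun i p => bd_lam hF (hy i) (ha i) p)
    (fun i j hij ht => by
      rcases touch_lam hF (hy i) ht with h1 | h1
      · exact hq j h1
      · exact hij (hqi h1).symm)
    (fun i h1 => hq i (h1 ▸ SimpleGraph.Reachable.refl _))
  choose e ρ he hl hT heT using fun i => leg88 hF (hy i) (ha i)
  have hxT : ∀ i, x ∉ T88 F x (e i) (q i) := fun i => xT88 (hq i)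
  have hρ : ∀ i, ¬ Touch (ρ i) x := fun i h1 => hxT i (hT i x h1)
  have hdis : ∀ i j, e i ≠ e j → ∀ u, u ∈ T88 F x (e i) (q i) → u ∈ T88 F x (e j) (q j) → False := by
    intro i j hij u h1 h2
    have hne : i ≠ j := fun h3 => hij (by rw [h3])
    exact dis88 hF hij (fun h3 => hne (hqi h3)) (hq i) (hq j) h1 h2
  have hlt : ∀ i p, Touch (lam F x (y i) (q i)) p → p = x ∨ p ∈ T88 F x (e i) (q i) := by
    intro i p hp
    rw [hl i] at hp
    rcases touch_add hp with h1 | h1
    · rcases touch_ed h1 with h2 | h2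
      · exact Or.inl h2
      · exact Or.inr (h2 ▸ heT i)
    · exact Or.inr (hT i p h1)
  have hsame : ∀ i j, e i = e j → ∀ p, Touch (lam F x (y i) (q i) + lam F x (y j) (q j)) p →
      p ∈ T88 F x (e i) (q i) ∨ p ∈ T88 F x (e j) (q j) := by
    intro i j hij p hp
    have h1 : lam F x (y i) (q i) + lam F x (y j) (q j) = ρ i + ρ j := by
      rw [hl i, hl j, hij]
      have h2 := add_self_ch (ed x (e j))
      calc ed x (e j) + ρ i + (ed x (e j) + ρ j) = (ed x (e j) + ed x (e j)) + (ρ i + ρ j) := by abel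
        _ = _ := by rw [h2, zero_add]
    rw [h1] at hp
    rcases touch_add hp with h2 | h2
    · exact Or.inl (hT i p h2)
    · exact Or.inr (hT j p h2)
  have hpair : ∀ i j p, Touch (lam F x (y i) (q i) + lam F x (y j) (q j)) p →
      p = x ∨ p ∈ T88 F x (e i) (q i) ∨ p ∈ T88 F x (e j) (q j) := by
    intro i j p hp
    rcases touch_add hp with h1 | h1
    · rcases hlt i p h1 with h2 | h2
      · exact Or.inl h2
      · exact Or.inr (Or.inl h2)
    · rcases hlt j p h1 with h2 | h2
      · exact Or.inl h2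
      · exact Or.inr (Or.inr h2)
  have e01 : e 0 ≠ e 1 := by
    intro h1
    rcases hsame 0 1 h1 x t1 with h2 | h2
    · exact hxT 0 h2
    · exact hxT 1 h2
  have e23 : e 2 ≠ e 3 := by
    intro h1
    rcases hsame 2 3 h1 x t2 with h2 | h2
    · exact hxT 2 h2
    · exact hxT 3 h2
  -- if `e i = e k` and `e i, e k` differ from `e j, e l`, the crossing number is zero
  have hzero : ∀ i j k l, e i = e k → e i ≠ e j → e i ≠ e l →
      (∀ p, Touch (lam F x (y i) (q i) + lam F x (y k) (q k)) p →
        ¬ Touch (lam F x (y j) (q j) + lam F x (y l) (q l)) p) := by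
    intro i j k l hik hij hil p h1 h2
    have g1 : e k ≠ e j := hik ▸ hij
    have g2 : e k ≠ e l := hik ▸ hil
    rcases hsame i k hik p h1 with h3 | h3
    · rcases hpair j l p h2 with h4 | h4 | h4
      · exact hxT i (h4 ▸ h3)
      · exact hdis i j hij p h3 h4
      · exact hdis i l hil p h3 h4
    · rcases hpair j l p h2 with h4 | h4 | h4
      · exact hxT k (h4 ▸ h3)
      · exact hdis k j g1 p h3 h4
      · exact hdis k l g2 p h3 h4
  by_cases e02 : e 0 = e 2
  · exact cross_eq_zero (hzero 0 1 2 3 e02 e01 (e02 ▸ e23))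
  by_cases e13 : e 1 = e 3
  · exact cross_eq_zero (fun p h1 h2 => hzero 1 0 3 2 e13 e01.symm (fun h3 => e23 (h3.symm.trans e13)) p h2 h1)
  have hlast : cross (lam F x (y 0) (q 0) + lam F x (y 3) (q 3)) (lam F x (y 1) (q 1) + lam F x (y 2) (q 2)) = 0 →
      cross (lam F x (y 0) (q 0) + lam F x (y 2) (q 2)) (lam F x (y 1) (q 1) + lam F x (y 3) (q 3)) = 0 := by
    intro h1
    have h2 : cross (lam F x (y 0) (q 0) + lam F x (y 1) (q 1)) (lam F x (y 2) (q 2) + lam F x (y 3) (q 3)) +
      cross (lam F x (y 0) (q 0) + lam F x (y 2) (q 2)) (lam F x (y 1) (q 1) + lam F x (y 3) (q 3)) +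
      cross (lam F x (y 0) (q 0) + lam F x (y 3) (q 3)) (lam F x (y 1) (q 1) + lam F x (y 2) (q 2)) = 1 := hf
    rw [h, h1, add_zero] at h2
    exact add_eq_left.mp h2
  by_cases e03 : e 0 = e 3
  · exact hlast (cross_eq_zero (hzero 0 1 3 2 e03 e01 e02))
  by_cases e12 : e 1 = e 2
  · exact hlast (cross_eq_zero (fun p h1 h2 => hzero 1 0 2 3 e12 e01.symm e13 p h2 h1))
  -- all four directions are different
  have hdiff : ∀ i j k l, e i ≠ e k → e i ≠ e l → e j ≠ e k → e j ≠ e l →
      cross (lam F x (y i) (q i) + lam F x (y j) (q j)) (lam F x (y k) (q k) + lam F x (y l) (q l)) =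
      crossAt (ed x (e i) + ed x (e j)) (ed x (e k) + ed x (e l)) x := by
    intro i j k l g1 g2 g3 g4
    rw [cross_eq_sum {x}, Finset.sum_singleton]
    · obtain ⟨a1, a2, a3, a4⟩ := ntouch88 (hρ i)
      obtain ⟨b1, b2, b3, b4⟩ := ntouch88 (hρ j)
      obtain ⟨c1, c2, c3, c4⟩ := ntouch88 (hρ k)
      obtain ⟨d1, d2, d3, d4⟩ := ntouch88 (hρ l)
      rw [hl i, hl j, hl k, hl l]
      simp only [crossAt, cE_add, cN_add, cS_add, cW_add, a1, a3, b1, b3, c2, c4, d2, d4, add_zero]
    · intro p h1 h2
      rw [Finset.mem_singleton]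
      rcases hpair i j p h1 with h3 | h3 | h3
      · exact h3
      · rcases hpair k l p h2 with h4 | h4 | h4
        · exact h4
        · exact (hdis i k g1 p h3 h4).elim
        · exact (hdis i l g2 p h3 h4).elim
      · rcases hpair k l p h2 with h4 | h4 | h4
        · exact h4
        · exact (hdis j k g3 p h3 h4).elim
        · exact (hdis j l g4 p h3 h4).elim
  rw [hdiff 0 1 2 3 e02 e03 e12 e13] at h
  rw [hdiff 0 2 1 3 e01 e03 (fun h1 => e12 h1.symm) e23]
  choose d hd using fun i => adj88 (he i)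
  have hdd : ∀ i j, e i ≠ e j → d i ≠ d j := by
    intro i j hij h1
    apply hij
    rw [hd i, hd j, h1]
  rw [hd 0, hd 1, hd 2, hd 3] at h ⊢
  simp only [crossAt, cE_add, cN_add, cS_add, cW_add, (co88 x _).1, (co88 x _).2.1, (co88 x _).2.2.1,
    (co88 x _).2.2.2] at h ⊢
  exact dec88 (d 0) (d 1) (d 2) (d 3) (hdd 0 1 e01) (hdd 0 2 e02) (hdd 0 3 e03) (hdd 1 2 e12) (hdd 1 3 e13)
    (hdd 2 3 e23) h

theorem exact4 (hF : Forest F) {z : P2} {y q : Fin 4 → P2} (hy : ∀ i, F.Reachable z (y i)) (ha : ∀ i, LAdj (y i) (q i))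
    (hq : ∀ i, ¬ F.Reachable z (q i)) (hqi : Function.Injective q)
    (h : cross (lam F z (y 0) (q 0) + lam F z (y 1) (q 1)) (lam F z (y 2) (q 2) + lam F z (y 3) (q 3)) = 1) :
    cross (lam F z (y 0) (q 0) + lam F z (y 2) (q 2)) (lam F z (y 1) (q 1) + lam F z (y 3) (q 3)) = 0 := by
  have hex : ∃ x, Touch (lam F z (y 0) (q 0) + lam F z (y 1) (q 1)) x ∧
      Touch (lam F z (y 2) (q 2) + lam F z (y 3) (q 3)) x := by
    by_contra hc
    push Not at hc
    rw [cross_eq_zero hc] at h
    exact zero_ne_one h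
  obtain ⟨x, t1, t2⟩ := hex
  have hx : F.Reachable z x := by
    by_contra hn
    have g1 : x = q 0 ∨ x = q 1 := by
      rcases touch_add t1 with h1 | h1
      · rcases touch_lam hF (hy 0) h1 with h2 | h2
        · exact absurd h2 hn
        · exact Or.inl h2
      · rcases touch_lam hF (hy 1) h1 with h2 | h2
        · exact absurd h2 hn
        · exact Or.inr h2
    have g2 : x = q 2 ∨ x = q 3 := by
      rcases touch_add t2 with h1 | h1
      · rcases touch_lam hF (hy 2) h1 with h2 | h2
        · exact absurd h2 hn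
        · exact Or.inl h2
      · rcases touch_lam hF (hy 3) h1 with h2 | h2
        · exact absurd h2 hn
        · exact Or.inr h2
    rcases g1 with g1 | g1 <;> rcases g2 with g2 | g2 <;>
    · have := hqi (g1.symm.trans g2)
      revert this
      decide
  have r : ∀ i j, lam F z (y i) (q i) + lam F z (y j) (q j) = lam F x (y i) (q i) + lam F x (y j) (q j) :=
    fun i j => re88 hF hx (hy i) (hy j)
  rw [r 0 1, r 2 3] at h
  rw [r 0 1] at t1
  rw [r 2 3] at t2
  rw [r 0 2, r 1 3]
  exact main88 hF (fun i => hx.symm.trans (hy i)) ha (fun i h1 => hq i (hx.trans h1)) hqi t1 t2 h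

theorem lam_cross_symm (hF : Forest F) {z : P2} {y q : Fin 4 → P2} (hy : ∀ i, F.Reachable z (y i))
    (ha : ∀ i, LAdj (y i) (q i)) (hq : ∀ i, ¬ F.Reachable z (q i)) (hqi : Function.Injective q) :
    cross (lam F z (y 0) (q 0) + lam F z (y 1) (q 1)) (lam F z (y 2) (q 2) + lam F z (y 3) (q 3)) =
      cross (lam F z (y 2) (q 2) + lam F z (y 3) (q 3)) (lam F z (y 0) (q 0) + lam F z (y 1) (q 1)) := by
  have key : ∀ i j k l : Fin 4, i ≠ k → i ≠ l → j ≠ k → j ≠ l → ∀ p,
      bd (lam F z (y k) (q k) + lam F z (y l) (q l)) p ≠ 0 → ¬ Touch (lam F z (y i) (q i) + lam F z (y j) (q j)) p := by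
    intro i j k l ik il jk jl p hp ht
    have h1 : bd (lam F z (y k) (q k) + lam F z (y l) (q l)) p = dl (q k) p + dl (q l) p := by
      rw [bd_add, bd_lam hF (hy k) (ha k), bd_lam hF (hy l) (ha l)]
      have h2 : dl z p + dl z p = 0 := CharTwo.add_self_eq_zero _
      linear_combination h2
    have h3 : p = q k ∨ p = q l := by
      by_contra hc
      push Not at hc
      apply hp
      rw [h1, dl, dl, if_neg hc.1, if_neg hc.2, add_zero]
    have h4 : F.Reachable z p ∨ p = q i ∨ p = q j := by
      rcases touch_add ht with h5 | h5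
      · rcases touch_lam hF (hy i) h5 with h6 | h6
        · exact Or.inl h6
        · exact Or.inr (Or.inl h6)
      · rcases touch_lam hF (hy j) h5 with h6 | h6
        · exact Or.inl h6
        · exact Or.inr (Or.inr h6)
    rcases h3 with h3 | h3
    · rcases h4 with h4 | h4 | h4
      · exact hq k (h3 ▸ h4)
      · exact ik (hqi (h4.symm.trans h3))
      · exact jk (hqi (h4.symm.trans h3))
    · rcases h4 with h4 | h4 | h4
      · exact hq l (h3 ▸ h4)
      · exact il (hqi (h4.symm.trans h3))
      · exact jl (hqi (h4.symm.trans h3))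
  exact cross_symm (key 0 1 2 3 (by decide) (by decide) (by decide) (by decide))
    (key 2 3 0 1 (by decide) (by decide) (by decide) (by decide))

end Pool.Agent.Helper46.RM
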