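import Pool.Agent.Helper46.RM.ClX
import Pool.Agent.Helper46.RM.Ram

/-!
# Blocks RM-SE: choice of the popular components and of a good subfamily.

`pop_select`: call `m` possible if there are `I : Finset (Fin N)` with `nn m ≤ I.card` and `Z : Fin m → P2` with `Z t ∈ MK`, `¬ Reachable r (Z t)`, pairwise
not joined, visited by all `i ∈ I`. `m = 0` is possible (`I = univ`), `m = p + 1` is not (`claimX`). Take the largest possible `m ≤ p` (with `m + 1` not
possible), shrink `I` to exactly `nn m` elements, `φ = I.orderEmbOfFin`. `few`: if `x ∈ MK`, `x ∉ PopSet Z` is visited by `nn (m+1)` or more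
of the chosen walks, then these walks and `Fin.snoc Z x` show that `m + 1` is possible.
`good_select`: for every walk `l` and every pair `c, c' ∈ P l` for which there is a non-popular component with leaves of colours `c` and `c'` choose one,
`y l c c'`. It is visited by fewer than `D` walks. `bad l` = the walks `i ≠ l` visiting some `y l c c'`: at most `p * p * D` walks. By `indep` there is
`φ` with `φ j ∉ bad (φ i)` for `i ≠ j`. (`2 * (p * p * D) + 1`.)
-/

namespace Pool.Agent.Helper46.RM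

open scoped Classical

variable {ι : Type*} {p n : ℕ}

/-- `m` common components visited by `nn m` walks. -/
private def Poss67 {N : ℕ} (nn : ℕ → ℕ) (s : Sys ι p N) (m : ℕ) : Prop :=
  ∃ (I : Finset (Fin N)) (Z : Fin m → P2), nn m ≤ I.card ∧ (∀ t, Z t ∈ s.MK) ∧
    (∀ t, ¬ s.F.Reachable s.r (Z t)) ∧ (∀ t u, t ≠ u → ¬ s.F.Reachable (Z t) (Z u)) ∧
    ∀ i ∈ I, ∀ t, s.Vis i (Z t)

theorem pop_select (nn : ℕ → ℕ) (hX : 3 * (p + 1) ^ 2 + 1 ≤ nn (p + 1)) {N : ℕ} (hN : nn 0 ≤ N) (s : Sys ι p N)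
    (h : s.OK) : ∃ m ≤ p, ∃ (φ : Fin (nn m) → Fin N) (Z : Fin m → P2), StrictMono φ ∧
      (s.comap φ).PopOK Z (nn (m + 1)) := by
  have h0 : Poss67 nn s 0 := by
    refine ⟨Finset.univ, Fin.elim0, ?_, fun t => t.elim0, fun t => t.elim0, fun t => t.elim0,
      fun i _ t => t.elim0⟩
    rw [Finset.card_univ, Fintype.card_fin]
    exact hN
  have h1 : ¬ Poss67 nn s (p + 1) := by
    rintro ⟨I, Z, hI, hm, hr, hd, hv⟩
    exact h.claimX hm hr hd I (hX.trans hI) hv
  obtain ⟨m, hmp, hm, hm1⟩ : ∃ m ≤ p, Poss67 nn s m ∧ ¬ Poss67 nn s (m + 1) := by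
    by_contra hcon
    push Not at hcon
    have h2 : ∀ m ≤ p + 1, Poss67 nn s m := by
      intro m
      induction m with
      | zero => exact fun _ => h0
      | succ m ih => exact fun hm => hcon m (by omega) (ih (by omega))
    exact h1 (h2 (p + 1) le_rfl)
  obtain ⟨I, Z, hI, hZm, hZr, hZd, hZv⟩ := hm
  obtain ⟨I', hI', hI'c⟩ := Finset.exists_subset_card_eq hI
  have hmem : ∀ i, I'.orderEmbOfFin hI'c i ∈ I' := fun i => Finset.orderEmbOfFin_mem I' hI'c i
  refine ⟨m, hmp, I'.orderEmbOfFin hI'c, Z, (I'.orderEmbOfFin hI'c).strictMono, ?_⟩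
  refine ⟨hZm, hZr, hZd, fun i t => hZv _ (hI' (hmem i)) t, ?_⟩
  intro x hx hxZ
  by_contra hcon
  rw [not_lt] at hcon
  have hxr : ¬ s.F.Reachable s.r x := fun hr => hxZ ⟨hx, Or.inl hr⟩
  have hxt : ∀ t, ¬ s.F.Reachable (Z t) x := fun t ht => hxZ ⟨hx, Or.inr ⟨t, ht⟩⟩
  apply hm1
  refine ⟨(Finset.univ.filter fun i => (s.comap (I'.orderEmbOfFin hI'c)).Vis i x).map
    (I'.orderEmbOfFin hI'c).toEmbedding, Fin.snoc Z x, ?_, ?_, ?_, ?_, ?_⟩
  · rw [Finset.card_map]
    exact hcon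
  · intro t
    refine Fin.lastCases ?_ (fun t => ?_) t
    · rw [Fin.snoc_last]
      exact hx
    · rw [Fin.snoc_castSucc]
      exact hZm t
  · intro t
    refine Fin.lastCases ?_ (fun t => ?_) t
    · rw [Fin.snoc_last]
      exact hxr
    · rw [Fin.snoc_castSucc]
      exact hZr t
  · intro t
    refine Fin.lastCases ?_ (fun t => ?_) t
    · intro u
      refine Fin.lastCases ?_ (fun u => ?_) u
      · intro hne
        exact absurd rfl hne
      · intro _
        rw [Fin.snoc_last, Fin.snoc_castSucc]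
        exact fun hr => hxt u hr.symm
    · intro u
      refine Fin.lastCases ?_ (fun u => ?_) u
      · intro _
        rw [Fin.snoc_last, Fin.snoc_castSucc]
        exact hxt t
      · intro hne
        rw [Fin.snoc_castSucc, Fin.snoc_castSucc]
        exact hZd t u (fun he => hne (by rw [he]))
  · intro i hi t
    rw [Finset.mem_map] at hi
    obtain ⟨i', hi', rfl⟩ := hi
    refine Fin.lastCases ?_ (fun t => ?_) t
    · rw [Fin.snoc_last]
      exact (Finset.mem_filter.1 hi').2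
    · rw [Fin.snoc_castSucc]
      exact hZv _ (hI' (hmem i')) t

theorem good_select {h m D : ℕ} (hn : h * (2 * (p * p * D) + 1) ≤ n) (s : Sys ι p n) (hs : s.OK) (Z : Fin m → P2)
    (hZ : s.PopOK Z D) : ∃ φ : Fin h → Fin n, StrictMono φ ∧ (s.comap φ).Good Z := by
  obtain ⟨y, hy⟩ : ∃ y : Fin n → ι → ι → P2, ∀ l c c',
      (∃ z ∈ s.MK, z ∉ s.PopSet Z ∧ s.Leaf l z c ∧ s.Leaf l z c') →
        y l c c' ∈ s.MK ∧ y l c c' ∉ s.PopSet Z ∧ s.Leaf l (y l c c') c ∧ s.Leaf l (y l c c') c' := by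
    refine ⟨fun l c c' => if hE : ∃ z ∈ s.MK, z ∉ s.PopSet Z ∧ s.Leaf l z c ∧ s.Leaf l z c' then
      Classical.choose hE else 0, ?_⟩
    intro l c c' hE
    simp only [dif_pos hE]
    exact Classical.choose_spec hE
  obtain ⟨bad, hbad⟩ : ∃ bad : Fin n → Finset (Fin n), ∀ l, bad l =
      (s.P l ×ˢ s.P l).biUnion (fun cc =>
        if ∃ z ∈ s.MK, z ∉ s.PopSet Z ∧ s.Leaf l z cc.1 ∧ s.Leaf l z cc.2 then
          (Finset.univ.filter (fun i => s.Vis i (y l cc.1 cc.2))).erase l else ∅) := ⟨_, fun _ => rfl⟩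
  have hcard : ∀ l, (bad l).card ≤ p * p * D := by
    intro l
    rw [hbad]
    refine (Finset.card_biUnion_le_card_mul _ _ D ?_).trans ?_
    · intro cc _
      by_cases hE : ∃ z ∈ s.MK, z ∉ s.PopSet Z ∧ s.Leaf l z cc.1 ∧ s.Leaf l z cc.2
      · rw [if_pos hE]
        have h1 := hy l cc.1 cc.2 hE
        exact (Finset.card_erase_le).trans (hZ.few _ h1.1 h1.2.1).le
      · rw [if_neg hE, Finset.card_empty]
        exact Nat.zero_le _
    · rw [Finset.card_product, hs.P_card]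
  obtain ⟨φ, hφ, hφb⟩ := indep hn bad hcard
  refine ⟨φ, hφ, ?_⟩
  intro l c hc c' hc' hE
  have h1 := hy (φ l) c c' hE
  refine ⟨y (φ l) c c', h1.1, h1.2.1, h1.2.2.1, h1.2.2.2, ?_⟩
  intro i hil hv
  apply hφb l i hil.symm
  rw [hbad, Finset.mem_biUnion]
  refine ⟨(c, c'), Finset.mem_product.2 ⟨hc, hc'⟩, ?_⟩
  have hE' : ∃ z ∈ s.MK, z ∉ s.PopSet Z ∧ s.Leaf (φ l) z (c, c').1 ∧ s.Leaf (φ l) z (c, c').2 := hE
  rw [if_pos hE']
  refine Finset.mem_erase.2 ⟨fun he => hil (hφ.injective he), Finset.mem_filter.2 ⟨Finset.mem_univ _, hv⟩⟩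

end Pool.Agent.Helper46.RM
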