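import Pool.Agent.Helper46.RM.SclE
import Pool.Agent.Helper46.RM.Sel
import Pool.Agent.Helper46.RM.CaA5
import Pool.Agent.Helper46.RM.CaB5

/-!
# Block RM-SCL: the system crossing lemma.

`exists_nn`: `g 0 = A`, `g (k + 1) = H (p - k) (g k)`, `nn m = g (p + 1 - m)`.
`scl_xp`: let `H m D = h m D * (2 * (p * p * D) + 1)` where `h m D` is the number from `ram2` for the type `Option (Fin m)` and
`max (number of caseA p m D) (the maximum over t0 of the numbers of caseB p m t0)` (`Finset.univ.sup`), made at least `1`; `nn` from `exists_nn` with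
`A = 3 * (p + 1) ^ 2 + 1`; `N = nn 0`. `pop_select` gives `m ≤ p` and a subfamily of size `nn m` with `PopOK Z (nn (m + 1))`, `good_select` a
subfamily of size `h m (nn (m+1))` with `Good Z` (`comap_popOK`, `comap_ok`, `comap_xp`). For `i < j` there is `z` with `XP i j z`; if `z` is popular it is
joined in `F` to some `Z t` (not to `r`, `XP.nr`) and `XP i j (Z t)` by `xp_reach`: colour `some t`; otherwise colour `none`. The homogeneous subfamily
contradicts `caseB` or `caseA` (restricted further by `Fin.castLE`).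
`scl`: `ram2` with three colours (`Fin 3`) for the size `max (number of scl_xp) (p + 1 + (3 * (p + 1) ^ 2 + 1))`; then `scl_endsA`, `scl_endsB` or `scl_xp`.
-/

namespace Pool.Agent.Helper46.RM

open scoped Classical

theorem exists_nn (p A : ℕ) (H : ℕ → ℕ → ℕ) : ∃ nn : ℕ → ℕ, A ≤ nn (p + 1) ∧ ∀ m, m ≤ p → H m (nn (m + 1)) ≤ nn m := by
  let g : ℕ → ℕ := fun k => Nat.rec A (fun k x => H (p - k) x) k
  refine ⟨fun m => g (p + 1 - m), ?_, ?_⟩
  · show A ≤ g (p + 1 - (p + 1))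
    rw [Nat.sub_self]
    exact le_rfl
  · intro m hm
    show H m (g (p + 1 - (m + 1))) ≤ g (p + 1 - m)
    have e1 : p + 1 - (m + 1) = p - m := by omega
    have e2 : p + 1 - m = (p - m) + 1 := by omega
    rw [e1, e2]
    show H m (g (p - m)) ≤ H (p - (p - m)) (g (p - m))
    rw [Nat.sub_sub_self hm]

theorem scl_xp (p : ℕ) : ∃ N : ℕ, ∀ {ι : Type*} (s : Sys ι p N), s.OK → (∀ i j, i < j → ∃ z, s.XP i j z) → False := by
  choose NA hNA using fun (m D : ℕ) => caseA p m D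
  choose NB hNB using fun (x : (m : ℕ) × Fin m) => caseB p x.1 x.2
  choose NR hNR using fun (m D : ℕ) => ram2 (Option (Fin m))
    (max (NA m D) (Finset.univ.sup fun t : Fin m => NB ⟨m, t⟩))
  obtain ⟨nn, h1, h2⟩ := exists_nn p (3 * (p + 1) ^ 2 + 1)
    (fun m D => NR m D * (2 * (p * p * D) + 1))
  refine ⟨nn 0, fun {ι} s hs hx => ?_⟩
  obtain ⟨m, hm, φ, Z, hφ, hZ⟩ := pop_select nn h1 le_rfl s hs
  have hs1 := Sys.comap_ok hs hφ.injective
  obtain ⟨ψ, hψ, hg⟩ := good_select (h := NR m (nn (m + 1))) (D := nn (m + 1)) (h2 m hm)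
    (s.comap φ) hs1 Z hZ
  have hs2 := Sys.comap_ok hs1 hψ.injective
  have hZ2 := Sys.comap_popOK hZ hψ.injective
  have hx2 : ∀ i j, i < j → ∃ z, ((s.comap φ).comap ψ).XP i j z := by
    intro i j hij
    obtain ⟨z, hz⟩ := hx _ _ (hφ (hψ hij))
    exact ⟨z, Sys.comap_xp.2 (Sys.comap_xp.2 hz)⟩
  obtain ⟨s', hs'⟩ : ∃ s', s' = (s.comap φ).comap ψ := ⟨_, rfl⟩
  rw [← hs'] at hg hs2 hZ2 hx2
  obtain ⟨χ, hχ, k0, hk⟩ := hNR m (nn (m + 1)) (fun i j =>
    if hE : ∃ t, s'.XP i j (Z t) then some (Classical.choose hE) else none)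
  have hs3 := Sys.comap_ok hs2 hχ.injective
  have hZ3 := Sys.comap_popOK hZ2 hχ.injective
  have hg3 := Sys.comap_good hg hχ.injective
  cases k0 with
  | none =>
    have hle : NA m (nn (m + 1)) ≤ max (NA m (nn (m + 1)))
      (Finset.univ.sup fun t : Fin m => NB ⟨m, t⟩) := le_max_left _ _
    have hinj := Fin.castLE_injective hle
    refine hNA m (nn (m + 1)) ((s'.comap χ).comap (Fin.castLE hle)) Z (Sys.comap_ok hs3 hinj)
      (Sys.comap_popOK hZ3 hinj) (Sys.comap_good hg3 hinj) ?_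
    intro i j hij
    have hij' : Fin.castLE hle i < Fin.castLE hle j := hij
    have h3 := hk _ _ hij'
    have h4 : ¬ ∃ t, s'.XP (χ (Fin.castLE hle i)) (χ (Fin.castLE hle j)) (Z t) := by
      intro hE
      rw [dif_pos hE] at h3
      exact absurd h3 (Option.some_ne_none _)
    obtain ⟨z, hz⟩ := hx2 _ _ (hχ hij')
    refine ⟨z, ?_, Sys.comap_xp.2 (Sys.comap_xp.2 hz)⟩
    rintro ⟨-, h5 | ⟨t, h5⟩⟩
    · exact hz.nr h5
    · exact h4 ⟨t, Sys.xp_reach hs2 hz (SimpleGraph.Reachable.symm h5)⟩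
  | some t =>
    have hle : NB ⟨m, t⟩ ≤ max (NA m (nn (m + 1)))
      (Finset.univ.sup fun t : Fin m => NB ⟨m, t⟩) :=
      (Finset.le_sup (f := fun t : Fin m => NB ⟨m, t⟩) (Finset.mem_univ t)).trans (le_max_right _ _)
    have hinj := Fin.castLE_injective hle
    refine hNB ⟨m, t⟩ ((s'.comap χ).comap (Fin.castLE hle)) (nn (m + 1)) Z (Sys.comap_ok hs3 hinj)
      (Sys.comap_popOK hZ3 hinj) (Sys.comap_good hg3 hinj) ?_
    intro i j hij
    have hij' : Fin.castLE hle i < Fin.castLE hle j := hij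
    have h3 := hk _ _ hij'
    have h4 : s'.XP (χ (Fin.castLE hle i)) (χ (Fin.castLE hle j)) (Z t) := by
      by_cases hE : ∃ t, s'.XP (χ (Fin.castLE hle i)) (χ (Fin.castLE hle j)) (Z t)
      · rw [dif_pos hE] at h3
        have h5 := Classical.choose_spec hE
        rwa [Option.some.inj h3] at h5
      · rw [dif_neg hE] at h3
        exact absurd h3.symm (Option.some_ne_none _)
    exact Sys.comap_xp.2 (Sys.comap_xp.2 h4)

theorem scl (p : ℕ) : ∃ N : ℕ, ∀ {ι : Type*} (s : Sys ι p N), s.OK →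
    (∀ i, s.Q i (s.len i) ∈ s.MK → ¬ s.F.Reachable s.r (s.Q i (s.len i))) →
    (∀ i j, i ≠ j → s.Q i (s.len i) ∈ s.MK → ¬ s.F.Reachable (s.Q i (s.len i)) (s.Q j (s.len j))) →
    (∀ i j, i < j → (s.Q i (s.len i) ∈ s.MK ∧ s.Vis j (s.Q i (s.len i))) ∨
      (s.Q j (s.len j) ∈ s.MK ∧ s.Vis i (s.Q j (s.len j))) ∨ ∃ z, s.XP i j z) → False := by
  obtain ⟨N1, hN1⟩ := scl_xp p
  obtain ⟨N, hN⟩ := ram2 (Fin 3) (max N1 (p + 1 + (3 * (p + 1) ^ 2 + 1)))
  refine ⟨N, fun {ι} s hs e1 e2 hv => ?_⟩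
  obtain ⟨φ, hφ, k0, hk⟩ := hN (fun i j =>
    if s.Q i (s.len i) ∈ s.MK ∧ s.Vis j (s.Q i (s.len i)) then 0
    else if s.Q j (s.len j) ∈ s.MK ∧ s.Vis i (s.Q j (s.len j)) then 1 else 2)
  have hs1 := Sys.comap_ok hs hφ.injective
  have e1' : ∀ i, (s.comap φ).Q i ((s.comap φ).len i) ∈ (s.comap φ).MK →
      ¬ (s.comap φ).F.Reachable (s.comap φ).r ((s.comap φ).Q i ((s.comap φ).len i)) :=
    fun i => e1 (φ i)
  have e2' : ∀ i j, i ≠ j → (s.comap φ).Q i ((s.comap φ).len i) ∈ (s.comap φ).MK →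
      ¬ (s.comap φ).F.Reachable ((s.comap φ).Q i ((s.comap φ).len i))
        ((s.comap φ).Q j ((s.comap φ).len j)) :=
    fun i j hij => e2 (φ i) (φ j) (fun he => hij (hφ.injective he))
  have hcase : ∀ i j, i < j → (k0 = 0 ∧ s.Q (φ i) (s.len (φ i)) ∈ s.MK ∧
      s.Vis (φ j) (s.Q (φ i) (s.len (φ i)))) ∨ (k0 = 1 ∧ s.Q (φ j) (s.len (φ j)) ∈ s.MK ∧
      s.Vis (φ i) (s.Q (φ j) (s.len (φ j)))) ∨ (k0 = 2 ∧ ∃ z, s.XP (φ i) (φ j) z) := by
    intro i j hij
    have h3 := hk i j hij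
    by_cases hA : s.Q (φ i) (s.len (φ i)) ∈ s.MK ∧ s.Vis (φ j) (s.Q (φ i) (s.len (φ i)))
    · rw [if_pos hA] at h3
      exact Or.inl ⟨h3.symm, hA⟩
    · rw [if_neg hA] at h3
      by_cases hB : s.Q (φ j) (s.len (φ j)) ∈ s.MK ∧ s.Vis (φ i) (s.Q (φ j) (s.len (φ j)))
      · rw [if_pos hB] at h3
        exact Or.inr (Or.inl ⟨h3.symm, hB⟩)
      · rw [if_neg hB] at h3
        refine Or.inr (Or.inr ⟨h3.symm, ?_⟩)
        rcases hv _ _ (hφ hij) with h | h | h
        · exact absurd h hA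
        · exact absurd h hB
        · exact h
  have h01 : (0 : Fin 3) ≠ 1 := by decide
  have h02 : (0 : Fin 3) ≠ 2 := by decide
  have h12 : (1 : Fin 3) ≠ 2 := by decide
  have hk3 : ∀ k : Fin 3, k = 0 ∨ k = 1 ∨ k = 2 := by decide
  have hk3 := hk3 k0
  rcases hk3 with rfl | rfl | rfl
  · refine scl_endsA hs1 (le_max_right _ _) e1' e2' fun i j hij => ?_
    rcases hcase i j hij with h | h | h
    · exact h.2
    · exact absurd h.1 h01
    · exact absurd h.1 h02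
  · refine scl_endsB hs1 (le_max_right _ _) e1' e2' fun i j hij => ?_
    rcases hcase i j hij with h | h | h
    · exact absurd h.1.symm h01
    · exact h.2
    · exact absurd h.1 h12
  · have hle : N1 ≤ max N1 (p + 1 + (3 * (p + 1) ^ 2 + 1)) := le_max_left _ _
    have hinj := Fin.castLE_injective hle
    refine hN1 ((s.comap φ).comap (Fin.castLE hle)) (Sys.comap_ok hs1 hinj) fun i j hij => ?_
    have hij' : Fin.castLE hle i < Fin.castLE hle j := hij
    rcases hcase _ _ hij' with h | h | h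
    · exact absurd h.1.symm h02
    · exact absurd h.1.symm h12
    · obtain ⟨z, hz⟩ := h.2
      exact ⟨z, Sys.comap_xp.2 (Sys.comap_xp.2 hz)⟩

end Pool.Agent.Helper46.RM
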