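import Pool.Agent.Helper46.RM.Lev2
import Pool.Agent.Helper46.RM.Scl

/-!
# Block RM-F1: the system of trails of a sunflower of colour sets.

`sys K C X p`: the walks are the paths `qq (C i) (X i)`, private colours `C i \ K`. `MK` is `MC K` (definitionally).
`sys_ok`: `T_conn`; `fc_forest`, `fc_mem`, `fc_span`; `r_mc`; `(C i \ K).card = p` (`Finset.card_sdiff_of_subset`); disjointness from `C i ∩ C j = K`; `qq_zero`; `qq_inV`
(points of `MC (C i)`); `qq_trail`.
`fan_sys`: `N` from `scl p`. A point `z` with `lev z = K.card + p > K.card` is not joined to `r` in `FC K` (`InV K z` and `lev_le`) and is saturated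
(`inV_walk`, `lev_le`). So the third alternative of `Pair` gives `XP`, the first two are `Vis` (`C i ∩ C j = K`). `X i ∈ MC K` is not joined to `r` in `FC K`
in the same way. If `X i ∈ MC K` is joined to `X j` in `FC K` (`i ≠ j`), then `X j ∈ MC K` (`fc_reach_mem`), `InV (C i) (X j)` and `InV (C j) (X i)`
(`mc_mono`, `fc_reach_mono`), so `C i = cmin (X i) = cmin (X j) = C j` (`cmin_unique`), `K = C i`, `p = 0`, contradiction.
-/

namespace Pool.Agent.Helper46.RM

open scoped Classical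

noncomputable section

variable {ι : Type*} {p n : ℕ}

def LSys.sys (L : LSys ι) (K : Finset ι) (C : Fin n → Finset ι) (X : Fin n → P2) (p : ℕ) : Sys ι p n where
  S := L.S
  T := L.T
  K := K
  F := L.FC K
  r := L.r
  P := fun i => C i \ K
  Q := fun i => L.qq (C i) (X i)
  len := fun i => L.dd (C i) (X i)

theorem LSys.OK.sys_ok {L : LSys ι} (h : L.OK) {K : Finset ι} {C : Fin n → Finset ι} {X : Fin n → P2}
    (hK : ∀ i, K ⊆ C i) (hc : ∀ i, (C i).card = K.card + p) (hd : ∀ i j, i ≠ j → C i ∩ C j = K)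
    (hX : ∀ i, L.InV (C i) (X i)) : (L.sys K C X p).OK where
  T_conn := h.T_conn
  F_for := h.fc_forest K
  F_mem := fun _ _ hxy => h.fc_mem hxy
  F_span := fun _ _ hx hy hxy => h.fc_span hx hy hxy
  r_mem := h.r_mc K
  P_card := fun i => by
    show (C i \ K).card = p
    rw [Finset.card_sdiff_of_subset (hK i), hc i]
    omega
  P_disj := fun i j hij => by
    show Disjoint (C i \ K) (C j \ K)
    rw [Finset.disjoint_left]
    intro c h1 h2
    rw [Finset.mem_sdiff] at h1 h2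
    have h3 : c ∈ C i ∩ C j := Finset.mem_inter.2 ⟨h1.1, h2.1⟩
    rw [hd i j hij] at h3
    exact h1.2 h3
  P_K := fun i => Finset.sdiff_disjoint
  Q_zero := fun i => h.qq_zero (hX i)
  Q_mem := fun i a _ => (h.qq_inV (hX i) a).1.1
  Q_col := fun i a _ c hc => by
    have h1 := (h.qq_inV (hX i) a).1.2 c hc
    by_cases h2 : c ∈ K
    · exact Or.inl h2
    · exact Or.inr (Finset.mem_sdiff.2 ⟨h1, h2⟩)
  Q_ok := fun i => h.qq_trail (hK i) (hX i)

theorem fan_sys (p : ℕ) (hp : 1 ≤ p) : ∃ N : ℕ, ∀ {ι : Type*} (L : LSys ι) (K : Finset ι) (X : Fin N → P2), L.OK →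
    (∀ i, K ⊆ L.cmin (X i)) → (∀ i j, i ≠ j → L.cmin (X i) ∩ L.cmin (X j) = K) →
    (∀ i, (L.cmin (X i)).card = K.card + p) → (∀ i, L.lev (X i) = K.card + p) → (∀ i, L.InV (L.cmin (X i)) (X i)) →
    (∀ i j, i < j → L.Pair (L.cmin (X i)) (L.cmin (X j)) (X i) (X j)) → False := by
  obtain ⟨N, hN⟩ := scl p
  refine ⟨N, fun {ι} L K X h hK hd hc hlev hX hP => ?_⟩
  have hnr : ∀ z, L.lev z = K.card + p → z ∈ L.MC K → ¬ (L.FC K).Reachable L.r z := by
    intro z hz h1 h2
    have h3 := h.lev_le (⟨h1, h2⟩ : L.InV K z)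
    omega
  refine hN (L.sys K (fun i => L.cmin (X i)) X p) (h.sys_ok hK hc hd hX) ?_ ?_ ?_
  · intro i
    show L.qq (L.cmin (X i)) (X i) (L.dd (L.cmin (X i)) (X i)) ∈ L.MC K →
      ¬ (L.FC K).Reachable L.r (L.qq (L.cmin (X i)) (X i) (L.dd (L.cmin (X i)) (X i)))
    rw [LSys.qq_end]
    exact hnr _ (hlev i)
  · intro i j hij
    show L.qq (L.cmin (X i)) (X i) (L.dd (L.cmin (X i)) (X i)) ∈ L.MC K →
      ¬ (L.FC K).Reachable (L.qq (L.cmin (X i)) (X i) (L.dd (L.cmin (X i)) (X i)))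
        (L.qq (L.cmin (X j)) (X j) (L.dd (L.cmin (X j)) (X j)))
    rw [LSys.qq_end, LSys.qq_end]
    intro h1 h2
    have h3 : X j ∈ L.MC K := h.fc_reach_mem h1 h2
    have h4 : L.InV (L.cmin (X i)) (X j) :=
      ⟨LSys.mc_mono (hK i) h3, (hX i).2.trans (h.fc_reach_mono (hK i) h2)⟩
    have h5 : L.InV (L.cmin (X j)) (X i) :=
      ⟨LSys.mc_mono (hK j) h1, (hX j).2.trans (h.fc_reach_mono (hK j) h2.symm)⟩
    have h6 := h.cmin_unique h5 h4 (by rw [hlev i, hlev j])
    have h7 := hd i j hij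
    rw [← h6, Finset.inter_self] at h7
    have h8 := hc i
    rw [h7] at h8
    omega
  · intro i j hij
    have h1 := hP i j hij
    have h2 := hd i j (ne_of_lt hij)
    unfold LSys.Pair at h1
    rw [h2] at h1
    rcases h1 with ⟨h3, h4⟩ | ⟨h3, h4⟩ | ⟨z, h3, h4, h5⟩
    · left
      show L.qq (L.cmin (X i)) (X i) (L.dd (L.cmin (X i)) (X i)) ∈ L.MC K ∧
        ∃ a, a ≤ L.dd (L.cmin (X j)) (X j) ∧
          (L.FC K).Reachable (L.qq (L.cmin (X i)) (X i) (L.dd (L.cmin (X i)) (X i)))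
            (L.qq (L.cmin (X j)) (X j) a)
      rw [LSys.qq_end]
      exact ⟨h3, h4⟩
    · right
      left
      show L.qq (L.cmin (X j)) (X j) (L.dd (L.cmin (X j)) (X j)) ∈ L.MC K ∧
        ∃ a, a ≤ L.dd (L.cmin (X i)) (X i) ∧
          (L.FC K).Reachable (L.qq (L.cmin (X j)) (X j) (L.dd (L.cmin (X j)) (X j)))
            (L.qq (L.cmin (X i)) (X i) a)
      rw [LSys.qq_end]
      exact ⟨h3, h4⟩
    · right
      right
      rw [hc i] at h4
      refine ⟨z, ?_⟩
      constructor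
      · exact h3
      · exact hnr z h4 h3
      · intro C _ hC hw
        have h6 := h.lev_le (h.inV_walk.2 hw)
        have h7 : C.card < K.card + p := hC
        omega
      · exact h5

end

end Pool.Agent.Helper46.RM
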