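import Pool.Agent.Helper46.RM.Tr

/-!
# Blocks RM-FX: two walks through the same component of a forest (definitions and statements).

`IsPass F z Q n a b`: the piece `(a, b)` of the walk `Q` (positions `0..n`) is a maximal run inside the component of `z` which is entered
after the position `a` and left at the position `b`. `TrailOK F M Q n`: `Q` is injective on `0..n`, consecutive points are adjacent, and
consecutive points which are both in `M` are joined by an edge of `F`.

`depth x = F.dist z x`. Facts used below (for `F` acyclic): along an edge of the component the depth changes by exactly one, and every point `x ≠ z` of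
the component has exactly one neighbour of smaller depth (two of them would give two different paths from `x` to `z`).
-/

namespace Pool.Agent.Helper46.RM

open scoped Classical

/-- a walk whose steps inside `M` are edges of `F` -/
structure TrailOK (F : SimpleGraph P2) (M : Set P2) (Q : ℕ → P2) (n : ℕ) : Prop where
  inj : ∀ a b, a ≤ n → b ≤ n → Q a = Q b → a = b
  adj : ∀ a, a < n → LAdj (Q a) (Q (a + 1))
  fst : ∀ a, a < n → Q a ∈ M → Q (a + 1) ∈ M → F.Adj (Q a) (Q (a + 1))

/-- a proper pass through the component of `z` -/
def IsPass (F : SimpleGraph P2) (z : P2) (Q : ℕ → P2) (n a b : ℕ) : Prop :=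
  a + 1 < b ∧ b ≤ n ∧ ¬ F.Reachable z (Q a) ∧ ¬ F.Reachable z (Q b) ∧ ∀ c, a < c → c < b → F.Reachable z (Q c)

end Pool.Agent.Helper46.RM
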