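import Pool.Agent.Helper46.RM.Stokes
import Pool.Agent.Helper46.RM.Sym

/-!
# Block RM-FO: the four leaf identity and the parity theorem for `K_5`.

Write `s a b = cross a b + cross b a`.
`four`: expand by bilinearity (`cross_add_left`, `cross_add_right`). The terms `cross (β 0) _` cancel in pairs, what remains is
`s (β 2) (β 1) + ...`, precisely `s (β 1) (β 2) + s (β 1) (β 3) + s (β 2) (β 3)`. For `j ≠ k`, `cross_swap` gives
`s (β j) (β k) = (cN (β j) b + cW (β j) b) + (cS (β k) b + cE (β k) b)`: `bd (β k)` is supported in `b, q k`, and `β j` is not touched at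
`q k`; `bd (β j)` is supported in `b, q j`, and `β k` is not touched at `q j`. The sum of the three is, in characteristic two,
`(cN + cW + cS + cE) (β 2) b = bd (β 2) b = 1` (`q 2 ≠ b`).
`five`: `T j k = P 0 j + P 0 k + P j k` is closed for `1 ≤ j < k ≤ 4`, so `cross (T 1 2) (T 3 4) + cross (T 1 3) (T 2 4) + cross (T 1 4) (T 2 3)
= 0` (`cross_closed`). Expand: all terms `cross (P i j) (P k l)` with `{i,j}`, `{k,l}` disjoint are zero; the terms with `P 0 1` first cancel
in pairs; what remains is `s (P 0 2) (P 0 3) + s (P 0 2) (P 0 4) + s (P 0 3) (P 0 4)`, which is, as above (with `b = c 0`),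
`bd (P 0 3) (c 0) = 1`. Contradiction.
-/

namespace Pool.Agent.Helper46.RM

open scoped Classical

private theorem swap_pair {α β : Ch} {b q r : P2} (h1 : ∀ x, bd α x = dl b x + dl q x)
    (h2 : ∀ x, bd β x = dl b x + dl r x) (hq : q ≠ b) (hr : r ≠ b) (t1 : ¬ Touch α r)
    (t2 : ¬ Touch β q) :
    cross α β + cross β α = (cN α b + cW α b) + (cS β b + cE β b) := by
  have n1 : cN α r = 0 ∧ cW α r = 0 := by
    constructor
    · by_contra h
      exact t1 (Or.inr (Or.inr (Or.inl h)))
    · by_contra h
      exact t1 (Or.inr (Or.inl h))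
  have n2 : cS β q = 0 ∧ cE β q = 0 := by
    constructor
    · by_contra h
      exact t2 (Or.inr (Or.inr (Or.inr h)))
    · by_contra h
      exact t2 (Or.inl h)
  rw [cross_swap]
  have hbb : dl b b = 1 := if_pos rfl
  have hrb : dl r b = 0 := if_neg (fun h => hr h.symm)
  have hqb : dl q b = 0 := if_neg (fun h => hq h.symm)
  rw [finsum_eq_single _ b]
  · rw [h1, h2, hbb, hrb, hqb]
    ring
  · intro p hp
    have hbp : dl b p = 0 := if_neg hp
    rw [h1, h2, hbp, zero_add, zero_add]
    have z1 : (cN α p + cW α p) * dl r p = 0 := by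
      by_cases h : p = r
      · rw [h, n1.1, n1.2, add_zero, zero_mul]
      · have : dl r p = 0 := if_neg h
        rw [this, mul_zero]
    have z2 : dl q p * (cS β p + cE β p) = 0 := by
      by_cases h : p = q
      · rw [h, n2.1, n2.2, add_zero, mul_zero]
      · have : dl q p = 0 := if_neg h
        rw [this, zero_mul]
    rw [z1, z2, add_zero]

private theorem tri_closed {c : Fin 5 → P2} {P : Fin 5 → Fin 5 → Ch}
    (hbd : ∀ i j, i ≠ j → ∀ x, bd (P i j) x = dl (c i) x + dl (c j) x) {j k : Fin 5} (hj : 0 ≠ j)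
    (hk : 0 ≠ k) (hjk : j ≠ k) : Closed (P 0 j + P 0 k + P j k) := by
  intro p
  have h2 : (2 : ZMod 2) = 0 := by decide
  rw [bd_add, bd_add, hbd 0 j hj, hbd 0 k hk, hbd j k hjk]
  linear_combination (dl (c 0) p + dl (c j) p + dl (c k) p) * h2

theorem four {b : P2} {q : Fin 4 → P2} {β : Fin 4 → Ch} (hbd : ∀ i x, bd (β i) x = dl b x + dl (q i) x)
    (hq : ∀ i j, i ≠ j → ¬ Touch (β i) (q j)) (hb : ∀ i, q i ≠ b) :
    cross (β 0 + β 1) (β 2 + β 3) + cross (β 0 + β 2) (β 1 + β 3) + cross (β 0 + β 3) (β 1 + β 2) = 1 := by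
  have h2 : (2 : ZMod 2) = 0 := by decide
  have e12 := swap_pair (hbd 1) (hbd 2) (hb 1) (hb 2) (hq 1 2 (by decide)) (hq 2 1 (by decide))
  have e13 := swap_pair (hbd 1) (hbd 3) (hb 1) (hb 3) (hq 1 3 (by decide)) (hq 3 1 (by decide))
  have e23 := swap_pair (hbd 2) (hbd 3) (hb 2) (hb 3) (hq 2 3 (by decide)) (hq 3 2 (by decide))
  have e2 := hbd 2 b
  have hd1 : dl b b = 1 := if_pos rfl
  have hd2 : dl (q 2) b = 0 := if_neg (fun h => hb 2 h.symm)
  rw [hd1, hd2, bd] at e2
  rw [cross_add_left, cross_add_left, cross_add_left, cross_add_right, cross_add_right,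
    cross_add_right, cross_add_right, cross_add_right, cross_add_right]
  linear_combination e12 + e13 + e23 + e2 + (cross (β 0) (β 1) + cross (β 0) (β 2) +
    cross (β 0) (β 3) + cN (β 1) b + cW (β 1) b + cS (β 3) b + cE (β 3) b) * h2

theorem five {c : Fin 5 → P2} (hc : Function.Injective c) {P : Fin 5 → Fin 5 → Ch} (hs : ∀ i j, P i j = P j i)
    (hbd : ∀ i j, i ≠ j → ∀ x, bd (P i j) x = dl (c i) x + dl (c j) x)
    (ht : ∀ i j m, m ≠ i → m ≠ j → ¬ Touch (P i j) (c m))
    (hx : ∀ i j k l, i ≠ j → k ≠ l → i ≠ k → i ≠ l → j ≠ k → j ≠ l → cross (P i j) (P k l) = 0) : False := by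
  have key : ∀ j k l m : Fin 5, 0 ≠ j → 0 ≠ k → 0 ≠ l → 0 ≠ m → j ≠ k → j ≠ l → j ≠ m → k ≠ l →
      k ≠ m → l ≠ m → cross (P 0 j + P 0 k) (P 0 l + P 0 m) = 0 := by
    intro j k l m j0 k0 l0 m0 jk jl jm kl km lm
    have hT := cross_closed (tri_closed hbd j0 k0 jk) (tri_closed hbd l0 m0 lm)
    rw [cross_add_right (P 0 j + P 0 k + P j k), cross_add_left (P 0 j + P 0 k) (P j k),
      cross_add_left (P 0 j + P 0 k) (P j k), cross_add_left (P 0 j) (P 0 k) (P l m),
      cross_add_right (P j k) (P 0 l) (P 0 m), hx j k 0 l jk l0 j0.symm jl k0.symm kl,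
      hx j k 0 m jk m0 j0.symm jm k0.symm km, hx j k l m jk lm jl jm kl km,
      hx 0 j l m j0 lm l0 m0 jl jm, hx 0 k l m k0 lm l0 m0 kl km, add_zero, add_zero,
      add_zero, add_zero] at hT
    exact hT
  have h4 := four (b := c 0) (q := ![c 1, c 2, c 3, c 4]) (β := ![P 0 1, P 0 2, P 0 3, P 0 4])
    (by
      intro i x
      fin_cases i
      · exact hbd 0 1 (by decide) x
      · exact hbd 0 2 (by decide) x
      · exact hbd 0 3 (by decide) x
      · exact hbd 0 4 (by decide) x)
    (by
      intro i j hij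
      fin_cases i <;> fin_cases j <;> first
        | exact absurd rfl hij
        | exact ht 0 1 2 (by decide) (by decide)
        | exact ht 0 1 3 (by decide) (by decide)
        | exact ht 0 1 4 (by decide) (by decide)
        | exact ht 0 2 1 (by decide) (by decide)
        | exact ht 0 2 3 (by decide) (by decide)
        | exact ht 0 2 4 (by decide) (by decide)
        | exact ht 0 3 1 (by decide) (by decide)
        | exact ht 0 3 2 (by decide) (by decide)
        | exact ht 0 3 4 (by decide) (by decide)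
        | exact ht 0 4 1 (by decide) (by decide)
        | exact ht 0 4 2 (by decide) (by decide)
        | exact ht 0 4 3 (by decide) (by decide))
    (by
      intro i
      fin_cases i <;> first
        | exact fun h => absurd (hc (h : c 1 = c 0)) (by decide)
        | exact fun h => absurd (hc (h : c 2 = c 0)) (by decide)
        | exact fun h => absurd (hc (h : c 3 = c 0)) (by decide)
        | exact fun h => absurd (hc (h : c 4 = c 0)) (by decide))
  have h5 : cross (P 0 1 + P 0 2) (P 0 3 + P 0 4) + cross (P 0 1 + P 0 3) (P 0 2 + P 0 4) +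
      cross (P 0 1 + P 0 4) (P 0 2 + P 0 3) = 1 := h4
  rw [key 1 2 3 4 (by decide) (by decide) (by decide) (by decide) (by decide) (by decide)
      (by decide) (by decide) (by decide) (by decide),
    key 1 3 2 4 (by decide) (by decide) (by decide) (by decide) (by decide) (by decide)
      (by decide) (by decide) (by decide) (by decide),
    key 1 4 2 3 (by decide) (by decide) (by decide) (by decide) (by decide) (by decide)
      (by decide) (by decide) (by decide) (by decide)] at h5
  exact absurd h5 (by decide)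

end Pool.Agent.Helper46.RM
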