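import Pool.Agent.Helper46.RM.ForX

/-!
# Block RM-FT: the top of a pass.

`depth x = F.dist z x`. Along an edge of the component of `z` the depth changes by exactly one and every `x ≠ z` in the component has exactly one
neighbour of smaller depth (`F` is acyclic: two neighbours of smaller depth give two different paths from `x` to `z`; equal depths at both ends of
an edge give a closed walk of odd length, so a cycle).

`pass_top`: let `t` be a position of minimal depth in the pass `(a, b)`. Along an injective walk of `F` there is no inner position `c` with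
`depth (Q (c-1)) < depth (Q c)` and `depth (Q (c+1)) < depth (Q c)` (the neighbour of smaller depth is unique). So after a step upwards (in depth)
all later steps in the pass go upwards: from `t` on the depth increases strictly, and before `t` it decreases strictly; hence `t` is
unique, and from a position `c > t` the points `Q (c-1), Q (c-2), .., Q t` are the successive unique neighbours of smaller depth (the ancestors) of
`Q c`; same for `c < t`.
`top_share`: let `x = Q c = Q' c'`. The ancestors of `x` with depth at least `depth (Q t)` lie on the pass of `Q`, those with depth at least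
`depth (Q' t')` on the pass of `Q'`. So if `depth (Q t) ≥ depth (Q' t')`, then `Q t` is an ancestor of `x` (or `x`) on both passes.
-/

namespace Pool.Agent.Helper46.RM

open scoped Classical

variable {F : SimpleGraph P2} {M : Set P2}

/-- depth changes by one along an edge of an acyclic graph, and the parent is unique -/
private theorem step24 (hF : F.IsAcyclic) {z x y : P2} (hx : F.Reachable z x) (h : F.Adj x y) :
    F.dist z y = F.dist z x + 1 ∨
      (F.dist z x = F.dist z y + 1 ∧ ∀ π : F.Walk z x, π.IsPath → π.penultimate = y) := by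
  have uniq : ∀ {u v : P2} (p q : F.Walk u v), p.IsPath → q.IsPath → p = q := fun p q hp hq =>
    congrArg Subtype.val ((hF.subsingleton_path _ _).elim (⟨p, hp⟩ : F.Path _ _) ⟨q, hq⟩)
  obtain ⟨π, hπ, hlen⟩ := hx.exists_path_of_dist
  have hy : F.Reachable z y := hx.trans h.reachable
  obtain ⟨ρ, hρ, hlen'⟩ := hy.exists_path_of_dist
  by_cases hmem : y ∈ π.support
  · right
    have hx' : x ∉ ρ.support := by
      intro hxm
      have h1 := uniq (π.takeUntil y hmem) ρ (hπ.takeUntil hmem) hρ
      have h2 := uniq (ρ.takeUntil x hxm) π (hρ.takeUntil hxm) hπ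
      have l1 := SimpleGraph.Walk.length_takeUntil_le_length π hmem
      have l2 := SimpleGraph.Walk.length_takeUntil_le_length ρ hxm
      rw [h1] at l1
      rw [h2] at l2
      have h3 : π.length = ρ.length := le_antisymm l2 l1
      have h4 := congrArg SimpleGraph.Walk.length (SimpleGraph.Walk.take_spec π hmem)
      rw [SimpleGraph.Walk.length_append, h1] at h4
      have h5 : (π.dropUntil y hmem).length = 0 := by omega
      exact h.ne (SimpleGraph.Walk.eq_of_length_eq_zero h5).symm
    have h1 := uniq π (ρ.concat h.symm) hπ (hρ.concat hx' h.symm)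
    refine ⟨?_, fun π' hπ' => ?_⟩
    · rw [← hlen, ← hlen', h1, SimpleGraph.Walk.length_concat]
    · rw [uniq π' π hπ' hπ, h1, SimpleGraph.Walk.penultimate_concat]
  · left
    have h1 := uniq ρ (π.concat h) hρ (hπ.concat hmem h)
    rw [← hlen, ← hlen', h1, SimpleGraph.Walk.length_concat]

private theorem parent24 (hF : F.IsAcyclic) {z x y y' : P2} (hx : F.Reachable z x) (h : F.Adj x y) (h' : F.Adj x y')
    (h1 : F.dist z y < F.dist z x) (h2 : F.dist z y' < F.dist z x) : y = y' := by
  obtain ⟨π, hπ, _⟩ := hx.exists_path_of_dist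
  rcases step24 hF hx h with h3 | ⟨_, h3⟩
  · omega
  rcases step24 hF hx h' with h4 | ⟨_, h4⟩
  · omega
  rw [← h3 π hπ, ← h4 π hπ]

private theorem up24 (hF : F.IsAcyclic) {z : P2} {R : ℕ → P2} {m : ℕ} (hadj : ∀ i, i < m → F.Adj (R i) (R (i + 1)))
    (hinj : ∀ i, i + 2 ≤ m → R i ≠ R (i + 2)) (hr : ∀ i, i ≤ m → F.Reachable z (R i))
    (h01 : 0 < m → F.dist z (R 0) ≤ F.dist z (R 1)) : ∀ i, i < m → F.dist z (R (i + 1)) = F.dist z (R i) + 1 := by
  intro i
  induction i with
  | zero =>
    intro hm
    rcases step24 hF (hr 0 (by omega)) (hadj 0 hm) with h | ⟨h, _⟩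
    · exact h
    · have := h01 hm
      simp only [zero_add] at h
      omega
  | succ i ih =>
    intro hm
    have h1 := ih (by omega)
    rcases step24 hF (hr (i + 1) (by omega)) (hadj (i + 1) hm) with h | ⟨h, _⟩
    · exact h
    · exfalso
      have h2 := parent24 hF (hr (i + 1) (by omega)) (hadj i (by omega)).symm (hadj (i + 1) hm) (by omega) (by omega)
      exact hinj i (by omega) h2

private theorem up24' (hF : F.IsAcyclic) {z : P2} {R : ℕ → P2} {m : ℕ} (hadj : ∀ i, i < m → F.Adj (R i) (R (i + 1)))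
    (hinj : ∀ i, i + 2 ≤ m → R i ≠ R (i + 2)) (hr : ∀ i, i ≤ m → F.Reachable z (R i))
    (h01 : 0 < m → F.dist z (R 0) ≤ F.dist z (R 1)) : ∀ i, i ≤ m → F.dist z (R i) = F.dist z (R 0) + i := by
  intro i
  induction i with
  | zero => intro _; rfl
  | succ i ih =>
    intro hm
    rw [up24 hF hadj hinj hr h01 i (by omega), ih (by omega)]
    omega

private theorem mem24 (hM : ∀ x y, F.Adj x y → x ∈ M) {z x : P2} (hz : z ∈ M) (h : F.Reachable z x) : x ∈ M := by
  obtain ⟨w⟩ := h.symm
  cases w with
  | nil => exact hz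
  | cons h' _ => exact hM _ _ h'

private theorem chain24 (hF : Forest F) (hM : ∀ x y, F.Adj x y → x ∈ M) {z : P2} (hz : z ∈ M) {Q : ℕ → P2} {n : ℕ}
    (h : TrailOK F M Q n) {a b t c : ℕ} (hp : IsPass F z Q n a b) (hta : a < t) (htb : t < b)
    (ht : ∀ c, a < c → c < b → F.dist z (Q t) ≤ F.dist z (Q c)) (hca : a < c) (hcb : c < b) :
    ∃ (pos : ℕ → ℕ) (k : ℕ), (∀ i, i ≤ k → a < pos i ∧ pos i < b) ∧ pos 0 = t ∧ pos k = c ∧
      (∀ i, i < k → F.Adj (Q (pos i)) (Q (pos (i + 1)))) ∧
      ∀ i, i ≤ k → F.dist z (Q (pos i)) = F.dist z (Q t) + i := by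
  have hbn := hp.2.1
  have hreach : ∀ e, a < e → e < b → F.Reachable z (Q e) := hp.2.2.2.2
  have hmem : ∀ e, a < e → e < b → Q e ∈ M := fun e h1 h2 => mem24 hM hz (hreach e h1 h2)
  have hadj : ∀ e, a < e → e + 1 < b → F.Adj (Q e) (Q (e + 1)) := fun e h1 h2 =>
    h.fst e (by omega) (hmem e h1 (by omega)) (hmem (e + 1) (by omega) h2)
  rcases le_total t c with htc | htc
  · refine ⟨fun i => t + i, c - t, fun i hi => ⟨by dsimp only; omega, by dsimp only; omega⟩, rfl, by dsimp only; omega, fun i hi => ?_, ?_⟩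
    · exact hadj (t + i) (by omega) (by omega)
    · refine up24' hF.ac (R := fun i => Q (t + i)) (fun i hi => hadj (t + i) (by omega) (by omega)) ?_ ?_ ?_
      · intro i hi he
        have := h.inj _ _ (by omega) (by omega) he
        omega
      · intro i hi
        exact hreach _ (by omega) (by omega)
      · intro hpos
        exact ht _ (by omega) (by omega)
  · have hadj' : ∀ i, i < t - c → F.Adj (Q (t - i)) (Q (t - (i + 1))) := by
      intro i hi
      have h1 := hadj (t - (i + 1)) (by omega) (by omega)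
      rw [show t - (i + 1) + 1 = t - i by omega] at h1
      exact h1.symm
    refine ⟨fun i => t - i, t - c, fun i hi => ⟨by dsimp only; omega, by dsimp only; omega⟩, rfl, by dsimp only; omega, hadj', ?_⟩
    refine up24' hF.ac (R := fun i => Q (t - i)) hadj' ?_ ?_ ?_
    · intro i hi he
      have := h.inj _ _ (by omega) (by omega) he
      omega
    · intro i hi
      exact hreach _ (by omega) (by omega)
    · intro hpos
      exact ht _ (by omega) (by omega)

private theorem merge24 (hF : F.IsAcyclic) {z : P2} : ∀ (k k' : ℕ) (R R' : ℕ → P2), k ≤ k' →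
    (∀ i, i ≤ k → F.Reachable z (R i)) →
    (∀ i, i < k → F.Adj (R i) (R (i + 1))) → (∀ i, i < k' → F.Adj (R' i) (R' (i + 1))) →
    (∀ i, i < k → F.dist z (R i) < F.dist z (R (i + 1))) → (∀ i, i < k' → F.dist z (R' i) < F.dist z (R' (i + 1))) →
    R k = R' k' → R 0 = R' (k' - k) := by
  intro k
  induction k with
  | zero =>
    intro k' R R' _ _ _ _ _ _ h
    exact h
  | succ k ih =>
    intro k' R R' hkk hr h1 h2 h3 h4 h
    obtain ⟨k'', rfl⟩ : ∃ k'', k' = k'' + 1 := ⟨k' - 1, by omega⟩
    have e : R k = R' k'' := by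
      refine parent24 hF (hr (k + 1) le_rfl) (h1 k (by omega)).symm ?_ (h3 k (by omega)) ?_
      · rw [h]
        exact (h2 k'' (by omega)).symm
      · rw [h]
        exact h4 k'' (by omega)
    have := ih k'' R R' (by omega) (fun i hi => hr i (by omega)) (fun i hi => h1 i (by omega))
      (fun i hi => h2 i (by omega)) (fun i hi => h3 i (by omega)) (fun i hi => h4 i (by omega)) e
    rw [this, Nat.add_sub_add_right]

/-- every pass has a unique position of minimal depth -/
theorem pass_top (hF : Forest F) (hM : ∀ x y, F.Adj x y → x ∈ M) (hM2 : ∀ x y, x ∈ M → y ∈ M → LAdj x y → F.Reachable x y)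
    {z : P2} (hz : z ∈ M) {Q : ℕ → P2} {n : ℕ} (h : TrailOK F M Q n) {a b : ℕ} (hp : IsPass F z Q n a b) :
    ∃ t, a < t ∧ t < b ∧ (∀ c, a < c → c < b → F.dist z (Q t) ≤ F.dist z (Q c)) ∧
      ∀ c, a < c → c < b → F.dist z (Q c) = F.dist z (Q t) → c = t := by
  have hne : (Finset.Ioo a b).Nonempty := ⟨a + 1, by
    rw [Finset.mem_Ioo]
    exact ⟨by omega, hp.1⟩⟩
  obtain ⟨t, ht, hmin⟩ := Finset.exists_min_image (Finset.Ioo a b) (fun c => F.dist z (Q c)) hne
  rw [Finset.mem_Ioo] at ht
  have hmin' : ∀ c, a < c → c < b → F.dist z (Q t) ≤ F.dist z (Q c) := fun c h1 h2 =>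
    hmin c (Finset.mem_Ioo.2 ⟨h1, h2⟩)
  refine ⟨t, ht.1, ht.2, hmin', fun c h1 h2 hcd => ?_⟩
  obtain ⟨pos, k, h3, h4, h5, h6, h7⟩ := chain24 hF hM hz h hp ht.1 ht.2 hmin' h1 h2
  have h8 := h7 k le_rfl
  rw [h5, hcd] at h8
  have h9 : k = 0 := by omega
  rw [← h5, h9, h4]

/-- two passes with a common point: the deeper top is on both -/
theorem top_share (hF : Forest F) (hM : ∀ x y, F.Adj x y → x ∈ M) (hM2 : ∀ x y, x ∈ M → y ∈ M → LAdj x y → F.Reachable x y)
    {z : P2} (hz : z ∈ M) {Q Q' : ℕ → P2} {n n' : ℕ} (h : TrailOK F M Q n) (h' : TrailOK F M Q' n') {a b a' b' t t' c c' : ℕ}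
    (hp : IsPass F z Q n a b) (hp' : IsPass F z Q' n' a' b') (hta : a < t) (htb : t < b)
    (ht : ∀ c, a < c → c < b → F.dist z (Q t) ≤ F.dist z (Q c)) (hta' : a' < t') (htb' : t' < b')
    (ht' : ∀ c, a' < c → c < b' → F.dist z (Q' t') ≤ F.dist z (Q' c)) (hca : a < c) (hcb : c < b) (hca' : a' < c')
    (hcb' : c' < b') (he : Q c = Q' c') (hd : F.dist z (Q' t') ≤ F.dist z (Q t)) :
    ∃ u, a' < u ∧ u < b' ∧ Q' u = Q t := by
  obtain ⟨pos, k, h3, h4, h5, h6, h7⟩ := chain24 hF hM hz h hp hta htb ht hca hcb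
  obtain ⟨pos', k', h3', h4', h5', h6', h7'⟩ := chain24 hF hM hz h' hp' hta' htb' ht' hca' hcb'
  have e1 := h7 k le_rfl
  have e2 := h7' k' le_rfl
  rw [h5, he] at e1
  rw [h5'] at e2
  have hkk : k ≤ k' := by omega
  have key : Q (pos 0) = Q' (pos' (k' - k)) := by
    refine merge24 hF.ac (z := z) k k' (fun i => Q (pos i)) (fun i => Q' (pos' i)) hkk ?_ ?_ ?_ ?_ ?_ ?_
    · intro i hi
      exact (hp.2.2.2.2 _ (h3 i hi).1 (h3 i hi).2)
    · intro i hi
      exact h6 i hi
    · intro i hi
      exact h6' i hi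
    · intro i hi
      have q1 := h7 i (by omega)
      have q2 := h7 (i + 1) (by omega)
      omega
    · intro i hi
      have q1 := h7' i (by omega)
      have q2 := h7' (i + 1) (by omega)
      omega
    · show Q (pos k) = Q' (pos' k')
      rw [h5, h5', he]
  rw [h4] at key
  exact ⟨pos' (k' - k), (h3' _ (by omega)).1, (h3' _ (by omega)).2, key.symm⟩

end Pool.Agent.Helper46.RM
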