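import Pool.Agent.Helper46.RM.Top

/-!
# Block RM-I1: compactness (the metric of `ℝ × ℝ` is the maximum metric).

`good_radius`: finitely many conditions (`V` and the set of edges are finite), each holds for all small `r > 0`: for `a ≠ b` take `r < dist (pt a) (pt b) / 8`;
for an edge `e` and `c ∉ e` the function `t ↦ dist (arc e t) (pt c)` is continuous and positive on the compact `[0,1]`, so bounded below by a
positive constant. Take the minimum of finitely many positive numbers.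
`good_delta`: finitely many pairs `(e, f)`. For a pair which does not cross, the set of `(s, t)` in `[0,1] × [0,1]` with
`r ≤ dist (arc e s) (pt v)` and `r ≤ dist (arc f t) (pt v)` for all `v` is compact, and `dist (arc e s) (arc f t)` is continuous on it and
not zero: if `arc e s = arc f t`, then `s` and `t` are not both in the open interval (no crossing), so this point is an end of `e` or of `f`, i.e. some
`pt v`, but its distance from `pt v` is at least `r > 0`.
-/

namespace Pool.Agent.Helper46.RM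

open scoped Classical

variable {V : Type*} [Fintype V] {G : SimpleGraph V}

/-- a positive lower bound for finitely many positive numbers -/
private theorem exists_pos_le34 {ι : Type*} [Finite ι] (f : ι → ℝ) (hf : ∀ i, 0 < f i) :
    ∃ d : ℝ, 0 < d ∧ ∀ i, d ≤ f i := by
  by_cases hι : Nonempty ι
  · obtain ⟨i, hi⟩ := Finite.exists_min f
    exact ⟨f i, hf i, hi⟩
  · exact ⟨1, one_pos, fun i => absurd ⟨i⟩ hι⟩

theorem good_radius (D : Drawing G) : ∃ r : ℝ, 0 < r ∧ (∀ a b, a ≠ b → 8 * r < dist (D.pt a) (D.pt b)) ∧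
    ∀ e ∈ G.edgeSet, ∀ c, c ∉ e → ∀ t ∈ Set.Icc (0 : ℝ) 1, 8 * r < dist (D.arc e t) (D.pt c) := by
  have key1 : ∀ p : V × V, ∃ m : ℝ, 0 < m ∧ (p.1 ≠ p.2 → m ≤ dist (D.pt p.1) (D.pt p.2)) := by
    rintro ⟨a, b⟩
    by_cases hab : a = b
    · exact ⟨1, one_pos, fun h => absurd hab h⟩
    · exact ⟨dist (D.pt a) (D.pt b), dist_pos.2 fun h => hab (D.pt_inj h), fun _ => le_rfl⟩
  have key2 : ∀ p : Sym2 V × V, ∃ m : ℝ, 0 < m ∧ (p.1 ∈ G.edgeSet → p.2 ∉ p.1 →
      ∀ t ∈ Set.Icc (0 : ℝ) 1, m ≤ dist (D.arc p.1 t) (D.pt p.2)) := by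
    rintro ⟨e, c⟩
    by_cases he : e ∈ G.edgeSet
    · by_cases hc : c ∈ e
      · exact ⟨1, one_pos, fun _ h => absurd hc h⟩
      · obtain ⟨t0, ht0, hmin⟩ := (isCompact_Icc (a := (0 : ℝ)) (b := 1)).exists_isMinOn
          (Set.nonempty_Icc.2 zero_le_one)
          (f := fun t => dist (D.arc e t) (D.pt c))
          (continuous_dist.comp_continuousOn ((D.cont e he).prodMk continuousOn_const))
        exact ⟨dist (D.arc e t0) (D.pt c), dist_pos.2 (D.avoid e he t0 ht0 c hc), fun _ _ t ht => hmin ht⟩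
    · exact ⟨1, one_pos, fun h => absurd h he⟩
  choose m1 hm1 hm1' using key1
  choose m2 hm2 hm2' using key2
  obtain ⟨d1, hd1, hd1'⟩ := exists_pos_le34 m1 hm1
  obtain ⟨d2, hd2, hd2'⟩ := exists_pos_le34 m2 hm2
  have hd : 0 < min d1 d2 := lt_min hd1 hd2
  refine ⟨min d1 d2 / 16, by positivity, ?_, ?_⟩
  · intro a b hab
    have h1 := (hd1' (a, b)).trans (hm1' (a, b) hab)
    have h2 := min_le_left d1 d2
    simp only at h1
    linarith
  · intro e he c hc t ht
    have h1 := (hd2' (e, c)).trans (hm2' (e, c) he hc t ht)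
    have h2 := min_le_right d1 d2
    simp only at h1
    linarith

theorem good_delta (D : Drawing G) {r : ℝ} (hr : 0 < r) : ∃ δ : ℝ, 0 < δ ∧ ∀ e ∈ G.edgeSet, ∀ f ∈ G.edgeSet, e ≠ f →
    ¬ D.Crosses e f → ∀ s ∈ Set.Icc (0 : ℝ) 1, ∀ t ∈ Set.Icc (0 : ℝ) 1, (∀ v, r ≤ dist (D.arc e s) (D.pt v)) →
      (∀ v, r ≤ dist (D.arc f t) (D.pt v)) → δ ≤ dist (D.arc e s) (D.arc f t) := by
  have key : ∀ p : Sym2 V × Sym2 V, ∃ m : ℝ, 0 < m ∧ (p.1 ∈ G.edgeSet → p.2 ∈ G.edgeSet →
      ¬ D.Crosses p.1 p.2 → ∀ s ∈ Set.Icc (0 : ℝ) 1, ∀ t ∈ Set.Icc (0 : ℝ) 1,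
        (∀ v, r ≤ dist (D.arc p.1 s) (D.pt v)) → m ≤ dist (D.arc p.1 s) (D.arc p.2 t)) := by
    rintro ⟨e, f⟩
    by_cases he : e ∈ G.edgeSet
    swap
    · exact ⟨1, one_pos, fun h => absurd h he⟩
    by_cases hf : f ∈ G.edgeSet
    swap
    · exact ⟨1, one_pos, fun _ h => absurd h hf⟩
    by_cases hx : D.Crosses e f
    · exact ⟨1, one_pos, fun _ _ h => absurd hx h⟩
    have hce : ContinuousOn (fun p : ℝ × ℝ => D.arc e p.1) (Set.Icc (0 : ℝ) 1 ×ˢ Set.Icc (0 : ℝ) 1) :=
      (D.cont e he).comp continuousOn_fst fun p hp => hp.1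
    have hcf : ContinuousOn (fun p : ℝ × ℝ => D.arc f p.2) (Set.Icc (0 : ℝ) 1 ×ˢ Set.Icc (0 : ℝ) 1) :=
      (D.cont f hf).comp continuousOn_snd fun p hp => hp.2
    have hc : ContinuousOn (fun p : ℝ × ℝ => dist (D.arc e p.1) (D.arc f p.2) +
        ∑ v : V, max 0 (r - dist (D.arc e p.1) (D.pt v)))
        (Set.Icc (0 : ℝ) 1 ×ˢ Set.Icc (0 : ℝ) 1) := by
      apply ContinuousOn.add (continuous_dist.comp_continuousOn (hce.prodMk hcf))
      apply continuousOn_finsetSum
      intro v _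
      exact (continuous_const.max continuous_id).comp_continuousOn (continuousOn_const.sub
        (continuous_dist.comp_continuousOn (hce.prodMk continuousOn_const)))
    obtain ⟨p0, hp0, hmin⟩ := ((isCompact_Icc (a := (0 : ℝ)) (b := 1)).prod
      (isCompact_Icc (a := (0 : ℝ)) (b := 1))).exists_isMinOn
      ⟨(0, 0), ⟨by simp, by simp⟩⟩ hc
    have hnn : ∀ v, 0 ≤ max 0 (r - dist (D.arc e p0.1) (D.pt v)) := fun v => le_max_left _ _
    have hend : ∀ g ∈ G.edgeSet, ∀ t ∈ Set.Icc (0 : ℝ) 1, t ∉ Set.Ioo (0 : ℝ) 1 → ∃ v, D.arc g t = D.pt v := by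
      intro g hg t ht ht'
      obtain ⟨u, v, -, h0, h1⟩ := D.ends g hg
      rcases eq_or_lt_of_le ht.1 with h2 | h2
      · exact ⟨u, by rw [← h2, h0]⟩
      · rcases eq_or_lt_of_le ht.2 with h3 | h3
        · exact ⟨v, by rw [h3, h1]⟩
        · exact absurd ⟨h2, h3⟩ ht'
    have hpos : 0 < dist (D.arc e p0.1) (D.arc f p0.2) +
        ∑ v : V, max 0 (r - dist (D.arc e p0.1) (D.pt v)) := by
      by_cases hd : D.arc e p0.1 = D.arc f p0.2
      · have h1 : ∃ v, D.arc e p0.1 = D.pt v := by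
          by_cases hs : p0.1 ∈ Set.Ioo (0 : ℝ) 1
          · by_cases ht : p0.2 ∈ Set.Ioo (0 : ℝ) 1
            · exact absurd ⟨p0.1, hs, p0.2, ht, hd⟩ hx
            · rw [hd]
              exact hend f hf _ hp0.2 ht
          · exact hend e he _ hp0.1 hs
        obtain ⟨v, hv⟩ := h1
        have h2 : max 0 (r - dist (D.arc e p0.1) (D.pt v)) ≤
            ∑ v : V, max 0 (r - dist (D.arc e p0.1) (D.pt v)) :=
          Finset.single_le_sum (f := fun v => max 0 (r - dist (D.arc e p0.1) (D.pt v)))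
            (fun v _ => hnn v) (Finset.mem_univ v)
        have h3 : r ≤ max 0 (r - dist (D.arc e p0.1) (D.pt v)) := by
          rw [hv, dist_self, sub_zero]
          exact le_max_right _ _
        have h4 : 0 ≤ dist (D.arc e p0.1) (D.arc f p0.2) := dist_nonneg
        linarith
      · have h1 : 0 < dist (D.arc e p0.1) (D.arc f p0.2) := dist_pos.2 hd
        have h2 : 0 ≤ ∑ v : V, max 0 (r - dist (D.arc e p0.1) (D.pt v)) :=
          Finset.sum_nonneg fun v _ => hnn v
        linarith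
    refine ⟨_, hpos, fun _ _ _ s hs t ht hv => ?_⟩
    have h1 := hmin (show (s, t) ∈ Set.Icc (0 : ℝ) 1 ×ˢ Set.Icc (0 : ℝ) 1 from ⟨hs, ht⟩)
    change _ ≤ dist (D.arc e s) (D.arc f t) + ∑ v : V, max 0 (r - dist (D.arc e s) (D.pt v)) at h1
    have h2 : ∑ v : V, max 0 (r - dist (D.arc e s) (D.pt v)) = 0 := by
      apply Finset.sum_eq_zero
      intro v _
      exact max_eq_left (by linarith [hv v])
    rw [h2, add_zero] at h1
    exact h1
  choose m hm hm' using key
  obtain ⟨d, hd, hd'⟩ := exists_pos_le34 m hm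
  refine ⟨d, hd, ?_⟩
  intro e he f hf _ hx s hs t ht hv _
  exact (hd' (e, f)).trans (hm' (e, f) he hf hx s hs t ht hv)

end Pool.Agent.Helper46.RM
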