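import Pool.Agent.Helper46.RM.Top

/-!
# Block RM-I2: lattice walks along curves.

`rnd h p = (⌊p.1 / h⌋, ⌊p.2 / h⌋)`; `pos h z = (h z.1, h z.2)`; so `dist (pos h (rnd h p)) p ≤ h` (maximum metric; `Int.floor_le`, `Int.lt_floor_add_one`).
`lat_walk`: `γ` is uniformly continuous on `[0,1]`: choose `m ≥ 1` with `dist (γ s) (γ t) < h` for `|s - t| ≤ 1/m`. The points
`z_k = rnd h (γ (k/m))`, `k = 0..m`, satisfy `|z_k.1 - z_{k+1}.1| ≤ 1`, `|z_k.2 - z_{k+1}.2| ≤ 1` (the reals `γ.1/h` differ by less than one). Build a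
list: from `z_k` to `z_{k+1}` go by at most one horizontal and one vertical step (through the point `(z_{k+1}.1, z_k.2)`), no step if the points are
equal. Every point of the list is within `2h` of some `γ (k/m)`. (Induction on `k` for the statement: there is a walk from `z_0` to `z_k`.) The
list may consist of one point.
`trim`: a walk which starts in `A` and ends in `B`, where `A`, `B` are disjoint and no point of `A` is adjacent to a point of `B`, has a nonempty piece
`m` outside `A ∪ B` which is preceded by a point of `A` and followed by a point of `B`: take the last point of `A` in the list, then the first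
point of `B` after it.
-/

namespace Pool.Agent.Helper46.RM

open scoped Classical

noncomputable def rnd (h : ℝ) (p : ℝ × ℝ) : P2 := (⌊p.1 / h⌋, ⌊p.2 / h⌋)

noncomputable def pos (h : ℝ) (z : P2) : ℝ × ℝ := (h * z.1, h * z.2)

private theorem round1 {h : ℝ} (hh : 0 < h) (x : ℝ) : |h * (⌊x / h⌋ : ℝ) - x| ≤ h := by
  have h1 := Int.floor_le (x / h)
  have h2 := Int.lt_floor_add_one (x / h)
  rw [le_div_iff₀ hh] at h1
  rw [div_lt_iff₀ hh] at h2
  rw [abs_le]
  constructor <;> nlinarith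

private theorem floor_close {h : ℝ} (hh : 0 < h) {x y : ℝ} (hxy : |x - y| < h) : ⌊x / h⌋ ≤ ⌊y / h⌋ + 1 := by
  have h1 := Int.floor_le (x / h)
  have h2 := Int.lt_floor_add_one (y / h)
  have h3 : x / h < y / h + 1 := by
    rw [div_add_one hh.ne', div_lt_div_iff_of_pos_right hh]
    have := (abs_lt.1 hxy).2
    linarith
  have h4 : ((⌊x / h⌋ : ℤ) : ℝ) < ((⌊y / h⌋ + 2 : ℤ) : ℝ) := by
    push_cast
    linarith
  have h5 : ⌊x / h⌋ < ⌊y / h⌋ + 2 := by exact_mod_cast h4
  omega

private theorem ext1 {l : List P2} (hl : List.IsChain LAdj l) {x z z' : P2} (hx : l.head? = some x)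
    (hz : l.getLast? = some z) (hzz : z' = z ∨ LAdj z z') :
    ∃ l' : List P2, List.IsChain LAdj l' ∧ l'.head? = some x ∧ l'.getLast? = some z' ∧ ∀ w ∈ l', w ∈ l ∨ w = z' := by
  rcases hzz with h | h
  · rw [h]
    exact ⟨l, hl, hx, hz, fun w hw => Or.inl hw⟩
  · refine ⟨l ++ [z'], ?_, ?_, ?_, ?_⟩
    · rw [List.isChain_append]
      refine ⟨hl, List.isChain_singleton _, ?_⟩
      intro a ha b hb
      rw [hz, Option.mem_some_iff] at ha
      simp only [List.head?_cons, Option.mem_some_iff] at hb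
      rw [← ha, ← hb]
      exact h
    · rw [List.head?_append, hx]
      rfl
    · simp
    · intro w hw
      rw [List.mem_append, List.mem_singleton] at hw
      exact hw

theorem dist_pos_rnd {h : ℝ} (hh : 0 < h) (p : ℝ × ℝ) : dist (pos h (rnd h p)) p ≤ h := by
  unfold pos rnd
  rw [Prod.dist_eq]
  simp only [Real.dist_eq]
  exact max_le (round1 hh _) (round1 hh _)

theorem lat_walk {γ : ℝ → ℝ × ℝ} (hγ : ContinuousOn γ (Set.Icc 0 1)) {h : ℝ} (hh : 0 < h) :
    ∃ l : List P2, List.IsChain LAdj l ∧ l.head? = some (rnd h (γ 0)) ∧ l.getLast? = some (rnd h (γ 1)) ∧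
      ∀ z ∈ l, ∃ t ∈ Set.Icc (0 : ℝ) 1, dist (pos h z) (γ t) ≤ 2 * h := by
  have huc := isCompact_Icc.uniformContinuousOn_of_continuous hγ
  rw [Metric.uniformContinuousOn_iff] at huc
  obtain ⟨δ, hδ, hδ2⟩ := huc h hh
  obtain ⟨m, hm⟩ := exists_nat_one_div_lt hδ
  have hm0 : (0 : ℝ) < (m : ℝ) + 1 := by positivity
  have key : ∀ k : ℕ, k ≤ m + 1 → ∃ l : List P2, List.IsChain LAdj l ∧ l.head? = some (rnd h (γ 0)) ∧
      l.getLast? = some (rnd h (γ ((k : ℝ) / ((m : ℝ) + 1)))) ∧
      ∀ z ∈ l, ∃ t ∈ Set.Icc (0 : ℝ) 1, dist (pos h z) (γ t) ≤ 2 * h := by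
    intro k
    induction k with
    | zero =>
      intro _
      refine ⟨[rnd h (γ 0)], List.isChain_singleton _, rfl, by simp, ?_⟩
      intro z hz
      rw [List.mem_singleton] at hz
      refine ⟨0, by simp, ?_⟩
      rw [hz]
      have := dist_pos_rnd hh (γ 0)
      linarith
    | succ k ih =>
      intro hk
      obtain ⟨l, hl, hx, hz, hd⟩ := ih (by omega)
      have hkm : ((k : ℝ) + 1) ≤ (m : ℝ) + 1 := by exact_mod_cast hk
      have t1 : (k : ℝ) / ((m : ℝ) + 1) ∈ Set.Icc (0 : ℝ) 1 := by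
        constructor
        · positivity
        · rw [div_le_one hm0]
          linarith
      have t2 : ((k + 1 : ℕ) : ℝ) / ((m : ℝ) + 1) ∈ Set.Icc (0 : ℝ) 1 := by
        constructor
        · positivity
        · rw [div_le_one hm0]
          push_cast
          exact hkm
      have hdd : dist (γ ((k : ℝ) / ((m : ℝ) + 1))) (γ (((k + 1 : ℕ) : ℝ) / ((m : ℝ) + 1))) < h := by
        apply hδ2 _ t1 _ t2
        rw [Real.dist_eq]
        have e1 : (k : ℝ) / ((m : ℝ) + 1) - ((k + 1 : ℕ) : ℝ) / ((m : ℝ) + 1) = - (1 / ((m : ℝ) + 1)) := by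
          push_cast
          field_simp
          ring
        rw [e1, abs_neg, abs_of_pos (by positivity)]
        exact hm
      set P := γ ((k : ℝ) / ((m : ℝ) + 1)) with hP
      set R := γ (((k + 1 : ℕ) : ℝ) / ((m : ℝ) + 1)) with hR
      rw [Prod.dist_eq, max_lt_iff, Real.dist_eq, Real.dist_eq] at hdd
      obtain ⟨d1, d2⟩ := hdd
      have a1 := floor_close hh d1
      have a2 := floor_close hh d2
      rw [abs_sub_comm] at d1 d2
      have a3 := floor_close hh d1
      have a4 := floor_close hh d2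
      have b1 : ((⌊R.1 / h⌋, ⌊P.2 / h⌋) : P2) = rnd h P ∨ LAdj (rnd h P) (⌊R.1 / h⌋, ⌊P.2 / h⌋) := by
        unfold rnd LAdj
        simp only [Prod.mk.injEq, and_true]
        omega
      have b2 : rnd h R = ((⌊R.1 / h⌋, ⌊P.2 / h⌋) : P2) ∨ LAdj (⌊R.1 / h⌋, ⌊P.2 / h⌋) (rnd h R) := by
        unfold rnd LAdj
        simp only [Prod.mk.injEq, true_and]
        omega
      obtain ⟨l1, hl1, hx1, hz1, hd1⟩ := ext1 hl hx hz b1
      obtain ⟨l2, hl2, hx2, hz2, hd2⟩ := ext1 hl1 hx1 hz1 b2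
      refine ⟨l2, hl2, hx2, hz2, ?_⟩
      intro w hw
      rcases hd2 w hw with g | g
      · rcases hd1 w g with g | g
        · exact hd w g
        · refine ⟨_, t1, ?_⟩
          rw [g, ← hP]
          unfold pos
          rw [Prod.dist_eq]
          simp only [Real.dist_eq]
          apply max_le
          · have c1 := round1 hh R.1
            have c2 : |h * (⌊R.1 / h⌋ : ℝ) - P.1| ≤ |h * (⌊R.1 / h⌋ : ℝ) - R.1| + |R.1 - P.1| := abs_sub_le _ _ _
            linarith
          · have c1 := round1 hh P.2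
            linarith
      · refine ⟨_, t2, ?_⟩
        rw [g, ← hR]
        have := dist_pos_rnd hh R
        linarith
  obtain ⟨l, h1, h2, h3, h4⟩ := key (m + 1) le_rfl
  refine ⟨l, h1, h2, ?_, h4⟩
  rw [h3]
  congr 3
  push_cast
  exact div_self hm0.ne'

private theorem last_in (S : Set P2) : ∀ l : List P2, (∃ x ∈ l, x ∈ S) →
    ∃ (l1 : List P2) (p : P2) (l2 : List P2), l = l1 ++ p :: l2 ∧ p ∈ S ∧ ∀ z ∈ l2, z ∉ S := by
  intro l
  induction l with
  | nil =>
    rintro ⟨x, hx, _⟩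
    exact absurd hx List.not_mem_nil
  | cons a t ih =>
    intro h
    by_cases ht : ∃ x ∈ t, x ∈ S
    · obtain ⟨l1, p, l2, h1, h2, h3⟩ := ih ht
      exact ⟨a :: l1, p, l2, by rw [h1]; rfl, h2, h3⟩
    · obtain ⟨x, hx, hxS⟩ := h
      rw [List.mem_cons] at hx
      rcases hx with hx | hx
      · rw [hx] at hxS
        exact ⟨[], a, t, rfl, hxS, fun z hz hzS => ht ⟨z, hz, hzS⟩⟩
      · exact absurd ⟨x, hx, hxS⟩ ht

private theorem first_in (S : Set P2) : ∀ l : List P2, (∃ x ∈ l, x ∈ S) →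
    ∃ (l1 : List P2) (p : P2) (l2 : List P2), l = l1 ++ p :: l2 ∧ p ∈ S ∧ ∀ z ∈ l1, z ∉ S := by
  intro l
  induction l with
  | nil =>
    rintro ⟨x, hx, _⟩
    exact absurd hx List.not_mem_nil
  | cons a t ih =>
    intro h
    by_cases ha : a ∈ S
    · exact ⟨[], a, t, rfl, ha, fun z hz => absurd hz List.not_mem_nil⟩
    · have ht : ∃ x ∈ t, x ∈ S := by
        obtain ⟨x, hx, hxS⟩ := h
        rw [List.mem_cons] at hx
        rcases hx with hx | hx
        · rw [hx] at hxS
          exact absurd hxS ha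
        · exact ⟨x, hx, hxS⟩
      obtain ⟨l1, p, l2, h1, h2, h3⟩ := ih ht
      refine ⟨a :: l1, p, l2, by rw [h1]; rfl, h2, ?_⟩
      intro z hz
      rw [List.mem_cons] at hz
      rcases hz with hz | hz
      · rw [hz]
        exact ha
      · exact h3 z hz

theorem trim {l : List P2} (hl : List.IsChain LAdj l) {A B : Set P2} {x y : P2} (hx : l.head? = some x) (hxA : x ∈ A)
    (hy : l.getLast? = some y) (hyB : y ∈ B) (hAB : ∀ p ∈ A, p ∉ B) (hAB2 : ∀ p ∈ A, ∀ q ∈ B, ¬ LAdj p q) :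
    ∃ (l1 m l2 : List P2) (p q : P2), l = l1 ++ p :: (m ++ q :: l2) ∧ m ≠ [] ∧ p ∈ A ∧ q ∈ B ∧ ∀ z ∈ m, z ∉ A ∧ z ∉ B := by
  have hxl : x ∈ l := List.mem_of_mem_head? hx
  obtain ⟨l1, p, l2, h1, hp, h2⟩ := last_in A l ⟨x, hxl, hxA⟩
  have hyl : y ∈ l2 := by
    rw [h1, List.getLast?_append, List.getLast?_cons] at hy
    rw [Option.some_or, Option.some.injEq] at hy
    rcases h3 : l2.getLast? with _ | w
    · rw [h3] at hy
      simp only [Option.getD_none] at hy
      exfalso
      rw [hy] at hp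
      exact hAB y hp hyB
    · rw [h3] at hy
      simp only [Option.getD_some] at hy
      rw [← hy]
      exact List.mem_of_getLast? h3
  obtain ⟨m, q, l3, h4, hq, h5⟩ := first_in B l2 ⟨y, hyl, hyB⟩
  refine ⟨l1, m, l3, p, q, by rw [h1, h4], ?_, hp, hq, ?_⟩
  · intro hm
    rw [h1, h4, hm, List.nil_append] at hl
    rw [List.isChain_append] at hl
    have h6 := hl.2.1
    rw [List.isChain_cons_cons] at h6
    exact hAB2 p hp q hq h6.1
  · intro z hz
    refine ⟨h2 z ?_, h5 z hz⟩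
    rw [h4]
    exact List.mem_append_left _ hz

end Pool.Agent.Helper46.RM
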