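import Pool.Agent.Helper46.RM.Inp1
import Pool.Agent.Helper46.RM.Inp2

/-!
# Block RM-I3: every drawing gives a lattice drawing in which edges meet only if they cross.

Take `r` from `good_radius`, `δ` from `good_delta D hr`, and `h > 0` with `8 h < δ`, `8 h < r`. The rectangle of `v` is the set of lattice points `z` with
`dist (pos h z) (pt v) ≤ 2 r` (maximum metric): `lo v = (⌈(x - 2r)/h⌉, ⌈(y - 2r)/h⌉)`, `hi v = (⌊(x + 2r)/h⌋, ⌊(y + 2r)/h⌋)` for `pt v = (x, y)`;
it contains `rnd h (pt v)`. The rectangles are disjoint and not adjacent (`8 r < dist (pt a) (pt b)`).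
For an edge `e` with ends `u, v` (`D.ends`), `lat_walk` for `arc e` gives a list from `rnd h (pt u)` to `rnd h (pt v)`; `trim` with the rectangles of
`u` and `v` gives the walk `m`. All its points `z` are within `2h` of some `arc e t`; so they are outside the rectangles of all `c ∉ e`
(`8 r < dist (arc e t) (pt c)`) and, by `trim`, outside those of `u` and `v`. Put `W u v = m`, `W v u = m.reverse` (choose for every `e ∈ G.edgeSet`
a pair `(u, v)` as in `D.ends`; `u ≠ v`; define `W a b` by cases `(a, b) = (u, v)` or `(a, b) = (v, u)` for `e = s(a, b)`). The head condition for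
`W v u` is the statement about the last point of `m`.
If the walks of two edges `e ≠ f` have a common point `z`, then `dist (pos h z) (arc e s) ≤ 2h`, `dist (pos h z) (arc f t) ≤ 2h`, so
`dist (arc e s) (arc f t) ≤ 4h < δ`; and `dist (pos h z) (pt v) > 2r` for all `v`, so `dist (arc e s) (pt v) > 2r - 2h ≥ r`, same for `f`: by
`good_delta` the edges cross.
-/

namespace Pool.Agent.Helper46.RM

open scoped Classical

variable {V : Type*} [Fintype V] {G : SimpleGraph V}

private noncomputable def lo63 (h r : ℝ) (p : ℝ × ℝ) : P2 := (⌈(p.1 - 2 * r) / h⌉, ⌈(p.2 - 2 * r) / h⌉)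

private noncomputable def hi63 (h r : ℝ) (p : ℝ × ℝ) : P2 := (⌊(p.1 + 2 * r) / h⌋, ⌊(p.2 + 2 * r) / h⌋)

private theorem mem_rect63 {h : ℝ} (hh : 0 < h) (r : ℝ) (p : ℝ × ℝ) (z : P2) :
    z ∈ rect (lo63 h r p) (hi63 h r p) ↔ dist (pos h z) p ≤ 2 * r := by
  unfold rect lo63 hi63 pos
  rw [Set.mem_ofPred_eq, Prod.dist_eq, max_le_iff, Real.dist_eq, Real.dist_eq, abs_le, abs_le,
    Int.ceil_le, Int.ceil_le, Int.le_floor, Int.le_floor, div_le_iff₀ hh, div_le_iff₀ hh,
    le_div_iff₀ hh, le_div_iff₀ hh]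
  constructor
  · rintro ⟨h1, h2, h3, h4⟩
    exact ⟨⟨by linarith, by linarith⟩, ⟨by linarith, by linarith⟩⟩
  · rintro ⟨⟨h1, h2⟩, ⟨h3, h4⟩⟩
    exact ⟨by linarith, by linarith, by linarith, by linarith⟩

private theorem dist_adj63 {h : ℝ} (hh : 0 < h) {p q : P2} (hpq : LAdj p q) : dist (pos h p) (pos h q) ≤ h := by
  unfold pos
  rw [Prod.dist_eq, max_le_iff, Real.dist_eq, Real.dist_eq]
  have e1 : ∀ a b : ℤ, (a = b ∨ a = b + 1 ∨ b = a + 1) → |h * (a : ℝ) - h * (b : ℝ)| ≤ h := by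
    rintro a b (h1 | h1 | h1)
    · rw [h1, sub_self, abs_zero]
      exact hh.le
    · rw [h1]
      push_cast
      rw [show h * ((b : ℝ) + 1) - h * b = h by ring, abs_of_pos hh]
    · rw [h1]
      push_cast
      rw [show h * (a : ℝ) - h * (a + 1) = - h by ring, abs_neg, abs_of_pos hh]
  rcases hpq with (h1 | h1) | (h1 | h1) <;> rw [h1]
  · exact ⟨e1 _ _ (Or.inr (Or.inr rfl)), e1 _ _ (Or.inl rfl)⟩
  · exact ⟨e1 _ _ (Or.inr (Or.inl rfl)), e1 _ _ (Or.inl rfl)⟩
  · exact ⟨e1 _ _ (Or.inl rfl), e1 _ _ (Or.inr (Or.inr rfl))⟩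
  · exact ⟨e1 _ _ (Or.inl rfl), e1 _ _ (Or.inr (Or.inl rfl))⟩

omit [Fintype V] in
private theorem core63 (D : Drawing G) {r h : ℝ} (hr : 0 < r) (hh : 0 < h) (hhr : 8 * h < r)
    (hr1 : ∀ a b, a ≠ b → 8 * r < dist (D.pt a) (D.pt b))
    (hr2 : ∀ e ∈ G.edgeSet, ∀ c, c ∉ e → ∀ t ∈ Set.Icc (0 : ℝ) 1, 8 * r < dist (D.arc e t) (D.pt c))
    (e : Sym2 V) : ∃ (u v : V) (m : List P2), e ∈ G.edgeSet → e = s(u, v) ∧ u ≠ v ∧ List.IsChain LAdj m ∧
      (∀ z ∈ m, ∀ c, z ∉ rect (lo63 h r (D.pt c)) (hi63 h r (D.pt c))) ∧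
      (∃ x y, m.head? = some x ∧ y ∈ rect (lo63 h r (D.pt u)) (hi63 h r (D.pt u)) ∧ LAdj y x) ∧
      (∃ x y, m.getLast? = some x ∧ y ∈ rect (lo63 h r (D.pt v)) (hi63 h r (D.pt v)) ∧ LAdj y x) ∧
      ∀ z ∈ m, ∃ t ∈ Set.Icc (0 : ℝ) 1, dist (pos h z) (D.arc e t) ≤ 2 * h := by
  by_cases he : e ∈ G.edgeSet
  swap
  · exact ⟨(Quot.out e).1, (Quot.out e).2, [], fun h => absurd h he⟩
  obtain ⟨u, v, he1, he2, he3⟩ := D.ends e he
  have huv : u ≠ v := by
    rw [he1, SimpleGraph.mem_edgeSet] at he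
    exact he.ne
  obtain ⟨l, hl1, hl2, hl3, hl4⟩ := lat_walk (D.cont e he) hh
  rw [he2] at hl2
  rw [he3] at hl3
  have hA : ∀ c : V, rnd h (D.pt c) ∈ rect (lo63 h r (D.pt c)) (hi63 h r (D.pt c)) := by
    intro c
    rw [mem_rect63 hh]
    have := dist_pos_rnd hh (D.pt c)
    linarith
  obtain ⟨l1, m, l2, p, q, h1, h2, h3, h4, h5⟩ := trim hl1 hl2 (hA u) hl3 (hA v)
    (by
      intro z hz hz2
      rw [mem_rect63 hh] at hz hz2
      have := hr1 u v huv
      have h6 := dist_triangle_left (D.pt u) (D.pt v) (pos h z)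
      linarith)
    (by
      intro z hz z' hz' hzz
      rw [mem_rect63 hh] at hz hz'
      have := hr1 u v huv
      have h6 := dist_triangle_left (D.pt u) (D.pt v) (pos h z)
      have h7 := dist_triangle (pos h z) (pos h z') (D.pt v)
      have h8 := dist_adj63 hh hzz
      linarith)
  refine ⟨u, v, m, fun _ => ⟨he1, huv, ?_, ?_, ?_, ?_, ?_⟩⟩
  · rw [h1, List.isChain_append, List.isChain_cons, List.isChain_append] at hl1
    exact hl1.2.1.2.1
  · intro z hz c
    by_cases hc : c ∈ e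
    · rw [he1, Sym2.mem_iff] at hc
      rcases hc with hc | hc
      · rw [hc]
        exact (h5 z hz).1
      · rw [hc]
        exact (h5 z hz).2
    · rw [mem_rect63 hh]
      intro h6
      have hzl : z ∈ l := by
        rw [h1]
        simp [hz]
      obtain ⟨t, ht, ht2⟩ := hl4 z hzl
      have h7 := hr2 e he c hc t ht
      have h8 := dist_triangle_left (D.arc e t) (D.pt c) (pos h z)
      linarith
  · rcases m with _ | ⟨x, m⟩
    · exact absurd rfl h2
    · refine ⟨x, p, rfl, h3, ?_⟩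
      rw [h1, List.isChain_append, List.isChain_cons] at hl1
      exact hl1.2.1.1 x (by simp)
  · obtain ⟨x, hx⟩ : ∃ x, m.getLast? = some x := by
      rcases hm : m.getLast? with _ | x
      · rw [List.getLast?_eq_none_iff] at hm
        exact absurd hm h2
      · exact ⟨x, rfl⟩
    refine ⟨x, q, hx, h4, ?_⟩
    rw [h1, List.isChain_append, List.isChain_cons, List.isChain_append] at hl1
    exact (hl1.2.1.2.2.2 x (by rw [hx]; rfl) q (by simp)).symm
  · intro z hz
    have hzl : z ∈ l := by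
      rw [h1]
      simp [hz]
    exact hl4 z hzl

private theorem chain_rev63 {m : List P2} (hm : List.IsChain LAdj m) : List.IsChain LAdj m.reverse := by
  rw [List.isChain_reverse]
  exact hm.imp fun a b hab => hab.symm

theorem exists_lat (D : Drawing G) : ∃ L : LatDraw G, ∀ a b c d, G.Adj a b → G.Adj c d → s(a, b) ≠ s(c, d) →
    L.Meet a b c d → D.Crosses s(a, b) s(c, d) := by
  obtain ⟨r, hr, hr1, hr2⟩ := good_radius D
  obtain ⟨δ, hδ, hδ1⟩ := good_delta D hr
  obtain ⟨h, hh, hh1, hh2⟩ : ∃ h : ℝ, 0 < h ∧ 8 * h < δ ∧ 8 * h < r := by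
    refine ⟨min δ r / 16, by positivity, ?_, ?_⟩
    · have := min_le_left δ r
      linarith
    · have := min_le_right δ r
      linarith
  choose U U' M hM using core63 D hr hh hh2 hr1 hr2
  have hW : ∀ a b, G.Adj a b → ((U s(a, b) = a ∧ U' s(a, b) = b) ∨ (U s(a, b) = b ∧ U' s(a, b) = a)) ∧ a ≠ b := by
    intro a b hab
    have h1 := (hM s(a, b) ((SimpleGraph.mem_edgeSet G).2 hab)).1
    rw [Sym2.eq_iff] at h1
    refine ⟨?_, hab.ne⟩
    rcases h1 with ⟨h1, h2⟩ | ⟨h1, h2⟩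
    · exact Or.inl ⟨h1.symm, h2.symm⟩
    · exact Or.inr ⟨h2.symm, h1.symm⟩
  obtain ⟨W, hWdef⟩ : ∃ W : V → V → List P2, ∀ a b, W a b =
      if U s(a, b) = a then M s(a, b) else (M s(a, b)).reverse := ⟨_, fun _ _ => rfl⟩
  have hmem : ∀ a b z, z ∈ W a b → z ∈ M s(a, b) := by
    intro a b z hz
    rw [hWdef] at hz
    by_cases hu : U s(a, b) = a
    · rw [if_pos hu] at hz
      exact hz
    · rw [if_neg hu, List.mem_reverse] at hz
      exact hz
  refine ⟨{ lo := fun v => lo63 h r (D.pt v)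
            hi := fun v => hi63 h r (D.pt v)
            le1 := ?_
            le2 := ?_
            disj := ?_
            W := W
            W_symm := ?_
            W_chain := ?_
            W_out := ?_
            W_head := ?_ }, ?_⟩
  · intro v
    have h1 : rnd h (D.pt v) ∈ rect (lo63 h r (D.pt v)) (hi63 h r (D.pt v)) := by
      rw [mem_rect63 hh]
      have := dist_pos_rnd hh (D.pt v)
      linarith
    exact h1.1.trans h1.2.1
  · intro v
    have h1 : rnd h (D.pt v) ∈ rect (lo63 h r (D.pt v)) (hi63 h r (D.pt v)) := by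
      rw [mem_rect63 hh]
      have := dist_pos_rnd hh (D.pt v)
      linarith
    exact h1.2.2.1.trans h1.2.2.2
  · intro u v huv z hz hz2
    rw [mem_rect63 hh] at hz hz2
    have := hr1 u v huv
    have h6 := dist_triangle_left (D.pt u) (D.pt v) (pos h z)
    linarith
  · intro a b hab
    obtain ⟨h1, h2⟩ := hW a b hab
    rw [hWdef, hWdef, Sym2.eq_swap (a := b) (b := a)]
    rcases h1 with ⟨h3, h4⟩ | ⟨h3, h4⟩
    · rw [if_pos h3, if_neg (by rw [h3]; exact h2)]
    · rw [if_pos h3, if_neg (by rw [h3]; exact h2.symm), List.reverse_reverse]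
  · intro a b hab
    have h1 := (hM s(a, b) ((SimpleGraph.mem_edgeSet G).2 hab)).2.2.1
    rw [hWdef]
    by_cases hu : U s(a, b) = a
    · rw [if_pos hu]
      exact h1
    · rw [if_neg hu]
      exact chain_rev63 h1
  · intro a b hab z hz c
    exact (hM s(a, b) ((SimpleGraph.mem_edgeSet G).2 hab)).2.2.2.1 z (hmem a b z hz) c
  · intro a b hab
    obtain ⟨h1, h2⟩ := hW a b hab
    obtain ⟨-, -, -, -, h5, h6, -⟩ := hM s(a, b) ((SimpleGraph.mem_edgeSet G).2 hab)
    rw [hWdef]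
    rcases h1 with ⟨h3, h4⟩ | ⟨h3, h4⟩
    · rw [if_pos h3]
      rw [h3] at h5
      exact h5
    · rw [if_neg (by rw [h3]; exact h2.symm), List.head?_reverse]
      rw [h4] at h6
      exact h6
  · intro a b c d hab hcd hne hmeet
    obtain ⟨z, hz1, hz2⟩ := hmeet
    have he := (SimpleGraph.mem_edgeSet G).2 hab
    have hf := (SimpleGraph.mem_edgeSet G).2 hcd
    obtain ⟨-, -, -, h5, -, -, h6⟩ := hM s(a, b) he
    obtain ⟨-, -, -, h5', -, -, h6'⟩ := hM s(c, d) hf
    obtain ⟨s, hs, hs2⟩ := h6 z (hmem a b z hz1)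
    obtain ⟨t, ht, ht2⟩ := h6' z (hmem c d z hz2)
    by_contra hcr
    have h7 := hδ1 _ he _ hf hne hcr s hs t ht
      (by
        intro v
        have h8 := h5 z (hmem a b z hz1) v
        rw [mem_rect63 hh, not_le] at h8
        have h9 := dist_triangle (pos h z) (D.arc s(a, b) s) (D.pt v)
        linarith)
      (by
        intro v
        have h8 := h5' z (hmem c d z hz2) v
        rw [mem_rect63 hh, not_le] at h8
        have h9 := dist_triangle (pos h z) (D.arc s(c, d) t) (D.pt v)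
        linarith)
    have h8 := dist_triangle_left (D.arc s(a, b) s) (D.arc s(c, d) t) (pos h z)
    linarith

theorem exists_lat_mp (D : Drawing G) {k : ℕ} (hk : D.MatchingPlanar k) : ∃ L : LatDraw G, L.MP k := by
  obtain ⟨L, hL⟩ := exists_lat D
  refine ⟨L, ?_⟩
  intro a b hab M hM hM2
  refine hk s(a, b) ((SimpleGraph.mem_edgeSet G).2 hab) M ?_ hM2
  intro f hf
  obtain ⟨c, d, h1, h2, h3, h4⟩ := hM f hf
  rw [h1]
  exact ⟨(SimpleGraph.mem_edgeSet G).2 h2, h3, hL a b c d hab h2 h3.symm h4⟩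

end Pool.Agent.Helper46.RM
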