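import Pool.Agent.Helper46.RM.Defs

/-!
# Block RM-KR: minimum spanning forests (no finiteness).

`below G wt n`: the edges of `G` of weight `< n`. `kru G wt`: the edges `x y` of `G` whose ends are not joined by lighter edges of `G`.
* `kru_reach`: for `G.Adj x y`, `x` and `y` are joined in `kru G wt`: strong induction on `wt s(x, y)`: either the edge is in `kru`, or there
  is a walk in `below G wt (wt s(x,y))` and the ends of each of its edges are joined in `kru` by the induction hypothesis.
* `kru_acyclic`: suppose there is a cycle `c` in `kru G wt` (weights are injective on edges). Take the edge `x y` of the cycle with the largest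
  weight; rotate the cycle so that it starts with this edge; the rest of the cycle is a walk from `y` to `x` whose edges are different from
  `s(x, y)` (cycles are trails) and so have smaller weight: `below` joins `x` and `y`, contradiction. (Alternatively via
  `SimpleGraph.isAcyclic_iff_forall_adj_isBridge` / `isBridge_iff_adj_and_forall_cycle_notMem`.)
* `kru_mono`: if `G ≤ G'`, an edge of `kru G'` which is an edge of `G` is an edge of `kru G` (`below G ≤ below G'`).
-/

namespace Pool.Agent.Helper46.RM

variable {V : Type*}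

def below (G : SimpleGraph V) (wt : Sym2 V → ℕ) (n : ℕ) : SimpleGraph V where
  Adj x y := G.Adj x y ∧ wt s(x, y) < n
  symm := ⟨fun x y h => ⟨h.1.symm, by rw [Sym2.eq_swap]; exact h.2⟩⟩
  loopless := ⟨fun x h => G.loopless.irrefl x h.1⟩

def kru (G : SimpleGraph V) (wt : Sym2 V → ℕ) : SimpleGraph V where
  Adj x y := G.Adj x y ∧ ¬ (below G wt (wt s(x, y))).Reachable x y
  symm := ⟨fun x y h => ⟨h.1.symm, fun h1 => h.2 (by rw [Sym2.eq_swap]; exact h1.symm)⟩⟩
  loopless := ⟨fun x h => G.loopless.irrefl x h.1⟩

variable {G G' : SimpleGraph V} {wt : Sym2 V → ℕ}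

theorem kru_le : kru G wt ≤ G := fun _ _ h => h.1

theorem kru_mono (h : G ≤ G') {x y : V} (h1 : (kru G' wt).Adj x y) (h2 : G.Adj x y) : (kru G wt).Adj x y := by
  refine ⟨h2, fun h3 => h1.2 (h3.mono ?_)⟩
  intro a b hab
  exact ⟨h hab.1, hab.2⟩

private theorem reach_aux63 {H K : SimpleGraph V} (hHK : ∀ a b, H.Adj a b → K.Reachable a b) {x y : V}
    (w : H.Walk x y) : K.Reachable x y := by
  induction w with
  | nil => exact SimpleGraph.Reachable.refl _
  | cons h _ ih => exact (hHK _ _ h).trans ih

theorem kru_reach {x y : V} (h : G.Adj x y) : (kru G wt).Reachable x y := by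
  obtain ⟨n, hn⟩ : ∃ n, wt s(x, y) = n := ⟨_, rfl⟩
  induction n using Nat.strong_induction_on generalizing x y with
  | _ n ih =>
    by_cases hr : (below G wt (wt s(x, y))).Reachable x y
    · obtain ⟨w⟩ := hr
      refine reach_aux63 ?_ w
      intro a b hab
      exact ih (wt s(a, b)) (by rw [← hn]; exact hab.2) hab.1 rfl
    · exact SimpleGraph.Adj.reachable (G := kru G wt) ⟨h, hr⟩

theorem kru_reachable_iff {x y : V} : (kru G wt).Reachable x y ↔ G.Reachable x y := by
  constructor
  · intro h
    exact h.mono kru_le
  · rintro ⟨w⟩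
    exact reach_aux63 (fun a b hab => kru_reach hab) w

theorem kru_acyclic (hw : Function.Injective wt) : (kru G wt).IsAcyclic := by
  classical
  intro v c hc
  have hne : c.edges.toFinset.Nonempty := by
    rw [List.toFinset_nonempty_iff]
    intro h0
    have h1 := c.length_edges
    rw [h0] at h1
    have h2 := hc.three_le_length
    simp only [List.length_nil] at h1
    omega
  obtain ⟨e, he, hmax⟩ := Finset.exists_max_image c.edges.toFinset wt hne
  rw [List.mem_toFinset] at he
  induction e using Sym2.ind with
  | _ x y =>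
    have hH : ∀ e ∈ c.edges, e ∈ (SimpleGraph.fromEdgeSet {e | e ∈ c.edges}).edgeSet := by
      intro e he
      rw [SimpleGraph.edgeSet_fromEdgeSet]
      exact ⟨he, SimpleGraph.not_isDiag_of_mem_edgeSet _ (c.edges_subset_edgeSet he)⟩
    have hc' := hc.transfer hH
    have key := (SimpleGraph.adj_and_reachable_delete_edges_iff_exists_cycle (v := x) (w := y)).2
      ⟨v, _, hc', by rw [SimpleGraph.Walk.edges_transfer]; exact he⟩
    have hxy : (kru G wt).Adj x y := c.adj_of_mem_edges he
    apply hxy.2
    refine key.2.mono ?_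
    intro a b hab
    rw [SimpleGraph.deleteEdges_adj, SimpleGraph.fromEdgeSet_adj] at hab
    obtain ⟨⟨h1, h2⟩, h3⟩ := hab
    have h4 : s(a, b) ∈ c.edges := h1
    refine ⟨(c.adj_of_mem_edges h4).1, lt_of_le_of_ne (hmax _ (List.mem_toFinset.2 h4)) ?_⟩
    intro h5
    exact h3 (hw h5)

end Pool.Agent.Helper46.RM
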