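import Pool.Agent.Helper46.RM.Sys
import Pool.Agent.Helper46.RM.Kru

/-!
# Project RM: the level system and the routes. Definitions, part 7.

`LSys ι`: a set `S` of lattice points with a root `r`, colour classes `T c`, weights of lattice edges, an ordering of finite colour sets.
`MC C`: the points of `S` with all colours in `C`; `GC C`: the lattice graph on `MC C`; `FC C`: its minimum spanning forest.
`InV C x`: `x ∈ MC C` is joined to `r` in `MC C`. `lev x`: the smallest size of such a `C`; `cmin x`: the first such `C` of size `lev x`.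
`par C x`: the neighbour of `x` in `FC C` on the way to `r`. `qq C x`: the path in `FC C` from `r` to `x` (positions `0 .. dist`).
The route of `x`: states `(C, z)`, starting at `(cmin x, x)`; the next point is `par C z`, and `C` is replaced by `cmin` of the next point if the level of the
next point is smaller than `|C|`. `rt x k`, `stC x k`: point and colour set of the state number `k`; `rlen x`: the first `k` with `rt x k = r`.
`px x t`: the first point of level `t` on the route of `x`, `pst x t` its number.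
-/

namespace Pool.Agent.Helper46.RM

open scoped Classical

noncomputable section

structure LSys (ι : Type*) where
  S : Set P2
  T : ι → Set P2
  r : P2
  wt : Sym2 P2 → ℕ
  ord : Finset ι → ℕ

variable {ι : Type*}

structure LSys.OK (L : LSys ι) : Prop where
  T_conn : ∀ c, ConnSet (L.T c)
  r_mem : L.r ∈ L.S
  r_col : ∀ c, L.r ∉ L.T c
  wt_inj : Function.Injective L.wt
  ord_inj : Function.Injective L.ord

def LSys.MC (L : LSys ι) (C : Finset ι) : Set P2 := {x | x ∈ L.S ∧ ∀ c, x ∈ L.T c → c ∈ C}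

def LSys.GC (L : LSys ι) (C : Finset ι) : SimpleGraph P2 where
  Adj x y := x ∈ L.MC C ∧ y ∈ L.MC C ∧ LAdj x y
  symm := ⟨fun _ _ h => ⟨h.2.1, h.1, h.2.2.symm⟩⟩
  loopless := ⟨fun x h => not_LAdj_self x h.2.2⟩

def LSys.FC (L : LSys ι) (C : Finset ι) : SimpleGraph P2 := kru (L.GC C) L.wt

def LSys.InV (L : LSys ι) (C : Finset ι) (x : P2) : Prop := x ∈ L.MC C ∧ (L.FC C).Reachable L.r x

def LSys.lev (L : LSys ι) (x : P2) : ℕ := sInf {n | ∃ C : Finset ι, C.card = n ∧ L.InV C x}

def LSys.cmin (L : LSys ι) (x : P2) : Finset ι :=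
  if h : ∃ C : Finset ι, (C.card = L.lev x ∧ L.InV C x) ∧ ∀ C' : Finset ι, C'.card = L.lev x → L.InV C' x → L.ord C ≤ L.ord C'
  then h.choose else ∅

/-- the distance to the root in `FC C` -/
def LSys.dd (L : LSys ι) (C : Finset ι) (x : P2) : ℕ := (L.FC C).dist x L.r

def LSys.par (L : LSys ι) (C : Finset ι) (x : P2) : P2 :=
  if h : ∃ y, (L.FC C).Adj x y ∧ L.dd C y + 1 = L.dd C x then h.choose else x

def LSys.qq (L : LSys ι) (C : Finset ι) (x : P2) (a : ℕ) : P2 := (L.par C)^[L.dd C x - a] x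

def LSys.nxt (L : LSys ι) (σ : Finset ι × P2) : Finset ι × P2 :=
  if σ.2 = L.r then σ
  else if L.lev (L.par σ.1 σ.2) < σ.1.card then (L.cmin (L.par σ.1 σ.2), L.par σ.1 σ.2)
  else (σ.1, L.par σ.1 σ.2)

def LSys.st (L : LSys ι) (x : P2) (k : ℕ) : Finset ι × P2 := (L.nxt)^[k] (L.cmin x, x)

def LSys.stC (L : LSys ι) (x : P2) (k : ℕ) : Finset ι := (L.st x k).1

def LSys.rt (L : LSys ι) (x : P2) (k : ℕ) : P2 := (L.st x k).2

def LSys.rlen (L : LSys ι) (x : P2) : ℕ := sInf {k | L.rt x k = L.r}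

def LSys.pst (L : LSys ι) (x : P2) (t : ℕ) : ℕ := sInf {k | L.lev (L.rt x k) = t}

def LSys.px (L : LSys ι) (x : P2) (t : ℕ) : P2 := L.rt x (L.pst x t)

/-- the route as a list -/
def LSys.rlist (L : LSys ι) (x : P2) : List P2 := (List.range (L.rlen x + 1)).map (L.rt x)

/-- the two paths `qq C X`, `qq C' X'`: one of them visits the end of the other, or they have crossing passes -/
def LSys.Pair (L : LSys ι) (C C' : Finset ι) (X X' : P2) : Prop :=
  (X ∈ L.MC (C ∩ C') ∧ ∃ a, a ≤ L.dd C' X' ∧ (L.FC (C ∩ C')).Reachable X (L.qq C' X' a)) ∨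
  (X' ∈ L.MC (C ∩ C') ∧ ∃ a, a ≤ L.dd C X ∧ (L.FC (C ∩ C')).Reachable X' (L.qq C X a)) ∨
  ∃ z, z ∈ L.MC (C ∩ C') ∧ L.lev z = C.card ∧ ∃ a b a' b', IsPass (L.FC (C ∩ C')) z (L.qq C X) (L.dd C X) a b ∧
    IsPass (L.FC (C ∩ C')) z (L.qq C' X') (L.dd C' X') a' b' ∧
    cross (seg (L.qq C X) a b) (seg (L.qq C' X') a' b') = 1

end

end Pool.Agent.Helper46.RM
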