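import Pool.Agent.Helper46.RM.Lev

/-!
# Block RM-L1: elementary facts about the level system.

* `mc_mono`, `gc_mono`: by definition. `fc_forest`: `kru_le`, `kru_acyclic`. `fc_mem`: `kru_le`. `fc_span`: `kru_reach`.
* `fc_adj_mono`: `kru_mono`. `fc_reach_mono`, `inV_mono`: `kru_reachable_iff` and `SimpleGraph.Reachable.mono`.
* `inV_walk`: `kru_reachable_iff`; a walk in `GC C` is a lattice walk with all points in `MC C` and conversely (the first point is `r ∈ MC C`).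
* `lev_le`: `Nat.sInf_le`. `lev_r`: `InV ∅ r`. `lev_pos`: a point joined to `r` in `MC ∅`... `lev x = 0` iff `InV ∅ x`.
* `cmin_spec`: the set of sizes is not empty, so `lev x` is one of them (`Nat.sInf_mem`); among the `C` of this size with `InV C x` choose one with the smallest
  `ord` (well-founded induction on `ℕ`).
* `cmin_unique`: both sets have the same size and contain both points, so `ord` of each is at most that of the other.
-/

namespace Pool.Agent.Helper46.RM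

open scoped Classical

variable {ι : Type*} {L : LSys ι}

theorem LSys.mc_mono {K C : Finset ι} (h : K ⊆ C) {x : P2} (hx : x ∈ L.MC K) : x ∈ L.MC C :=
  ⟨hx.1, fun c hc => h (hx.2 c hc)⟩

theorem LSys.mc_inter {C C' : Finset ι} {x : P2} (hx : x ∈ L.MC C) (hx' : x ∈ L.MC C') : x ∈ L.MC (C ∩ C') :=
  ⟨hx.1, fun c hc => Finset.mem_inter.2 ⟨hx.2 c hc, hx'.2 c hc⟩⟩

theorem LSys.OK.r_mc (_h : L.OK) (C : Finset ι) : L.r ∈ L.MC C :=
  ⟨_h.r_mem, fun c hc => absurd hc (_h.r_col c)⟩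

theorem LSys.OK.fc_forest (h : L.OK) (C : Finset ι) : Forest (L.FC C) where
  le := fun _ _ hxy => hxy.1.2.2
  ac := kru_acyclic h.wt_inj

private theorem gc_le63 {K C : Finset ι} (h : K ⊆ C) : L.GC K ≤ L.GC C := by
  intro x y hxy
  exact ⟨LSys.mc_mono h hxy.1, LSys.mc_mono h hxy.2.1, hxy.2.2⟩

theorem LSys.OK.fc_mem (_h : L.OK) {C : Finset ι} {x y : P2} (hx : (L.FC C).Adj x y) : x ∈ L.MC C :=
  hx.1.1

theorem LSys.OK.fc_span (_h : L.OK) {C : Finset ι} {x y : P2} (hx : x ∈ L.MC C) (hy : y ∈ L.MC C) (hxy : LAdj x y) :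
    (L.FC C).Reachable x y :=
  kru_reach (G := L.GC C) ⟨hx, hy, hxy⟩

theorem LSys.OK.fc_adj_mono (_h : L.OK) {K C : Finset ι} (hK : K ⊆ C) {x y : P2} (hxy : (L.FC C).Adj x y)
    (hx : x ∈ L.MC K) (hy : y ∈ L.MC K) : (L.FC K).Adj x y :=
  kru_mono (gc_le63 hK) hxy ⟨hx, hy, hxy.1.2.2⟩

theorem LSys.OK.fc_reach_mono (_h : L.OK) {K C : Finset ι} (hK : K ⊆ C) {x y : P2} (hxy : (L.FC K).Reachable x y) :
    (L.FC C).Reachable x y :=
  kru_reachable_iff.2 ((kru_reachable_iff.1 hxy).mono (gc_le63 hK))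

/-- a component of `FC C` stays in `MC C` -/
theorem LSys.OK.fc_reach_mem (_h : L.OK) {C : Finset ι} {x y : P2} (hx : x ∈ L.MC C) (hxy : (L.FC C).Reachable x y) :
    y ∈ L.MC C := by
  obtain ⟨w⟩ := hxy
  induction w with
  | nil => exact hx
  | cons h1 _ ih => exact ih h1.1.2.1

theorem LSys.OK.inV_mono (_h : L.OK) {K C : Finset ι} (hK : K ⊆ C) {x : P2} (hx : L.InV K x) : L.InV C x :=
  ⟨LSys.mc_mono hK hx.1, _h.fc_reach_mono hK hx.2⟩

private theorem walk_aux63 {C : Finset ι} {u x : P2} (w : (L.GC C).Walk u x) (hu : u ∈ L.MC C) :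
    ∃ w' : Lat.Walk u x, ∀ y ∈ w'.support, y ∈ L.MC C := by
  induction w with
  | nil =>
    refine ⟨SimpleGraph.Walk.nil, fun y hy => ?_⟩
    rw [SimpleGraph.Walk.support_nil, List.mem_singleton] at hy
    rw [hy]
    exact hu
  | cons h1 _ ih =>
    obtain ⟨w', hw'⟩ := ih h1.2.1
    refine ⟨SimpleGraph.Walk.cons (G := Lat) h1.2.2 w', fun y hy => ?_⟩
    rw [SimpleGraph.Walk.support_cons, List.mem_cons] at hy
    rcases hy with hy | hy
    · rw [hy]
      exact hu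
    · exact hw' y hy

private theorem walk_aux2_63 {C : Finset ι} {u x : P2} (w : Lat.Walk u x) (hw : ∀ y ∈ w.support, y ∈ L.MC C) :
    (L.GC C).Reachable u x := by
  induction w with
  | nil => exact SimpleGraph.Reachable.refl _
  | @cons a b c h1 w ih =>
    have hb : b ∈ L.MC C := hw b (by rw [SimpleGraph.Walk.support_cons]; exact List.mem_cons_of_mem _ w.start_mem_support)
    have ha : a ∈ L.MC C := hw a (by rw [SimpleGraph.Walk.support_cons]; exact List.mem_cons_self)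
    have hab : (L.GC C).Adj a b := ⟨ha, hb, h1⟩
    exact hab.reachable.trans (ih fun y hy => hw y (by
      rw [SimpleGraph.Walk.support_cons]
      exact List.mem_cons_of_mem _ hy))

theorem LSys.OK.inV_walk (_h : L.OK) {C : Finset ι} {x : P2} : L.InV C x ↔
    ∃ w : Lat.Walk L.r x, ∀ y ∈ w.support, y ∈ L.S ∧ ∀ c, y ∈ L.T c → c ∈ C := by
  constructor
  · rintro ⟨hx, hr⟩
    obtain ⟨w⟩ := kru_reachable_iff.1 hr
    exact walk_aux63 w (_h.r_mc C)
  · rintro ⟨w, hw⟩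
    exact ⟨hw x w.end_mem_support, kru_reachable_iff.2 (walk_aux2_63 w hw)⟩

theorem LSys.OK.lev_le (_h : L.OK) {C : Finset ι} {x : P2} (hx : L.InV C x) : L.lev x ≤ C.card :=
  Nat.sInf_le ⟨C, rfl, hx⟩

theorem LSys.OK.lev_r (_h : L.OK) : L.lev L.r = 0 := by
  have h1 : L.InV ∅ L.r := ⟨_h.r_mc ∅, SimpleGraph.Reachable.refl _⟩
  have h2 := _h.lev_le h1
  rw [Finset.card_empty] at h2
  exact Nat.le_zero.1 h2

theorem LSys.OK.cmin_spec (_h : L.OK) {x : P2} (hx : ∃ C, L.InV C x) : (L.cmin x).card = L.lev x ∧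
    L.InV (L.cmin x) x ∧ ∀ C' : Finset ι, C'.card = L.lev x → L.InV C' x → L.ord (L.cmin x) ≤ L.ord C' := by
  have hne : {C : Finset ι | C.card = L.lev x ∧ L.InV C x}.Nonempty := by
    obtain ⟨C0, hC0⟩ := hx
    have h1 : {n | ∃ C : Finset ι, C.card = n ∧ L.InV C x}.Nonempty := ⟨C0.card, C0, rfl, hC0⟩
    obtain ⟨C, hC, hC2⟩ := Nat.sInf_mem h1
    exact ⟨C, hC, hC2⟩
  have h1 : ∃ C : Finset ι, (C.card = L.lev x ∧ L.InV C x) ∧
      ∀ C' : Finset ι, C'.card = L.lev x → L.InV C' x → L.ord C ≤ L.ord C' := by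
    obtain ⟨C, hC, hmin⟩ := (measure L.ord).wf.has_min _ hne
    refine ⟨C, hC, fun C' h2 h3 => ?_⟩
    exact not_lt.1 (hmin C' ⟨h2, h3⟩)
  have h2 : L.cmin x = h1.choose := by
    unfold LSys.cmin
    rw [dif_pos h1]
  rw [h2]
  exact ⟨h1.choose_spec.1.1, h1.choose_spec.1.2, h1.choose_spec.2⟩

theorem LSys.OK.cmin_unique (_h : L.OK) {x y : P2} (hx : L.InV (L.cmin y) x) (hy : L.InV (L.cmin x) y)
    (hxy : L.lev x = L.lev y) : L.cmin x = L.cmin y := by
  obtain ⟨h1, h2, h3⟩ := _h.cmin_spec ⟨_, hx⟩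
  obtain ⟨h4, h5, h6⟩ := _h.cmin_spec ⟨_, hy⟩
  apply _h.ord_inj
  apply le_antisymm
  · exact h3 _ (by rw [h4, hxy]) hx
  · exact h6 _ (by rw [h1, hxy]) hy

end Pool.Agent.Helper46.RM
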