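import Pool.Agent.Helper46.RM.Lev1

/-!
# Block RM-L2: the paths `qq C x`.

* `par_spec`: `x ≠ r` is joined to `r` in `FC C`: the second point `y` of a shortest walk from `x` to `r` is adjacent to `x` and `dist y r + 1 = dist x r`.
* Let `y a = qq C x a = (par C)^[dd C x - a] x`. By induction on `k ≤ dd C x`: `InV C ((par C)^[k] x)` and `dd C ((par C)^[k] x) = dd C x - k`. A point with
  `dd C = 0` joined to `r` is `r` (`SimpleGraph.Reachable.dist_eq_zero_iff`).
* `qq_trail`: injective since `dd C (qq a) = a`; steps by `fc_adj_mono`.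
-/

namespace Pool.Agent.Helper46.RM

open scoped Classical

variable {ι : Type*} {L : LSys ι}

theorem LSys.OK.par_spec (h : L.OK) {C : Finset ι} {x : P2} (hx : L.InV C x) (hr : x ≠ L.r) :
    (L.FC C).Adj x (L.par C x) ∧ L.dd C (L.par C x) + 1 = L.dd C x ∧ L.InV C (L.par C x) := by
  have hex : ∃ y, (L.FC C).Adj x y ∧ L.dd C y + 1 = L.dd C x := by
    obtain ⟨w, hw⟩ := hx.2.symm.exists_walk_length_eq_dist
    cases w with
    | nil => exact (hr rfl).elim
    | @cons _ y _ hadj p =>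
      refine ⟨y, hadj, ?_⟩
      have h1 : (L.FC C).dist y L.r ≤ p.length := SimpleGraph.dist_le p
      rw [SimpleGraph.Walk.length_cons] at hw
      obtain ⟨w2, hw2⟩ := p.reachable.exists_walk_length_eq_dist
      have h2 : (L.FC C).dist x L.r ≤ (SimpleGraph.Walk.cons hadj w2).length := SimpleGraph.dist_le _
      rw [SimpleGraph.Walk.length_cons] at h2
      unfold LSys.dd
      omega
  have h1 : (L.FC C).Adj x (L.par C x) ∧ L.dd C (L.par C x) + 1 = L.dd C x := by
    unfold LSys.par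
    rw [dif_pos hex]
    exact hex.choose_spec
  exact ⟨h1.1, h1.2, h.fc_mem h1.1.symm, hx.2.trans h1.1.reachable⟩

theorem LSys.OK.dd_pos (h : L.OK) {C : Finset ι} {x : P2} (hx : L.InV C x) : L.dd C x = 0 ↔ x = L.r := by
  unfold LSys.dd
  exact hx.2.symm.dist_eq_zero_iff

private theorem iter61 (h : L.OK) {C : Finset ι} {x : P2} (hx : L.InV C x) (k : ℕ) (hk : k ≤ L.dd C x) :
    L.InV C ((L.par C)^[k] x) ∧ L.dd C ((L.par C)^[k] x) = L.dd C x - k := by
  induction k with
  | zero => exact ⟨hx, by simp⟩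
  | succ k ih =>
    obtain ⟨h1, h2⟩ := ih (by omega)
    rw [Function.iterate_succ_apply']
    have h3 : (L.par C)^[k] x ≠ L.r := by
      intro h4
      have h5 := (h.dd_pos h1).2 h4
      omega
    obtain ⟨_, h5, h6⟩ := h.par_spec h1 h3
    exact ⟨h6, by omega⟩

theorem LSys.OK.qq_zero (h : L.OK) {C : Finset ι} {x : P2} (hx : L.InV C x) : L.qq C x 0 = L.r := by
  obtain ⟨h1, h2⟩ := iter61 h hx (L.dd C x) le_rfl
  unfold LSys.qq
  rw [Nat.sub_zero]
  exact (h.dd_pos h1).1 (by omega)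

theorem LSys.qq_end {C : Finset ι} {x : P2} : L.qq C x (L.dd C x) = x := by
  unfold LSys.qq
  rw [Nat.sub_self]
  rfl

theorem LSys.OK.qq_inV (h : L.OK) {C : Finset ι} {x : P2} (hx : L.InV C x) (a : ℕ) : L.InV C (L.qq C x a) :=
  (iter61 h hx (L.dd C x - a) (by omega)).1

theorem LSys.OK.qq_dd (h : L.OK) {C : Finset ι} {x : P2} (hx : L.InV C x) {a : ℕ} (ha : a ≤ L.dd C x) :
    L.dd C (L.qq C x a) = a := by
  have h1 := (iter61 h hx (L.dd C x - a) (by omega)).2
  unfold LSys.qq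
  omega

theorem LSys.OK.qq_par (h : L.OK) {C : Finset ι} {x : P2} (hx : L.InV C x) {a : ℕ} (ha : a < L.dd C x) :
    L.par C (L.qq C x (a + 1)) = L.qq C x a := by
  unfold LSys.qq
  rw [← Function.iterate_succ_apply' (L.par C)]
  congr 2
  omega

theorem LSys.OK.qq_adj (h : L.OK) {C : Finset ι} {x : P2} (hx : L.InV C x) {a : ℕ} (ha : a < L.dd C x) :
    (L.FC C).Adj (L.qq C x a) (L.qq C x (a + 1)) := by
  have h1 := h.qq_inV hx (a + 1)
  have h2 : L.qq C x (a + 1) ≠ L.r := by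
    intro h3
    have h4 := (h.dd_pos h1).2 h3
    rw [h.qq_dd hx (by omega)] at h4
    omega
  have h3 := (h.par_spec h1 h2).1
  rw [h.qq_par hx ha] at h3
  exact h3.symm

theorem LSys.OK.qq_inj (h : L.OK) {C : Finset ι} {x : P2} (hx : L.InV C x) {a b : ℕ} (ha : a ≤ L.dd C x)
    (hb : b ≤ L.dd C x) (hab : L.qq C x a = L.qq C x b) : a = b := by
  rw [← h.qq_dd hx ha, ← h.qq_dd hx hb, hab]

theorem LSys.OK.qq_trail (h : L.OK) {K C : Finset ι} (hK : K ⊆ C) {x : P2} (hx : L.InV C x) :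
    TrailOK (L.FC K) (L.MC K) (L.qq C x) (L.dd C x) where
  inj := fun _ _ ha hb hab => h.qq_inj hx ha hb hab
  adj := fun _ ha => (h.fc_forest C).le _ _ (h.qq_adj hx ha)
  fst := fun _ ha h1 h2 => h.fc_adj_mono hK (h.qq_adj hx ha) h1 h2

end Pool.Agent.Helper46.RM
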