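import Pool.Agent.Helper46.RM.Lev2

/-!
# Block RM-L3: the route of a point.

* `st_inv`: induction on `k`: `InV (stC x k) (rt x k)` and `(stC x k).card = lev (rt x k)`. Step: `y = par C z` has `InV C y` (`par_spec`), so `lev y ≤ C.card`
  (`lev_le`); if `lev y < C.card` the new set is `cmin y` (`cmin_spec`), otherwise `lev y = C.card`.
* `rt_succ`, `stC_succ_eq`, `stC_succ_lt`: by definition of `nxt` (with `st_inv`). `lev_anti`: from `st_inv`.
* `exists_end`: strong induction on `lev (rt x k)`, then on `dd (stC x k) (rt x k)`: each step that does not reach `r` lowers the level or keeps the set and lowers `dd`.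
* `rt_inj`: for `k < k' ≤ rlen x` with `rt x k = rt x k'` all levels between are equal, so the sets are equal (`stC_succ_eq`), and `dd` decreases strictly.
* `rt_adj`: `par_spec`, `fc_forest.le`.
* `st_merge`: `Function.iterate_add_apply`.
* `route_cols`: points of the same level have the same set `stC` (levels do not increase, `stC_succ_eq`); let `U` be the union over `t ≤ lev x` of the set
  `stC x k` for some `k` with `lev (rt x k) = t` (empty if there is none); `t = 0` gives the empty set, so `card ≤ (lev x + 1) * lev x`.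
  If `rt x k ∈ T c` then `c ∈ stC x k` (`InV`).
-/

namespace Pool.Agent.Helper46.RM

open scoped Classical

variable {ι : Type*} {L : LSys ι}

theorem LSys.rt_zero (x : P2) : L.rt x 0 = x := rfl

theorem LSys.stC_zero (x : P2) : L.stC x 0 = L.cmin x := rfl

private theorem st_succ50 (x : P2) (k : ℕ) : L.st x (k + 1) = L.nxt (L.st x k) := by
  unfold LSys.st
  exact Function.iterate_succ_apply' _ _ _

/-- the next state -/
private theorem step50 (x : P2) (k : ℕ) : (L.rt x k = L.r ∧ L.st x (k + 1) = L.st x k) ∨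
    (L.rt x k ≠ L.r ∧ L.lev (L.par (L.stC x k) (L.rt x k)) < (L.stC x k).card ∧
      L.st x (k + 1) = (L.cmin (L.par (L.stC x k) (L.rt x k)), L.par (L.stC x k) (L.rt x k))) ∨
    (L.rt x k ≠ L.r ∧ ¬ L.lev (L.par (L.stC x k) (L.rt x k)) < (L.stC x k).card ∧
      L.st x (k + 1) = (L.stC x k, L.par (L.stC x k) (L.rt x k))) := by
  by_cases h1 : L.rt x k = L.r
  · left
    refine ⟨h1, ?_⟩
    rw [st_succ50, LSys.nxt, if_pos]
    exact h1
  · right
    by_cases h2 : L.lev (L.par (L.stC x k) (L.rt x k)) < (L.stC x k).card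
    · left
      refine ⟨h1, h2, ?_⟩
      rw [st_succ50, LSys.nxt, if_neg (show ¬ (L.st x k).2 = L.r from h1)]
      exact if_pos h2
    · right
      refine ⟨h1, h2, ?_⟩
      rw [st_succ50, LSys.nxt, if_neg (show ¬ (L.st x k).2 = L.r from h1)]
      exact if_neg h2

theorem LSys.OK.st_inv (h : L.OK) {x : P2} (hx : ∃ C, L.InV C x) (k : ℕ) :
    L.InV (L.stC x k) (L.rt x k) ∧ (L.stC x k).card = L.lev (L.rt x k) := by
  induction k with
  | zero =>
    obtain ⟨h1, h2, -⟩ := h.cmin_spec hx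
    exact ⟨h2, h1⟩
  | succ k ih =>
    obtain ⟨i1, i2⟩ := ih
    rcases step50 (L := L) x k with ⟨h1, h2⟩ | ⟨h1, h2, h3⟩ | ⟨h1, h2, h3⟩
    · have e1 : L.stC x (k + 1) = L.stC x k := congrArg Prod.fst h2
      have e2 : L.rt x (k + 1) = L.rt x k := congrArg Prod.snd h2
      rw [e1, e2]
      exact ⟨i1, i2⟩
    · have e1 : L.stC x (k + 1) = L.cmin (L.par (L.stC x k) (L.rt x k)) := congrArg Prod.fst h3
      have e2 : L.rt x (k + 1) = L.par (L.stC x k) (L.rt x k) := congrArg Prod.snd h3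
      obtain ⟨-, -, h4⟩ := h.par_spec i1 h1
      obtain ⟨h5, h6, -⟩ := h.cmin_spec ⟨_, h4⟩
      rw [e1, e2]
      exact ⟨h6, h5⟩
    · have e1 : L.stC x (k + 1) = L.stC x k := by
        have h9 : (L.st x (k + 1)).1 = L.stC x k := by rw [h3]
        exact h9
      have e2 : L.rt x (k + 1) = L.par (L.stC x k) (L.rt x k) := congrArg Prod.snd h3
      obtain ⟨-, -, h4⟩ := h.par_spec i1 h1
      have h5 := h.lev_le h4
      rw [e1, e2]
      exact ⟨h4, by omega⟩

theorem LSys.OK.rt_succ (h : L.OK) {x : P2} (hx : ∃ C, L.InV C x) {k : ℕ} (hk : L.rt x k ≠ L.r) :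
    L.rt x (k + 1) = L.par (L.stC x k) (L.rt x k) := by
  rcases step50 (L := L) x k with ⟨h1, _⟩ | ⟨_, _, h3⟩ | ⟨_, _, h3⟩
  · exact absurd h1 hk
  · exact congrArg Prod.snd h3
  · exact congrArg Prod.snd h3

theorem LSys.OK.lev_anti (h : L.OK) {x : P2} (hx : ∃ C, L.InV C x) {j k : ℕ} (hjk : j ≤ k) :
    L.lev (L.rt x k) ≤ L.lev (L.rt x j) := by
  induction k, hjk using Nat.le_induction with
  | base => exact le_rfl
  | succ k _ ih =>
    refine le_trans ?_ ih
    obtain ⟨i1, i2⟩ := h.st_inv hx k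
    rcases step50 (L := L) x k with ⟨_, h2⟩ | ⟨h1, _, h3⟩ | ⟨h1, _, h3⟩
    · have e2 : L.rt x (k + 1) = L.rt x k := congrArg Prod.snd h2
      rw [e2]
    · have e2 : L.rt x (k + 1) = L.par (L.stC x k) (L.rt x k) := congrArg Prod.snd h3
      rw [e2, ← i2]
      exact h.lev_le (h.par_spec i1 h1).2.2
    · have e2 : L.rt x (k + 1) = L.par (L.stC x k) (L.rt x k) := congrArg Prod.snd h3
      rw [e2, ← i2]
      exact h.lev_le (h.par_spec i1 h1).2.2

theorem LSys.OK.stC_succ_eq (h : L.OK) {x : P2} (hx : ∃ C, L.InV C x) {k : ℕ}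
    (he : L.lev (L.rt x (k + 1)) = L.lev (L.rt x k)) : L.stC x (k + 1) = L.stC x k := by
  obtain ⟨_, i2⟩ := h.st_inv hx k
  rcases step50 (L := L) x k with ⟨_, h2⟩ | ⟨_, h2, h3⟩ | ⟨_, _, h3⟩
  · exact congrArg Prod.fst h2
  · have e2 : L.rt x (k + 1) = L.par (L.stC x k) (L.rt x k) := congrArg Prod.snd h3
    rw [← e2] at h2
    omega
  · have h9 : (L.st x (k + 1)).1 = L.stC x k := by rw [h3]
    exact h9

theorem LSys.OK.stC_succ_lt (h : L.OK) {x : P2} (hx : ∃ C, L.InV C x) {k : ℕ}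
    (he : L.lev (L.rt x (k + 1)) < L.lev (L.rt x k)) : L.stC x (k + 1) = L.cmin (L.rt x (k + 1)) := by
  obtain ⟨_, i2⟩ := h.st_inv hx k
  rcases step50 (L := L) x k with ⟨_, h2⟩ | ⟨_, _, h3⟩ | ⟨_, h2, h3⟩
  · have e2 : L.rt x (k + 1) = L.rt x k := congrArg Prod.snd h2
    rw [e2] at he
    exact absurd he (lt_irrefl _)
  · have e1 : L.stC x (k + 1) = L.cmin (L.par (L.stC x k) (L.rt x k)) := congrArg Prod.fst h3
    have e2 : L.rt x (k + 1) = L.par (L.stC x k) (L.rt x k) := congrArg Prod.snd h3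
    rw [e1, e2]
  · have e2 : L.rt x (k + 1) = L.par (L.stC x k) (L.rt x k) := congrArg Prod.snd h3
    rw [← e2] at h2
    omega

private theorem stC_eq_aux50 (h : L.OK) {x : P2} (hx : ∃ C, L.InV C x) (j t : ℕ)
    (he : L.lev (L.rt x (j + t)) = L.lev (L.rt x j)) : L.stC x (j + t) = L.stC x j := by
  induction t with
  | zero => rfl
  | succ t ih =>
    have h1 := h.lev_anti hx (show j ≤ j + t by omega)
    have h2 := h.lev_anti hx (show j + t ≤ j + (t + 1) by omega)
    rw [← ih (by omega)]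
    exact h.stC_succ_eq hx (k := j + t) (by
      have h3 : j + (t + 1) = j + t + 1 := by omega
      rw [h3] at h2 he
      omega)

/-- points of the same level have the same colour set -/
theorem LSys.OK.stC_eq (h : L.OK) {x : P2} (hx : ∃ C, L.InV C x) {j k : ℕ}
    (he : L.lev (L.rt x j) = L.lev (L.rt x k)) : L.stC x j = L.stC x k := by
  rcases Nat.le_total j k with h1 | h1
  · obtain ⟨t, rfl⟩ := Nat.exists_eq_add_of_le h1
    exact (stC_eq_aux50 h hx j t he.symm).symm
  · obtain ⟨t, rfl⟩ := Nat.exists_eq_add_of_le h1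
    exact stC_eq_aux50 h hx k t he

/-- along a run of constant level the distance to the root decreases by one in every step -/
private theorem dd_run50 (h : L.OK) {x : P2} (hx : ∃ C, L.InV C x) (j t : ℕ)
    (hne : ∀ i, j ≤ i → i < j + t → L.rt x i ≠ L.r)
    (he : L.lev (L.rt x (j + t)) = L.lev (L.rt x j)) :
    L.dd (L.stC x j) (L.rt x (j + t)) + t = L.dd (L.stC x j) (L.rt x j) := by
  induction t with
  | zero => rfl
  | succ t ih =>
    have h1 := h.lev_anti hx (show j ≤ j + t by omega)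
    have h2 := h.lev_anti hx (show j + t ≤ j + (t + 1) by omega)
    have h3 : L.lev (L.rt x (j + t)) = L.lev (L.rt x j) := by omega
    have h4 := ih (fun i hi hi2 => hne i hi (by omega)) h3
    have h5 := stC_eq_aux50 h hx j t h3
    have h6 := hne (j + t) (by omega) (by omega)
    have h7 : L.rt x (j + (t + 1)) = L.par (L.stC x (j + t)) (L.rt x (j + t)) := h.rt_succ hx h6
    have h8 := (h.par_spec (h.st_inv hx (j + t)).1 h6).2.1
    rw [h5] at h7 h8
    rw [h7]
    omega

theorem LSys.OK.exists_end (h : L.OK) {x : P2} (hx : ∃ C, L.InV C x) : ∃ k, L.rt x k = L.r := by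
  by_contra hcon
  push Not at hcon
  obtain ⟨K, hK⟩ : sInf (Set.range fun k => L.lev (L.rt x k)) ∈ Set.range fun k => L.lev (L.rt x k) :=
    Nat.sInf_mem ⟨_, 0, rfl⟩
  have hK' : L.lev (L.rt x K) = sInf (Set.range fun k => L.lev (L.rt x k)) := hK
  have h1 := h.lev_anti hx (show K ≤ K + (L.dd (L.stC x K) (L.rt x K) + 1) by omega)
  have h2 : sInf (Set.range fun k => L.lev (L.rt x k)) ≤
      L.lev (L.rt x (K + (L.dd (L.stC x K) (L.rt x K) + 1))) := Nat.sInf_le ⟨_, rfl⟩
  have h3 := dd_run50 h hx K (L.dd (L.stC x K) (L.rt x K) + 1) (fun i _ _ => hcon i) (by omega)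
  omega

theorem LSys.OK.rt_rlen (h : L.OK) {x : P2} (hx : ∃ C, L.InV C x) : L.rt x (L.rlen x) = L.r := by
  obtain ⟨k, hk⟩ := h.exists_end hx
  have h1 : sInf {k | L.rt x k = L.r} ∈ {k | L.rt x k = L.r} := Nat.sInf_mem ⟨k, hk⟩
  exact h1

theorem LSys.rt_ne {x : P2} {k : ℕ} (hk : k < L.rlen x) : L.rt x k ≠ L.r := by
  intro h1
  exact Nat.notMem_of_lt_sInf hk h1

private theorem rt_inj_aux50 (h : L.OK) {x : P2} (hx : ∃ C, L.InV C x) {j t : ℕ} (hk : j + t ≤ L.rlen x)
    (he : L.rt x (j + t) = L.rt x j) : t = 0 := by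
  have h1 := dd_run50 h hx j t (fun i _ hi => LSys.rt_ne (by omega)) (by rw [he])
  rw [he] at h1
  omega

theorem LSys.OK.rt_inj (h : L.OK) {x : P2} (hx : ∃ C, L.InV C x) {j k : ℕ} (hj : j ≤ L.rlen x) (hk : k ≤ L.rlen x)
    (he : L.rt x j = L.rt x k) : j = k := by
  rcases Nat.le_total j k with h1 | h1
  · obtain ⟨t, rfl⟩ := Nat.exists_eq_add_of_le h1
    have := rt_inj_aux50 h hx hk he.symm
    omega
  · obtain ⟨t, rfl⟩ := Nat.exists_eq_add_of_le h1
    have := rt_inj_aux50 h hx hj he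
    omega

theorem LSys.OK.rt_adj (h : L.OK) {x : P2} (hx : ∃ C, L.InV C x) {k : ℕ} (hk : k < L.rlen x) :
    LAdj (L.rt x k) (L.rt x (k + 1)) := by
  have h1 := LSys.rt_ne hk
  rw [h.rt_succ hx h1]
  exact (h.fc_forest _).le _ _ (h.par_spec (h.st_inv hx k).1 h1).1

theorem LSys.st_merge {x y : P2} {j k : ℕ} (he : L.rt x j = L.rt y k) (hC : L.stC x j = L.stC y k) (t : ℕ) :
    L.rt x (j + t) = L.rt y (k + t) ∧ L.stC x (j + t) = L.stC y (k + t) := by
  have h1 : L.st x j = L.st y k := Prod.ext hC he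
  have h2 : L.st x (j + t) = L.st y (k + t) := by
    have e1 : ∀ z i, L.st z (i + t) = (L.nxt)^[t] (L.st z i) := by
      intro z i
      unfold LSys.st
      rw [Nat.add_comm i t, Function.iterate_add_apply]
    rw [e1, e1, h1]
  exact ⟨congrArg Prod.snd h2, congrArg Prod.fst h2⟩

theorem LSys.OK.route_cols (h : L.OK) {x : P2} (hx : ∃ C, L.InV C x) : ∃ U : Finset ι,
    U.card ≤ (L.lev x + 1) * L.lev x ∧ ∀ k c, L.rt x k ∈ L.T c → c ∈ U := by
  refine ⟨(Finset.range (L.lev x + 1)).biUnion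
    (fun t => if ht : ∃ k, L.lev (L.rt x k) = t then L.stC x ht.choose else ∅), ?_, ?_⟩
  · refine (Finset.card_biUnion_le_card_mul _ _ (L.lev x) ?_).trans ?_
    · intro t ht
      rw [Finset.mem_range] at ht
      by_cases h1 : ∃ k, L.lev (L.rt x k) = t
      · rw [dif_pos h1, (h.st_inv hx h1.choose).2, h1.choose_spec]
        omega
      · rw [dif_neg h1, Finset.card_empty]
        omega
    · rw [Finset.card_range]
  · intro k c hc
    have h0 := h.lev_anti hx (Nat.zero_le k)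
    rw [LSys.rt_zero] at h0
    rw [Finset.mem_biUnion]
    refine ⟨L.lev (L.rt x k), Finset.mem_range.2 (by omega), ?_⟩
    have h1 : ∃ k', L.lev (L.rt x k') = L.lev (L.rt x k) := ⟨k, rfl⟩
    rw [dif_pos h1, h.stC_eq hx h1.choose_spec]
    exact (h.st_inv hx k).1.1.2 c hc

end Pool.Agent.Helper46.RM
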