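import Pool.Agent.Helper46.RM.Top

/-!
# Block RM-MA: many edges force a `K_t` minor (Mader, simple version).

`TMinor t H S`: there are `t` pairwise disjoint nonempty `H`-connected subsets of `S`, any two of them joined by an edge.
Claim `tminor`: for `t ≥ 2` and a nonempty finite set `S` with `2 ^ (t - 2) * S.card ≤ eIn H S` there is a `TMinor t H S`.
Induction on `t`, inside it strong induction on `S.card`. Write `c = 2 ^ (t - 2)`.
`t = 2`: `eIn H S ≥ 1`, the two ends of an edge.
Step (`t ≥ 3`): for `U ⊆ S` let `N U` = the vertices of `S \ U` adjacent to some vertex of `U`, and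
`g U = eIn H (S \ U) + (N U).card`. Consider the nonempty `H`-connected sets `U ⊆ S` (connected inside `U`) with `c * ((S \ U).card + 1) ≤ g U`: every `{v}`
is one (`eIn H S = eIn H (S \ {v}) + deg`, so `g {v} = eIn H S ≥ c * S.card`). Choose such a `U` of maximal cardinality.
(i) If `N U = ∅`: then `S \ U` is not empty (else `c ≤ 0`) and `c * (S \ U).card ≤ eIn H (S \ U)`: induction on the size.
(ii) If `N U ≠ ∅`: for `w ∈ N U` the set `U ∪ {w}` is connected and larger, so `g (U ∪ {w}) < c * (S \ U).card`, hence
`c < g U - g (U ∪ {w}) = deg_{S \ U} w + (N U).card - (N (U ∪ {w})).card`, and `(N (U ∪ {w})).card = (N U).card - 1 +` (number of neighbours of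
`w` in `(S \ U) \ N U`), so the number of neighbours of `w` in `N U` is at least `c`. So `eIn H (N U) * 2 ≥ c * (N U).card`, i.e.
`2 ^ (t - 3) * (N U).card ≤ eIn H (N U)`: by induction on `t` there is a `TMinor (t - 1) H (N U)`; add the set `U`: every set of the
minor is a nonempty subset of `N U`, so it is joined to `U`.
`mader5`: `t = 5`.
-/

namespace Pool.Agent.Helper46.RM

open scoped Classical

variable {V : Type*} [Fintype V]

def TMinor (t : ℕ) (H : SimpleGraph V) (S : Finset V) : Prop :=
  ∃ B : Fin t → Finset V, (∀ i, (B i).Nonempty) ∧ (∀ i, B i ⊆ S) ∧ (∀ i j, i ≠ j → Disjoint (B i) (B j)) ∧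
    (∀ i, ∀ x ∈ B i, ∀ y ∈ B i, ∃ w : H.Walk x y, ∀ z ∈ w.support, z ∈ B i) ∧
    ∀ i j, i ≠ j → ∃ x ∈ B i, ∃ y ∈ B j, H.Adj x y

private noncomputable def dg_h54 (H : SimpleGraph V) (S : Finset V) (v : V) : ℕ :=
  (S.filter (fun y => H.Adj v y)).card

private def rs_h54 (H : SimpleGraph V) (S : Finset V) : SimpleGraph V where
  Adj x y := H.Adj x y ∧ x ∈ S ∧ y ∈ S
  symm := ⟨fun _ _ h => ⟨h.1.symm, h.2.2, h.2.1⟩⟩
  loopless := ⟨fun _ h => h.1.ne rfl⟩

private theorem sum_dg_h54 (H : SimpleGraph V) (S : Finset V) :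
    ∑ v ∈ S, dg_h54 H S v = 2 * eIn H S := by
  have h1 : eIn H S = (rs_h54 H S).edgeFinset.card := by
    unfold eIn
    congr 1
    ext e
    rw [Finset.mem_filter, SimpleGraph.mem_edgeFinset]
    induction e using Sym2.ind with
    | h x y =>
      rw [SimpleGraph.mem_edgeSet, SimpleGraph.mem_edgeSet]
      constructor
      · rintro ⟨-, h1, h2⟩
        exact ⟨h1, h2 x (Sym2.mem_mk_left x y), h2 y (Sym2.mem_mk_right x y)⟩
      · rintro ⟨h1, h2, h3⟩
        refine ⟨Finset.mem_univ _, h1, ?_⟩
        intro v hv
        rcases Sym2.mem_iff.1 hv with rfl | rfl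
        · exact h2
        · exact h3
  rw [h1, ← SimpleGraph.sum_degrees_eq_twice_card_edges]
  have h2 : ∀ v, (rs_h54 H S).degree v = if v ∈ S then dg_h54 H S v else 0 := by
    intro v
    rw [← SimpleGraph.card_neighborFinset_eq_degree]
    split_ifs with hv
    · unfold dg_h54
      congr 1
      ext y
      rw [SimpleGraph.mem_neighborFinset, Finset.mem_filter]
      exact ⟨fun h => ⟨h.2.2, h.1⟩, fun h => ⟨h.2, hv, h.1⟩⟩
    · rw [Finset.card_eq_zero, Finset.eq_empty_iff_forall_notMem]
      intro y hy
      rw [SimpleGraph.mem_neighborFinset] at hy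
      exact hv hy.2.1
  rw [Finset.sum_congr rfl (fun v _ => h2 v), Finset.sum_ite_mem, Finset.univ_inter]

omit [Fintype V] in
private theorem dg_erase_h54 (H : SimpleGraph V) {S : Finset V} {v : V} (hv : v ∈ S) (x : V) :
    dg_h54 H S x = dg_h54 H (S.erase v) x + if H.Adj x v then 1 else 0 := by
  unfold dg_h54
  split_ifs with h
  · have h1 : S.filter (fun y => H.Adj x y) = insert v ((S.erase v).filter (fun y => H.Adj x y)) := by
      ext y
      simp only [Finset.mem_filter, Finset.mem_insert, Finset.mem_erase]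
      constructor
      · rintro ⟨h2, h3⟩
        by_cases h4 : y = v
        · exact Or.inl h4
        · exact Or.inr ⟨⟨h4, h2⟩, h3⟩
      · rintro (rfl | ⟨⟨_, h2⟩, h3⟩)
        · exact ⟨hv, h⟩
        · exact ⟨h2, h3⟩
    rw [h1, Finset.card_insert_of_notMem]
    simp
  · rw [add_zero]
    congr 1
    ext y
    simp only [Finset.mem_filter, Finset.mem_erase]
    constructor
    · rintro ⟨h2, h3⟩
      refine ⟨⟨?_, h2⟩, h3⟩
      rintro rfl
      exact h h3
    · rintro ⟨⟨_, h2⟩, h3⟩
      exact ⟨h2, h3⟩

private theorem eIn_erase_h54 (H : SimpleGraph V) {S : Finset V} {v : V} (hv : v ∈ S) :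
    eIn H S = eIn H (S.erase v) + dg_h54 H S v := by
  have h1 := sum_dg_h54 H S
  have h2 := sum_dg_h54 H (S.erase v)
  have h3 : ∑ x ∈ S, dg_h54 H S x = dg_h54 H S v + ∑ x ∈ S.erase v, dg_h54 H S x :=
    (Finset.add_sum_erase S _ hv).symm
  have h4 : ∑ x ∈ S.erase v, dg_h54 H S x =
      ∑ x ∈ S.erase v, dg_h54 H (S.erase v) x + ∑ x ∈ S.erase v, (if H.Adj x v then 1 else 0) := by
    rw [← Finset.sum_add_distrib]
    exact Finset.sum_congr rfl (fun x _ => dg_erase_h54 H hv x)
  have h5 : ∑ x ∈ S.erase v, (if H.Adj x v then 1 else 0) = dg_h54 H S v := by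
    rw [← Finset.card_filter]
    unfold dg_h54
    congr 1
    ext y
    simp only [Finset.mem_filter, Finset.mem_erase]
    constructor
    · rintro ⟨⟨_, h2⟩, h3⟩
      exact ⟨h2, h3.symm⟩
    · rintro ⟨h2, h3⟩
      exact ⟨⟨h3.ne', h2⟩, h3.symm⟩
  omega

private def Cn_h54 (H : SimpleGraph V) (U : Finset V) : Prop :=
  ∀ x ∈ U, ∀ y ∈ U, ∃ w : H.Walk x y, ∀ z ∈ w.support, z ∈ U

omit [Fintype V] in
private theorem cn_insert_h54 {H : SimpleGraph V} {U : Finset V} (hU : Cn_h54 H U) {u w : V} (hu : u ∈ U)
    (huw : H.Adj u w) : Cn_h54 H (insert w U) := by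
  have key : ∀ y ∈ U, ∃ p : H.Walk w y, ∀ z ∈ p.support, z ∈ insert w U := by
    intro y hy
    obtain ⟨p, hp⟩ := hU u hu y hy
    refine ⟨SimpleGraph.Walk.cons huw.symm p, ?_⟩
    intro z hz
    rw [SimpleGraph.Walk.support_cons, List.mem_cons] at hz
    rcases hz with rfl | hz
    · exact Finset.mem_insert_self _ _
    · exact Finset.mem_insert_of_mem (hp z hz)
  intro x hx y hy
  rcases Finset.mem_insert.1 hx with hxw | hxU
  · rcases Finset.mem_insert.1 hy with hyw | hyU
    · rw [hxw, hyw]
      refine ⟨SimpleGraph.Walk.nil, ?_⟩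
      intro z hz
      rw [SimpleGraph.Walk.support_nil, List.mem_singleton] at hz
      rw [hz]
      exact Finset.mem_insert_self _ _
    · rw [hxw]
      exact key y hyU
  · rcases Finset.mem_insert.1 hy with hyw | hyU
    · rw [hyw]
      obtain ⟨p, hp⟩ := key x hxU
      refine ⟨p.reverse, ?_⟩
      intro z hz
      rw [SimpleGraph.Walk.support_reverse, List.mem_reverse] at hz
      exact hp z hz
    · obtain ⟨p, hp⟩ := hU x hxU y hyU
      exact ⟨p, fun z hz => Finset.mem_insert_of_mem (hp z hz)⟩

private noncomputable def nb_h54 (H : SimpleGraph V) (S U : Finset V) : Finset V :=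
  (S \ U).filter (fun w => ∃ u ∈ U, H.Adj u w)

omit [Fintype V] in
private theorem mono_h54 {t : ℕ} {H : SimpleGraph V} {S T : Finset V} (hST : S ⊆ T) (h : TMinor t H S) :
    TMinor t H T := by
  obtain ⟨B, h1, h2, h3⟩ := h
  exact ⟨B, h1, fun i => (h2 i).trans hST, h3⟩

private theorem base_h54 (H : SimpleGraph V) (S : Finset V) (h : 1 ≤ eIn H S) : TMinor 2 H S := by
  unfold eIn at h
  obtain ⟨e, he⟩ := Finset.card_pos.1 h
  rw [Finset.mem_filter] at he
  induction e using Sym2.ind with
  | h x y =>
    obtain ⟨-, h1, h2⟩ := he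
    rw [SimpleGraph.mem_edgeSet] at h1
    have hx := h2 x (Sym2.mem_mk_left x y)
    have hy := h2 y (Sym2.mem_mk_right x y)
    refine ⟨fun i => if i = 0 then {x} else {y}, ?_, ?_, ?_, ?_, ?_⟩
    · intro i
      dsimp only
      split_ifs <;> exact Finset.singleton_nonempty _
    · intro i
      dsimp only
      split_ifs
      · exact Finset.singleton_subset_iff.2 hx
      · exact Finset.singleton_subset_iff.2 hy
    · intro i j hij
      dsimp only
      split_ifs with h3 h4 h4
      · exact absurd (h3.trans h4.symm) hij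
      · exact Finset.disjoint_singleton.2 h1.ne
      · exact Finset.disjoint_singleton.2 h1.ne'
      · exfalso
        apply hij
        omega
    · intro i a ha b hb
      have h3 : a = b := by
        dsimp only at ha hb
        split_ifs at ha hb
        · rw [Finset.mem_singleton.1 ha, Finset.mem_singleton.1 hb]
        · rw [Finset.mem_singleton.1 ha, Finset.mem_singleton.1 hb]
      subst h3
      refine ⟨SimpleGraph.Walk.nil, ?_⟩
      intro z hz
      rw [SimpleGraph.Walk.support_nil, List.mem_singleton] at hz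
      rw [hz]
      exact ha
    · intro i j hij
      dsimp only
      split_ifs with h3 h4 h4
      · exact absurd (h3.trans h4.symm) hij
      · exact ⟨x, Finset.mem_singleton_self x, y, Finset.mem_singleton_self y, h1⟩
      · exact ⟨y, Finset.mem_singleton_self y, x, Finset.mem_singleton_self x, h1.symm⟩
      · exfalso
        apply hij
        omega

omit [Fintype V] in
private theorem extend_h54 {k : ℕ} {H : SimpleGraph V} {S U : Finset V} (hU : U.Nonempty) (hUS : U ⊆ S)
    (hc : Cn_h54 H U) (h : TMinor k H (nb_h54 H S U)) : TMinor (k + 1) H S := by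
  obtain ⟨B, h1, h2, h3, h4, h5⟩ := h
  have hsub : ∀ i, ∀ x ∈ B i, x ∈ S ∧ x ∉ U ∧ ∃ u ∈ U, H.Adj u x := by
    intro i x hx
    have := h2 i hx
    unfold nb_h54 at this
    rw [Finset.mem_filter, Finset.mem_sdiff] at this
    exact ⟨this.1.1, this.1.2, this.2⟩
  refine ⟨Fin.cons U B, ?_, ?_, ?_, ?_, ?_⟩
  · intro i
    refine Fin.cases ?_ (fun i => ?_) i
    · exact hU
    · exact h1 i
  · intro i
    refine Fin.cases ?_ (fun i => ?_) i
    · exact hUS
    · intro x hx
      exact (hsub i x hx).1
  · intro i j
    refine Fin.cases ?_ (fun i => ?_) i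
    · refine Fin.cases ?_ (fun j => ?_) j
      · intro h; exact absurd rfl h
      · intro _
        rw [Finset.disjoint_left]
        intro x hx hx'
        exact (hsub j x hx').2.1 hx
    · refine Fin.cases ?_ (fun j => ?_) j
      · intro _
        rw [Finset.disjoint_left]
        intro x hx hx'
        exact (hsub i x hx).2.1 hx'
      · intro h
        exact h3 i j (fun h' => h (congrArg _ h'))
  · intro i
    refine Fin.cases ?_ (fun i => ?_) i
    · exact hc
    · exact h4 i
  · intro i j
    refine Fin.cases ?_ (fun i => ?_) i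
    · refine Fin.cases ?_ (fun j => ?_) j
      · intro h; exact absurd rfl h
      · intro _
        obtain ⟨x, hx⟩ := h1 j
        obtain ⟨u, hu, hux⟩ := (hsub j x hx).2.2
        exact ⟨u, hu, x, hx, hux⟩
    · refine Fin.cases ?_ (fun j => ?_) j
      · intro _
        obtain ⟨x, hx⟩ := h1 i
        obtain ⟨u, hu, hux⟩ := (hsub i x hx).2.2
        exact ⟨x, hx, u, hu, hux.symm⟩
      · intro h
        exact h5 i j (fun h' => h (congrArg _ h'))

private theorem step_h54 (H : SimpleGraph V) (S U : Finset V) {w : V} (hw : w ∈ nb_h54 H S U) :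
    eIn H (S \ U) + (nb_h54 H S U).card ≤
      eIn H (S \ insert w U) + (nb_h54 H S (insert w U)).card + (dg_h54 H (nb_h54 H S U) w + 1) := by
  have hw1 : w ∈ S \ U := (Finset.mem_filter.1 hw).1
  have e1 : S \ insert w U = (S \ U).erase w := by
    ext x
    simp only [Finset.mem_sdiff, Finset.mem_insert, Finset.mem_erase, not_or]
    tauto
  have e2 := eIn_erase_h54 H hw1
  rw [← e1] at e2
  have e3 : dg_h54 H (S \ U) w ≤ dg_h54 H (nb_h54 H S U) w +
      (((S \ U).filter (fun y => H.Adj w y)) \ nb_h54 H S U).card := by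
    have h1 : (S \ U).filter (fun y => H.Adj w y) ⊆ (nb_h54 H S U).filter (fun y => H.Adj w y) ∪
        (((S \ U).filter (fun y => H.Adj w y)) \ nb_h54 H S U) := by
      intro y hy
      rw [Finset.mem_union]
      by_cases h2 : y ∈ nb_h54 H S U
      · left
        exact Finset.mem_filter.2 ⟨h2, (Finset.mem_filter.1 hy).2⟩
      · right
        exact Finset.mem_sdiff.2 ⟨hy, h2⟩
    exact (Finset.card_le_card h1).trans (Finset.card_union_le _ _)
  have e4 : (nb_h54 H S U).card - 1 + (((S \ U).filter (fun y => H.Adj w y)) \ nb_h54 H S U).card ≤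
      (nb_h54 H S (insert w U)).card := by
    rw [← Finset.card_erase_of_mem hw, ← Finset.card_union_of_disjoint]
    · apply Finset.card_le_card
      intro y hy
      unfold nb_h54
      rw [e1, Finset.mem_filter, Finset.mem_erase]
      rcases Finset.mem_union.1 hy with h | h
      · obtain ⟨h2, h3⟩ := Finset.mem_erase.1 h
        obtain ⟨h4, u, hu, huy⟩ := Finset.mem_filter.1 h3
        exact ⟨⟨h2, h4⟩, u, Finset.mem_insert_of_mem hu, huy⟩
      · obtain ⟨h2, h3⟩ := Finset.mem_sdiff.1 h
        obtain ⟨h4, h5⟩ := Finset.mem_filter.1 h2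
        exact ⟨⟨h5.ne', h4⟩, w, Finset.mem_insert_self _ _, h5⟩
    · rw [Finset.disjoint_left]
      intro y hy hy'
      exact (Finset.mem_sdiff.1 hy').2 (Finset.mem_erase.1 hy).2
  have e5 : 0 < (nb_h54 H S U).card := Finset.card_pos.2 ⟨w, hw⟩
  omega

theorem tminor (t : ℕ) (ht : 2 ≤ t) (H : SimpleGraph V) (S : Finset V) (hS : S.Nonempty)
    (h : 2 ^ (t - 2) * S.card ≤ eIn H S) : TMinor t H S := by
  induction t, ht using Nat.le_induction generalizing S with
  | base =>
    apply base_h54
    have := Finset.card_pos.2 hS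
    rw [Nat.sub_self, pow_zero, one_mul] at h
    omega
  | succ k hk ih =>
    obtain ⟨c, hc⟩ : ∃ c, c = 2 ^ (k + 1 - 2) := ⟨_, rfl⟩
    rw [← hc] at h
    have hc2 : c = 2 * 2 ^ (k - 2) := by
      rw [hc, ← pow_succ']
      congr 1
      omega
    have hc0 : 0 < c := by rw [hc]; positivity
    clear hc
    induction hn : S.card using Nat.strong_induction_on generalizing S with
    | _ n ihn =>
      obtain ⟨v, hv⟩ := hS
      let Gd : Finset V → Prop := fun U => U.Nonempty ∧ Cn_h54 H U ∧
        c * ((S \ U).card + 1) ≤ eIn H (S \ U) + (nb_h54 H S U).card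
      have hGv : Gd {v} := by
        refine ⟨Finset.singleton_nonempty v, ?_, ?_⟩
        · intro x hx y hy
          rw [Finset.mem_singleton] at hx hy
          subst hx
          subst hy
          refine ⟨SimpleGraph.Walk.nil, ?_⟩
          intro z hz
          rw [SimpleGraph.Walk.support_nil] at hz
          rw [Finset.mem_singleton]
          exact List.mem_singleton.1 hz
        · have e1 : S \ {v} = S.erase v := Finset.sdiff_singleton_eq_erase v S
          have e2 : (nb_h54 H S {v}).card = dg_h54 H S v := by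
            unfold nb_h54 dg_h54
            congr 1
            rw [e1]
            ext y
            simp only [Finset.mem_filter, Finset.mem_erase, Finset.mem_singleton, exists_eq_left]
            constructor
            · rintro ⟨⟨_, h2⟩, h3⟩
              exact ⟨h2, h3⟩
            · rintro ⟨h2, h3⟩
              exact ⟨⟨h3.ne', h2⟩, h3⟩
          rw [e2, e1, ← eIn_erase_h54 H hv, Finset.card_erase_of_mem hv]
          have : S.card - 1 + 1 = S.card := by
            have := Finset.card_pos.2 ⟨v, hv⟩
            omega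
          rw [this]
          exact h
      obtain ⟨U, hU, hmax⟩ := Finset.exists_max_image (S.powerset.filter Gd) Finset.card
        ⟨{v}, Finset.mem_filter.2 ⟨Finset.mem_powerset.2 (Finset.singleton_subset_iff.2 hv), hGv⟩⟩
      rw [Finset.mem_filter, Finset.mem_powerset] at hU
      obtain ⟨hUS, hUne, hUc, hUg⟩ := hU
      by_cases hN : nb_h54 H S U = ∅
      · rw [hN, Finset.card_empty, add_zero] at hUg
        have hne : (S \ U).Nonempty := by
          by_contra hcon
          rw [Finset.not_nonempty_iff_eq_empty] at hcon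
          have h1 := sum_dg_h54 H (S \ U)
          rw [hcon, Finset.sum_empty] at h1
          rw [hcon, Finset.card_empty] at hUg
          omega
        have hlt : (S \ U).card < n := by
          have h1 := Finset.card_sdiff_add_card_eq_card hUS
          have h2 := Finset.card_pos.2 hUne
          omega
        refine mono_h54 Finset.sdiff_subset (ihn _ hlt (S \ U) hne ?_ rfl)
        rw [Nat.mul_add, Nat.mul_one] at hUg
        omega
      · have hNne : (nb_h54 H S U).Nonempty := Finset.nonempty_iff_ne_empty.2 hN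
        apply extend_h54 hUne hUS hUc
        apply ih _ hNne
        have hdeg : ∀ w ∈ nb_h54 H S U, c ≤ dg_h54 H (nb_h54 H S U) w := by
          intro w hw
          have h1 := step_h54 H S U hw
          obtain ⟨h2, u, hu, huw⟩ := Finset.mem_filter.1 hw
          obtain ⟨h3, h4⟩ := Finset.mem_sdiff.1 h2
          have h5 : ¬ Gd (insert w U) := by
            intro h6
            have h7 := hmax (insert w U) (Finset.mem_filter.2 ⟨Finset.mem_powerset.2
              (Finset.insert_subset h3 hUS), h6⟩)
            rw [Finset.card_insert_of_notMem h4] at h7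
            omega
          have h6 : ¬ c * ((S \ insert w U).card + 1) ≤ eIn H (S \ insert w U) +
              (nb_h54 H S (insert w U)).card := fun h7 =>
            h5 ⟨Finset.insert_nonempty _ _, cn_insert_h54 hUc hu huw, h7⟩
          have h7 : (S \ insert w U).card + 1 = (S \ U).card := by
            have e1 : S \ insert w U = (S \ U).erase w := by
              ext x
              simp only [Finset.mem_sdiff, Finset.mem_insert, Finset.mem_erase, not_or]
              tauto
            rw [e1, Finset.card_erase_of_mem h2]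
            have := Finset.card_pos.2 ⟨w, h2⟩
            omega
          rw [h7] at h6
          rw [Nat.mul_add, Nat.mul_one] at hUg
          omega
        have h1 := sum_dg_h54 H (nb_h54 H S U)
        have h2 : (nb_h54 H S U).card * c ≤ ∑ w ∈ nb_h54 H S U, dg_h54 H (nb_h54 H S U) w := by
          rw [← smul_eq_mul]
          exact Finset.card_nsmul_le_sum _ _ _ hdeg
        rw [h1, hc2] at h2
        have h3 : 2 * (2 ^ (k - 2) * (nb_h54 H S U).card) ≤ 2 * eIn H (nb_h54 H S U) := by
          calc 2 * (2 ^ (k - 2) * (nb_h54 H S U).card) = (nb_h54 H S U).card * (2 * 2 ^ (k - 2)) := by ring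
            _ ≤ _ := h2
        omega

theorem mader5 (H : SimpleGraph V) (S : Finset V) (hS : S.Nonempty) (h : 8 * S.card ≤ eIn H S) : K5Minor H := by
  obtain ⟨B, h1, _, h3⟩ := tminor 5 (by norm_num) H S hS (by simpa using h)
  exact ⟨B, h1, h3⟩

end Pool.Agent.Helper46.RM
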