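import Pool.Agent.Helper46.RM.Asm2
import Pool.Agent.Helper46.RM.Inp3

/-!
# Block RM-M3: the theorem.

`ess_common`: `Ess (R.ext a b) (R.ext c d)`: the common piece `ϖ` is not empty (`EssAt`), its first point `p` is preceded and followed by points in
`ext a b = y0 :: (rt ++ [y1])`, so `p` is in `rt a b`; same for `ext c d` (also reversed).
`main_lat`: `B = 2 ^ (2k+5)`, `s0 = 2 * k * (1 + B)`, `N1` from `fan s0`, `N = max ((s0 + 1) * s0 + 1) (B + N1)`. Take `rk` from `good_rank`, `wt, ord` from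
`exists_wt, exists_ord`; `cols_card` gives `InV C (hd a v)` with `C.card ≤ s0` for all `a → v`; `R = routing ..`; `D'` from `realize`. Every edge is `s(a, v)`
with `rk a < rk v` (`rk` injective).
Matching: let `e = s(a, v)`, `M` a matching of edges crossing `e`. `route_cols` gives `U` with `U.card ≤ (lev + 1) * lev ≤ (s0 + 1) * s0` (`lev_le`) such
that all colours of points of the route of `hd a v` are in `U`. Every `f ∈ M` is `s(b, w)`, `rk b < rk w`, and `Ess (ext a v) (ext b w)` (`realize`;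
`Crosses` for `s(a, v)` and `s(b, w)`), so there is a common point `p` of `rte a v` and `rte b w` (`ess_common`), `p ∈ reg w` (`rte_out`): if `w ≠ v`, `p` has the
colour `w`, so `w ∈ U`. So every `f ∈ M` has an end in `insert v U`; the map `f ↦` this end is injective on `M` (matching): `M.card ≤ U.card + 1`.
Fan: let `M` be a set of `N` edges at `v` which cross pairwise. At most `B` of them are `s(v, b)` with `rk v < rk b` (`good_rank`); the other ones, at
least `N1`, are `s(a, v)` with `rk a < rk v`; choose `a : Fin N1 → V` injective with `s(a i, v) ∈ M` (`Finset.exists_subset_card_eq`, an enumeration). For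
`i < j` `Ess (ext (a i) v) (ext (a j) v)`, so (`ext_prefix`, `ess_sub`; a prefix is an infix) `Ess (st0 :: rlist (hd (a i) v)) (st0 :: rlist (hd (a j) v))`:
contradiction to `fan` (`st0_spec`).
`main`: `exists_lat_mp` and `main_lat`.
-/

namespace Pool.Agent.Helper46.RM

open scoped Classical

/-- a point of the common piece is not the first and not the last point -/
private theorem runs_mem88 {u w y0 y1 p : P2} {ϖ l : List P2} (h : Runs (y0 :: (l ++ [y1])) u ϖ w) (hp : p ∈ ϖ) : p ∈ l := by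
  obtain ⟨s, t, hst⟩ := h
  obtain ⟨ϖ1, ϖ2, rfl⟩ := List.append_of_mem hp
  have h1 : y0 :: (l ++ [y1]) = (s ++ [u] ++ ϖ1) ++ p :: (ϖ2 ++ [w] ++ t) := by
    rw [← hst]
    simp
  have h2 : ∃ A', s ++ [u] ++ ϖ1 = y0 :: A' := by
    rcases hA : s ++ [u] ++ ϖ1 with _ | ⟨q, A'⟩
    · simp at hA
    · rw [hA, List.cons_append, List.cons.injEq] at h1
      exact ⟨A', by rw [h1.1]⟩
  obtain ⟨A', hA'⟩ := h2
  rw [hA', List.cons_append, List.cons.injEq] at h1
  have h3 := h1.2
  have h4 : ϖ2 ++ [w] ++ t ≠ [] := by simp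
  obtain ⟨B', z, hB⟩ : ∃ B' z, ϖ2 ++ [w] ++ t = B' ++ [z] :=
    ⟨_, _, (List.dropLast_append_getLast h4).symm⟩
  rw [hB] at h3
  have h5 : l ++ [y1] = (A' ++ p :: B') ++ [z] := by
    rw [h3]
    simp
  have h6 := (List.append_inj' h5 rfl).1
  rw [h6]
  simp

theorem ess_common {V : Type*} {G : SimpleGraph V} {rk : V → ℕ} (R : Routing G rk) {a b c d : V}
    (h : Ess (R.ext a b) (R.ext c d)) : ∃ p, p ∈ R.rt a b ∧ p ∈ R.rt c d := by
  obtain ⟨u, ϖ, w, u', w', h1, h2, h3⟩ := h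
  obtain ⟨p, hp⟩ : ∃ p, p ∈ ϖ := by
    rcases ϖ with _ | ⟨p, l⟩
    · exact h1.elim
    · exact ⟨p, List.mem_cons_self⟩
  refine ⟨p, runs_mem88 h2 hp, ?_⟩
  rcases h3 with h3 | h3
  · exact runs_mem88 h3 hp
  · have h4 : (R.ext c d).reverse = R.y1 c d :: ((R.rt c d).reverse ++ [R.y0 c d]) := by
      unfold Routing.ext
      simp
    rw [h4] at h3
    exact List.mem_reverse.1 (runs_mem88 h3 hp)

private theorem orient88 {V : Type} {G : SimpleGraph V} {rk : V → ℕ} (hrk : Function.Injective rk) {e : Sym2 V}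
    (he : e ∈ G.edgeSet) : ∃ a v, e = s(a, v) ∧ G.Adj a v ∧ rk a < rk v := by
  induction e using Sym2.ind with
  | _ x y =>
    have hxy : G.Adj x y := (SimpleGraph.mem_edgeSet G).1 he
    rcases lt_trichotomy (rk x) (rk y) with h | h | h
    · exact ⟨x, y, rfl, hxy, h⟩
    · exact absurd (hrk h) hxy.ne
    · exact ⟨y, x, Sym2.eq_swap, hxy.symm, h⟩

theorem main_lat (k : ℕ) : ∃ N : ℕ, ∀ (V : Type) [Fintype V] (G : SimpleGraph V) (L : LatDraw G), L.MP k →
    ∃ D' : Drawing G, D'.Proper ∧ D'.MatchingPlanar N ∧ D'.NoFan N := by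
  obtain ⟨B, hBdef⟩ : ∃ B : ℕ, B = 2 ^ (2 * k + 5) := ⟨_, rfl⟩
  obtain ⟨s0, hs0⟩ : ∃ s0 : ℕ, s0 = 2 * k * (1 + B) := ⟨_, rfl⟩
  obtain ⟨N1, hN1⟩ := fan.{0} s0
  refine ⟨max ((s0 + 1) * s0 + 1) (B + N1), fun V _ G L hk => ?_⟩
  obtain ⟨rk, hrk, hB⟩ := good_rank L hk
  rw [← hBdef] at hB
  obtain ⟨wt, hw⟩ := exists_wt
  obtain ⟨ord, ho⟩ := exists_ord V
  have hC : ∀ a v, G.Adj a v → rk a < rk v → ∃ C : Finset V, C.card ≤ s0 ∧ (sysv L rk wt ord v).InV C (hd L a v) := by
    intro a v h hr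
    rw [hs0]
    exact cols_card L hw ho hk hB h hr
  have hC' : ∀ a v, G.Adj a v → rk a < rk v → ∃ C, (sysv L rk wt ord v).InV C (hd L a v) := by
    intro a v h hr
    obtain ⟨C, -, hC2⟩ := hC a v h hr
    exact ⟨C, hC2⟩
  obtain ⟨R, hR⟩ : ∃ R : Routing G rk, R = routing L rk wt ord hw ho hC' := ⟨_, rfl⟩
  obtain ⟨D, hD1, hD2⟩ := realize hrk R
  refine ⟨D, hD1, ?_, ?_⟩
  · intro e he M hM hM2
    refine le_trans ?_ (le_max_left _ _)
    obtain ⟨a, v, rfl, hav, hr⟩ := orient88 hrk he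
    obtain ⟨C, hC1, hC2⟩ := hC a v hav hr
    have hok := sysv_ok L rk hw ho v
    obtain ⟨U, hU1, hU2⟩ := hok.route_cols ⟨C, hC2⟩
    have hlev : (sysv L rk wt ord v).lev (hd L a v) ≤ s0 := (hok.lev_le hC2).trans hC1
    have hU3 : U.card ≤ (s0 + 1) * s0 := hU1.trans (Nat.mul_le_mul (by omega) hlev)
    have hend : ∀ f : Sym2 V, ∃ w, f ∈ M → w ∈ f ∧ w ∈ insert v U := by
      intro f
      by_cases hf : f ∈ M
      swap
      · exact ⟨v, fun h => absurd h hf⟩
      obtain ⟨hf1, hf2, hf3⟩ := hM f hf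
      obtain ⟨b, w, rfl, hbw, hr2⟩ := orient88 hrk hf1
      refine ⟨w, fun _ => ⟨Sym2.mem_mk_right b w, ?_⟩⟩
      have hne : (a, v) ≠ (b, w) := by
        intro h
        rw [Prod.mk.injEq] at h
        apply hf2
        rw [h.1, h.2]
      obtain ⟨p, hp1, hp2⟩ := ess_common R (hD2 a v b w hav hr hbw hr2 hne hf3)
      rw [hR] at hp1 hp2
      obtain ⟨-, -, j, hj⟩ := rte_out L hw ho hav hr (hC' a v hav hr) p hp1
      obtain ⟨hp3, -, -⟩ := rte_out L hw ho hbw hr2 (hC' b w hbw hr2) p hp2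
      rw [Finset.mem_insert]
      by_cases hwv : w = v
      · exact Or.inl hwv
      · right
        refine hU2 j w ?_
        rw [← hj]
        show p ∈ (if w = v then (∅ : Set P2) else reg L rk w)
        rw [if_neg hwv]
        exact hp3
    choose g hg using hend
    have h1 : M.card ≤ (insert v U).card := by
      refine Finset.card_le_card_of_injOn g (fun f hf => (hg f hf).2) ?_
      intro f hf f' hf' hff
      by_contra hne
      refine hM2 f hf f' hf' hne (g f) (hg f hf).1 ?_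
      rw [hff]
      exact (hg f' hf').1
    have h2 := Finset.card_insert_le v U
    omega
  · rintro v ⟨M, hM1, hM2, hM3⟩
    have hMc : B + N1 ≤ M.card := by
      rw [hM1]
      exact le_max_right _ _
    obtain ⟨A, hA⟩ : ∃ A : Finset V, A = Finset.univ.filter (fun a => G.Adj a v ∧ rk a < rk v ∧ s(a, v) ∈ M) := ⟨_, rfl⟩
    have hsub : M ⊆ (Finset.univ.filter (fun b => G.Adj v b ∧ rk v < rk b)).image (fun b => s(v, b)) ∪
        A.image (fun a => s(a, v)) := by
      intro f hf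
      obtain ⟨hf1, hf2⟩ := hM2 f hf
      obtain ⟨b, w, rfl, hbw, hr2⟩ := orient88 hrk hf1
      rw [Finset.mem_union, Finset.mem_image, Finset.mem_image]
      rw [Sym2.mem_iff] at hf2
      rcases hf2 with rfl | rfl
      · left
        exact ⟨w, Finset.mem_filter.2 ⟨Finset.mem_univ _, hbw, hr2⟩, rfl⟩
      · right
        refine ⟨b, ?_, rfl⟩
        rw [hA]
        exact Finset.mem_filter.2 ⟨Finset.mem_univ _, hbw, hr2, hf⟩
    have hcard : N1 ≤ A.card := by
      have h1 := (Finset.card_le_card hsub).trans (Finset.card_union_le _ _)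
      have h2 := (Finset.card_image_le (s := Finset.univ.filter (fun b => G.Adj v b ∧ rk v < rk b))
        (f := fun b => s(v, b))).trans (hB v)
      have h3 := Finset.card_image_le (s := A) (f := fun a => s(a, v))
      omega
    obtain ⟨A', hA', hA'c⟩ := Finset.exists_subset_card_eq hcard
    obtain ⟨φ, hφ1, hφ2⟩ : ∃ φ : Fin N1 → V, Function.Injective φ ∧ ∀ i, φ i ∈ A := by
      refine ⟨fun i => ((Finset.equivFinOfCardEq hA'c).symm i : V), ?_, fun i => hA' ((Finset.equivFinOfCardEq hA'c).symm i).2⟩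
      exact Subtype.val_injective.comp (Finset.equivFinOfCardEq hA'c).symm.injective
    have hφ3 : ∀ i, G.Adj (φ i) v ∧ rk (φ i) < rk v ∧ s(φ i, v) ∈ M := by
      intro i
      have h1 := hφ2 i
      rw [hA, Finset.mem_filter] at h1
      exact h1.2
    refine hN1 (sysv L rk wt ord v) (fun i => hd L (φ i) v) (fun i => st0 L (φ i) v) (sysv_ok L rk hw ho v)
      (fun i => hC (φ i) v (hφ3 i).1 (hφ3 i).2.1) (fun i => (st0_spec L (hφ3 i).1).2) ?_
    intro i j hij
    obtain ⟨hi1, hi2, hi3⟩ := hφ3 i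
    obtain ⟨hj1, hj2, hj3⟩ := hφ3 j
    have hne : φ i ≠ φ j := fun h => hij.ne (hφ1 h)
    have hne2 : s(φ i, v) ≠ s(φ j, v) := by
      intro h
      rw [Sym2.eq_iff] at h
      rcases h with ⟨h, -⟩ | ⟨h, -⟩
      · exact hne h
      · exact hi1.ne h
    have hess := hD2 (φ i) v (φ j) v hi1 hi2 hj1 hj2 (fun h => hne (Prod.mk.inj h).1) (hM3 _ hi3 _ hj3 hne2)
    rw [hR] at hess
    exact ess_sub (ext_prefix L hw ho hi1 hi2 (hC' _ _ hi1 hi2)).isInfix
      (ext_prefix L hw ho hj1 hj2 (hC' _ _ hj1 hj2)).isInfix hess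

theorem main (k : ℕ) : ∃ N : ℕ, ∀ (V : Type) [Fintype V] (G : SimpleGraph V) (D : Drawing G), D.MatchingPlanar k →
    ∃ D' : Drawing G, D'.Proper ∧ D'.MatchingPlanar N ∧ D'.NoFan N := by
  obtain ⟨N, hN⟩ := main_lat k
  refine ⟨N, fun V _ G D hD => ?_⟩
  obtain ⟨L, hL⟩ := exists_lat_mp D hD
  exact hN V G L hL

end Pool.Agent.Helper46.RM
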