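import Pool.Agent.Helper46.RM.Top
import Pool.Agent.Helper46.RM.Four

/-!
# Block RM-NK: a lattice drawing in which only adjacent edges meet has no `K_5` minor.

Suppose branch sets `B i` are given (`K5Minor H`). Choose `v i ∈ B i` and a point `c v ∈ blob v` for every vertex `v` (e.g. `lo v`).
(1) For `H.Adj a b` there is a chain `D a b` with `bd = dl (c a) + dl (c b)` which touches only points of `blob a`, `W a b`, `blob b`: go inside
the rectangle of `a` from `c a` to the point adjacent to the head of `W a b` (rectangles are connected: horizontal steps, then vertical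
steps), along `W a b`, and in the rectangle of `b` to `c b` (`W_head a b`, `W_head b a`, `W_symm`). Chains of lists: `bd_ch`, `touch_ch`.
(2) For `i ≠ j` there is a walk in `H` from `v i` to `v j` inside `B i ∪ B j` (connectedness of `B i`, `B j` and the edge between them); adding the
`D a b` along it gives `P i j` with `bd (P i j) = dl (c (v i)) + dl (c (v j))`, touching only points of `blob a`, `a ∈ B i ∪ B j`, and of `W a b`,
`a, b ∈ B i ∪ B j`, `H.Adj a b`. Take `P j i = P i j`.
(3) `five` applies to the points `c (v i)` (distinct since the rectangles are disjoint): for `m ≠ i, j` the point `c (v m)` is in `blob (v m)`,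
`v m ∉ B i ∪ B j`, and the `W a b` avoid all rectangles: not touched. For disjoint `{i, j}`, `{k, l}` no point is touched by both `P i j` and
`P k l`: the rectangles are disjoint, the walks avoid the rectangles, and walks `W a b`, `W c d` with `a, b ∈ B i ∪ B j`, `c, d ∈ B k ∪ B l` do not
meet by hypothesis; so `cross = 0` (`cross_eq_zero`).
-/

namespace Pool.Agent.Helper46.RM

open scoped Classical

variable {V : Type*} {G : SimpleGraph V}

/-- `p` and `q` are joined by a chain which touches only points of `X` -/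
private def Link (X : Set P2) (p q : P2) : Prop :=
  ∃ D : Ch, (∀ x, bd D x = dl p x + dl q x) ∧ ∀ x, Touch D x → x ∈ X

private theorem dl_self_add (p x : P2) : dl p x + dl p x = 0 := CharTwo.add_self_eq_zero _

private theorem Link.refl (X : Set P2) (p : P2) : Link X p p :=
  ⟨0, fun x => by rw [bd_zero, dl_self_add], fun x hx => absurd hx (not_touch_zero x)⟩

private theorem Link.trans {X : Set P2} {p q r : P2} (h : Link X p q) (h' : Link X q r) :
    Link X p r := by
  obtain ⟨D, h1, h2⟩ := h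
  obtain ⟨D', h3, h4⟩ := h'
  refine ⟨D + D', fun x => ?_, fun x hx => ?_⟩
  · have := dl_self_add q x
    rw [bd_add, h1, h3]
    linear_combination this
  · rcases touch_add hx with h | h
    · exact h2 x h
    · exact h4 x h

private theorem Link.symm {X : Set P2} {p q : P2} (h : Link X p q) : Link X q p := by
  obtain ⟨D, h1, h2⟩ := h
  exact ⟨D, fun x => by rw [h1, add_comm], h2⟩

private theorem Link.mono {X Y : Set P2} {p q : P2} (h : Link X p q) (hXY : X ⊆ Y) :
    Link Y p q := by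
  obtain ⟨D, h1, h2⟩ := h
  exact ⟨D, h1, fun x hx => hXY (h2 x hx)⟩

private theorem link_adj {X : Set P2} {p q : P2} (h : LAdj p q) (hp : p ∈ X) (hq : q ∈ X) :
    Link X p q := by
  refine ⟨ed p q, bd_ed h, fun x hx => ?_⟩
  rcases touch_ed hx with rfl | rfl
  · exact hp
  · exact hq

private theorem link_rect_aux {lo hi : P2} : ∀ (n : ℕ) (p : P2), p ∈ rect lo hi →
    p.1 - lo.1 + (p.2 - lo.2) = n → Link (rect lo hi) lo p := by
  intro n
  induction n with
  | zero =>
    intro p hp hn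
    obtain ⟨h1, h2, h3, h4⟩ := hp
    have e : lo = p := Prod.ext (by push_cast at hn; omega) (by push_cast at hn; omega)
    rw [e]
    exact Link.refl _ _
  | succ n ih =>
    intro p hp hn
    have hp' := hp
    obtain ⟨h1, h2, h3, h4⟩ := hp
    push_cast at hn
    by_cases h : lo.1 < p.1
    · have hm : (p.1 - 1, p.2) ∈ rect lo hi :=
        ⟨by show lo.1 ≤ p.1 - 1; omega, by show p.1 - 1 ≤ hi.1; omega, h3, h4⟩
      refine (ih (p.1 - 1, p.2) hm (by show p.1 - 1 - lo.1 + (p.2 - lo.2) = n; omega)).trans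
        (link_adj (Or.inl (Or.inl ?_)) hm hp')
      exact Prod.ext (by show p.1 = p.1 - 1 + 1; omega) rfl
    · have hm : (p.1, p.2 - 1) ∈ rect lo hi :=
        ⟨h1, h2, by show lo.2 ≤ p.2 - 1; omega, by show p.2 - 1 ≤ hi.2; omega⟩
      refine (ih (p.1, p.2 - 1) hm (by show p.1 - lo.1 + (p.2 - 1 - lo.2) = n; omega)).trans
        (link_adj (Or.inr (Or.inl ?_)) hm hp')
      exact Prod.ext rfl (by show p.2 = p.2 - 1 + 1; omega)

private theorem link_rect {lo hi p : P2} (hp : p ∈ rect lo hi) : Link (rect lo hi) lo p := by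
  obtain ⟨h1, h2, h3, h4⟩ := hp
  exact link_rect_aux (p.1 - lo.1 + (p.2 - lo.2)).toNat p ⟨h1, h2, h3, h4⟩
    (Int.toNat_of_nonneg (by omega)).symm

private theorem link_list {l : List P2} (hl : List.IsChain LAdj l) {x y : P2}
    (hx : l.head? = some x) (hy : l.getLast? = some y) : Link {z | z ∈ l} x y := by
  cases l with
  | nil => simp at hx
  | cons p l =>
    have hp : p = x := by simpa using hx
    subst hp
    have hlast : (p :: l).getLast (List.cons_ne_nil p l) = y := by
      rw [List.getLast?_eq_getLast_of_ne_nil (List.cons_ne_nil p l)] at hy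
      exact Option.some.inj hy
    refine ⟨ch (p :: l), fun z => ?_, fun z hz => touch_ch hz⟩
    rw [bd_ch p l hl, hlast]

/-- the region of a set of vertices -/
private def Reg (L : LatDraw G) (H : SimpleGraph V) (A : Set V) : Set P2 :=
  {x | (∃ a ∈ A, x ∈ rect (L.lo a) (L.hi a)) ∨ ∃ a ∈ A, ∃ b ∈ A, H.Adj a b ∧ x ∈ L.W a b}

private theorem lo_mem (L : LatDraw G) (v : V) : L.lo v ∈ rect (L.lo v) (L.hi v) :=
  ⟨le_rfl, L.le1 v, le_rfl, L.le2 v⟩

private theorem link_edge (L : LatDraw G) {H : SimpleGraph V} (hH : H ≤ G) {A : Set V} {a b : V}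
    (ha : a ∈ A) (hb : b ∈ A) (hab : H.Adj a b) : Link (Reg L H A) (L.lo a) (L.lo b) := by
  have hG : G.Adj a b := hH hab
  obtain ⟨x, y, hx, hy, hxy⟩ := L.W_head a b hG
  obtain ⟨x', y', hx', hy', hxy'⟩ := L.W_head b a hG.symm
  rw [L.W_symm a b hG, List.head?_reverse] at hx'
  have hmx : x ∈ L.W a b := List.mem_of_head? hx
  have hmx' : x' ∈ L.W a b := List.mem_of_getLast? hx'
  have r1 : rect (L.lo a) (L.hi a) ⊆ Reg L H A := fun z hz => Or.inl ⟨a, ha, hz⟩
  have r2 : rect (L.lo b) (L.hi b) ⊆ Reg L H A := fun z hz => Or.inl ⟨b, hb, hz⟩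
  have r3 : {z | z ∈ L.W a b} ⊆ Reg L H A := fun z hz => Or.inr ⟨a, ha, b, hb, hab, hz⟩
  have l1 : Link (Reg L H A) (L.lo a) y := (link_rect hy).mono r1
  have l2 : Link (Reg L H A) y x := link_adj hxy (r1 hy) (r3 hmx)
  have l3 : Link (Reg L H A) x x' := (link_list (L.W_chain a b hG) hx hx').mono r3
  have l4 : Link (Reg L H A) x' y' := link_adj hxy'.symm (r3 hmx') (r2 hy')
  have l5 : Link (Reg L H A) y' (L.lo b) := ((link_rect hy').mono r2).symm
  exact (((l1.trans l2).trans l3).trans l4).trans l5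

private theorem link_walk (L : LatDraw G) {H : SimpleGraph V} (hH : H ≤ G) {A : Set V} {u v : V}
    (w : H.Walk u v) (hw : ∀ z ∈ w.support, z ∈ A) : Link (Reg L H A) (L.lo u) (L.lo v) := by
  induction w with
  | nil => exact Link.refl _ _
  | cons h p ih =>
    refine (link_edge L hH (hw _ (by simp)) (hw _ (by simp)) h).trans (ih ?_)
    intro z hz
    exact hw z (by simp [hz])

private theorem reg_vertex (L : LatDraw G) {H : SimpleGraph V} (hH : H ≤ G) {A : Set V} {v : V}
    {p : P2} (hv : v ∉ A) (hp : p ∈ rect (L.lo v) (L.hi v)) : p ∉ Reg L H A := by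
  rintro (⟨a, ha, h⟩ | ⟨a, ha, b, hb, hab, h⟩)
  · exact L.disj a v (fun e => hv (e ▸ ha)) p h hp
  · exact L.W_out a b (hH hab) p h v hp

private theorem reg_disj (L : LatDraw G) {H : SimpleGraph V} (hH : H ≤ G)
    (h : ∀ a b c d, H.Adj a b → H.Adj c d → L.Meet a b c d → a = c ∨ a = d ∨ b = c ∨ b = d)
    {A A' : Set V} (hA : ∀ a ∈ A, a ∉ A') {p : P2} (hp : p ∈ Reg L H A) : p ∉ Reg L H A' := by
  rcases hp with ⟨a, ha, hpa⟩ | ⟨a, ha, b, hb, hab, hpa⟩
  · exact reg_vertex L hH (hA a ha) hpa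
  · rintro (⟨c, hc, hpc⟩ | ⟨c, hc, d, hd, hcd, hpc⟩)
    · exact L.W_out a b (hH hab) p hpa c hpc
    · rcases h a b c d hab hcd ⟨p, hpa, hpc⟩ with e | e | e | e
      · exact hA a ha (e ▸ hc)
      · exact hA a ha (e ▸ hd)
      · exact hA b hb (e ▸ hc)
      · exact hA b hb (e ▸ hd)

theorem no_k5 (L : LatDraw G) {H : SimpleGraph V} (hH : H ≤ G)
    (h : ∀ a b c d, H.Adj a b → H.Adj c d → L.Meet a b c d → a = c ∨ a = d ∨ b = c ∨ b = d) : ¬ K5Minor H := by
  rintro ⟨B, hne, hdis, hcon, hadj⟩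
  choose v hv using hne
  have hnot : ∀ i j, i ≠ j → ∀ a, a ∈ B i → a ∉ B j := fun i j hij a ha hb =>
    Finset.disjoint_left.1 (hdis i j hij) ha hb
  have hQ : ∀ i j : Fin 5, ∃ Q : Ch, (i = j → Q = 0) ∧ (i ≠ j → (∀ x, bd Q x =
      dl (L.lo (v i)) x + dl (L.lo (v j)) x) ∧ ∀ x, Touch Q x →
        x ∈ Reg L H {a | a ∈ B i ∨ a ∈ B j}) := by
    intro i j
    by_cases hij : i = j
    · exact ⟨0, fun _ => rfl, fun hc => absurd hij hc⟩
    · obtain ⟨x, hx, y, hy, hxy⟩ := hadj i j hij
      obtain ⟨w, hw⟩ := hcon i (v i) (hv i) x hx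
      obtain ⟨w', hw'⟩ := hcon j y hy (v j) (hv j)
      have l1 : Link (Reg L H {a | a ∈ B i ∨ a ∈ B j}) (L.lo (v i)) (L.lo x) :=
        link_walk L hH w (fun z hz => Or.inl (hw z hz))
      have l2 : Link (Reg L H {a | a ∈ B i ∨ a ∈ B j}) (L.lo x) (L.lo y) :=
        link_edge L hH (Or.inl hx) (Or.inr hy) hxy
      have l3 : Link (Reg L H {a | a ∈ B i ∨ a ∈ B j}) (L.lo y) (L.lo (v j)) :=
        link_walk L hH w' (fun z hz => Or.inr (hw' z hz))
      obtain ⟨D, h1, h2⟩ := (l1.trans l2).trans l3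
      exact ⟨D, fun hc => absurd hc hij, fun _ => ⟨h1, h2⟩⟩
  choose Q hQ0 hQ1 using hQ
  have hP : ∀ i j : Fin 5, i ≠ j → (∀ x, bd (Q (min i j) (max i j)) x = dl (L.lo (v i)) x +
      dl (L.lo (v j)) x) ∧ ∀ x, Touch (Q (min i j) (max i j)) x →
        x ∈ Reg L H {a | a ∈ B i ∨ a ∈ B j} := by
    intro i j hij
    rcases lt_or_gt_of_ne hij with hlt | hlt
    · rw [min_eq_left hlt.le, max_eq_right hlt.le]
      exact hQ1 i j hij
    · rw [min_eq_right hlt.le, max_eq_left hlt.le]
      obtain ⟨h1, h2⟩ := hQ1 j i hij.symm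
      refine ⟨fun x => by rw [h1, add_comm], fun x hx => ?_⟩
      have h3 := h2 x hx
      rcases h3 with ⟨a, ha, h4⟩ | ⟨a, ha, b, hb, h4⟩
      · exact Or.inl ⟨a, Or.symm ha, h4⟩
      · exact Or.inr ⟨a, Or.symm ha, b, Or.symm hb, h4⟩
  refine five (c := fun i => L.lo (v i)) ?_ (P := fun i j => Q (min i j) (max i j)) ?_ ?_ ?_ ?_
  · intro i j hij
    by_contra hne
    have hvv : v i ≠ v j := fun e => hnot i j hne (v i) (hv i) (e ▸ hv j)
    have h1 := lo_mem L (v i)
    have h2 : L.lo (v i) ∈ rect (L.lo (v j)) (L.hi (v j)) := by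
      have h3 : L.lo (v i) = L.lo (v j) := hij
      rw [h3]
      exact lo_mem L (v j)
    exact L.disj (v i) (v j) hvv _ h1 h2
  · intro i j
    show Q (min i j) (max i j) = Q (min j i) (max j i)
    rw [min_comm, max_comm]
  · intro i j hij x
    exact (hP i j hij).1 x
  · intro i j m hmi hmj ht
    by_cases hij : i = j
    · subst hij
      have h0 : Q (min i i) (max i i) = 0 := hQ0 _ _ (by rw [min_self, max_self])
      have ht' : Touch (Q (min i i) (max i i)) (L.lo (v m)) := ht
      rw [h0] at ht'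
      exact not_touch_zero _ ht'
    · refine reg_vertex L hH ?_ (lo_mem L (v m)) ((hP i j hij).2 _ ht)
      rintro (h1 | h1)
      · exact hnot m i hmi (v m) (hv m) h1
      · exact hnot m j hmj (v m) (hv m) h1
  · intro i j k l hij hkl hik hil hjk hjl
    refine cross_eq_zero (fun p h1 h2 => ?_)
    refine reg_disj L hH h ?_ ((hP i j hij).2 p h1) ((hP k l hkl).2 p h2)
    rintro a (ha | ha) (hb | hb)
    · exact hnot i k hik a ha hb
    · exact hnot i l hil a ha hb
    · exact hnot j k hjk a ha hb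
    · exact hnot j l hjl a ha hb

end Pool.Agent.Helper46.RM
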