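import Pool.Agent.Helper46.RM.Top

/-!
# Block RM-QP: matching-planar drawings without large fans are quasi-planar.

`quasi`: let `M` be a set of `2 * N * N + 2` edges which cross pairwise, `e ∈ M`. A set `M' ⊆ M.erase e` of pairwise disjoint edges of maximal cardinality has at
most `N` elements (`MatchingPlanar`); let `C` be the set of their ends, `C.card ≤ 2 N`. Every `f ∈ M.erase e` has an end in `C` (maximality). By pigeonhole
(`2 N * N + 1` edges, `2 N` vertices) some vertex of `C` is an end of at least `N` (even `N + 1`) edges of `M`; choose `N` of them: contradiction to `NoFan N`.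
-/

namespace Pool.Agent.Helper46.RM

open scoped Classical

variable {V : Type*} {G : SimpleGraph V}

/-- no `q` edges cross pairwise -/
def Drawing.QuasiPlanar (D : Drawing G) (q : ℕ) : Prop :=
  ¬ ∃ M : Finset (Sym2 V), M.card = q ∧ (∀ f ∈ M, f ∈ G.edgeSet) ∧ ∀ f ∈ M, ∀ g ∈ M, f ≠ g → D.Crosses f g

theorem quasi (D : Drawing G) {N : ℕ} (h : D.MatchingPlanar N) (h' : D.NoFan N) : D.QuasiPlanar (2 * N * N + 2) := by
  rintro ⟨M, hM, hME, hMX⟩
  obtain ⟨e, he⟩ : M.Nonempty := by
    rw [← Finset.card_pos, hM]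
    omega
  obtain ⟨M', hM', hmax⟩ := Finset.exists_max_image
    ((M.erase e).powerset.filter fun A => ∀ f ∈ A, ∀ g ∈ A, f ≠ g → ∀ v, v ∈ f → v ∉ g)
    Finset.card ⟨∅, Finset.mem_filter.2 ⟨Finset.empty_mem_powerset _, fun f hf => absurd hf (Finset.notMem_empty f)⟩⟩
  rw [Finset.mem_filter, Finset.mem_powerset] at hM'
  obtain ⟨hsub, hdis⟩ := hM'
  have hcard : M'.card ≤ N := by
    refine h e (hME e he) M' (fun f hf => ?_) hdis
    have h1 := Finset.mem_erase.1 (hsub hf)
    exact ⟨hME f h1.2, h1.1, hMX e he f h1.2 (Ne.symm h1.1)⟩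
  obtain ⟨Cs, hCs⟩ : ∃ Cs : Finset V, Cs = M'.biUnion (fun f => f.toFinset) := ⟨_, rfl⟩
  have hCcard : Cs.card ≤ 2 * N := by
    rw [hCs]
    refine (Finset.card_biUnion_le_card_mul _ _ 2 fun f _ => ?_).trans ?_
    · rw [Sym2.card_toFinset]
      split_ifs <;> omega
    · omega
  have hend : ∀ f ∈ M.erase e, ∃ v ∈ Cs, v ∈ f := by
    intro f hf
    by_contra hcon
    push Not at hcon
    have hmem : ∀ g ∈ M', ∀ v, v ∈ g → v ∈ Cs := by
      intro g hg v hv
      rw [hCs, Finset.mem_biUnion]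
      exact ⟨g, hg, Sym2.mem_toFinset.2 hv⟩
    have hfM : f ∉ M' := by
      intro hfM
      exact hcon _ (hmem f hfM _ (Sym2.out_fst_mem f)) (Sym2.out_fst_mem f)
    have h2 := hmax (insert f M') ?_
    · rw [Finset.card_insert_of_notMem hfM] at h2
      omega
    · rw [Finset.mem_filter, Finset.mem_powerset]
      refine ⟨Finset.insert_subset hf hsub, ?_⟩
      intro a ha b hb hab v hva hvb
      rw [Finset.mem_insert] at ha hb
      rcases ha with rfl | ha
      · rcases hb with rfl | hb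
        · exact hab rfl
        · exact hcon v (hmem b hb v hvb) hva
      · rcases hb with rfl | hb
        · exact hcon v (hmem a ha v hva) hvb
        · exact hdis a ha b hb hab v hva hvb
  obtain ⟨v, hv, hfib⟩ : ∃ v ∈ Cs, N < ((M.erase e).filter fun f => v ∈ f).card := by
    by_contra hcon
    push Not at hcon
    have h3 : M.erase e ⊆ Cs.biUnion fun v => (M.erase e).filter fun f => v ∈ f := by
      intro f hf
      obtain ⟨v, hv, hvf⟩ := hend f hf
      exact Finset.mem_biUnion.2 ⟨v, hv, Finset.mem_filter.2 ⟨hf, hvf⟩⟩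
    have h4 := (Finset.card_le_card h3).trans (Finset.card_biUnion_le_card_mul _ _ N hcon)
    rw [Finset.card_erase_of_mem he, hM] at h4
    have h5 : Cs.card * N ≤ 2 * N * N := Nat.mul_le_mul_right N hCcard
    omega
  obtain ⟨A, hA, hAc⟩ := Finset.exists_subset_card_eq hfib.le
  refine h' v ⟨A, hAc, fun f hf => ?_, fun f hf g hg hfg => ?_⟩
  · have h6 := Finset.mem_filter.1 (hA hf)
    exact ⟨hME f (Finset.mem_erase.1 h6.1).2, h6.2⟩
  · have h6 := Finset.mem_filter.1 (hA hf)
    have h7 := Finset.mem_filter.1 (hA hg)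
    exact hMX f (Finset.mem_erase.1 h6.1).2 g (Finset.mem_erase.1 h7.1).2 hfg

theorem matchingPlanar_mono (D : Drawing G) {N N' : ℕ} (h : D.MatchingPlanar N) (hN : N ≤ N') : D.MatchingPlanar N' := by
  intro e he M hM hd
  exact (h e he M hM hd).trans hN

theorem noFan_mono (D : Drawing G) {N N' : ℕ} (h : D.NoFan N) (hN : N ≤ N') : D.NoFan N' := by
  rintro v ⟨M, hM, hME, hMX⟩
  obtain ⟨A, hA, hAc⟩ := Finset.exists_subset_card_eq (hN.trans hM.ge)
  exact h v ⟨A, hAc, fun f hf => hME f (hA hf), fun f hf g hg => hMX f (hA hf) g (hA hg)⟩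

end Pool.Agent.Helper46.RM
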