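import Pool.Agent.Helper46.RM.Spar

/-!
# Block RM-RK: an ordering with few later neighbours.

`good_rank`: by `edges_le` every nonempty `X` contains a vertex with at most `2 * 2 ^ (2k + 4)` neighbours in `X` (the sum of the degrees in `X` is
`2 * eIn G X`). Remove such vertices one after the other and number them in this order: every vertex has at most `2 ^ (2k + 5)` neighbours which come
later. (Induction on `X.card` for: there is `rk : V → ℕ`, injective on `X`, with at most `2 ^ (2k+5)` neighbours `b ∈ X` of `a ∈ X` with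
`rk a < rk b`; the removed vertex gets the number `0`, the others are shifted by one.)
-/

namespace Pool.Agent.Helper46.RM

open scoped Classical

variable {V : Type*} [Fintype V] {G : SimpleGraph V}

/-- the graph of the edges inside `X` -/
private def h28_sub (G : SimpleGraph V) (X : Finset V) : SimpleGraph V where
  Adj a b := G.Adj a b ∧ a ∈ X ∧ b ∈ X
  symm := ⟨fun _ _ h => ⟨h.1.symm, h.2.2, h.2.1⟩⟩
  loopless := ⟨fun _ h => G.loopless.irrefl _ h.1⟩

private theorem h28_sum (G : SimpleGraph V) (X : Finset V) :
    ∑ a ∈ X, (X.filter (fun b => G.Adj a b)).card = 2 * eIn G X := by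
  have h := (h28_sub G X).sum_degrees_eq_twice_card_edges
  have h1 : ∑ a ∈ X, (X.filter (fun b => G.Adj a b)).card = ∑ v, (h28_sub G X).degree v := by
    rw [← Finset.sum_subset (Finset.subset_univ X)]
    · refine Finset.sum_congr rfl fun a ha => ?_
      rw [← SimpleGraph.card_neighborFinset_eq_degree]
      congr 1
      ext b
      simp only [Finset.mem_filter, SimpleGraph.mem_neighborFinset, h28_sub]
      tauto
    · intro x _ hx
      rw [← SimpleGraph.card_neighborFinset_eq_degree, Finset.card_eq_zero]
      ext b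
      simp only [SimpleGraph.mem_neighborFinset, h28_sub]
      simp [hx]
  have h2 : (h28_sub G X).edgeFinset.card = eIn G X := by
    unfold eIn
    congr 1
    ext e
    simp only [SimpleGraph.mem_edgeFinset, Finset.mem_filter, Finset.mem_univ, true_and]
    induction e using Sym2.ind with
    | _ a b => simp [h28_sub]
  rw [h1, h, h2]

private theorem h28_low (L : LatDraw G) {k : ℕ} (hk : L.MP k) (X : Finset V) (hX : X.Nonempty) :
    ∃ v ∈ X, (X.filter (fun b => G.Adj v b)).card ≤ 2 ^ (2 * k + 5) := by
  apply Finset.exists_le_of_sum_le hX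
  rw [h28_sum, Finset.sum_const, smul_eq_mul]
  have h := edges_le L hk X
  calc 2 * eIn G X ≤ 2 * (2 ^ (2 * k + 4) * X.card) := Nat.mul_le_mul_left _ h
    _ = X.card * 2 ^ (2 * k + 5) := by ring

private theorem h28_rank (L : LatDraw G) {k : ℕ} (hk : L.MP k) : ∀ (n : ℕ) (X : Finset V), X.card = n →
    ∃ rk : V → ℕ, Set.InjOn rk X ∧
      ∀ a ∈ X, (X.filter (fun b => G.Adj a b ∧ rk a < rk b)).card ≤ 2 ^ (2 * k + 5) := by
  intro n
  induction n with
  | zero =>
    intro X hX
    rw [Finset.card_eq_zero] at hX
    subst hX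
    exact ⟨fun _ => 0, by simp, by simp⟩
  | succ n ih =>
    intro X hX
    have hne : X.Nonempty := by
      rw [← Finset.card_pos]; omega
    obtain ⟨v, hv, hvc⟩ := h28_low L hk X hne
    obtain ⟨rk, hinj, hrk⟩ := ih (X.erase v) (by rw [Finset.card_erase_of_mem hv]; omega)
    refine ⟨fun u => if u = v then 0 else rk u + 1, ?_, ?_⟩
    · intro a ha b hb hab
      by_cases h1 : a = v <;> by_cases h2 : b = v
      · rw [h1, h2]
      · simp [h1, h2] at hab
      · simp [h1, h2] at hab
      · simp only [h1, h2, if_false] at hab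
        exact hinj (Finset.mem_coe.mpr (Finset.mem_erase.mpr ⟨h1, ha⟩))
          (Finset.mem_coe.mpr (Finset.mem_erase.mpr ⟨h2, hb⟩)) (by omega)
    · intro a ha
      by_cases h1 : a = v
      · refine le_trans (Finset.card_le_card ?_) hvc
        intro b hb
        simp only [Finset.mem_filter] at hb ⊢
        exact ⟨hb.1, h1 ▸ hb.2.1⟩
      · refine le_trans (Finset.card_le_card ?_) (hrk a (Finset.mem_erase.mpr ⟨h1, ha⟩))
        intro b hb
        simp only [Finset.mem_filter, h1, if_false] at hb
        obtain ⟨hbX, hab, hlt⟩ := hb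
        by_cases h2 : b = v
        · simp [h2] at hlt
        · simp only [h2, if_false] at hlt
          simp only [Finset.mem_filter, Finset.mem_erase]
          exact ⟨⟨h2, hbX⟩, hab, by omega⟩

theorem good_rank (L : LatDraw G) {k : ℕ} (hk : L.MP k) : ∃ rk : V → ℕ, Function.Injective rk ∧
    ∀ a, (Finset.univ.filter (fun b => G.Adj a b ∧ rk a < rk b)).card ≤ 2 ^ (2 * k + 5) := by
  obtain ⟨rk, hinj, hrk⟩ := h28_rank L hk _ Finset.univ rfl
  exact ⟨rk, fun a b h => hinj (by simp) (by simp) h, fun a => hrk a (Finset.mem_univ _)⟩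

end Pool.Agent.Helper46.RM
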