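import Pool.Agent.Helper46.RM.ClX

/-!
# Block RM-SCE: visits at the ends of the walks.

`scl_endsA`: apply `claimX` with `z t = Q t (len t)` for `t < p + 1` (`Fin.castLE`) and `I = {i | p + 1 ≤ i}` (`I.card = n - (p + 1)`).
`scl_endsB`: the same with the ends of the last `p + 1` walks and `I` the other ones.
-/

namespace Pool.Agent.Helper46.RM

open scoped Classical

variable {ι : Type*} {p n : ℕ} {s : Sys ι p n}

theorem scl_endsA (h : s.OK) (hn : p + 1 + (3 * (p + 1) ^ 2 + 1) ≤ n)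
    (e1 : ∀ i, s.Q i (s.len i) ∈ s.MK → ¬ s.F.Reachable s.r (s.Q i (s.len i)))
    (e2 : ∀ i j, i ≠ j → s.Q i (s.len i) ∈ s.MK → ¬ s.F.Reachable (s.Q i (s.len i)) (s.Q j (s.len j)))
    (hv : ∀ i j, i < j → s.Q i (s.len i) ∈ s.MK ∧ s.Vis j (s.Q i (s.len i))) : False := by
  obtain ⟨m, hm⟩ : ∃ m, m = 3 * (p + 1) ^ 2 + 1 := ⟨_, rfl⟩
  have hm0 : 0 < m := by omega
  rw [← hm] at hn
  let e : Fin (p + 1) → Fin n := fun t => ⟨t.val, by omega⟩
  let f : Fin m → Fin n := fun k => ⟨p + 1 + k.val, by omega⟩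
  have hf : Function.Injective f := by
    intro a b hab
    have := congrArg Fin.val hab
    exact Fin.ext (by simpa [f] using this)
  have hlt : ∀ t k, e t < f k := by
    intro t k
    show t.val < p + 1 + k.val
    omega
  have hmem : ∀ t, s.Q (e t) (s.len (e t)) ∈ s.MK := fun t => (hv _ _ (hlt t ⟨0, hm0⟩)).1
  refine h.claimX (z := fun t => s.Q (e t) (s.len (e t))) hmem (fun t => e1 _ (hmem t)) ?_
    (Finset.univ.image f) ?_ ?_
  · intro t u htu
    apply e2 _ _ _ (hmem t)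
    intro heq
    apply htu
    have := congrArg Fin.val heq
    exact Fin.ext this
  · rw [Finset.card_image_of_injective _ hf, Finset.card_univ, Fintype.card_fin]
    omega
  · intro i hi t
    obtain ⟨k, -, rfl⟩ := Finset.mem_image.1 hi
    exact (hv _ _ (hlt t k)).2

theorem scl_endsB (h : s.OK) (hn : p + 1 + (3 * (p + 1) ^ 2 + 1) ≤ n)
    (e1 : ∀ i, s.Q i (s.len i) ∈ s.MK → ¬ s.F.Reachable s.r (s.Q i (s.len i)))
    (e2 : ∀ i j, i ≠ j → s.Q i (s.len i) ∈ s.MK → ¬ s.F.Reachable (s.Q i (s.len i)) (s.Q j (s.len j)))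
    (hv : ∀ i j, i < j → s.Q j (s.len j) ∈ s.MK ∧ s.Vis i (s.Q j (s.len j))) : False := by
  obtain ⟨m, hm⟩ : ∃ m, m = 3 * (p + 1) ^ 2 + 1 := ⟨_, rfl⟩
  have hm0 : 0 < m := by omega
  rw [← hm] at hn
  let e : Fin (p + 1) → Fin n := fun t => ⟨n - 1 - t.val, by omega⟩
  let f : Fin m → Fin n := fun k => ⟨k.val, by omega⟩
  have hf : Function.Injective f := by
    intro a b hab
    have := congrArg Fin.val hab
    exact Fin.ext this
  have hlt : ∀ t k, f k < e t := by
    intro t k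
    show k.val < n - 1 - t.val
    omega
  have hmem : ∀ t, s.Q (e t) (s.len (e t)) ∈ s.MK := fun t => (hv _ _ (hlt t ⟨0, hm0⟩)).1
  refine h.claimX (z := fun t => s.Q (e t) (s.len (e t))) hmem (fun t => e1 _ (hmem t)) ?_
    (Finset.univ.image f) ?_ ?_
  · intro t u htu
    apply e2 _ _ _ (hmem t)
    intro heq
    apply htu
    have h1 : n - 1 - t.val = n - 1 - u.val := congrArg Fin.val heq
    exact Fin.ext (by omega)
  · rw [Finset.card_image_of_injective _ hf, Finset.card_univ, Fintype.card_fin]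
    omega
  · intro i hi t
    obtain ⟨k, -, rfl⟩ := Finset.mem_image.1 hi
    exact (hv _ _ (hlt t k)).2

end Pool.Agent.Helper46.RM
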