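import Pool.Agent.Helper46.RM.SysL

/-!
# Block RM-SC: along a piece without popular components the winding parity does not change.

`l` a walk, `a ≤ b ≤ len l`, no point `Q l c`, `a ≤ c ≤ b`, is popular, the points at the ends are not in `MK`. `C` is a closed chain which touches only
components visited by (or points of) walks `i ≠ l` (`Sup (· ≠ l) C`). Claim: `wind C (Q l a) = wind C (Q l b)`. Strong induction on `b - a`. Let `a'` be the
first position `> a` with `Q l a' ∉ MK` (`a < b`). If `a' = a + 1`: the points are adjacent and not touched (`sup_not_touch'`): `wind_adj`. Otherwise the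
points `Q l c`, `a < c < a'`, are in `MK` and in one component (`F_span`), of `z = Q l (a+1)`, which is not popular. Let `c1 ∈ P l` be a colour of `Q l a`,
`c2 ∈ P l` one of `Q l a'` (`priv`): `Leaf l z c1`, `Leaf l z c2` (the points `Q l a`, `Q l a'` are not in `MK`, so not in the component). By `Good` there is
`z'`, not popular, with `Leaf l z' c1`, `Leaf l z' c2`, which is visited by no walk `i ≠ l`; so the component of `z'` is not touched by `C` (`sup_vis`).
Let `q1, q2` be the leaf points: `wind C (Q l a) = wind C q1` (`wind_T`) `= wind C z'` (`wind_leaf`; `q1` is not touched by `sup_not_touch`)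
`= wind C q2 = wind C (Q l a')`. Continue with `a'`.
`seg_const_leaf`: the version for `Pass`.
-/

namespace Pool.Agent.Helper46.RM

open scoped Classical

variable {ι : Type*} {p n m : ℕ} {s : Sys ι p n}

private theorem pass24 (h : s.OK) {Z : Fin m → P2} (hg : s.Good Z) {l : Fin n} {z : P2} (hz : z ∈ s.MK)
    (hzp : z ∉ s.PopSet Z) {a b : ℕ} (hp : s.Pass l z a b) {C : Ch} (hC : Closed C) (hS : s.Sup (fun i => i ≠ l) C) :
    wind C (s.Q l a) = wind C (s.Q l b) := by
  obtain ⟨h1, h2, h3, h4, h5⟩ := hp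
  have hl : ¬ (l ≠ l) := fun hh => hh rfl
  have ra : s.F.Reachable z (s.Q l (a + 1)) := h5 _ (by omega) (by omega)
  have rb : s.F.Reachable z (s.Q l (b - 1)) := h5 _ (by omega) (by omega)
  have ma : s.Q l a ∉ s.MK := h.not_mem_of_leaf hz (a := a + 1) (a' := a) (by omega) (by omega) (Or.inr rfl) ra h3
  have mb : s.Q l b ∉ s.MK := h.not_mem_of_leaf hz (a := b - 1) (a' := b) (by omega) (by omega)
    (Or.inl (by omega)) rb h4
  obtain ⟨c1, hc1, t1⟩ := h.priv (a := a) (by omega) ma
  obtain ⟨c2, hc2, t2⟩ := h.priv (a := b) (by omega) mb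
  have l1 : s.Leaf l z c1 := ⟨a + 1, a, by omega, by omega, Or.inr rfl, ra, h3, t1⟩
  have l2 : s.Leaf l z c2 := ⟨b - 1, b, by omega, by omega, Or.inl (by omega), rb, h4, t2⟩
  obtain ⟨z', hz', _, l1', l2', hv⟩ := hg l c1 hc1 c2 hc2 ⟨z, hz, hzp, l1, l2⟩
  have hnt : ∀ x, s.F.Reachable z' x → ¬ Touch C x := fun x hx => h.sup_vis hS (fun i hi => hv i hi) hx
  have key : ∀ c, c ∈ s.P l → s.Leaf l z' c → ∀ x, x ∈ s.T c → wind C x = wind C z' := by
    rintro c hc ⟨e, e', he, he', hee, hr, _, ht⟩ x hx
    have hadj : LAdj (s.Q l e) (s.Q l e') := by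
      rcases hee with rfl | rfl
      · exact (h.Q_ok l).adj e (by omega)
      · exact ((h.Q_ok l).adj e' (by omega)).symm
    rw [h.wind_T hC hS hl hc hx ht]
    exact h.wind_leaf hC hnt hr hadj (h.sup_not_touch hS hl hc ht)
  rw [key c1 hc1 l1' _ t1, key c2 hc2 l2' _ t2]

theorem Sys.OK.seg_const (h : s.OK) {Z : Fin m → P2} (hg : s.Good Z) {l : Fin n} {a b : ℕ} (hab : a ≤ b)
    (hb : b ≤ s.len l) (hnp : ∀ c, a ≤ c → c ≤ b → s.Q l c ∉ s.PopSet Z) (ha : s.Q l a ∉ s.MK) (hb' : s.Q l b ∉ s.MK)
    {C : Ch} (hC : Closed C) (hS : s.Sup (fun i => i ≠ l) C) : wind C (s.Q l a) = wind C (s.Q l b) := by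
  obtain ⟨d, hd⟩ : ∃ d, b - a = d := ⟨_, rfl⟩
  induction d using Nat.strong_induction_on generalizing a with
  | _ d ih =>
    rcases Nat.eq_or_lt_of_le hab with rfl | hlt
    · rfl
    have hex : ∃ x, a < x ∧ s.Q l x ∉ s.MK := ⟨b, hlt, hb'⟩
    obtain ⟨a', ⟨ha1, ha2⟩, ha3⟩ : ∃ a', (a < a' ∧ s.Q l a' ∉ s.MK) ∧ ∀ x, x < a' → ¬ (a < x ∧ s.Q l x ∉ s.MK) :=
      ⟨Nat.find hex, Nat.find_spec hex, fun x hx => Nat.find_min hex hx⟩
    have hab' : a' ≤ b := by
      by_contra hlt'
      exact ha3 b (by omega) ⟨hlt, hb'⟩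
    have hmem : ∀ x, a < x → x < a' → s.Q l x ∈ s.MK := by
      intro x h1 h2
      by_contra hx
      exact ha3 x h2 ⟨h1, hx⟩
    have hstep : wind C (s.Q l a) = wind C (s.Q l a') := by
      by_cases hone : a' = a + 1
      · subst hone
        exact wind_adj hC ((h.Q_ok l).adj a (by omega))
          (h.sup_not_touch' hS (l := l) (fun hh => hh rfl) (by omega) ha)
          (h.sup_not_touch' hS (l := l) (fun hh => hh rfl) (by omega) ha2)
      · have hz : s.Q l (a + 1) ∈ s.MK := hmem _ (by omega) (by omega)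
        have hreach : ∀ c, a + 1 ≤ c → c < a' → s.F.Reachable (s.Q l (a + 1)) (s.Q l c) := by
          intro c hc
          induction c, hc using Nat.le_induction with
          | base => intro _; exact SimpleGraph.Reachable.refl _
          | succ c hc ihc =>
            intro hc'
            exact (ihc (by omega)).trans ((h.Q_ok l).fst c (by omega) (hmem c (by omega) (by omega))
              (hmem (c + 1) (by omega) hc')).reachable
        refine pass24 h hg hz (hnp _ (by omega) (by omega)) ⟨by omega, by omega, ?_, ?_, ?_⟩ hC hS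
        · intro hr
          exact ha (h.reach_mem hz hr)
        · intro hr
          exact ha2 (h.reach_mem hz hr)
        · intro c h1 h2
          exact hreach c (by omega) h2
    rw [hstep]
    exact ih (b - a') (by omega) hab' (fun c h1 h2 => hnp c (by omega) h2) ha2 rfl

/-- the two ends of a pass through a non-popular component -/
theorem Sys.OK.pass_const (h : s.OK) {Z : Fin m → P2} (hg : s.Good Z) {l : Fin n} {z : P2} (hz : z ∈ s.MK)
    (hzp : z ∉ s.PopSet Z) {a b : ℕ} (hp : s.Pass l z a b) {C : Ch} (hC : Closed C) (hS : s.Sup (fun i => i ≠ l) C) :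
    wind C (s.Q l a) = wind C (s.Q l b) := by
  exact pass24 h hg hz hzp hp hC hS

end Pool.Agent.Helper46.RM
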