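import Pool.Agent.Helper46.RM.Mader
import Pool.Agent.Helper46.RM.NoK5
import Pool.Agent.Helper46.RM.Cov

/-!
# Block RM-SP: matching-planar graphs are sparse (sampling).

`edges_le`: choose for every edge `e = s(a,b)` a cover `C e` (`cover`, at most `2k` vertices). For `S ⊆ X` let `H_S` be the graph of the edges `e ⊆ S` of `G`
for which no vertex of `C e \ e` is in `S`. If two edges `e ≠ f` of `H_S` meet, an end `x` of `f` is in `C e`, and `x ∈ S`, so `x ∈ e`: the edges have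
a common end. By `no_k5` and `mader5`, `eIn H_S S ≤ 8 * S.card` (also for `S = ∅`). Sum over all `S ⊆ X`: for an edge `e ⊆ X` the number of `S ⊆ X` with
`e ⊆ S`, `S ∩ (C e \ e) = ∅` is `2 ^ (n - 2 - |X ∩ (C e \ e)|)` where `n = X.card`, so `2 ^ (2k + 2)` times
this number is at least `2 ^ n`. And `∑ S ⊆ X, S.card = n 2 ^ n / 2` (`Finset.sum_card_powerset` or `Finset.sum_powerset...`; it is enough that
`2 * ∑ S ⊆ X, S.card = n * 2 ^ n`: pair `S` with `X \ S`). So `eIn G X * 2 ^ n ≤ 2 ^ (2k+2) * ∑_S eIn H_S S ≤ 2 ^ (2k + 2) * 8 * n * 2 ^ n / 2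
= 2 ^ (2k + 4) * n * 2 ^ n`.
-/

namespace Pool.Agent.Helper46.RM

open scoped Classical

variable {V : Type*} [Fintype V] {G : SimpleGraph V}

omit [Fintype V] in
private theorem sum_card_pow (X : Finset V) : 2 * ∑ S ∈ X.powerset, S.card = X.card * 2 ^ X.card := by
  have h1 : ∑ S ∈ X.powerset, S.card = ∑ S ∈ X.powerset, (X \ S).card := by
    refine Finset.sum_nbij' (fun S => X \ S) (fun S => X \ S) ?_ ?_ ?_ ?_ ?_
    · intro S _
      exact Finset.mem_powerset.2 Finset.sdiff_subset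
    · intro S _
      exact Finset.mem_powerset.2 Finset.sdiff_subset
    · intro S hS
      exact Finset.sdiff_sdiff_eq_self (Finset.mem_powerset.1 hS)
    · intro S hS
      exact Finset.sdiff_sdiff_eq_self (Finset.mem_powerset.1 hS)
    · intro S hS
      rw [Finset.sdiff_sdiff_eq_self (Finset.mem_powerset.1 hS)]
  have h2 : ∑ S ∈ X.powerset, (S.card + (X \ S).card) = X.card * 2 ^ X.card := by
    rw [Finset.sum_congr rfl fun S hS => show S.card + (X \ S).card = X.card by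
      rw [add_comm]; exact Finset.card_sdiff_add_card_eq_card (Finset.mem_powerset.1 hS)]
    rw [Finset.sum_const, Finset.card_powerset, smul_eq_mul, mul_comm]
  rw [Finset.sum_add_distrib, ← h1] at h2
  rw [two_mul]
  exact h2

omit [Fintype V] in
private theorem Meet_swap (L : LatDraw G) {a b c d : V} (h : G.Adj a b) (hm : L.Meet a b c d) : L.Meet b a c d := by
  obtain ⟨p, h1, h2⟩ := hm
  refine ⟨p, ?_, h2⟩
  rw [L.W_symm a b h, List.mem_reverse]
  exact h1

private def HS (G : SimpleGraph V) (C : Sym2 V → Finset V) (S : Finset V) : SimpleGraph V where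
  Adj := fun a b => G.Adj a b ∧ a ∈ S ∧ b ∈ S ∧ ∀ x ∈ C s(a, b), x ∈ S → x = a ∨ x = b
  symm := ⟨fun a b h => ⟨h.1.symm, h.2.2.1, h.2.1, fun x hx hxS => by
        rw [Sym2.eq_swap] at hx
        exact (h.2.2.2 x hx hxS).symm⟩⟩
  loopless := ⟨fun a h => G.loopless.irrefl a h.1⟩

private theorem dcount (G : SimpleGraph V) (C : Sym2 V → Finset V) (X : Finset V) (EX : Finset (Sym2 V))
    (hEX : ∀ e ∈ EX, e ∈ G.edgeSet) :
    ∑ e ∈ EX, (X.powerset.filter fun S => (∀ v ∈ e, v ∈ S) ∧ ∀ x ∈ C e, x ∈ S → x ∈ e).card ≤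
      ∑ S ∈ X.powerset, eIn (HS G C S) S := by
  have h1 : ∀ e ∈ EX, (X.powerset.filter fun S => (∀ v ∈ e, v ∈ S) ∧ ∀ x ∈ C e, x ∈ S → x ∈ e).card =
      ∑ S ∈ X.powerset, if ((∀ v ∈ e, v ∈ S) ∧ ∀ x ∈ C e, x ∈ S → x ∈ e) then 1 else 0 := by
    intro e _
    rw [Finset.card_filter]
  rw [Finset.sum_congr rfl h1, Finset.sum_comm]
  refine Finset.sum_le_sum fun S hS => ?_
  rw [← Finset.card_filter]
  unfold eIn
  refine Finset.card_le_card fun e he => ?_
  rw [Finset.mem_filter] at he ⊢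
  obtain ⟨he1, he2, he3⟩ := he
  have he4 := hEX e he1
  refine ⟨Finset.mem_univ _, ?_, he2⟩
  clear he1
  induction e using Sym2.ind with
  | _ a b =>
    refine (HS G C S).mem_edgeSet.2 ⟨G.mem_edgeSet.1 he4, he2 a (Sym2.mem_mk_left a b), he2 b (Sym2.mem_mk_right a b), fun x hx hxS => ?_⟩
    exact Sym2.mem_iff.1 (he3 x hx hxS)

private theorem lowcount (C : Sym2 V → Finset V) (X : Finset V) {k : ℕ} (a b : V) (ha : a ∈ X) (hb : b ∈ X)
    (hCe : (C s(a, b)).card ≤ 2 * k) : 2 ^ X.card ≤ 2 ^ (2 * k + 2) *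
      (X.powerset.filter fun S => (∀ v ∈ s(a, b), v ∈ S) ∧ ∀ x ∈ C s(a, b), x ∈ S → x ∈ s(a, b)).card := by
  obtain ⟨Z, hZ⟩ : ∃ Z, Z = insert a (insert b (C s(a, b))) := ⟨_, rfl⟩
  obtain ⟨Y, hY⟩ : ∃ Y, Y = X \ Z := ⟨_, rfl⟩
  have h1 : Z.card ≤ 2 * k + 2 := by
    have h2 := Finset.card_insert_le a (insert b (C s(a, b)))
    have h3 := Finset.card_insert_le b (C s(a, b))
    rw [hZ]
    omega
  have h2 : X.card ≤ Y.card + (2 * k + 2) := by
    have h3 : X.card ≤ (X \ Z).card + Z.card := Finset.card_le_card_sdiff_add_card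
    rw [← hY] at h3
    omega
  have hYm : ∀ x, x ∈ Y ↔ x ∈ X ∧ x ≠ a ∧ x ≠ b ∧ x ∉ C s(a, b) := by
    intro x
    rw [hY, hZ, Finset.mem_sdiff, Finset.mem_insert, Finset.mem_insert]
    tauto
  have h3 : 2 ^ Y.card ≤ (X.powerset.filter fun S => (∀ v ∈ s(a, b), v ∈ S) ∧ ∀ x ∈ C s(a, b), x ∈ S → x ∈ s(a, b)).card := by
    rw [← Finset.card_powerset]
    refine Finset.card_le_card_of_injOn (fun T => insert a (insert b T)) (fun T hT => ?_) (fun T hT T' hT' h => ?_)
    · rw [Finset.mem_coe, Finset.mem_powerset] at hT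
      rw [Finset.mem_coe, Finset.mem_filter, Finset.mem_powerset]
      refine ⟨?_, ?_, ?_⟩
      · intro x hx
        rw [Finset.mem_insert, Finset.mem_insert] at hx
        rcases hx with rfl | rfl | hx
        · exact ha
        · exact hb
        · exact ((hYm x).1 (hT hx)).1
      · intro v hv
        rw [Sym2.mem_iff] at hv
        rw [Finset.mem_insert, Finset.mem_insert]
        tauto
      · intro x hx hxS
        rw [Finset.mem_insert, Finset.mem_insert] at hxS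
        rw [Sym2.mem_iff]
        rcases hxS with h | h | h
        · exact Or.inl h
        · exact Or.inr h
        · exact absurd hx ((hYm x).1 (hT h)).2.2.2
    · rw [Finset.mem_coe, Finset.mem_powerset] at hT hT'
      ext x
      have h4 : x ∈ insert a (insert b T) ↔ x ∈ insert a (insert b T') := by
        have : insert a (insert b T) = insert a (insert b T') := h
        rw [this]
      rw [Finset.mem_insert, Finset.mem_insert, Finset.mem_insert, Finset.mem_insert] at h4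
      constructor
      · intro hx
        have h5 := (hYm x).1 (hT hx)
        tauto
      · intro hx
        have h5 := (hYm x).1 (hT' hx)
        tauto
  calc 2 ^ X.card ≤ 2 ^ (Y.card + (2 * k + 2)) := Nat.pow_le_pow_right (by norm_num) h2
    _ = 2 ^ (2 * k + 2) * 2 ^ Y.card := by rw [pow_add]; ring
    _ ≤ _ := Nat.mul_le_mul_left _ h3

theorem edges_le (L : LatDraw G) {k : ℕ} (hk : L.MP k) (X : Finset V) : eIn G X ≤ 2 ^ (2 * k + 4) * X.card := by
  have hcov : ∀ e : Sym2 V, e ∈ G.edgeSet → ∃ C : Finset V, C.card ≤ 2 * k ∧ ∀ a b c d, e = s(a, b) → G.Adj c d →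
      s(c, d) ≠ e → L.Meet a b c d → c ∈ C ∨ d ∈ C := by
    intro e he
    induction e using Sym2.ind with
    | _ a b =>
      have hab : G.Adj a b := G.mem_edgeSet.1 he
      obtain ⟨C, h1, h2⟩ := cover L hk hab
      refine ⟨C, h1, fun a' b' c d he' hcd hne hm => ?_⟩
      rw [Sym2.eq_iff] at he'
      rcases he' with ⟨rfl, rfl⟩ | ⟨rfl, rfl⟩
      · exact h2 c d hcd hne hm
      · exact h2 c d hcd hne (Meet_swap L hab.symm hm)
  choose! C hC1 hC2 using hcov
  have hHG : ∀ S, HS G C S ≤ G := fun S a b h => h.1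
  have hHk5 : ∀ S, ¬ K5Minor (HS G C S) := by
    intro S
    refine no_k5 L (hHG S) fun a b c d hab hcd hm => ?_
    by_cases he : s(c, d) = s(a, b)
    · rw [Sym2.eq_iff] at he
      rcases he with ⟨rfl, rfl⟩ | ⟨rfl, rfl⟩
      · exact Or.inl rfl
      · exact Or.inr (Or.inl rfl)
    · rcases hC2 s(a, b) (G.mem_edgeSet.2 hab.1) a b c d rfl hcd.1 he hm with h | h
      · rcases hab.2.2.2 c h hcd.2.1 with h1 | h1
        · exact Or.inl h1.symm
        · exact Or.inr (Or.inr (Or.inl h1.symm))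
      · rcases hab.2.2.2 d h hcd.2.2.1 with h1 | h1
        · exact Or.inr (Or.inl h1.symm)
        · exact Or.inr (Or.inr (Or.inr h1.symm))
  have hm : ∀ S, eIn (HS G C S) S ≤ 8 * S.card := by
    intro S
    rcases S.eq_empty_or_nonempty with h0 | h0
    · subst h0
      rw [Finset.card_empty, mul_zero, Nat.le_zero]
      unfold eIn
      rw [Finset.card_eq_zero, Finset.filter_eq_empty_iff]
      rintro e - ⟨-, h2⟩
      induction e using Sym2.ind with
      | _ a b => exact absurd (h2 a (Sym2.mem_mk_left a b)) (Finset.notMem_empty a)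
    · by_contra hc
      exact hHk5 S (mader5 (HS G C S) S h0 (not_le.1 hc).le)
  obtain ⟨EX, hEX⟩ : ∃ EX : Finset (Sym2 V), EX = Finset.univ.filter fun e : Sym2 V => e ∈ G.edgeSet ∧ ∀ v ∈ e, v ∈ X := ⟨_, rfl⟩
  have hEm : ∀ e ∈ EX, e ∈ G.edgeSet ∧ ∀ v ∈ e, v ∈ X := by
    intro e he
    rw [hEX, Finset.mem_filter] at he
    exact he.2
  have hdc := dcount G C X EX fun e he => (hEm e he).1
  have hlow : ∀ e ∈ EX, 2 ^ X.card ≤ 2 ^ (2 * k + 2) *
      (X.powerset.filter fun S => (∀ v ∈ e, v ∈ S) ∧ ∀ x ∈ C e, x ∈ S → x ∈ e).card := by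
    intro e he
    obtain ⟨he1, he2⟩ := hEm e he
    have hCe := hC1 e he1
    clear he
    induction e using Sym2.ind with
    | _ a b => exact lowcount C X a b (he2 a (Sym2.mem_mk_left a b)) (he2 b (Sym2.mem_mk_right a b)) hCe
  have h1 : EX.card * 2 ^ X.card ≤ 2 ^ (2 * k + 2) * ∑ S ∈ X.powerset, eIn (HS G C S) S := by
    calc EX.card * 2 ^ X.card = ∑ e ∈ EX, 2 ^ X.card := by rw [Finset.sum_const, smul_eq_mul]
      _ ≤ ∑ e ∈ EX, 2 ^ (2 * k + 2) * (X.powerset.filter fun S => (∀ v ∈ e, v ∈ S) ∧ ∀ x ∈ C e, x ∈ S → x ∈ e).card :=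
        Finset.sum_le_sum hlow
      _ = 2 ^ (2 * k + 2) * ∑ e ∈ EX, (X.powerset.filter fun S => (∀ v ∈ e, v ∈ S) ∧ ∀ x ∈ C e, x ∈ S → x ∈ e).card := by
        rw [Finset.mul_sum]
      _ ≤ _ := Nat.mul_le_mul_left _ hdc
  have h2 : ∑ S ∈ X.powerset, eIn (HS G C S) S ≤ 8 * ∑ S ∈ X.powerset, S.card := by
    rw [Finset.mul_sum]
    exact Finset.sum_le_sum fun S _ => hm S
  have h3 := sum_card_pow X
  have h4 : EX.card * 2 ^ X.card ≤ 2 ^ (2 * k + 4) * X.card * 2 ^ X.card := by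
    calc EX.card * 2 ^ X.card ≤ 2 ^ (2 * k + 2) * ∑ S ∈ X.powerset, eIn (HS G C S) S := h1
      _ ≤ 2 ^ (2 * k + 2) * (8 * ∑ S ∈ X.powerset, S.card) := Nat.mul_le_mul_left _ h2
      _ = 2 ^ (2 * k + 2) * 4 * (2 * ∑ S ∈ X.powerset, S.card) := by ring
      _ = 2 ^ (2 * k + 4) * X.card * 2 ^ X.card := by rw [h3, pow_add, pow_add]; ring
  have h5 : EX.card ≤ 2 ^ (2 * k + 4) * X.card := Nat.le_of_mul_le_mul_right h4 (by positivity)
  rw [hEX] at h5
  exact h5

end Pool.Agent.Helper46.RM
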