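import Pool.Agent.Helper46.RM.Chain

/-!
# Block RM-ST: Stokes' formula for the crossing form and the winding parity.

`wind_ed`: `a` closed, `p, q` adjacent: `wind a p + wind a q = cross a (ed p q)`.
Horizontal edge, `q = p + e1`: `cross a (ed p q)` has only the term at `q` (the edge is west of `q`), it is `cN a q`; and
`wind a p = a (q, true) + wind a q` (`wind a p` is the sum over `i` of `a ((p.1 + 1 + i, p.2), true)`; split off `i = 0`).
Vertical edge, `q = p + e2`: `cross a (ed p q)` has only the term at `q` (the edge is south of `q`): `cE a q = a (q, false)`. And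
`wind a p + wind a q = ∑ i, (cS a (q + (1 + i) e1) + cN a (q + (1 + i) e1)) = ∑ i, (cE a (q + (1+i) e1) + cW a (q + (1+i) e1))` since `a` is
closed, and this telescopes to `a (q, false)` (all sums have finite support; convert to `∑ i ∈ range n` for large `n`).
`stokes`: both sides are additive in `b` (`Finsupp.induction_linear`; the finsum on the right has finite support since
`bd b x ≠ 0` implies `Touch b x`), so it is enough to take `b = Finsupp.single ((x, y), t) 1` = `ed _ _`.
`cross_ch`: `stokes` and `bd_ch`. `cross_seg`: `stokes` and `bd_seg`. `cross_closed`: all terms in `stokes` are zero.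
-/

namespace Pool.Agent.Helper46.RM

open scoped Classical

private theorem finw24 (a : Ch) (p : P2) :
    (Function.support (fun i : ℕ => a ((p.1 + 1 + (i : ℤ), p.2), true))).Finite := by
  have hinj : Function.Injective (fun i : ℕ => (((p.1 + 1 + (i : ℤ), p.2) : P2), true)) := by
    intro i j hij
    simp only [Prod.mk.injEq, and_true] at hij
    omega
  exact a.finite_support.preimage hinj.injOn

private theorem wtr24 (a : Ch) (p : P2) :
    ∃ N0 : ℕ, ∀ N, N0 ≤ N → wind a p = ∑ i ∈ Finset.range N, a ((p.1 + 1 + (i : ℤ), p.2), true) := by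
  obtain ⟨N0, hN0⟩ := (finw24 a p).bddAbove
  refine ⟨N0 + 1, fun N hN => ?_⟩
  unfold wind
  refine finsum_eq_sum_of_support_subset _ fun i hi => ?_
  have := hN0 hi
  simp only [Finset.coe_range, Set.mem_Iio]
  omega

private theorem fint24 (a f : Ch) : (Function.support (fun x : P2 => bd f x * wind a x)).Finite := by
  refine (finite_touch f).subset fun x hx => ?_
  by_contra h
  apply hx
  show bd f x * wind a x = 0
  rw [bd_of_not_touch h, zero_mul]

private theorem dlsum24 (p q : P2) (w : P2 → ZMod 2) : ∑ᶠ x, (dl p x + dl q x) * w x = w p + w q := by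
  have hs : ∀ r : P2, (Function.support (fun x : P2 => dl r x * w x)).Finite := by
    intro r
    refine (Set.finite_singleton r).subset fun x hx => ?_
    by_contra h
    apply hx
    show dl r x * w x = 0
    have h' : x ≠ r := h
    rw [dl, if_neg h', zero_mul]
  have h1 : ∀ r : P2, ∑ᶠ x, dl r x * w x = w r := by
    intro r
    rw [finsum_eq_single _ r]
    · rw [dl, if_pos rfl, one_mul]
    · intro x hx
      rw [dl, if_neg hx, zero_mul]
  have h2 : ∀ x, (dl p x + dl q x) * w x = dl p x * w x + dl q x * w x := fun x => add_mul _ _ _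
  simp only [h2]
  rw [finsum_add_distrib (hs p) (hs q), h1, h1]

private theorem edH24 (x y : ℤ) : ed (x, y) (x + 1, y) = Finsupp.single ((x, y), false) 1 := by
  unfold ed
  rw [if_pos rfl]

private theorem edV24 (x y : ℤ) : ed (x, y) (x, y + 1) = Finsupp.single ((x, y), true) 1 := by
  unfold ed
  rw [if_neg, if_neg, if_pos rfl]
  · simp [Prod.ext_iff]
  · simp [Prod.ext_iff]

private theorem crH24 (a : Ch) (x y : ℤ) : cross a (Finsupp.single ((x, y), false) 1) = a ((x + 1, y), true) := by
  unfold cross
  rw [finsum_eq_single _ (x + 1, y)]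
  · unfold crossAt cE cS cN cW
    simp
  · intro z hz
    obtain ⟨u, v⟩ := z
    unfold crossAt cE cS cN cW
    have h1 : (Finsupp.single (((x, y) : P2), false) (1 : ZMod 2)) ((u, v - 1), true) = 0 := by
      rw [Finsupp.single_eq_of_ne]
      simp
    have h2 : (Finsupp.single (((x, y) : P2), false) (1 : ZMod 2)) ((u - 1, v), false) = 0 := by
      rw [Finsupp.single_eq_of_ne]
      intro he
      simp only [Prod.mk.injEq, and_true] at he
      apply hz
      rw [Prod.mk.injEq]
      omega
    simp only [h1, h2, mul_zero, add_zero]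

private theorem crV24 (a : Ch) (x y : ℤ) : cross a (Finsupp.single ((x, y), true) 1) = a ((x, y + 1), false) := by
  unfold cross
  rw [finsum_eq_single _ (x, y + 1)]
  · unfold crossAt cE cS cN cW
    simp
  · intro z hz
    obtain ⟨u, v⟩ := z
    unfold crossAt cE cS cN cW
    have h1 : (Finsupp.single (((x, y) : P2), true) (1 : ZMod 2)) ((u, v - 1), true) = 0 := by
      rw [Finsupp.single_eq_of_ne]
      intro he
      simp only [Prod.mk.injEq, and_true] at he
      apply hz
      rw [Prod.mk.injEq]
      omega
    have h2 : (Finsupp.single (((x, y) : P2), true) (1 : ZMod 2)) ((u - 1, v), false) = 0 := by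
      rw [Finsupp.single_eq_of_ne]
      simp
    simp only [h1, h2, mul_zero, add_zero]

private theorem windH24 (a : Ch) (x y : ℤ) : wind a (x, y) + wind a (x + 1, y) = a ((x + 1, y), true) := by
  obtain ⟨N1, h1⟩ := wtr24 a (x, y)
  obtain ⟨N2, h2⟩ := wtr24 a (x + 1, y)
  have e1 := h1 (N1 + N2 + 1) (by omega)
  have e2 := h2 (N1 + N2) (by omega)
  rw [e1, e2, Finset.sum_range_succ']
  have e3 : ∀ i : ℕ, x + 1 + ((i + 1 : ℕ) : ℤ) = x + 1 + 1 + (i : ℤ) := fun i => by push_cast; ring
  simp only [e3]
  simp only [Nat.cast_zero, add_zero]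
  rw [add_assoc, add_comm, add_assoc, CharTwo.add_self_eq_zero, add_zero]

private theorem windV24 {a : Ch} (ha : Closed a) (x y : ℤ) :
    wind a (x, y) + wind a (x, y + 1) = a ((x, y + 1), false) := by
  have hfin : ∃ N0 : ℕ, ∀ N : ℕ, N0 ≤ N → a ((x + (N : ℤ), y + 1), false) = 0 := by
    have hinj : Function.Injective (fun i : ℕ => (((x + (i : ℤ), y + 1) : P2), false)) := by
      intro i j hij
      simp only [Prod.mk.injEq, and_true] at hij
      omega
    obtain ⟨N0, hN0⟩ := (a.finite_support.preimage hinj.injOn).bddAbove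
    refine ⟨N0 + 1, fun N hN => ?_⟩
    by_contra hne
    have : N ≤ N0 := hN0 (show N ∈ _ from hne)
    omega
  obtain ⟨N1, h1⟩ := wtr24 a (x, y)
  obtain ⟨N2, h2⟩ := wtr24 a (x, y + 1)
  obtain ⟨N3, h3⟩ := hfin
  have e1 := h1 (N1 + N2 + N3) (by omega)
  have e2 := h2 (N1 + N2 + N3) (by omega)
  rw [e1, e2, ← Finset.sum_add_distrib]
  have key : ∀ N : ℕ, ∑ i ∈ Finset.range N,
      (a ((x + 1 + (i : ℤ), y), true) + a ((x + 1 + (i : ℤ), y + 1), true)) =
      a ((x, y + 1), false) + a ((x + (N : ℤ), y + 1), false) := by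
    intro N
    induction N with
    | zero => simp [CharTwo.add_self_eq_zero]
    | succ n ih =>
      rw [Finset.sum_range_succ, ih]
      have hb := ha (x + 1 + (n : ℤ), y + 1)
      unfold bd cE cW cN cS at hb
      simp only [add_sub_cancel_right] at hb
      have q1 : x + 1 + (n : ℤ) - 1 = x + n := by ring
      have q2 : x + ((n + 1 : ℕ) : ℤ) = x + 1 + n := by push_cast; ring
      rw [q1] at hb
      rw [q2]
      have q3 := (CharTwo.add_eq_zero.mp hb)
      rw [add_comm (a ((x + 1 + (n : ℤ), y), true)), ← q3]
      rw [add_assoc, add_comm (a ((x + 1 + (n : ℤ), y + 1), false)), ← add_assoc (a ((x + (n : ℤ), y + 1), false)),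
        CharTwo.add_self_eq_zero, zero_add]
  rw [key, h3 _ (by omega), add_zero]

theorem wind_add (a b : Ch) (p : P2) : wind (a + b) p = wind a p + wind b p := by
  unfold wind
  rw [← finsum_add_distrib (finw24 a p) (finw24 b p)]
  rfl

theorem wind_zero (p : P2) : wind 0 p = 0 := by
  unfold wind
  simp

theorem wind_ed {a : Ch} (ha : Closed a) {p q : P2} (h : LAdj p q) : wind a p + wind a q = cross a (ed p q) := by
  obtain ⟨x, y⟩ := p
  obtain ⟨u, v⟩ := q
  rcases h with (h | h) | (h | h)
  · obtain ⟨rfl, rfl⟩ := Prod.mk.inj h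
    rw [edH24, crH24, windH24]
  · obtain ⟨rfl, rfl⟩ := Prod.mk.inj h
    rw [add_comm, windH24, ed_comm, edH24, crH24]
  · obtain ⟨rfl, rfl⟩ := Prod.mk.inj h
    rw [edV24, crV24, windV24 ha]
  · obtain ⟨rfl, rfl⟩ := Prod.mk.inj h
    rw [add_comm, windV24 ha, ed_comm, edV24, crV24]

theorem stokes {a : Ch} (ha : Closed a) (b : Ch) : cross a b = ∑ᶠ x : P2, bd b x * wind a x := by
  induction b using Finsupp.induction_linear with
  | zero =>
    rw [cross_zero_right]
    simp [bd_zero]
  | add f g hf hg =>
    rw [cross_add_right, hf, hg, ← finsum_add_distrib (fint24 a f) (fint24 a g)]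
    refine finsum_congr fun x => ?_
    rw [bd_add, add_mul]
  | single e c =>
    have hc : c = 0 ∨ c = 1 := by
      revert c
      decide
    rcases hc with rfl | rfl
    · rw [Finsupp.single_zero, cross_zero_right]
      simp [bd_zero]
    · obtain ⟨⟨x, y⟩, t⟩ := e
      cases t with
      | false =>
        have hadj : LAdj (x, y) (x + 1, y) := Or.inl (Or.inl rfl)
        rw [← edH24, ← wind_ed ha hadj]
        simp only [bd_ed hadj]
        rw [dlsum24]
      | true =>
        have hadj : LAdj (x, y) (x, y + 1) := Or.inr (Or.inl rfl)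
        rw [← edV24, ← wind_ed ha hadj]
        simp only [bd_ed hadj]
        rw [dlsum24]

/-- the form used most: the boundary of `b` is `p + q` -/
theorem cross_of_bd {a b : Ch} (ha : Closed a) {p q : P2} (hb : ∀ x, bd b x = dl p x + dl q x) :
    cross a b = wind a p + wind a q := by
  rw [stokes ha]
  simp only [hb]
  rw [dlsum24]

theorem cross_ch {a : Ch} (ha : Closed a) (p : P2) (l : List P2) (h : List.IsChain LAdj (p :: l)) :
    cross a (ch (p :: l)) = wind a p + wind a ((p :: l).getLast (List.cons_ne_nil p l)) := by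
  exact cross_of_bd ha (bd_ch p l h)

theorem cross_seg {a : Ch} (ha : Closed a) {Q : ℕ → P2} {b c : ℕ} (h : b ≤ c)
    (hQ : ∀ k, b ≤ k → k < c → LAdj (Q k) (Q (k + 1))) : cross a (seg Q b c) = wind a (Q b) + wind a (Q c) := by
  exact cross_of_bd ha (bd_seg h hQ)

theorem cross_closed {a b : Ch} (ha : Closed a) (hb : Closed b) : cross a b = 0 := by
  rw [stokes ha]
  have : ∀ x, bd b x * wind a x = 0 := fun x => by rw [hb x, zero_mul]
  simp only [this]
  exact finsum_zero

/-- adjacent points, at least one of them not touched: same winding parity if neither is touched -/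
theorem wind_adj {a : Ch} (ha : Closed a) {p q : P2} (h : LAdj p q) (hp : ¬ Touch a p) (hq : ¬ Touch a q) :
    wind a p = wind a q := by
  have h1 : cross a (ed p q) = 0 := by
    refine cross_eq_zero fun x hx hx' => ?_
    rcases touch_ed hx' with rfl | rfl
    · exact hp hx
    · exact hq hx
  have h2 := wind_ed ha h
  rw [h1] at h2
  exact CharTwo.add_eq_zero.mp h2

/-- the winding parity is constant on a connected set which is not touched -/
theorem wind_const {a : Ch} (ha : Closed a) {T : Set P2} (hT : ConnSet T) (h : ∀ p ∈ T, ¬ Touch a p) {x y : P2}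
    (hx : x ∈ T) (hy : y ∈ T) : wind a x = wind a y := by
  obtain ⟨w, hw⟩ := hT x hx y hy
  have key : ∀ {u v : P2} (w : Lat.Walk u v), (∀ z ∈ w.support, z ∈ T) → wind a u = wind a v := by
    intro u v w
    induction w with
    | nil => intro _; rfl
    | @cons u' v' w' hadj p ih =>
      intro hz
      have hu : u' ∈ T := hz u' (by simp)
      have hv : v' ∈ T := hz v' (by simp)
      have hrest : ∀ z ∈ p.support, z ∈ T := fun z hz' => hz z (by
        rw [SimpleGraph.Walk.support_cons]
        exact List.mem_cons_of_mem _ hz')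
      exact (wind_adj ha hadj (h _ hu) (h _ hv)).trans (ih hrest)
  exact key w hw

end Pool.Agent.Helper46.RM
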