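import Pool.Agent.Helper46.RM.ForX

/-!
# Project RM: systems of trails. Definitions, part 3.

`Sys ι p n`: `n` walks `Q i` (positions `0..len i`) starting at `r` in a set `S` of lattice points; `T c` is the set of points of colour `c`;
`K` a finite set of colours, `P i` a set of `p` private colours of the walk `i`; all colours on the walk `i` are in `K ∪ P i`.
`MK` = the points of `S` with all colours in `K`; `F` is a spanning forest of `MK`. The classes of `F.Reachable` in `MK` are called components.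
`Vis i z`: the walk `i` visits the component of `z`. `Sat z`: `z` cannot be reached from `r` in `S` with fewer than `|K| + p` colours (including `K`).
`XP i j z`: the walks `i, j` have passes through the component of `z` with odd crossing number, `z` is saturated and not in the component of `r`.
`PopSet Z`: the points in the components of `r` and of the `Z t` (the popular components). `PopOK Z D`: the popular components are different and visited by
all walks, every other component is visited by fewer than `D` walks.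
`Leaf l z c`: the walk `l` has a point of colour `c` next to a point of the component of `z` (consecutive positions) and outside of it.
`Good Z`: if the walk `l` has leaves of the private colours `c, c'` at a non-popular component, then at one which is visited by no other walk.
-/

namespace Pool.Agent.Helper46.RM

open scoped Classical

noncomputable section

structure Sys (ι : Type*) (p n : ℕ) where
  S : Set P2
  T : ι → Set P2
  K : Finset ι
  F : SimpleGraph P2
  r : P2
  P : Fin n → Finset ι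
  Q : Fin n → ℕ → P2
  len : Fin n → ℕ

variable {ι : Type*} {p n m : ℕ}

def Sys.MK (s : Sys ι p n) : Set P2 := {x | x ∈ s.S ∧ ∀ c, x ∈ s.T c → c ∈ s.K}

structure Sys.OK (s : Sys ι p n) : Prop where
  T_conn : ∀ c, ConnSet (s.T c)
  F_for : Forest s.F
  F_mem : ∀ x y, s.F.Adj x y → x ∈ s.MK
  F_span : ∀ x y, x ∈ s.MK → y ∈ s.MK → LAdj x y → s.F.Reachable x y
  r_mem : s.r ∈ s.MK
  P_card : ∀ i, (s.P i).card = p
  P_disj : ∀ i j, i ≠ j → Disjoint (s.P i) (s.P j)
  P_K : ∀ i, Disjoint (s.P i) s.K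
  Q_zero : ∀ i, s.Q i 0 = s.r
  Q_mem : ∀ i a, a ≤ s.len i → s.Q i a ∈ s.S
  Q_col : ∀ i a, a ≤ s.len i → ∀ c, s.Q i a ∈ s.T c → c ∈ s.K ∨ c ∈ s.P i
  Q_ok : ∀ i, TrailOK s.F s.MK (s.Q i) (s.len i)

/-- subfamily (or reordering) -/
def Sys.comap (s : Sys ι p n) (φ : Fin m → Fin n) : Sys ι p m where
  S := s.S
  T := s.T
  K := s.K
  F := s.F
  r := s.r
  P := fun i => s.P (φ i)
  Q := fun i => s.Q (φ i)
  len := fun i => s.len (φ i)

def Sys.Vis (s : Sys ι p n) (i : Fin n) (z : P2) : Prop := ∃ a, a ≤ s.len i ∧ s.F.Reachable z (s.Q i a)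

def Sys.Sat (s : Sys ι p n) (z : P2) : Prop :=
  ∀ C : Finset ι, s.K ⊆ C → C.card < s.K.card + p →
    ¬ ∃ w : Lat.Walk s.r z, ∀ x ∈ w.support, x ∈ s.S ∧ ∀ c, x ∈ s.T c → c ∈ C

def Sys.Pass (s : Sys ι p n) (i : Fin n) (z : P2) (a b : ℕ) : Prop := IsPass s.F z (s.Q i) (s.len i) a b

structure Sys.XP (s : Sys ι p n) (i j : Fin n) (z : P2) : Prop where
  mem : z ∈ s.MK
  nr : ¬ s.F.Reachable s.r z
  sat : s.Sat z
  cr : ∃ a b a' b', s.Pass i z a b ∧ s.Pass j z a' b' ∧ cross (seg (s.Q i) a b) (seg (s.Q j) a' b') = 1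

def Sys.PopSet (s : Sys ι p n) (Z : Fin m → P2) : Set P2 :=
  {x | x ∈ s.MK ∧ (s.F.Reachable s.r x ∨ ∃ t, s.F.Reachable (Z t) x)}

structure Sys.PopOK (s : Sys ι p n) (Z : Fin m → P2) (D : ℕ) : Prop where
  mem : ∀ t, Z t ∈ s.MK
  nr : ∀ t, ¬ s.F.Reachable s.r (Z t)
  ne : ∀ t u, t ≠ u → ¬ s.F.Reachable (Z t) (Z u)
  vis : ∀ i t, s.Vis i (Z t)
  few : ∀ x ∈ s.MK, x ∉ s.PopSet Z → (Finset.univ.filter (fun i => s.Vis i x)).card < D

def Sys.Leaf (s : Sys ι p n) (l : Fin n) (z : P2) (c : ι) : Prop :=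
  ∃ a a', a ≤ s.len l ∧ a' ≤ s.len l ∧ (a' = a + 1 ∨ a = a' + 1) ∧ s.F.Reachable z (s.Q l a) ∧
    ¬ s.F.Reachable z (s.Q l a') ∧ s.Q l a' ∈ s.T c

def Sys.Good (s : Sys ι p n) (Z : Fin m → P2) : Prop :=
  ∀ l, ∀ c ∈ s.P l, ∀ c' ∈ s.P l, (∃ z ∈ s.MK, z ∉ s.PopSet Z ∧ s.Leaf l z c ∧ s.Leaf l z c') →
    ∃ z ∈ s.MK, z ∉ s.PopSet Z ∧ s.Leaf l z c ∧ s.Leaf l z c' ∧ ∀ i, i ≠ l → ¬ s.Vis i z

/-- the chain `a` touches only points of components visited by the walks `i` with `H i` (or points of these walks) -/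
def Sys.Sup (s : Sys ι p n) (H : Fin n → Prop) (a : Ch) : Prop :=
  ∀ x, Touch a x → ∃ i, H i ∧ ∃ c, c ≤ s.len i ∧ s.F.Reachable (s.Q i c) x

/-- closed curve along the walks `i` (positions `a..b`) and `j` (positions `a'..b'`) -/
def Sys.loop (s : Sys ι p n) (i : Fin n) (a b : ℕ) (j : Fin n) (a' b' : ℕ) : Ch :=
  (seg (s.Q i) a b + tr s.F (s.Q i b) (s.Q j b')) + (seg (s.Q j) a' b' + tr s.F (s.Q j a') (s.Q i a))

end

end Pool.Agent.Helper46.RM
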