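import Pool.Agent.Helper46.RM.Sys
import Pool.Agent.Helper46.RM.Stokes
import Pool.Agent.Helper46.RM.Tr

/-!
# Block RM-SB: elementary facts about systems of trails.

* `reach_mem`: `F_mem` (induction on a walk; if `x ≠ y` the first edge shows `x ∈ MK`, the last one `y ∈ MK`).
* `adj_reach`: adjacent points of `MK` are in the same component (`F_span`).
* `not_mem_of_leaf`: if the point of the walk next to a point of the component were in `MK`, it would be in the component.
* `priv`: a point of the walk `i` outside `MK` has a colour not in `K`, so in `P i` (`Q_col`, `Q_mem`).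
* `priv_ne`: a private colour of `i` is not a colour of a point of the walk `j ≠ i` (`P_disj`, `P_K`).
* `sup_not_touch`: `x` has a private colour `c ∈ P l`, `¬ H l`; if `a` touched `x`, then `x` is joined in `F` to a point `Q i c'` with `H i`, `i ≠ l`: either
  `x = Q i c'` (contradiction by `Q_col`) or `x ∈ MK` (`c ∈ K`, contradiction).
* `wind_T`: `wind_const` with `T_conn` and `sup_not_touch`.
* `wind_comp`: along a walk of `F` all points are not touched, `wind_adj`. `wind_leaf`: one more step.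
* `sup_vis`: if no walk with `H` visits the component of `z`, the component is not touched.
* `comap_*`: unfold; `φ` injective.
-/

namespace Pool.Agent.Helper46.RM

open scoped Classical

variable {ι : Type*} {p n m k : ℕ} {s : Sys ι p n}

theorem Sys.OK.reach_mem (h : s.OK) {x y : P2} (hx : x ∈ s.MK) (hxy : s.F.Reachable x y) : y ∈ s.MK := by
  obtain ⟨w⟩ := hxy.symm
  cases w with
  | nil => exact hx
  | cons hadj _ => exact h.F_mem _ _ hadj

theorem Sys.OK.reach_mem' (h : s.OK) {x y : P2} (hxy : s.F.Reachable x y) (hne : x ≠ y) : x ∈ s.MK ∧ y ∈ s.MK := by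
  obtain ⟨w⟩ := hxy
  cases w with
  | nil => exact absurd rfl hne
  | cons hadj w' =>
    have hx := h.F_mem _ _ hadj
    exact ⟨hx, h.reach_mem hx (hadj.reachable.trans w'.reachable)⟩

theorem Sys.OK.not_mem_of_leaf (h : s.OK) {z : P2} (hz : z ∈ s.MK) {i : Fin n} {a a' : ℕ} (ha : a ≤ s.len i)
    (ha' : a' ≤ s.len i) (haa : a' = a + 1 ∨ a = a' + 1) (hr : s.F.Reachable z (s.Q i a))
    (hr' : ¬ s.F.Reachable z (s.Q i a')) : s.Q i a' ∉ s.MK := by
  intro hm
  have hm2 := h.reach_mem hz hr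
  have hadj : LAdj (s.Q i a) (s.Q i a') := by
    rcases haa with rfl | rfl
    · exact (h.Q_ok i).adj a (by omega)
    · exact ((h.Q_ok i).adj a' (by omega)).symm
  exact hr' (hr.trans (h.F_span _ _ hm2 hm hadj))

theorem Sys.OK.priv (h : s.OK) {i : Fin n} {a : ℕ} (ha : a ≤ s.len i) (hm : s.Q i a ∉ s.MK) :
    ∃ c ∈ s.P i, s.Q i a ∈ s.T c := by
  have h1 : ∃ c, s.Q i a ∈ s.T c ∧ c ∉ s.K := by
    by_contra hno
    apply hm
    refine ⟨h.Q_mem i a ha, fun c hc => ?_⟩
    by_contra hcK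
    exact hno ⟨c, hc, hcK⟩
  obtain ⟨c, hc, hcK⟩ := h1
  rcases h.Q_col i a ha c hc with h2 | h2
  · exact absurd h2 hcK
  · exact ⟨c, h2, hc⟩

theorem Sys.OK.priv_ne (h : s.OK) {i j : Fin n} (hij : i ≠ j) {a : ℕ} (ha : a ≤ s.len j) {c : ι} (hc : c ∈ s.P i) :
    s.Q j a ∉ s.T c := by
  intro hT
  rcases h.Q_col j a ha c hT with h2 | h2
  · exact Finset.disjoint_left.1 (h.P_K i) hc h2
  · exact Finset.disjoint_left.1 (h.P_disj i j hij) hc h2

/-- points outside `MK` of different walks are different; they are not on the other walk -/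
theorem Sys.OK.ne_of_not_mem (h : s.OK) {i j : Fin n} (hij : i ≠ j) {a b : ℕ} (ha : a ≤ s.len i) (hb : b ≤ s.len j)
    (hm : s.Q i a ∉ s.MK) : s.Q i a ≠ s.Q j b := by
  intro he
  obtain ⟨c, hc, hT⟩ := h.priv ha hm
  rw [he] at hT
  exact h.priv_ne hij hb hc hT

theorem Sys.OK.sup_not_touch (h : s.OK) {H : Fin n → Prop} {a : Ch} (ha : s.Sup H a) {l : Fin n} (hl : ¬ H l) {c : ι}
    (hc : c ∈ s.P l) {x : P2} (hx : x ∈ s.T c) : ¬ Touch a x := by
  intro ht
  obtain ⟨i, hi, c', hc', hr⟩ := ha x ht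
  have hil : l ≠ i := by
    rintro rfl
    exact hl hi
  by_cases he : s.Q i c' = x
  · rw [← he] at hx
    exact h.priv_ne hil hc' hc hx
  · have hm := (h.reach_mem' hr he).2
    exact Finset.disjoint_left.1 (h.P_K l) hc (hm.2 c hx)

theorem Sys.OK.sup_not_touch' (h : s.OK) {H : Fin n → Prop} {a : Ch} (ha : s.Sup H a) {l : Fin n} (hl : ¬ H l) {b : ℕ}
    (hb : b ≤ s.len l) (hm : s.Q l b ∉ s.MK) : ¬ Touch a (s.Q l b) := by
  obtain ⟨c, hc, hT⟩ := h.priv hb hm
  exact h.sup_not_touch ha hl hc hT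

theorem Sys.OK.wind_T (h : s.OK) {H : Fin n → Prop} {a : Ch} (hc : Closed a) (ha : s.Sup H a) {l : Fin n} (hl : ¬ H l)
    {c : ι} (hcl : c ∈ s.P l) {x y : P2} (hx : x ∈ s.T c) (hy : y ∈ s.T c) : wind a x = wind a y := by
  exact wind_const hc (h.T_conn c) (fun p hp => h.sup_not_touch ha hl hcl hp) hx hy

theorem Sys.OK.wind_comp (h : s.OK) {a : Ch} (hc : Closed a) {z : P2} (hz : ∀ x, s.F.Reachable z x → ¬ Touch a x)
    {x : P2} (hx : s.F.Reachable z x) : wind a x = wind a z := by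
  have key : ∀ {u v : P2} (w : s.F.Walk u v), (∀ x, s.F.Reachable u x → ¬ Touch a x) → wind a v = wind a u := by
    intro u v w
    induction w with
    | nil => intro _; rfl
    | cons hadj w ih =>
      intro hu
      rw [ih (fun x hx => hu x (hadj.reachable.trans hx))]
      exact (wind_adj hc (h.F_for.le _ _ hadj) (hu _ (SimpleGraph.Reachable.refl _)) (hu _ hadj.reachable)).symm
  obtain ⟨w⟩ := hx
  exact key w hz

theorem Sys.OK.wind_leaf (h : s.OK) {a : Ch} (hc : Closed a) {z : P2} (hz : ∀ x, s.F.Reachable z x → ¬ Touch a x)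
    {x q : P2} (hx : s.F.Reachable z x) (hxq : LAdj x q) (hq : ¬ Touch a q) : wind a q = wind a z := by
  rw [← h.wind_comp hc hz hx]
  exact (wind_adj hc hxq (hz x hx) hq).symm

theorem Sys.OK.sup_vis (h : s.OK) {H : Fin n → Prop} {a : Ch} (ha : s.Sup H a) {z : P2}
    (hv : ∀ i, H i → ¬ s.Vis i z) {x : P2} (hx : s.F.Reachable z x) : ¬ Touch a x := by
  intro ht
  obtain ⟨i, hi, c, hc, hr⟩ := ha x ht
  exact hv i hi ⟨c, hc, hx.trans hr.symm⟩

theorem Sys.popSet_reach (h : s.OK) {Z : Fin m → P2} {x y : P2} (hx : x ∈ s.PopSet Z) (hxy : s.F.Reachable x y) :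
    y ∈ s.PopSet Z := by
  refine ⟨h.reach_mem hx.1 hxy, ?_⟩
  rcases hx.2 with h1 | ⟨t, h1⟩
  · exact Or.inl (h1.trans hxy)
  · exact Or.inr ⟨t, h1.trans hxy⟩

theorem Sys.vis_reach {i : Fin n} {x y : P2} (hx : s.Vis i x) (hxy : s.F.Reachable x y) : s.Vis i y := by
  obtain ⟨a, ha, hr⟩ := hx
  exact ⟨a, ha, hxy.symm.trans hr⟩

theorem Sys.comap_ok (h : s.OK) {φ : Fin k → Fin n} (hφ : Function.Injective φ) : (s.comap φ).OK := by
  exact
    { T_conn := h.T_conn
      F_for := h.F_for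
      F_mem := h.F_mem
      F_span := h.F_span
      r_mem := h.r_mem
      P_card := fun i => h.P_card (φ i)
      P_disj := fun i j hij => h.P_disj (φ i) (φ j) (fun he => hij (hφ he))
      P_K := fun i => h.P_K (φ i)
      Q_zero := fun i => h.Q_zero (φ i)
      Q_mem := fun i => h.Q_mem (φ i)
      Q_col := fun i => h.Q_col (φ i)
      Q_ok := fun i => h.Q_ok (φ i) }

theorem Sys.comap_popOK {Z : Fin m → P2} {D : ℕ} (h : s.PopOK Z D) {φ : Fin k → Fin n} (hφ : Function.Injective φ) :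
    (s.comap φ).PopOK Z D := by
  exact
    { mem := h.mem
      nr := h.nr
      ne := h.ne
      vis := fun i t => h.vis (φ i) t
      few := by
        intro x hx hxZ
        refine lt_of_le_of_lt ?_ (h.few x hx hxZ)
        apply Finset.card_le_card_of_injOn φ
        · intro i hi
          rw [Finset.mem_coe, Finset.mem_filter] at hi ⊢
          exact ⟨Finset.mem_univ _, hi.2⟩
        · exact hφ.injOn }

theorem Sys.comap_good {Z : Fin m → P2} (h : s.Good Z) {φ : Fin k → Fin n} (hφ : Function.Injective φ) :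
    (s.comap φ).Good Z := by
  intro l c hc c' hc' hz
  obtain ⟨z, h1, h2, h3, h4, h5⟩ := h (φ l) c hc c' hc' hz
  exact ⟨z, h1, h2, h3, h4, fun i hi => h5 (φ i) (fun he => hi (hφ he))⟩

theorem Sys.comap_xp {φ : Fin k → Fin n} {i j : Fin k} {z : P2} : (s.comap φ).XP i j z ↔ s.XP (φ i) (φ j) z := by
  constructor
  · rintro ⟨h1, h2, h3, h4⟩
    exact ⟨h1, h2, h3, h4⟩
  · rintro ⟨h1, h2, h3, h4⟩
    exact ⟨h1, h2, h3, h4⟩

/-- `XP` depends only on the component of `z` -/
theorem Sys.xp_reach (h : s.OK) {i j : Fin n} {z z' : P2} (hx : s.XP i j z) (hz : s.F.Reachable z z') :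
    s.XP i j z' := by
  have hpass : ∀ i a b, s.Pass i z a b → s.Pass i z' a b := by
    rintro i a b ⟨h1, h2, h3, h4, h5⟩
    exact ⟨h1, h2, fun hc => h3 (hz.trans hc), fun hc => h4 (hz.trans hc), fun c hc1 hc2 => hz.symm.trans (h5 c hc1 hc2)⟩
  have key : ∀ {u v : P2} (w : s.F.Walk u v), u ∈ s.MK → ∃ w' : Lat.Walk u v, ∀ x ∈ w'.support, x ∈ s.MK := by
    intro u v w
    induction w with
    | nil =>
      intro hu
      refine ⟨SimpleGraph.Walk.nil, fun x hx => ?_⟩
      rw [SimpleGraph.Walk.support_nil, List.mem_singleton] at hx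
      rw [hx]
      exact hu
    | cons hadj w ih =>
      intro hu
      obtain ⟨w', hw'⟩ := ih (h.reach_mem hu hadj.reachable)
      refine ⟨SimpleGraph.Walk.cons (h.F_for.le _ _ hadj : Lat.Adj _ _) w', fun x hx => ?_⟩
      rw [SimpleGraph.Walk.support_cons, List.mem_cons] at hx
      rcases hx with rfl | hx
      · exact hu
      · exact hw' x hx
  refine ⟨h.reach_mem hx.mem hz, fun hc => hx.nr (hc.trans hz.symm), ?_, ?_⟩
  · rintro C hKC hC ⟨w, hw⟩
    obtain ⟨w₁⟩ := hz.symm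
    obtain ⟨w', hw'⟩ := key w₁ (h.reach_mem hx.mem hz)
    apply hx.sat C hKC hC
    refine ⟨w.append w', fun x hx' => ?_⟩
    rw [SimpleGraph.Walk.mem_support_append_iff] at hx'
    rcases hx' with h1 | h1
    · exact hw x h1
    · have h2 := hw' x h1
      exact ⟨h2.1, fun c hc => hKC (h2.2 c hc)⟩
  · obtain ⟨a, b, a', b', h1, h2, h3⟩ := hx.cr
    exact ⟨a, b, a', b', hpass i a b h1, hpass j a' b' h2, h3⟩

end Pool.Agent.Helper46.RM
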