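import Pool.Agent.Helper46.RM.SysB

/-!
# Block RM-SL: loops.

`loop i a b j a' b' = seg (Q i) a b + tr (Q i b) (Q j b') + (seg (Q j) a' b' + tr (Q j a') (Q i a))`: `bd_seg`, `bd_tr`, `touch_seg`, `touch_tr`.
`loop_add`: `tr_add`, `tr_comm`, and `seg (Q j) a' b'` cancels (characteristic two).
`loop_star`: the first edge of both pieces separated: `seg (Q i) a b = ed (Q i a) (Q i (a+1)) + seg (Q i) (a+1) b`; `seg_add`, `ed_comm`, `tr_comm`.
`loop_swap`: by definition and `tr_comm`.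
-/

namespace Pool.Agent.Helper46.RM

open scoped Classical

variable {ι : Type*} {p n m k : ℕ} {s : Sys ι p n}

private theorem seg_first75 (Q : ℕ → P2) {a b : ℕ} (hab : a < b) :
    seg Q a b = ed (Q a) (Q (a + 1)) + seg Q (a + 1) b := by
  rw [← seg_add Q (Nat.le_succ a) hab, seg_succ Q (le_refl a), seg_self, zero_add]

private theorem seg_last75 (Q : ℕ → P2) {a b : ℕ} (hab : a < b) :
    seg Q a b = seg Q a (b - 1) + ed (Q (b - 1)) (Q b) := by
  obtain ⟨d, rfl⟩ : ∃ d, b = d + 1 := ⟨b - 1, by omega⟩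
  rw [Nat.add_sub_cancel, seg_succ Q (by omega : a ≤ d)]

theorem Sys.OK.loop_closed (h : s.OK) {i j : Fin n} {a b a' b' : ℕ} (hab : a ≤ b) (hb : b ≤ s.len i) (hab' : a' ≤ b')
    (hb' : b' ≤ s.len j) (h1 : s.F.Reachable (s.Q i a) (s.Q j a')) (h2 : s.F.Reachable (s.Q i b) (s.Q j b')) :
    Closed (s.loop i a b j a' b') := by
  intro x
  have e1 := bd_seg hab (fun c _ hc => (h.Q_ok i).adj c (lt_of_lt_of_le hc hb)) x
  have e2 := bd_seg hab' (fun c _ hc => (h.Q_ok j).adj c (lt_of_lt_of_le hc hb')) x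
  have e3 := bd_tr h.F_for h2 x
  have e4 := bd_tr h.F_for h1.symm x
  have h20 : (2 : ZMod 2) = 0 := by decide
  unfold Sys.loop
  rw [bd_add, bd_add, bd_add, e1, e2, e3, e4]
  linear_combination (dl (s.Q i a) x + dl (s.Q i b) x + dl (s.Q j a') x + dl (s.Q j b') x) * h20

theorem Sys.OK.loop_touch (h : s.OK) {i j : Fin n} {a b a' b' : ℕ} {x : P2} (hx : Touch (s.loop i a b j a' b') x)
    (h1 : s.F.Reachable (s.Q i a) (s.Q j a')) (h2 : s.F.Reachable (s.Q i b) (s.Q j b')) :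
    (∃ c, a ≤ c ∧ c ≤ b ∧ x = s.Q i c) ∨ (∃ c, a' ≤ c ∧ c ≤ b' ∧ x = s.Q j c) ∨ s.F.Reachable (s.Q i a) x ∨
      s.F.Reachable (s.Q i b) x := by
  unfold Sys.loop at hx
  rcases touch_add hx with h3 | h3
  · rcases touch_add h3 with h4 | h4
    · exact Or.inl (touch_seg h4)
    · exact Or.inr (Or.inr (Or.inr (touch_tr h.F_for h4)))
  · rcases touch_add h3 with h4 | h4
    · exact Or.inr (Or.inl (touch_seg h4))
    · exact Or.inr (Or.inr (Or.inl (h1.trans (touch_tr h.F_for h4))))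

theorem Sys.OK.loop_sup (h : s.OK) {i j : Fin n} {a b a' b' : ℕ} (hab : a ≤ b) (hb : b ≤ s.len i) (hab' : a' ≤ b')
    (hb' : b' ≤ s.len j) : s.Sup (fun k => k = i ∨ k = j) (s.loop i a b j a' b') := by
  intro x hx
  unfold Sys.loop at hx
  rcases touch_add hx with h3 | h3
  · rcases touch_add h3 with h4 | h4
    · obtain ⟨c, _, hc, rfl⟩ := touch_seg h4
      exact ⟨i, Or.inl rfl, c, hc.trans hb, SimpleGraph.Reachable.refl _⟩
    · exact ⟨i, Or.inl rfl, b, hb, touch_tr h.F_for h4⟩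
  · rcases touch_add h3 with h4 | h4
    · obtain ⟨c, _, hc, rfl⟩ := touch_seg h4
      exact ⟨j, Or.inr rfl, c, hc.trans hb', SimpleGraph.Reachable.refl _⟩
    · exact ⟨j, Or.inr rfl, a', hab'.trans hb', touch_tr h.F_for h4⟩

theorem Sys.OK.loop_add (h : s.OK) {i j k : Fin n} {a b a' b' a'' b'' : ℕ}
    (h1 : s.F.Reachable (s.Q i a) (s.Q j a')) (h2 : s.F.Reachable (s.Q i b) (s.Q j b'))
    (h1' : s.F.Reachable (s.Q j a') (s.Q k a'')) (h2' : s.F.Reachable (s.Q j b') (s.Q k b'')) :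
    s.loop i a b j a' b' + s.loop j a' b' k a'' b'' = s.loop i a b k a'' b'' := by
  unfold Sys.loop
  have key : seg (s.Q i) a b + tr s.F (s.Q i b) (s.Q j b') + (seg (s.Q j) a' b' + tr s.F (s.Q j a') (s.Q i a)) +
      (seg (s.Q j) a' b' + tr s.F (s.Q j b') (s.Q k b'') + (seg (s.Q k) a'' b'' + tr s.F (s.Q k a'') (s.Q j a'))) =
      seg (s.Q i) a b + (tr s.F (s.Q i b) (s.Q j b') + tr s.F (s.Q j b') (s.Q k b'')) +
      (seg (s.Q k) a'' b'' + (tr s.F (s.Q k a'') (s.Q j a') + tr s.F (s.Q j a') (s.Q i a))) +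
      (seg (s.Q j) a' b' + seg (s.Q j) a' b') := by abel
  rw [key, tr_add h.F_for h2 h2', tr_add h.F_for h1'.symm h1.symm, add_self_ch, add_zero]

theorem Sys.OK.loop_swap (h : s.OK) (i j : Fin n) (a b a' b' : ℕ) : s.loop i a b j a' b' = s.loop j a' b' i a b := by
  unfold Sys.loop
  rw [tr_comm h.F_for (s.Q i b) (s.Q j b'), tr_comm h.F_for (s.Q j a') (s.Q i a)]
  abel

theorem Sys.OK.loop_star (h : s.OK) {i j : Fin n} {a b a' b' : ℕ} (hab : a < b) (hab' : a' < b') :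
    s.loop i a b j a' b' = ed (s.Q i (a + 1)) (s.Q i a) + tr s.F (s.Q i a) (s.Q j a') +
      ed (s.Q j a') (s.Q j (a' + 1)) + (seg (s.Q i) (a + 1) b + tr s.F (s.Q i b) (s.Q j b') +
      seg (s.Q j) (a' + 1) b') := by
  unfold Sys.loop
  rw [seg_first75 (s.Q i) hab, seg_first75 (s.Q j) hab', tr_comm h.F_for (s.Q j a') (s.Q i a),
    ed_comm (s.Q i (a + 1)) (s.Q i a)]
  abel

/-- the same at the other end -/
theorem Sys.OK.loop_star' (h : s.OK) {i j : Fin n} {a b a' b' : ℕ} (hab : a < b) (hab' : a' < b') :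
    s.loop i a b j a' b' = ed (s.Q i (b - 1)) (s.Q i b) + tr s.F (s.Q i b) (s.Q j b') +
      ed (s.Q j b') (s.Q j (b' - 1)) + (seg (s.Q i) a (b - 1) + tr s.F (s.Q i a) (s.Q j a') +
      seg (s.Q j) a' (b' - 1)) := by
  unfold Sys.loop
  rw [seg_last75 (s.Q i) hab, seg_last75 (s.Q j) hab', tr_comm h.F_for (s.Q j a') (s.Q i a),
    ed_comm (s.Q j b') (s.Q j (b' - 1))]
  abel

end Pool.Agent.Helper46.RM
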