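import Pool.Agent.Helper46.RM.Defs

/-!
# Project RM: drawings in the plane and drawings in the lattice. Definitions, part 2.

The plane is `ℝ × ℝ`. `Drawing G`: the vertices are distinct points, every edge is a curve joining its ends and passing through no other
vertex. `Proper`: the curves are injective, two edges meet in finitely many points, no three edges have a common interior point.
`Crosses e f`: the curves have a common interior point. `MatchingPlanar k`: for every edge `e` the edges crossing `e` contain no matching with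
more than `k` edges. `NoFan N`: no `N` edges at a common vertex cross pairwise.

`LatDraw G`: every vertex is a rectangle of lattice points (`blob`), pairwise disjoint; the edge `a b` is a nonempty walk `W a b` of lattice points
outside all rectangles, its first point is adjacent to the rectangle of `a` (and so its last point to that of `b`, as `W b a` is the reverse).
-/

namespace Pool.Agent.Helper46.RM

open scoped Classical

noncomputable section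

variable {V : Type*}

structure Drawing (G : SimpleGraph V) where
  pt : V → ℝ × ℝ
  arc : Sym2 V → ℝ → ℝ × ℝ
  pt_inj : Function.Injective pt
  cont : ∀ e ∈ G.edgeSet, ContinuousOn (arc e) (Set.Icc 0 1)
  ends : ∀ e ∈ G.edgeSet, ∃ u v, e = s(u, v) ∧ arc e 0 = pt u ∧ arc e 1 = pt v
  avoid : ∀ e ∈ G.edgeSet, ∀ t ∈ Set.Icc (0 : ℝ) 1, ∀ w, w ∉ e → arc e t ≠ pt w

variable {G : SimpleGraph V}

def Drawing.Crosses (D : Drawing G) (e f : Sym2 V) : Prop :=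
  ∃ s ∈ Set.Ioo (0 : ℝ) 1, ∃ t ∈ Set.Ioo (0 : ℝ) 1, D.arc e s = D.arc f t

structure Drawing.Proper (D : Drawing G) : Prop where
  inj : ∀ e ∈ G.edgeSet, Set.InjOn (D.arc e) (Set.Icc 0 1)
  fin : ∀ e ∈ G.edgeSet, ∀ f ∈ G.edgeSet, e ≠ f →
    (D.arc e '' Set.Icc 0 1 ∩ D.arc f '' Set.Icc 0 1).Finite
  triple : ∀ e ∈ G.edgeSet, ∀ f ∈ G.edgeSet, ∀ g ∈ G.edgeSet, e ≠ f → e ≠ g → f ≠ g →
    ∀ r ∈ Set.Ioo (0 : ℝ) 1, ∀ s ∈ Set.Ioo (0 : ℝ) 1, ∀ t ∈ Set.Ioo (0 : ℝ) 1,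
      ¬ (D.arc e r = D.arc f s ∧ D.arc f s = D.arc g t)

def Drawing.MatchingPlanar (D : Drawing G) (k : ℕ) : Prop :=
  ∀ e ∈ G.edgeSet, ∀ M : Finset (Sym2 V), (∀ f ∈ M, f ∈ G.edgeSet ∧ f ≠ e ∧ D.Crosses e f) →
    (∀ f ∈ M, ∀ g ∈ M, f ≠ g → ∀ v, v ∈ f → v ∉ g) → M.card ≤ k

def Drawing.NoFan (D : Drawing G) (N : ℕ) : Prop :=
  ∀ v, ¬ ∃ M : Finset (Sym2 V), M.card = N ∧ (∀ f ∈ M, f ∈ G.edgeSet ∧ v ∈ f) ∧
    ∀ f ∈ M, ∀ g ∈ M, f ≠ g → D.Crosses f g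

/-- lattice points of a rectangle -/
def rect (lo hi : P2) : Set P2 := {p | lo.1 ≤ p.1 ∧ p.1 ≤ hi.1 ∧ lo.2 ≤ p.2 ∧ p.2 ≤ hi.2}

structure LatDraw (G : SimpleGraph V) where
  lo : V → P2
  hi : V → P2
  le1 : ∀ v, (lo v).1 ≤ (hi v).1
  le2 : ∀ v, (lo v).2 ≤ (hi v).2
  disj : ∀ u v, u ≠ v → ∀ p, p ∈ rect (lo u) (hi u) → p ∉ rect (lo v) (hi v)
  W : V → V → List P2
  W_symm : ∀ a b, G.Adj a b → W b a = (W a b).reverse
  W_chain : ∀ a b, G.Adj a b → List.IsChain LAdj (W a b)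
  W_out : ∀ a b, G.Adj a b → ∀ p ∈ W a b, ∀ c, p ∉ rect (lo c) (hi c)
  W_head : ∀ a b, G.Adj a b → ∃ x y, (W a b).head? = some x ∧ y ∈ rect (lo a) (hi a) ∧ LAdj y x

/-- the rectangle of a vertex -/
def LatDraw.blob (L : LatDraw G) (v : V) : Set P2 := rect (L.lo v) (L.hi v)

/-- the walks of the edges `a b` and `c d` meet -/
def LatDraw.Meet (L : LatDraw G) (a b c d : V) : Prop := ∃ p, p ∈ L.W a b ∧ p ∈ L.W c d

def LatDraw.MP (L : LatDraw G) (k : ℕ) : Prop :=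
  ∀ a b, G.Adj a b → ∀ M : Finset (Sym2 V),
    (∀ f ∈ M, ∃ c d, f = s(c, d) ∧ G.Adj c d ∧ s(c, d) ≠ s(a, b) ∧ L.Meet a b c d) →
    (∀ f ∈ M, ∀ g ∈ M, f ≠ g → ∀ v, v ∈ f → v ∉ g) → M.card ≤ k

/-- `K_5` minor given by branch sets -/
def K5Minor (H : SimpleGraph V) : Prop :=
  ∃ B : Fin 5 → Finset V, (∀ i, (B i).Nonempty) ∧ (∀ i j, i ≠ j → Disjoint (B i) (B j)) ∧
    (∀ i, ∀ x ∈ B i, ∀ y ∈ B i, ∃ w : H.Walk x y, ∀ z ∈ w.support, z ∈ B i) ∧
    ∀ i j, i ≠ j → ∃ x ∈ B i, ∃ y ∈ B j, H.Adj x y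

/-- number of edges of `H` inside `X` -/
def eIn [Fintype V] (H : SimpleGraph V) (X : Finset V) : ℕ :=
  (Finset.univ.filter (fun e : Sym2 V => e ∈ H.edgeSet ∧ ∀ v ∈ e, v ∈ X)).card

end

end Pool.Agent.Helper46.RM
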